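import Pool.Agent.Gen.F5.X123D1Cm5.S000
import Pool.Agent.Gen.F5.X123D1Cm5.S001
import Pool.Agent.Gen.F5.X123D1Cm5.S002
import Pool.Agent.Gen.F5.X123D1Cm5.S003

set_option autoImplicit false
set_option maxRecDepth 100000

namespace Pool.Agent.Gen.F5.X123D1Cm5

open Pool.Agent.Helper72.F5

def n0 : Cl (O (nat_lit 5)) (R (nat_lit 6353))
    (p (nat_lit 0x100014) (nat_lit 0) (p (nat_lit 0x100004) (nat_lit 0) (p (nat_lit 0x41) (nat_lit 1) (p (nat_lit 0x109) (nat_lit 1) (p (nat_lit 0x10d0e0c8c0d9a) (nat_lit 0) (p (nat_lit 0xc8d8c0b8d1a) (nat_lit 0) (p (nat_lit 0x10c0d0b8b0a9a) (nat_lit 0) (p (nat_lit 0xb8c8b0a8a1a) (nat_lit 0) (p (nat_lit 0x2a825800002a8258b0a8a0b8a) (nat_lit 0) (p (nat_lit 0x2a825800002a8258a8a09890a) (nat_lit 0) (p (nat_lit 0xb000c) (nat_lit 1) (p (nat_lit 0x200014) (nat_lit 0) (p (nat_lit 0x200004) (nat_lit 0) (p (nat_lit 0xc9) (nat_lit 1) (p (nat_lit 0x89)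 (nat_lit 1) (p (nat_lit 0xc1) (nat_lit 0) (p (nat_lit 0x101) (nat_lit 1) (p (nat_lit 0x119) (nat_lit 0) (p (nat_lit 0xd1) (nat_lit 0) (p (nat_lit 0x81) (nat_lit 0) (p (nat_lit 0x41) (nat_lit 1) (p (nat_lit 0x10a0b09890a9a) (nat_lit 0) (p (nat_lit 0x98a89088a1a) (nat_lit 0) (p (nat_lit 0x1090a0888079a) (nat_lit 0) (p (nat_lit 0x8898807871a) (nat_lit 0) (p (nat_lit 0x8000000000800080787088a) (nat_lit 0) (p (nat_lit 0x8000000000800078706860a) (nat_lit 0) (p (nat_lit 0x10806860782) (nat_lit 0) (p (nat_lit 0x786058702) (nat_lit 0) (p (nat_lit 0x10705850482) (nat_lit 0) (p (nat_lit 0x685048402) (nat_lit 0) (p (nat_lit 0x16000c) (nat_lit 0) (p (nat_lit 0x60592) (nat_lit 0) (p (nat_lit 0x48512) (nat_lit 0) (p (nat_lit 0x50392) (nat_lit 0) (p (nat_lit 0x38312) (nat_lit 0) (p (nat_lit 0x40212) (nat_lit 0) (p (nat_lit 0x28192) (nat_lit 0) (p (nat_lit 0x30092) (nat_lit 0) (p (nat_lit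 0x18012) (nat_lit 0) pn)))))))))))))))))))))))))))))))))))))))) :=
  Cl.node (nat_lit 0x10800c) (nat_lit 2) (by decide +kernel) (ClAll.succ (ClAll.succ ClAll.zero s115) s116)

def n1 : Cl (O (nat_lit 5)) (R (nat_lit 6353))
    (p (nat_lit 0x100004) (nat_lit 0) (p (nat_lit 0x41) (nat_lit 1) (p (nat_lit 0x109) (nat_lit 1) (p (nat_lit 0x10d0e0c8c0d9a) (nat_lit 0) (p (nat_lit 0xc8d8c0b8d1a) (nat_lit 0) (p (nat_lit 0x10c0d0b8b0a9a) (nat_lit 0) (p (nat_lit 0xb8c8b0a8a1a) (nat_lit 0) (p (nat_lit 0x2a825800002a8258b0a8a0b8a) (nat_lit 0) (p (nat_lit 0x2a825800002a8258a8a09890a) (nat_lit 0) (p (nat_lit 0xb000c) (nat_lit 1) (p (nat_lit 0x200014) (nat_lit 0) (p (nat_lit 0x200004) (nat_lit 0) (p (nat_lit 0xc9) (nat_lit 1) (p (nat_lit 0x89) (nat_lit 1) (p (nat_lit 0xc1) (nat_lit 0) (p (nat_lit 0x101) (nat_lit 1) (p (nat_lit 0x119) (nat_lit 0) (p (nat_lit 0xd1) (nat_lit 0) (p (nat_lit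 0x81) (nat_lit 0) (p (nat_lit 0x41) (nat_lit 1) (p (nat_lit 0x10a0b09890a9a) (nat_lit 0) (p (nat_lit 0x98a89088a1a) (nat_lit 0) (p (nat_lit 0x1090a0888079a) (nat_lit 0) (p (nat_lit 0x8898807871a) (nat_lit 0) (p (nat_lit 0x8000000000800080787088a) (nat_lit 0) (p (nat_lit 0x8000000000800078706860a) (nat_lit 0) (p (nat_lit 0x10806860782) (nat_lit 0) (p (nat_lit 0x786058702) (nat_lit 0) (p (nat_lit 0x10705850482) (nat_lit 0) (p (nat_lit 0x685048402) (nat_lit 0) (p (nat_lit 0x16000c) (nat_lit 0) (p (nat_lit 0x60592) (nat_lit 0) (p (nat_lit 0x48512) (nat_lit 0) (p (nat_lit 0x50392) (nat_lit 0) (p (nat_lit 0x38312) (nat_lit 0) (p (nat_lit 0x40212) (nat_lit 0) (p (nat_lit 0x28192) (nat_lit 0) (p (nat_lit 0x30092) (nat_lit 0) (p (nat_lit 0x18012) (nat_lit 0) pn))))))))))))))))))))))))))))))))))))))) :=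
  Cl.node (nat_lit 0x100014) (nat_lit 2) (by decide +kernel) (ClAll.succ (ClAll.succ ClAll.zero n0) s117)

def n2 : Cl (O (nat_lit 5)) (R (nat_lit 6353))
    (p (nat_lit 0xc1) (nat_lit 0) (p (nat_lit 0xc9) (nat_lit 0) (p (nat_lit 0x41) (nat_lit 0) (p (nat_lit 0x109) (nat_lit 1) (p (nat_lit 0x10d0e0c8c0d9a) (nat_lit 0) (p (nat_lit 0xc8d8c0b8d1a) (nat_lit 0) (p (nat_lit 0x10c0d0b8b0a9a) (nat_lit 0) (p (nat_lit 0xb8c8b0a8a1a) (nat_lit 0) (p (nat_lit 0x2a825800002a8258b0a8a0b8a) (nat_lit 0) (p (nat_lit 0x2a825800002a8258a8a09890a) (nat_lit 0) (p (nat_lit 0xb000c) (nat_lit 1) (p (nat_lit 0x200014) (nat_lit 0) (p (nat_lit 0x200004) (nat_lit 0) (p (nat_lit 0x89) (nat_lit 1) (p (nat_lit 0xc1) (nat_lit 1) (p (nat_lit 0x101) (nat_lit 1) (p (nat_lit 0x119) (nat_lit 0) (p (nat_lit 0xd1) (nat_lit 0) (p (nat_lit 0x81) (nat_lit 0) (p (nat_lit 0x41) (nat_lit 1) (p (nat_lit 0x10a0b09890a9a)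 (nat_lit 0) (p (nat_lit 0x98a89088a1a) (nat_lit 0) (p (nat_lit 0x1090a0888079a) (nat_lit 0) (p (nat_lit 0x8898807871a) (nat_lit 0) (p (nat_lit 0x8000000000800080787088a) (nat_lit 0) (p (nat_lit 0x8000000000800078706860a) (nat_lit 0) (p (nat_lit 0x10806860782) (nat_lit 0) (p (nat_lit 0x786058702) (nat_lit 0) (p (nat_lit 0x10705850482) (nat_lit 0) (p (nat_lit 0x685048402) (nat_lit 0) (p (nat_lit 0x16000c) (nat_lit 0) (p (nat_lit 0x60592) (nat_lit 0) (p (nat_lit 0x48512) (nat_lit 0) (p (nat_lit 0x50392) (nat_lit 0) (p (nat_lit 0x38312) (nat_lit 0) (p (nat_lit 0x40212) (nat_lit 0) (p (nat_lit 0x28192) (nat_lit 0) (p (nat_lit 0x30092) (nat_lit 0) (p (nat_lit 0x18012) (nat_lit 0) pn))))))))))))))))))))))))))))))))))))))) :=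
  Cl.node (nat_lit 0x100004) (nat_lit 2) (by decide +kernel) (ClAll.succ (ClAll.succ ClAll.zero s129) s130)

def n3 : Cl (O (nat_lit 5)) (R (nat_lit 6353))
    (p (nat_lit 0x109) (nat_lit 0) (p (nat_lit 0xc1) (nat_lit 0) (p (nat_lit 0x41) (nat_lit 1) (p (nat_lit 0xc9) (nat_lit 1) (p (nat_lit 0x10d0e0c8c0d9a) (nat_lit 0) (p (nat_lit 0xc8d8c0b8d1a) (nat_lit 0) (p (nat_lit 0x10c0d0b8b0a9a) (nat_lit 0) (p (nat_lit 0xb8c8b0a8a1a) (nat_lit 0) (p (nat_lit 0x2a825800002a8258b0a8a0b8a) (nat_lit 0) (p (nat_lit 0x2a825800002a8258a8a09890a) (nat_lit 0) (p (nat_lit 0xb000c) (nat_lit 1) (p (nat_lit 0x200014) (nat_lit 0) (p (nat_lit 0x200004) (nat_lit 0) (p (nat_lit 0x89) (nat_lit 1) (p (nat_lit 0x101) (nat_lit 1) (p (nat_lit 0xc1) (nat_lit 1) (p (nat_lit 0x119) (nat_lit 1) (p (nat_lit 0xd1) (nat_lit 0) (p (nat_lit 0x81) (nat_lit 0) (p (nat_lit 0x41) (nat_lit 1) (p (nat_lit 0x10a0b09890a9a)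 (nat_lit 0) (p (nat_lit 0x98a89088a1a) (nat_lit 0) (p (nat_lit 0x1090a0888079a) (nat_lit 0) (p (nat_lit 0x8898807871a) (nat_lit 0) (p (nat_lit 0x8000000000800080787088a) (nat_lit 0) (p (nat_lit 0x8000000000800078706860a) (nat_lit 0) (p (nat_lit 0x10806860782) (nat_lit 0) (p (nat_lit 0x786058702) (nat_lit 0) (p (nat_lit 0x10705850482) (nat_lit 0) (p (nat_lit 0x685048402) (nat_lit 0) (p (nat_lit 0x16000c) (nat_lit 0) (p (nat_lit 0x60592) (nat_lit 0) (p (nat_lit 0x48512) (nat_lit 0) (p (nat_lit 0x50392) (nat_lit 0) (p (nat_lit 0x38312) (nat_lit 0) (p (nat_lit 0x40212) (nat_lit 0) (p (nat_lit 0x28192) (nat_lit 0) (p (nat_lit 0x30092) (nat_lit 0) (p (nat_lit 0x18012) (nat_lit 0) pn))))))))))))))))))))))))))))))))))))))) :=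
  Cl.node (nat_lit 0x100004) (nat_lit 2) (by decide +kernel) (ClAll.succ (ClAll.succ ClAll.zero s175) s176)

def n4 : Cl (O (nat_lit 5)) (R (nat_lit 6353))
    (p (nat_lit 0x81) (nat_lit 0) (p (nat_lit 0xd1) (nat_lit 1) (p (nat_lit 0x10d0e0c8c0d9a) (nat_lit 0) (p (nat_lit 0xc8d8c0b8d1a) (nat_lit 0) (p (nat_lit 0x10c0d0b8b0a9a) (nat_lit 0) (p (nat_lit 0xb8c8b0a8a1a) (nat_lit 0) (p (nat_lit 0x2a825800002a8258b0a8a0b8a) (nat_lit 0) (p (nat_lit 0x2a825800002a8258a8a09890a) (nat_lit 0) (p (nat_lit 0xb000c) (nat_lit 1) (p (nat_lit 0x200014) (nat_lit 0) (p (nat_lit 0x200004) (nat_lit 0) (p (nat_lit 0xc9) (nat_lit 0) (p (nat_lit 0x89) (nat_lit 1) (p (nat_lit 0x109) (nat_lit 1) (p (nat_lit 0x101) (nat_lit 0) (p (nat_lit 0x119) (nat_lit 0) (p (nat_lit 0xd1) (nat_lit 0) (p (nat_lit 0x81) (nat_lit 0) (p (nat_lit 0x41) (nat_lit 1) (p (nat_lit 0x10a0b09890a9a) (nat_lit 0) (p (nat_lit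 0x98a89088a1a) (nat_lit 0) (p (nat_lit 0x1090a0888079a) (nat_lit 0) (p (nat_lit 0x8898807871a) (nat_lit 0) (p (nat_lit 0x8000000000800080787088a) (nat_lit 0) (p (nat_lit 0x8000000000800078706860a) (nat_lit 0) (p (nat_lit 0x10806860782) (nat_lit 0) (p (nat_lit 0x786058702) (nat_lit 0) (p (nat_lit 0x10705850482) (nat_lit 0) (p (nat_lit 0x685048402) (nat_lit 0) (p (nat_lit 0x16000c) (nat_lit 0) (p (nat_lit 0x60592) (nat_lit 0) (p (nat_lit 0x48512) (nat_lit 0) (p (nat_lit 0x50392) (nat_lit 0) (p (nat_lit 0x38312) (nat_lit 0) (p (nat_lit 0x40212) (nat_lit 0) (p (nat_lit 0x28192) (nat_lit 0) (p (nat_lit 0x30092) (nat_lit 0) (p (nat_lit 0x18012) (nat_lit 0) pn)))))))))))))))))))))))))))))))))))))) :=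
  Cl.node (nat_lit 0x111) (nat_lit 2) (by decide +kernel) (ClAll.succ (ClAll.succ ClAll.zero s100) s101)

def n5 : Cl (O (nat_lit 5)) (R (nat_lit 6353))
    (p (nat_lit 0x111) (nat_lit 1) (p (nat_lit 0x109) (nat_lit 0) (p (nat_lit 0x10d0e0c8c0d9a) (nat_lit 0) (p (nat_lit 0xc8d8c0b8d1a) (nat_lit 0) (p (nat_lit 0x10c0d0b8b0a9a) (nat_lit 0) (p (nat_lit 0xb8c8b0a8a1a) (nat_lit 0) (p (nat_lit 0x2a825800002a8258b0a8a0b8a) (nat_lit 0) (p (nat_lit 0x2a825800002a8258a8a09890a) (nat_lit 0) (p (nat_lit 0xb000c) (nat_lit 1) (p (nat_lit 0x200014) (nat_lit 0) (p (nat_lit 0x200004) (nat_lit 0) (p (nat_lit 0xc9) (nat_lit 1) (p (nat_lit 0x89) (nat_lit 1) (p (nat_lit 0xc1) (nat_lit 0) (p (nat_lit 0x101) (nat_lit 1) (p (nat_lit 0x119) (nat_lit 0) (p (nat_lit 0xd1) (nat_lit 0) (p (nat_lit 0x81) (nat_lit 0) (p (nat_lit 0x41) (nat_lit 1) (p (nat_lit 0x10a0b09890a9a) (nat_lit 0) (p (nat_lit 0x98a89088a1a)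 (nat_lit 0) (p (nat_lit 0x1090a0888079a) (nat_lit 0) (p (nat_lit 0x8898807871a) (nat_lit 0) (p (nat_lit 0x8000000000800080787088a) (nat_lit 0) (p (nat_lit 0x8000000000800078706860a) (nat_lit 0) (p (nat_lit 0x10806860782) (nat_lit 0) (p (nat_lit 0x786058702) (nat_lit 0) (p (nat_lit 0x10705850482) (nat_lit 0) (p (nat_lit 0x685048402) (nat_lit 0) (p (nat_lit 0x16000c) (nat_lit 0) (p (nat_lit 0x60592) (nat_lit 0) (p (nat_lit 0x48512) (nat_lit 0) (p (nat_lit 0x50392) (nat_lit 0) (p (nat_lit 0x38312) (nat_lit 0) (p (nat_lit 0x40212) (nat_lit 0) (p (nat_lit 0x28192) (nat_lit 0) (p (nat_lit 0x30092) (nat_lit 0) (p (nat_lit 0x18012) (nat_lit 0) pn)))))))))))))))))))))))))))))))))))))) :=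
  Cl.node (nat_lit 0x100004) (nat_lit 2) (by decide +kernel) (ClAll.succ (ClAll.succ ClAll.zero s112) s113)

def n6 : Cl (O (nat_lit 5)) (R (nat_lit 6353))
    (p (nat_lit 0x41) (nat_lit 1) (p (nat_lit 0x109) (nat_lit 1) (p (nat_lit 0x10d0e0c8c0d9a) (nat_lit 0) (p (nat_lit 0xc8d8c0b8d1a) (nat_lit 0) (p (nat_lit 0x10c0d0b8b0a9a) (nat_lit 0) (p (nat_lit 0xb8c8b0a8a1a) (nat_lit 0) (p (nat_lit 0x2a825800002a8258b0a8a0b8a) (nat_lit 0) (p (nat_lit 0x2a825800002a8258a8a09890a) (nat_lit 0) (p (nat_lit 0xb000c) (nat_lit 1) (p (nat_lit 0x200014) (nat_lit 0) (p (nat_lit 0x200004) (nat_lit 0) (p (nat_lit 0xc9) (nat_lit 1) (p (nat_lit 0x89) (nat_lit 1) (p (nat_lit 0xc1) (nat_lit 0) (p (nat_lit 0x101) (nat_lit 1) (p (nat_lit 0x119) (nat_lit 0) (p (nat_lit 0xd1) (nat_lit 0) (p (nat_lit 0x81) (nat_lit 0) (p (nat_lit 0x41) (nat_lit 1) (p (nat_lit 0x10a0b09890a9a) (nat_lit 0) (p (nat_lit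 0x98a89088a1a) (nat_lit 0) (p (nat_lit 0x1090a0888079a) (nat_lit 0) (p (nat_lit 0x8898807871a) (nat_lit 0) (p (nat_lit 0x8000000000800080787088a) (nat_lit 0) (p (nat_lit 0x8000000000800078706860a) (nat_lit 0) (p (nat_lit 0x10806860782) (nat_lit 0) (p (nat_lit 0x786058702) (nat_lit 0) (p (nat_lit 0x10705850482) (nat_lit 0) (p (nat_lit 0x685048402) (nat_lit 0) (p (nat_lit 0x16000c) (nat_lit 0) (p (nat_lit 0x60592) (nat_lit 0) (p (nat_lit 0x48512) (nat_lit 0) (p (nat_lit 0x50392) (nat_lit 0) (p (nat_lit 0x38312) (nat_lit 0) (p (nat_lit 0x40212) (nat_lit 0) (p (nat_lit 0x28192) (nat_lit 0) (p (nat_lit 0x30092) (nat_lit 0) (p (nat_lit 0x18012) (nat_lit 0) pn)))))))))))))))))))))))))))))))))))))) :=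
  Cl.node (nat_lit 0x100004) (nat_lit 2) (by decide +kernel) (ClAll.succ (ClAll.succ ClAll.zero n1) s118)

def n7 : Cl (O (nat_lit 5)) (R (nat_lit 6353))
    (p (nat_lit 0x111) (nat_lit 1) (p (nat_lit 0x101) (nat_lit 0) (p (nat_lit 0x109) (nat_lit 0) (p (nat_lit 0x10d0e0c8c0d9a) (nat_lit 0) (p (nat_lit 0xc8d8c0b8d1a) (nat_lit 0) (p (nat_lit 0x10c0d0b8b0a9a) (nat_lit 0) (p (nat_lit 0xb8c8b0a8a1a) (nat_lit 0) (p (nat_lit 0x2a825800002a8258b0a8a0b8a) (nat_lit 0) (p (nat_lit 0x2a825800002a8258a8a09890a) (nat_lit 0) (p (nat_lit 0xb000c) (nat_lit 1) (p (nat_lit 0x200014) (nat_lit 0) (p (nat_lit 0x200004) (nat_lit 0) (p (nat_lit 0x89) (nat_lit 1) (p (nat_lit 0xc1) (nat_lit 1) (p (nat_lit 0x101) (nat_lit 1) (p (nat_lit 0x119) (nat_lit 0) (p (nat_lit 0xd1) (nat_lit 0) (p (nat_lit 0x81) (nat_lit 0) (p (nat_lit 0x41) (nat_lit 1) (p (nat_lit 0x10a0b09890a9a) (nat_lit 0) (p (nat_lit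 0x98a89088a1a) (nat_lit 0) (p (nat_lit 0x1090a0888079a) (nat_lit 0) (p (nat_lit 0x8898807871a) (nat_lit 0) (p (nat_lit 0x8000000000800080787088a) (nat_lit 0) (p (nat_lit 0x8000000000800078706860a) (nat_lit 0) (p (nat_lit 0x10806860782) (nat_lit 0) (p (nat_lit 0x786058702) (nat_lit 0) (p (nat_lit 0x10705850482) (nat_lit 0) (p (nat_lit 0x685048402) (nat_lit 0) (p (nat_lit 0x16000c) (nat_lit 0) (p (nat_lit 0x60592) (nat_lit 0) (p (nat_lit 0x48512) (nat_lit 0) (p (nat_lit 0x50392) (nat_lit 0) (p (nat_lit 0x38312) (nat_lit 0) (p (nat_lit 0x40212) (nat_lit 0) (p (nat_lit 0x28192) (nat_lit 0) (p (nat_lit 0x30092) (nat_lit 0) (p (nat_lit 0x18012) (nat_lit 0) pn)))))))))))))))))))))))))))))))))))))) :=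
  Cl.node (nat_lit 0x100004) (nat_lit 2) (by decide +kernel) (ClAll.succ (ClAll.succ ClAll.zero s125) s126)

def n8 : Cl (O (nat_lit 5)) (R (nat_lit 6353))
    (p (nat_lit 0xc9) (nat_lit 0) (p (nat_lit 0x41) (nat_lit 0) (p (nat_lit 0x109) (nat_lit 1) (p (nat_lit 0x10d0e0c8c0d9a) (nat_lit 0) (p (nat_lit 0xc8d8c0b8d1a) (nat_lit 0) (p (nat_lit 0x10c0d0b8b0a9a) (nat_lit 0) (p (nat_lit 0xb8c8b0a8a1a) (nat_lit 0) (p (nat_lit 0x2a825800002a8258b0a8a0b8a) (nat_lit 0) (p (nat_lit 0x2a825800002a8258a8a09890a) (nat_lit 0) (p (nat_lit 0xb000c) (nat_lit 1) (p (nat_lit 0x200014) (nat_lit 0) (p (nat_lit 0x200004) (nat_lit 0) (p (nat_lit 0x89) (nat_lit 1) (p (nat_lit 0xc1) (nat_lit 1) (p (nat_lit 0x101) (nat_lit 1) (p (nat_lit 0x119) (nat_lit 0) (p (nat_lit 0xd1) (nat_lit 0) (p (nat_lit 0x81) (nat_lit 0) (p (nat_lit 0x41) (nat_lit 1) (p (nat_lit 0x10a0b09890a9a) (nat_lit 0) (p (nat_lit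 0x98a89088a1a) (nat_lit 0) (p (nat_lit 0x1090a0888079a) (nat_lit 0) (p (nat_lit 0x8898807871a) (nat_lit 0) (p (nat_lit 0x8000000000800080787088a) (nat_lit 0) (p (nat_lit 0x8000000000800078706860a) (nat_lit 0) (p (nat_lit 0x10806860782) (nat_lit 0) (p (nat_lit 0x786058702) (nat_lit 0) (p (nat_lit 0x10705850482) (nat_lit 0) (p (nat_lit 0x685048402) (nat_lit 0) (p (nat_lit 0x16000c) (nat_lit 0) (p (nat_lit 0x60592) (nat_lit 0) (p (nat_lit 0x48512) (nat_lit 0) (p (nat_lit 0x50392) (nat_lit 0) (p (nat_lit 0x38312) (nat_lit 0) (p (nat_lit 0x40212) (nat_lit 0) (p (nat_lit 0x28192) (nat_lit 0) (p (nat_lit 0x30092) (nat_lit 0) (p (nat_lit 0x18012) (nat_lit 0) pn)))))))))))))))))))))))))))))))))))))) :=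
  Cl.node (nat_lit 0xc1) (nat_lit 2) (by decide +kernel) (ClAll.succ (ClAll.succ ClAll.zero n2) s131)

def n9 : Cl (O (nat_lit 5)) (R (nat_lit 6353))
    (p (nat_lit 0x101) (nat_lit 0) (p (nat_lit 0x41) (nat_lit 1) (p (nat_lit 0x109) (nat_lit 1) (p (nat_lit 0x10d0e0c8c0d9a) (nat_lit 0) (p (nat_lit 0xc8d8c0b8d1a) (nat_lit 0) (p (nat_lit 0x10c0d0b8b0a9a) (nat_lit 0) (p (nat_lit 0xb8c8b0a8a1a) (nat_lit 0) (p (nat_lit 0x2a825800002a8258b0a8a0b8a) (nat_lit 0) (p (nat_lit 0x2a825800002a8258a8a09890a) (nat_lit 0) (p (nat_lit 0xb000c) (nat_lit 1) (p (nat_lit 0x200014) (nat_lit 0) (p (nat_lit 0x200004) (nat_lit 0) (p (nat_lit 0x89) (nat_lit 1) (p (nat_lit 0xc1) (nat_lit 1) (p (nat_lit 0x101) (nat_lit 1) (p (nat_lit 0x119) (nat_lit 0) (p (nat_lit 0xd1) (nat_lit 0) (p (nat_lit 0x81) (nat_lit 0) (p (nat_lit 0x41) (nat_lit 1) (p (nat_lit 0x10a0b09890a9a) (nat_lit 0) (p (nat_lit 0x98a89088a1a)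 (nat_lit 0) (p (nat_lit 0x1090a0888079a) (nat_lit 0) (p (nat_lit 0x8898807871a) (nat_lit 0) (p (nat_lit 0x8000000000800080787088a) (nat_lit 0) (p (nat_lit 0x8000000000800078706860a) (nat_lit 0) (p (nat_lit 0x10806860782) (nat_lit 0) (p (nat_lit 0x786058702) (nat_lit 0) (p (nat_lit 0x10705850482) (nat_lit 0) (p (nat_lit 0x685048402) (nat_lit 0) (p (nat_lit 0x16000c) (nat_lit 0) (p (nat_lit 0x60592) (nat_lit 0) (p (nat_lit 0x48512) (nat_lit 0) (p (nat_lit 0x50392) (nat_lit 0) (p (nat_lit 0x38312) (nat_lit 0) (p (nat_lit 0x40212) (nat_lit 0) (p (nat_lit 0x28192) (nat_lit 0) (p (nat_lit 0x30092) (nat_lit 0) (p (nat_lit 0x18012) (nat_lit 0) pn)))))))))))))))))))))))))))))))))))))) :=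
  Cl.node (nat_lit 0xc9) (nat_lit 2) (by decide +kernel) (ClAll.succ (ClAll.succ ClAll.zero s133) s134)

def n10 : Cl (O (nat_lit 5)) (R (nat_lit 6353))
    (p (nat_lit 0x41) (nat_lit 0) (p (nat_lit 0xc1) (nat_lit 1) (p (nat_lit 0xc9) (nat_lit 0) (p (nat_lit 0x10d0e0c8c0d9a) (nat_lit 0) (p (nat_lit 0xc8d8c0b8d1a) (nat_lit 0) (p (nat_lit 0x10c0d0b8b0a9a) (nat_lit 0) (p (nat_lit 0xb8c8b0a8a1a) (nat_lit 0) (p (nat_lit 0x2a825800002a8258b0a8a0b8a) (nat_lit 0) (p (nat_lit 0x2a825800002a8258a8a09890a) (nat_lit 0) (p (nat_lit 0xb000c) (nat_lit 1) (p (nat_lit 0x200014) (nat_lit 0) (p (nat_lit 0x200004) (nat_lit 0) (p (nat_lit 0x89) (nat_lit 1) (p (nat_lit 0x101) (nat_lit 1) (p (nat_lit 0xc1) (nat_lit 1) (p (nat_lit 0x119) (nat_lit 1) (p (nat_lit 0xd1) (nat_lit 0) (p (nat_lit 0x81) (nat_lit 0) (p (nat_lit 0x41) (nat_lit 1) (p (nat_lit 0x10a0b09890a9a) (nat_lit 0) (p (nat_lit 0x98a89088a1a)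 (nat_lit 0) (p (nat_lit 0x1090a0888079a) (nat_lit 0) (p (nat_lit 0x8898807871a) (nat_lit 0) (p (nat_lit 0x8000000000800080787088a) (nat_lit 0) (p (nat_lit 0x8000000000800078706860a) (nat_lit 0) (p (nat_lit 0x10806860782) (nat_lit 0) (p (nat_lit 0x786058702) (nat_lit 0) (p (nat_lit 0x10705850482) (nat_lit 0) (p (nat_lit 0x685048402) (nat_lit 0) (p (nat_lit 0x16000c) (nat_lit 0) (p (nat_lit 0x60592) (nat_lit 0) (p (nat_lit 0x48512) (nat_lit 0) (p (nat_lit 0x50392) (nat_lit 0) (p (nat_lit 0x38312) (nat_lit 0) (p (nat_lit 0x40212) (nat_lit 0) (p (nat_lit 0x28192) (nat_lit 0) (p (nat_lit 0x30092) (nat_lit 0) (p (nat_lit 0x18012) (nat_lit 0) pn)))))))))))))))))))))))))))))))))))))) :=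
  Cl.node (nat_lit 0x100004) (nat_lit 2) (by decide +kernel) (ClAll.succ (ClAll.succ ClAll.zero s169) s170)

def n11 : Cl (O (nat_lit 5)) (R (nat_lit 6353))
    (p (nat_lit 0x109) (nat_lit 0) (p (nat_lit 0x41) (nat_lit 0) (p (nat_lit 0xc9) (nat_lit 1) (p (nat_lit 0x10d0e0c8c0d9a) (nat_lit 0) (p (nat_lit 0xc8d8c0b8d1a) (nat_lit 0) (p (nat_lit 0x10c0d0b8b0a9a) (nat_lit 0) (p (nat_lit 0xb8c8b0a8a1a) (nat_lit 0) (p (nat_lit 0x2a825800002a8258b0a8a0b8a) (nat_lit 0) (p (nat_lit 0x2a825800002a8258a8a09890a) (nat_lit 0) (p (nat_lit 0xb000c) (nat_lit 1) (p (nat_lit 0x200014) (nat_lit 0) (p (nat_lit 0x200004) (nat_lit 0) (p (nat_lit 0x89) (nat_lit 1) (p (nat_lit 0x101) (nat_lit 1) (p (nat_lit 0xc1) (nat_lit 1) (p (nat_lit 0x119) (nat_lit 1) (p (nat_lit 0xd1) (nat_lit 0) (p (nat_lit 0x81) (nat_lit 0) (p (nat_lit 0x41) (nat_lit 1) (p (nat_lit 0x10a0b09890a9a) (nat_lit 0) (p (nat_lit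 0x98a89088a1a) (nat_lit 0) (p (nat_lit 0x1090a0888079a) (nat_lit 0) (p (nat_lit 0x8898807871a) (nat_lit 0) (p (nat_lit 0x8000000000800080787088a) (nat_lit 0) (p (nat_lit 0x8000000000800078706860a) (nat_lit 0) (p (nat_lit 0x10806860782) (nat_lit 0) (p (nat_lit 0x786058702) (nat_lit 0) (p (nat_lit 0x10705850482) (nat_lit 0) (p (nat_lit 0x685048402) (nat_lit 0) (p (nat_lit 0x16000c) (nat_lit 0) (p (nat_lit 0x60592) (nat_lit 0) (p (nat_lit 0x48512) (nat_lit 0) (p (nat_lit 0x50392) (nat_lit 0) (p (nat_lit 0x38312) (nat_lit 0) (p (nat_lit 0x40212) (nat_lit 0) (p (nat_lit 0x28192) (nat_lit 0) (p (nat_lit 0x30092) (nat_lit 0) (p (nat_lit 0x18012) (nat_lit 0) pn)))))))))))))))))))))))))))))))))))))) :=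
  Cl.node (nat_lit 0x101) (nat_lit 2) (by decide +kernel) (ClAll.succ (ClAll.succ ClAll.zero s172) s173)

def n12 : Cl (O (nat_lit 5)) (R (nat_lit 6353))
    (p (nat_lit 0xc1) (nat_lit 0) (p (nat_lit 0x41) (nat_lit 1) (p (nat_lit 0xc9) (nat_lit 1) (p (nat_lit 0x10d0e0c8c0d9a) (nat_lit 0) (p (nat_lit 0xc8d8c0b8d1a) (nat_lit 0) (p (nat_lit 0x10c0d0b8b0a9a) (nat_lit 0) (p (nat_lit 0xb8c8b0a8a1a) (nat_lit 0) (p (nat_lit 0x2a825800002a8258b0a8a0b8a) (nat_lit 0) (p (nat_lit 0x2a825800002a8258a8a09890a) (nat_lit 0) (p (nat_lit 0xb000c) (nat_lit 1) (p (nat_lit 0x200014) (nat_lit 0) (p (nat_lit 0x200004) (nat_lit 0) (p (nat_lit 0x89) (nat_lit 1) (p (nat_lit 0x101) (nat_lit 1) (p (nat_lit 0xc1) (nat_lit 1) (p (nat_lit 0x119) (nat_lit 1) (p (nat_lit 0xd1) (nat_lit 0) (p (nat_lit 0x81) (nat_lit 0) (p (nat_lit 0x41) (nat_lit 1) (p (nat_lit 0x10a0b09890a9a) (nat_lit 0) (p (nat_lit 0x98a89088a1a)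 (nat_lit 0) (p (nat_lit 0x1090a0888079a) (nat_lit 0) (p (nat_lit 0x8898807871a) (nat_lit 0) (p (nat_lit 0x8000000000800080787088a) (nat_lit 0) (p (nat_lit 0x8000000000800078706860a) (nat_lit 0) (p (nat_lit 0x10806860782) (nat_lit 0) (p (nat_lit 0x786058702) (nat_lit 0) (p (nat_lit 0x10705850482) (nat_lit 0) (p (nat_lit 0x685048402) (nat_lit 0) (p (nat_lit 0x16000c) (nat_lit 0) (p (nat_lit 0x60592) (nat_lit 0) (p (nat_lit 0x48512) (nat_lit 0) (p (nat_lit 0x50392) (nat_lit 0) (p (nat_lit 0x38312) (nat_lit 0) (p (nat_lit 0x40212) (nat_lit 0) (p (nat_lit 0x28192) (nat_lit 0) (p (nat_lit 0x30092) (nat_lit 0) (p (nat_lit 0x18012) (nat_lit 0) pn)))))))))))))))))))))))))))))))))))))) :=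
  Cl.node (nat_lit 0x109) (nat_lit 2) (by decide +kernel) (ClAll.succ (ClAll.succ ClAll.zero n3) s177)

def n13 : Cl (O (nat_lit 5)) (R (nat_lit 6353))
    (p (nat_lit 0xd1) (nat_lit 1) (p (nat_lit 0x10d0e0c8c0d9a) (nat_lit 0) (p (nat_lit 0xc8d8c0b8d1a) (nat_lit 0) (p (nat_lit 0x10c0d0b8b0a9a) (nat_lit 0) (p (nat_lit 0xb8c8b0a8a1a) (nat_lit 0) (p (nat_lit 0x2a825800002a8258b0a8a0b8a) (nat_lit 0) (p (nat_lit 0x2a825800002a8258a8a09890a) (nat_lit 0) (p (nat_lit 0xb000c) (nat_lit 1) (p (nat_lit 0x200014) (nat_lit 0) (p (nat_lit 0x200004) (nat_lit 0) (p (nat_lit 0xc9) (nat_lit 0) (p (nat_lit 0xc1) (nat_lit 0) (p (nat_lit 0x81) (nat_lit 1) (p (nat_lit 0x101) (nat_lit 1) (p (nat_lit 0x119) (nat_lit 0) (p (nat_lit 0xd1) (nat_lit 0) (p (nat_lit 0x89) (nat_lit 0) (p (nat_lit 0x41) (nat_lit 0) (p (nat_lit 0x10a0b09890a9a) (nat_lit 0) (p (nat_lit 0x98a89088a1a) (nat_lit 0) (p (nat_lit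 0x1090a0888079a) (nat_lit 0) (p (nat_lit 0x8898807871a) (nat_lit 0) (p (nat_lit 0x8000000000800080787088a) (nat_lit 0) (p (nat_lit 0x8000000000800078706860a) (nat_lit 0) (p (nat_lit 0x10806860782) (nat_lit 0) (p (nat_lit 0x786058702) (nat_lit 0) (p (nat_lit 0x10705850482) (nat_lit 0) (p (nat_lit 0x685048402) (nat_lit 0) (p (nat_lit 0x16000c) (nat_lit 0) (p (nat_lit 0x60592) (nat_lit 0) (p (nat_lit 0x48512) (nat_lit 0) (p (nat_lit 0x50392) (nat_lit 0) (p (nat_lit 0x38312) (nat_lit 0) (p (nat_lit 0x40212) (nat_lit 0) (p (nat_lit 0x28192) (nat_lit 0) (p (nat_lit 0x30092) (nat_lit 0) (p (nat_lit 0x18012) (nat_lit 0) pn))))))))))))))))))))))))))))))))))))) :=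
  Cl.node (nat_lit 0x111) (nat_lit 2) (by decide +kernel) (ClAll.succ (ClAll.succ ClAll.zero s16) s17)

def n14 : Cl (O (nat_lit 5)) (R (nat_lit 6353))
    (p (nat_lit 0xd1) (nat_lit 1) (p (nat_lit 0x10d0e0c8c0d9a) (nat_lit 0) (p (nat_lit 0xc8d8c0b8d1a) (nat_lit 0) (p (nat_lit 0x10c0d0b8b0a9a) (nat_lit 0) (p (nat_lit 0xb8c8b0a8a1a) (nat_lit 0) (p (nat_lit 0x2a825800002a8258b0a8a0b8a) (nat_lit 0) (p (nat_lit 0x2a825800002a8258a8a09890a) (nat_lit 0) (p (nat_lit 0xb000c) (nat_lit 1) (p (nat_lit 0x200014) (nat_lit 0) (p (nat_lit 0x200004) (nat_lit 0) (p (nat_lit 0xc9) (nat_lit 0) (p (nat_lit 0x89) (nat_lit 1) (p (nat_lit 0x109) (nat_lit 1) (p (nat_lit 0x101) (nat_lit 0) (p (nat_lit 0x119) (nat_lit 0) (p (nat_lit 0xd1) (nat_lit 0) (p (nat_lit 0x81) (nat_lit 0) (p (nat_lit 0x41) (nat_lit 1) (p (nat_lit 0x10a0b09890a9a) (nat_lit 0) (p (nat_lit 0x98a89088a1a) (nat_lit 0) (p (nat_lit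 0x1090a0888079a) (nat_lit 0) (p (nat_lit 0x8898807871a) (nat_lit 0) (p (nat_lit 0x8000000000800080787088a) (nat_lit 0) (p (nat_lit 0x8000000000800078706860a) (nat_lit 0) (p (nat_lit 0x10806860782) (nat_lit 0) (p (nat_lit 0x786058702) (nat_lit 0) (p (nat_lit 0x10705850482) (nat_lit 0) (p (nat_lit 0x685048402) (nat_lit 0) (p (nat_lit 0x16000c) (nat_lit 0) (p (nat_lit 0x60592) (nat_lit 0) (p (nat_lit 0x48512) (nat_lit 0) (p (nat_lit 0x50392) (nat_lit 0) (p (nat_lit 0x38312) (nat_lit 0) (p (nat_lit 0x40212) (nat_lit 0) (p (nat_lit 0x28192) (nat_lit 0) (p (nat_lit 0x30092) (nat_lit 0) (p (nat_lit 0x18012) (nat_lit 0) pn))))))))))))))))))))))))))))))))))))) :=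
  Cl.node (nat_lit 0x81) (nat_lit 2) (by decide +kernel) (ClAll.succ (ClAll.succ ClAll.zero n4) s102)

def n15 : Cl (O (nat_lit 5)) (R (nat_lit 6353))
    (p (nat_lit 0x109) (nat_lit 0) (p (nat_lit 0x10d0e0c8c0d9a) (nat_lit 0) (p (nat_lit 0xc8d8c0b8d1a) (nat_lit 0) (p (nat_lit 0x10c0d0b8b0a9a) (nat_lit 0) (p (nat_lit 0xb8c8b0a8a1a) (nat_lit 0) (p (nat_lit 0x2a825800002a8258b0a8a0b8a) (nat_lit 0) (p (nat_lit 0x2a825800002a8258a8a09890a) (nat_lit 0) (p (nat_lit 0xb000c) (nat_lit 1) (p (nat_lit 0x200014) (nat_lit 0) (p (nat_lit 0x200004) (nat_lit 0) (p (nat_lit 0xc9) (nat_lit 1) (p (nat_lit 0x89) (nat_lit 1) (p (nat_lit 0xc1) (nat_lit 0) (p (nat_lit 0x101) (nat_lit 1) (p (nat_lit 0x119) (nat_lit 0) (p (nat_lit 0xd1) (nat_lit 0) (p (nat_lit 0x81) (nat_lit 0) (p (nat_lit 0x41) (nat_lit 1) (p (nat_lit 0x10a0b09890a9a) (nat_lit 0) (p (nat_lit 0x98a89088a1a) (nat_lit 0) (p (nat_lit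 0x1090a0888079a) (nat_lit 0) (p (nat_lit 0x8898807871a) (nat_lit 0) (p (nat_lit 0x8000000000800080787088a) (nat_lit 0) (p (nat_lit 0x8000000000800078706860a) (nat_lit 0) (p (nat_lit 0x10806860782) (nat_lit 0) (p (nat_lit 0x786058702) (nat_lit 0) (p (nat_lit 0x10705850482) (nat_lit 0) (p (nat_lit 0x685048402) (nat_lit 0) (p (nat_lit 0x16000c) (nat_lit 0) (p (nat_lit 0x60592) (nat_lit 0) (p (nat_lit 0x48512) (nat_lit 0) (p (nat_lit 0x50392) (nat_lit 0) (p (nat_lit 0x38312) (nat_lit 0) (p (nat_lit 0x40212) (nat_lit 0) (p (nat_lit 0x28192) (nat_lit 0) (p (nat_lit 0x30092) (nat_lit 0) (p (nat_lit 0x18012) (nat_lit 0) pn))))))))))))))))))))))))))))))))))))) :=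
  Cl.node (nat_lit 0x111) (nat_lit 2) (by decide +kernel) (ClAll.succ (ClAll.succ ClAll.zero s111) n5)

def n16 : Cl (O (nat_lit 5)) (R (nat_lit 6353))
    (p (nat_lit 0x109) (nat_lit 1) (p (nat_lit 0x10d0e0c8c0d9a) (nat_lit 0) (p (nat_lit 0xc8d8c0b8d1a) (nat_lit 0) (p (nat_lit 0x10c0d0b8b0a9a) (nat_lit 0) (p (nat_lit 0xb8c8b0a8a1a) (nat_lit 0) (p (nat_lit 0x2a825800002a8258b0a8a0b8a) (nat_lit 0) (p (nat_lit 0x2a825800002a8258a8a09890a) (nat_lit 0) (p (nat_lit 0xb000c) (nat_lit 1) (p (nat_lit 0x200014) (nat_lit 0) (p (nat_lit 0x200004) (nat_lit 0) (p (nat_lit 0xc9) (nat_lit 1) (p (nat_lit 0x89) (nat_lit 1) (p (nat_lit 0xc1) (nat_lit 0) (p (nat_lit 0x101) (nat_lit 1) (p (nat_lit 0x119) (nat_lit 0) (p (nat_lit 0xd1) (nat_lit 0) (p (nat_lit 0x81) (nat_lit 0) (p (nat_lit 0x41) (nat_lit 1) (p (nat_lit 0x10a0b09890a9a) (nat_lit 0) (p (nat_lit 0x98a89088a1a) (nat_lit 0) (p (nat_lit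 0x1090a0888079a) (nat_lit 0) (p (nat_lit 0x8898807871a) (nat_lit 0) (p (nat_lit 0x8000000000800080787088a) (nat_lit 0) (p (nat_lit 0x8000000000800078706860a) (nat_lit 0) (p (nat_lit 0x10806860782) (nat_lit 0) (p (nat_lit 0x786058702) (nat_lit 0) (p (nat_lit 0x10705850482) (nat_lit 0) (p (nat_lit 0x685048402) (nat_lit 0) (p (nat_lit 0x16000c) (nat_lit 0) (p (nat_lit 0x60592) (nat_lit 0) (p (nat_lit 0x48512) (nat_lit 0) (p (nat_lit 0x50392) (nat_lit 0) (p (nat_lit 0x38312) (nat_lit 0) (p (nat_lit 0x40212) (nat_lit 0) (p (nat_lit 0x28192) (nat_lit 0) (p (nat_lit 0x30092) (nat_lit 0) (p (nat_lit 0x18012) (nat_lit 0) pn))))))))))))))))))))))))))))))))))))) :=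
  Cl.node (nat_lit 0x41) (nat_lit 2) (by decide +kernel) (ClAll.succ (ClAll.succ ClAll.zero s114) n6)

def n17 : Cl (O (nat_lit 5)) (R (nat_lit 6353))
    (p (nat_lit 0x101) (nat_lit 0) (p (nat_lit 0x109) (nat_lit 0) (p (nat_lit 0x10d0e0c8c0d9a) (nat_lit 0) (p (nat_lit 0xc8d8c0b8d1a) (nat_lit 0) (p (nat_lit 0x10c0d0b8b0a9a) (nat_lit 0) (p (nat_lit 0xb8c8b0a8a1a) (nat_lit 0) (p (nat_lit 0x2a825800002a8258b0a8a0b8a) (nat_lit 0) (p (nat_lit 0x2a825800002a8258a8a09890a) (nat_lit 0) (p (nat_lit 0xb000c) (nat_lit 1) (p (nat_lit 0x200014) (nat_lit 0) (p (nat_lit 0x200004) (nat_lit 0) (p (nat_lit 0x89) (nat_lit 1) (p (nat_lit 0xc1) (nat_lit 1) (p (nat_lit 0x101) (nat_lit 1) (p (nat_lit 0x119) (nat_lit 0) (p (nat_lit 0xd1) (nat_lit 0) (p (nat_lit 0x81) (nat_lit 0) (p (nat_lit 0x41) (nat_lit 1) (p (nat_lit 0x10a0b09890a9a) (nat_lit 0) (p (nat_lit 0x98a89088a1a) (nat_lit 0) (p (nat_lit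 0x1090a0888079a) (nat_lit 0) (p (nat_lit 0x8898807871a) (nat_lit 0) (p (nat_lit 0x8000000000800080787088a) (nat_lit 0) (p (nat_lit 0x8000000000800078706860a) (nat_lit 0) (p (nat_lit 0x10806860782) (nat_lit 0) (p (nat_lit 0x786058702) (nat_lit 0) (p (nat_lit 0x10705850482) (nat_lit 0) (p (nat_lit 0x685048402) (nat_lit 0) (p (nat_lit 0x16000c) (nat_lit 0) (p (nat_lit 0x60592) (nat_lit 0) (p (nat_lit 0x48512) (nat_lit 0) (p (nat_lit 0x50392) (nat_lit 0) (p (nat_lit 0x38312) (nat_lit 0) (p (nat_lit 0x40212) (nat_lit 0) (p (nat_lit 0x28192) (nat_lit 0) (p (nat_lit 0x30092) (nat_lit 0) (p (nat_lit 0x18012) (nat_lit 0) pn))))))))))))))))))))))))))))))))))))) :=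
  Cl.node (nat_lit 0x111) (nat_lit 2) (by decide +kernel) (ClAll.succ (ClAll.succ ClAll.zero s124) n7)

def n18 : Cl (O (nat_lit 5)) (R (nat_lit 6353))
    (p (nat_lit 0x101) (nat_lit 1) (p (nat_lit 0x109) (nat_lit 0) (p (nat_lit 0x10d0e0c8c0d9a) (nat_lit 0) (p (nat_lit 0xc8d8c0b8d1a) (nat_lit 0) (p (nat_lit 0x10c0d0b8b0a9a) (nat_lit 0) (p (nat_lit 0xb8c8b0a8a1a) (nat_lit 0) (p (nat_lit 0x2a825800002a8258b0a8a0b8a) (nat_lit 0) (p (nat_lit 0x2a825800002a8258a8a09890a) (nat_lit 0) (p (nat_lit 0xb000c) (nat_lit 1) (p (nat_lit 0x200014) (nat_lit 0) (p (nat_lit 0x200004) (nat_lit 0) (p (nat_lit 0x89) (nat_lit 1) (p (nat_lit 0xc1) (nat_lit 1) (p (nat_lit 0x101) (nat_lit 1) (p (nat_lit 0x119) (nat_lit 0) (p (nat_lit 0xd1) (nat_lit 0) (p (nat_lit 0x81) (nat_lit 0) (p (nat_lit 0x41) (nat_lit 1) (p (nat_lit 0x10a0b09890a9a) (nat_lit 0) (p (nat_lit 0x98a89088a1a) (nat_lit 0) (p (nat_lit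 0x1090a0888079a) (nat_lit 0) (p (nat_lit 0x8898807871a) (nat_lit 0) (p (nat_lit 0x8000000000800080787088a) (nat_lit 0) (p (nat_lit 0x8000000000800078706860a) (nat_lit 0) (p (nat_lit 0x10806860782) (nat_lit 0) (p (nat_lit 0x786058702) (nat_lit 0) (p (nat_lit 0x10705850482) (nat_lit 0) (p (nat_lit 0x685048402) (nat_lit 0) (p (nat_lit 0x16000c) (nat_lit 0) (p (nat_lit 0x60592) (nat_lit 0) (p (nat_lit 0x48512) (nat_lit 0) (p (nat_lit 0x50392) (nat_lit 0) (p (nat_lit 0x38312) (nat_lit 0) (p (nat_lit 0x40212) (nat_lit 0) (p (nat_lit 0x28192) (nat_lit 0) (p (nat_lit 0x30092) (nat_lit 0) (p (nat_lit 0x18012) (nat_lit 0) pn))))))))))))))))))))))))))))))))))))) :=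
  Cl.node (nat_lit 0x41) (nat_lit 2) (by decide +kernel) (ClAll.succ (ClAll.succ ClAll.zero s127) s128)

def n19 : Cl (O (nat_lit 5)) (R (nat_lit 6353))
    (p (nat_lit 0x41) (nat_lit 0) (p (nat_lit 0x109) (nat_lit 1) (p (nat_lit 0x10d0e0c8c0d9a) (nat_lit 0) (p (nat_lit 0xc8d8c0b8d1a) (nat_lit 0) (p (nat_lit 0x10c0d0b8b0a9a) (nat_lit 0) (p (nat_lit 0xb8c8b0a8a1a) (nat_lit 0) (p (nat_lit 0x2a825800002a8258b0a8a0b8a) (nat_lit 0) (p (nat_lit 0x2a825800002a8258a8a09890a) (nat_lit 0) (p (nat_lit 0xb000c) (nat_lit 1) (p (nat_lit 0x200014) (nat_lit 0) (p (nat_lit 0x200004) (nat_lit 0) (p (nat_lit 0x89) (nat_lit 1) (p (nat_lit 0xc1) (nat_lit 1) (p (nat_lit 0x101) (nat_lit 1) (p (nat_lit 0x119) (nat_lit 0) (p (nat_lit 0xd1) (nat_lit 0) (p (nat_lit 0x81) (nat_lit 0) (p (nat_lit 0x41) (nat_lit 1) (p (nat_lit 0x10a0b09890a9a) (nat_lit 0) (p (nat_lit 0x98a89088a1a) (nat_lit 0) (p (nat_lit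 0x1090a0888079a) (nat_lit 0) (p (nat_lit 0x8898807871a) (nat_lit 0) (p (nat_lit 0x8000000000800080787088a) (nat_lit 0) (p (nat_lit 0x8000000000800078706860a) (nat_lit 0) (p (nat_lit 0x10806860782) (nat_lit 0) (p (nat_lit 0x786058702) (nat_lit 0) (p (nat_lit 0x10705850482) (nat_lit 0) (p (nat_lit 0x685048402) (nat_lit 0) (p (nat_lit 0x16000c) (nat_lit 0) (p (nat_lit 0x60592) (nat_lit 0) (p (nat_lit 0x48512) (nat_lit 0) (p (nat_lit 0x50392) (nat_lit 0) (p (nat_lit 0x38312) (nat_lit 0) (p (nat_lit 0x40212) (nat_lit 0) (p (nat_lit 0x28192) (nat_lit 0) (p (nat_lit 0x30092) (nat_lit 0) (p (nat_lit 0x18012) (nat_lit 0) pn))))))))))))))))))))))))))))))))))))) :=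
  Cl.node (nat_lit 0xc9) (nat_lit 2) (by decide +kernel) (ClAll.succ (ClAll.succ ClAll.zero n8) s132)

def n20 : Cl (O (nat_lit 5)) (R (nat_lit 6353))
    (p (nat_lit 0x41) (nat_lit 1) (p (nat_lit 0x109) (nat_lit 1) (p (nat_lit 0x10d0e0c8c0d9a) (nat_lit 0) (p (nat_lit 0xc8d8c0b8d1a) (nat_lit 0) (p (nat_lit 0x10c0d0b8b0a9a) (nat_lit 0) (p (nat_lit 0xb8c8b0a8a1a) (nat_lit 0) (p (nat_lit 0x2a825800002a8258b0a8a0b8a) (nat_lit 0) (p (nat_lit 0x2a825800002a8258a8a09890a) (nat_lit 0) (p (nat_lit 0xb000c) (nat_lit 1) (p (nat_lit 0x200014) (nat_lit 0) (p (nat_lit 0x200004) (nat_lit 0) (p (nat_lit 0x89) (nat_lit 1) (p (nat_lit 0xc1) (nat_lit 1) (p (nat_lit 0x101) (nat_lit 1) (p (nat_lit 0x119) (nat_lit 0) (p (nat_lit 0xd1) (nat_lit 0) (p (nat_lit 0x81) (nat_lit 0) (p (nat_lit 0x41) (nat_lit 1) (p (nat_lit 0x10a0b09890a9a) (nat_lit 0) (p (nat_lit 0x98a89088a1a) (nat_lit 0) (p (nat_lit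 0x1090a0888079a) (nat_lit 0) (p (nat_lit 0x8898807871a) (nat_lit 0) (p (nat_lit 0x8000000000800080787088a) (nat_lit 0) (p (nat_lit 0x8000000000800078706860a) (nat_lit 0) (p (nat_lit 0x10806860782) (nat_lit 0) (p (nat_lit 0x786058702) (nat_lit 0) (p (nat_lit 0x10705850482) (nat_lit 0) (p (nat_lit 0x685048402) (nat_lit 0) (p (nat_lit 0x16000c) (nat_lit 0) (p (nat_lit 0x60592) (nat_lit 0) (p (nat_lit 0x48512) (nat_lit 0) (p (nat_lit 0x50392) (nat_lit 0) (p (nat_lit 0x38312) (nat_lit 0) (p (nat_lit 0x40212) (nat_lit 0) (p (nat_lit 0x28192) (nat_lit 0) (p (nat_lit 0x30092) (nat_lit 0) (p (nat_lit 0x18012) (nat_lit 0) pn))))))))))))))))))))))))))))))))))))) :=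
  Cl.node (nat_lit 0x101) (nat_lit 2) (by decide +kernel) (ClAll.succ (ClAll.succ ClAll.zero n9) s135)

def n21 : Cl (O (nat_lit 5)) (R (nat_lit 6353))
    (p (nat_lit 0xc9) (nat_lit 1) (p (nat_lit 0x10d0e0c8c0d9a) (nat_lit 0) (p (nat_lit 0xc8d8c0b8d1a) (nat_lit 0) (p (nat_lit 0x10c0d0b8b0a9a) (nat_lit 0) (p (nat_lit 0xb8c8b0a8a1a) (nat_lit 0) (p (nat_lit 0x2a825800002a8258b0a8a0b8a) (nat_lit 0) (p (nat_lit 0x2a825800002a8258a8a09890a) (nat_lit 0) (p (nat_lit 0xb000c) (nat_lit 1) (p (nat_lit 0x200014) (nat_lit 0) (p (nat_lit 0x200004) (nat_lit 0) (p (nat_lit 0x109) (nat_lit 1) (p (nat_lit 0x89) (nat_lit 1) (p (nat_lit 0x101) (nat_lit 0) (p (nat_lit 0xc1) (nat_lit 1) (p (nat_lit 0x119) (nat_lit 1) (p (nat_lit 0xd1) (nat_lit 0) (p (nat_lit 0x81) (nat_lit 0) (p (nat_lit 0x41) (nat_lit 1) (p (nat_lit 0x10a0b09890a9a) (nat_lit 0) (p (nat_lit 0x98a89088a1a) (nat_lit 0) (p (nat_lit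 0x1090a0888079a) (nat_lit 0) (p (nat_lit 0x8898807871a) (nat_lit 0) (p (nat_lit 0x8000000000800080787088a) (nat_lit 0) (p (nat_lit 0x8000000000800078706860a) (nat_lit 0) (p (nat_lit 0x10806860782) (nat_lit 0) (p (nat_lit 0x786058702) (nat_lit 0) (p (nat_lit 0x10705850482) (nat_lit 0) (p (nat_lit 0x685048402) (nat_lit 0) (p (nat_lit 0x16000c) (nat_lit 0) (p (nat_lit 0x60592) (nat_lit 0) (p (nat_lit 0x48512) (nat_lit 0) (p (nat_lit 0x50392) (nat_lit 0) (p (nat_lit 0x38312) (nat_lit 0) (p (nat_lit 0x40212) (nat_lit 0) (p (nat_lit 0x28192) (nat_lit 0) (p (nat_lit 0x30092) (nat_lit 0) (p (nat_lit 0x18012) (nat_lit 0) pn))))))))))))))))))))))))))))))))))))) :=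
  Cl.node (nat_lit 0x41) (nat_lit 2) (by decide +kernel) (ClAll.succ (ClAll.succ ClAll.zero s158) s159)

def n22 : Cl (O (nat_lit 5)) (R (nat_lit 6353))
    (p (nat_lit 0xc1) (nat_lit 1) (p (nat_lit 0xc9) (nat_lit 0) (p (nat_lit 0x10d0e0c8c0d9a) (nat_lit 0) (p (nat_lit 0xc8d8c0b8d1a) (nat_lit 0) (p (nat_lit 0x10c0d0b8b0a9a) (nat_lit 0) (p (nat_lit 0xb8c8b0a8a1a) (nat_lit 0) (p (nat_lit 0x2a825800002a8258b0a8a0b8a) (nat_lit 0) (p (nat_lit 0x2a825800002a8258a8a09890a) (nat_lit 0) (p (nat_lit 0xb000c) (nat_lit 1) (p (nat_lit 0x200014) (nat_lit 0) (p (nat_lit 0x200004) (nat_lit 0) (p (nat_lit 0x89) (nat_lit 1) (p (nat_lit 0x101) (nat_lit 1) (p (nat_lit 0xc1) (nat_lit 1) (p (nat_lit 0x119) (nat_lit 1) (p (nat_lit 0xd1) (nat_lit 0) (p (nat_lit 0x81) (nat_lit 0) (p (nat_lit 0x41) (nat_lit 1) (p (nat_lit 0x10a0b09890a9a) (nat_lit 0) (p (nat_lit 0x98a89088a1a) (nat_lit 0) (p (nat_lit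 0x1090a0888079a) (nat_lit 0) (p (nat_lit 0x8898807871a) (nat_lit 0) (p (nat_lit 0x8000000000800080787088a) (nat_lit 0) (p (nat_lit 0x8000000000800078706860a) (nat_lit 0) (p (nat_lit 0x10806860782) (nat_lit 0) (p (nat_lit 0x786058702) (nat_lit 0) (p (nat_lit 0x10705850482) (nat_lit 0) (p (nat_lit 0x685048402) (nat_lit 0) (p (nat_lit 0x16000c) (nat_lit 0) (p (nat_lit 0x60592) (nat_lit 0) (p (nat_lit 0x48512) (nat_lit 0) (p (nat_lit 0x50392) (nat_lit 0) (p (nat_lit 0x38312) (nat_lit 0) (p (nat_lit 0x40212) (nat_lit 0) (p (nat_lit 0x28192) (nat_lit 0) (p (nat_lit 0x30092) (nat_lit 0) (p (nat_lit 0x18012) (nat_lit 0) pn))))))))))))))))))))))))))))))))))))) :=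
  Cl.node (nat_lit 0x41) (nat_lit 2) (by decide +kernel) (ClAll.succ (ClAll.succ ClAll.zero n10) s171)

def n23 : Cl (O (nat_lit 5)) (R (nat_lit 6353))
    (p (nat_lit 0x41) (nat_lit 0) (p (nat_lit 0xc9) (nat_lit 1) (p (nat_lit 0x10d0e0c8c0d9a) (nat_lit 0) (p (nat_lit 0xc8d8c0b8d1a) (nat_lit 0) (p (nat_lit 0x10c0d0b8b0a9a) (nat_lit 0) (p (nat_lit 0xb8c8b0a8a1a) (nat_lit 0) (p (nat_lit 0x2a825800002a8258b0a8a0b8a) (nat_lit 0) (p (nat_lit 0x2a825800002a8258a8a09890a) (nat_lit 0) (p (nat_lit 0xb000c) (nat_lit 1) (p (nat_lit 0x200014) (nat_lit 0) (p (nat_lit 0x200004) (nat_lit 0) (p (nat_lit 0x89) (nat_lit 1) (p (nat_lit 0x101) (nat_lit 1) (p (nat_lit 0xc1) (nat_lit 1) (p (nat_lit 0x119) (nat_lit 1) (p (nat_lit 0xd1) (nat_lit 0) (p (nat_lit 0x81) (nat_lit 0) (p (nat_lit 0x41) (nat_lit 1) (p (nat_lit 0x10a0b09890a9a) (nat_lit 0) (p (nat_lit 0x98a89088a1a) (nat_lit 0) (p (nat_lit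 0x1090a0888079a) (nat_lit 0) (p (nat_lit 0x8898807871a) (nat_lit 0) (p (nat_lit 0x8000000000800080787088a) (nat_lit 0) (p (nat_lit 0x8000000000800078706860a) (nat_lit 0) (p (nat_lit 0x10806860782) (nat_lit 0) (p (nat_lit 0x786058702) (nat_lit 0) (p (nat_lit 0x10705850482) (nat_lit 0) (p (nat_lit 0x685048402) (nat_lit 0) (p (nat_lit 0x16000c) (nat_lit 0) (p (nat_lit 0x60592) (nat_lit 0) (p (nat_lit 0x48512) (nat_lit 0) (p (nat_lit 0x50392) (nat_lit 0) (p (nat_lit 0x38312) (nat_lit 0) (p (nat_lit 0x40212) (nat_lit 0) (p (nat_lit 0x28192) (nat_lit 0) (p (nat_lit 0x30092) (nat_lit 0) (p (nat_lit 0x18012) (nat_lit 0) pn))))))))))))))))))))))))))))))))))))) :=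
  Cl.node (nat_lit 0x109) (nat_lit 2) (by decide +kernel) (ClAll.succ (ClAll.succ ClAll.zero n11) s174)

def n24 : Cl (O (nat_lit 5)) (R (nat_lit 6353))
    (p (nat_lit 0x41) (nat_lit 1) (p (nat_lit 0xc9) (nat_lit 1) (p (nat_lit 0x10d0e0c8c0d9a) (nat_lit 0) (p (nat_lit 0xc8d8c0b8d1a) (nat_lit 0) (p (nat_lit 0x10c0d0b8b0a9a) (nat_lit 0) (p (nat_lit 0xb8c8b0a8a1a) (nat_lit 0) (p (nat_lit 0x2a825800002a8258b0a8a0b8a) (nat_lit 0) (p (nat_lit 0x2a825800002a8258a8a09890a) (nat_lit 0) (p (nat_lit 0xb000c) (nat_lit 1) (p (nat_lit 0x200014) (nat_lit 0) (p (nat_lit 0x200004) (nat_lit 0) (p (nat_lit 0x89) (nat_lit 1) (p (nat_lit 0x101) (nat_lit 1) (p (nat_lit 0xc1) (nat_lit 1) (p (nat_lit 0x119) (nat_lit 1) (p (nat_lit 0xd1) (nat_lit 0) (p (nat_lit 0x81) (nat_lit 0) (p (nat_lit 0x41) (nat_lit 1) (p (nat_lit 0x10a0b09890a9a) (nat_lit 0) (p (nat_lit 0x98a89088a1a) (nat_lit 0) (p (nat_lit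 0x1090a0888079a) (nat_lit 0) (p (nat_lit 0x8898807871a) (nat_lit 0) (p (nat_lit 0x8000000000800080787088a) (nat_lit 0) (p (nat_lit 0x8000000000800078706860a) (nat_lit 0) (p (nat_lit 0x10806860782) (nat_lit 0) (p (nat_lit 0x786058702) (nat_lit 0) (p (nat_lit 0x10705850482) (nat_lit 0) (p (nat_lit 0x685048402) (nat_lit 0) (p (nat_lit 0x16000c) (nat_lit 0) (p (nat_lit 0x60592) (nat_lit 0) (p (nat_lit 0x48512) (nat_lit 0) (p (nat_lit 0x50392) (nat_lit 0) (p (nat_lit 0x38312) (nat_lit 0) (p (nat_lit 0x40212) (nat_lit 0) (p (nat_lit 0x28192) (nat_lit 0) (p (nat_lit 0x30092) (nat_lit 0) (p (nat_lit 0x18012) (nat_lit 0) pn))))))))))))))))))))))))))))))))))))) :=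
  Cl.node (nat_lit 0xc1) (nat_lit 2) (by decide +kernel) (ClAll.succ (ClAll.succ ClAll.zero n12) s178)

def n25 : Cl (O (nat_lit 5)) (R (nat_lit 6353))
    (p (nat_lit 0x10d0e0c8c0d9a) (nat_lit 0) (p (nat_lit 0xc8d8c0b8d1a) (nat_lit 0) (p (nat_lit 0x10c0d0b8b0a9a) (nat_lit 0) (p (nat_lit 0xb8c8b0a8a1a) (nat_lit 0) (p (nat_lit 0x2a825800002a8258b0a8a0b8a) (nat_lit 0) (p (nat_lit 0x2a825800002a8258a8a09890a) (nat_lit 0) (p (nat_lit 0xb000c) (nat_lit 1) (p (nat_lit 0x119) (nat_lit 1) (p (nat_lit 0x200014) (nat_lit 0) (p (nat_lit 0x200004) (nat_lit 0) (p (nat_lit 0xc9) (nat_lit 0) (p (nat_lit 0x89) (nat_lit 1) (p (nat_lit 0x109) (nat_lit 1) (p (nat_lit 0x101) (nat_lit 0) (p (nat_lit 0x111) (nat_lit 0) (p (nat_lit 0xd1) (nat_lit 1) (p (nat_lit 0x81) (nat_lit 0) (p (nat_lit 0x41) (nat_lit 1) (p (nat_lit 0x10a0b09890a9a) (nat_lit 0) (p (nat_lit 0x98a89088a1a) (nat_lit 0) (p (nat_lit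 0x1090a0888079a) (nat_lit 0) (p (nat_lit 0x8898807871a) (nat_lit 0) (p (nat_lit 0x8000000000800080787088a) (nat_lit 0) (p (nat_lit 0x8000000000800078706860a) (nat_lit 0) (p (nat_lit 0x10806860782) (nat_lit 0) (p (nat_lit 0x786058702) (nat_lit 0) (p (nat_lit 0x10705850482) (nat_lit 0) (p (nat_lit 0x685048402) (nat_lit 0) (p (nat_lit 0x16000c) (nat_lit 0) (p (nat_lit 0x60592) (nat_lit 0) (p (nat_lit 0x48512) (nat_lit 0) (p (nat_lit 0x50392) (nat_lit 0) (p (nat_lit 0x38312) (nat_lit 0) (p (nat_lit 0x40212) (nat_lit 0) (p (nat_lit 0x28192) (nat_lit 0) (p (nat_lit 0x30092) (nat_lit 0) (p (nat_lit 0x18012) (nat_lit 0) pn))))))))))))))))))))))))))))))))))))) :=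
  Cl.node (nat_lit 0xc1) (nat_lit 2) (by decide +kernel) (ClAll.succ (ClAll.succ ClAll.zero s186) s187)

def n26 : Cl (O (nat_lit 5)) (R (nat_lit 6353))
    (p (nat_lit 0x10d0e0c8c0d9a) (nat_lit 0) (p (nat_lit 0xc8d8c0b8d1a) (nat_lit 0) (p (nat_lit 0x10c0d0b8b0a9a) (nat_lit 0) (p (nat_lit 0xb8c8b0a8a1a) (nat_lit 0) (p (nat_lit 0x2a825800002a8258b0a8a0b8a) (nat_lit 0) (p (nat_lit 0x2a825800002a8258a8a09890a) (nat_lit 0) (p (nat_lit 0xb000c) (nat_lit 1) (p (nat_lit 0x111) (nat_lit 0) (p (nat_lit 0x200014) (nat_lit 0) (p (nat_lit 0x200004) (nat_lit 0) (p (nat_lit 0xc9) (nat_lit 0) (p (nat_lit 0x81) (nat_lit 0) (p (nat_lit 0x101) (nat_lit 1) (p (nat_lit 0x119) (nat_lit 0) (p (nat_lit 0xd1) (nat_lit 0) (p (nat_lit 0x89) (nat_lit 0) (p (nat_lit 0x41) (nat_lit 0) (p (nat_lit 0x10a0b09890a9a) (nat_lit 0) (p (nat_lit 0x98a89088a1a) (nat_lit 0) (p (nat_lit 0x1090a0888079a) (nat_lit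 0) (p (nat_lit 0x8898807871a) (nat_lit 0) (p (nat_lit 0x8000000000800080787088a) (nat_lit 0) (p (nat_lit 0x8000000000800078706860a) (nat_lit 0) (p (nat_lit 0x10806860782) (nat_lit 0) (p (nat_lit 0x786058702) (nat_lit 0) (p (nat_lit 0x10705850482) (nat_lit 0) (p (nat_lit 0x685048402) (nat_lit 0) (p (nat_lit 0x16000c) (nat_lit 0) (p (nat_lit 0x60592) (nat_lit 0) (p (nat_lit 0x48512) (nat_lit 0) (p (nat_lit 0x50392) (nat_lit 0) (p (nat_lit 0x38312) (nat_lit 0) (p (nat_lit 0x40212) (nat_lit 0) (p (nat_lit 0x28192) (nat_lit 0) (p (nat_lit 0x30092) (nat_lit 0) (p (nat_lit 0x18012) (nat_lit 0) pn)))))))))))))))))))))))))))))))))))) :=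
  Cl.node (nat_lit 0xc1) (nat_lit 2) (by decide +kernel) (ClAll.succ (ClAll.succ ClAll.zero s3) s4)

def n27 : Cl (O (nat_lit 5)) (R (nat_lit 6353))
    (p (nat_lit 0x10d0e0c8c0d9a) (nat_lit 0) (p (nat_lit 0xc8d8c0b8d1a) (nat_lit 0) (p (nat_lit 0x10c0d0b8b0a9a) (nat_lit 0) (p (nat_lit 0xb8c8b0a8a1a) (nat_lit 0) (p (nat_lit 0x2a825800002a8258b0a8a0b8a) (nat_lit 0) (p (nat_lit 0x2a825800002a8258a8a09890a) (nat_lit 0) (p (nat_lit 0xb000c) (nat_lit 1) (p (nat_lit 0x111) (nat_lit 0) (p (nat_lit 0x200014) (nat_lit 0) (p (nat_lit 0x200004) (nat_lit 0) (p (nat_lit 0xc9) (nat_lit 1) (p (nat_lit 0x81) (nat_lit 0) (p (nat_lit 0x101) (nat_lit 1) (p (nat_lit 0x119) (nat_lit 0) (p (nat_lit 0xd1) (nat_lit 0) (p (nat_lit 0x89) (nat_lit 0) (p (nat_lit 0x41) (nat_lit 0) (p (nat_lit 0x10a0b09890a9a) (nat_lit 0) (p (nat_lit 0x98a89088a1a) (nat_lit 0) (p (nat_lit 0x1090a0888079a) (nat_lit 0)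 (p (nat_lit 0x8898807871a) (nat_lit 0) (p (nat_lit 0x8000000000800080787088a) (nat_lit 0) (p (nat_lit 0x8000000000800078706860a) (nat_lit 0) (p (nat_lit 0x10806860782) (nat_lit 0) (p (nat_lit 0x786058702) (nat_lit 0) (p (nat_lit 0x10705850482) (nat_lit 0) (p (nat_lit 0x685048402) (nat_lit 0) (p (nat_lit 0x16000c) (nat_lit 0) (p (nat_lit 0x60592) (nat_lit 0) (p (nat_lit 0x48512) (nat_lit 0) (p (nat_lit 0x50392) (nat_lit 0) (p (nat_lit 0x38312) (nat_lit 0) (p (nat_lit 0x40212) (nat_lit 0) (p (nat_lit 0x28192) (nat_lit 0) (p (nat_lit 0x30092) (nat_lit 0) (p (nat_lit 0x18012) (nat_lit 0) pn)))))))))))))))))))))))))))))))))))) :=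
  Cl.node (nat_lit 0x109) (nat_lit 2) (by decide +kernel) (ClAll.succ (ClAll.succ ClAll.zero s9) s10)

def n28 : Cl (O (nat_lit 5)) (R (nat_lit 6353))
    (p (nat_lit 0x10d0e0c8c0d9a) (nat_lit 0) (p (nat_lit 0xc8d8c0b8d1a) (nat_lit 0) (p (nat_lit 0x10c0d0b8b0a9a) (nat_lit 0) (p (nat_lit 0xb8c8b0a8a1a) (nat_lit 0) (p (nat_lit 0x2a825800002a8258b0a8a0b8a) (nat_lit 0) (p (nat_lit 0x2a825800002a8258a8a09890a) (nat_lit 0) (p (nat_lit 0xb000c) (nat_lit 1) (p (nat_lit 0x200014) (nat_lit 0) (p (nat_lit 0x200004) (nat_lit 0) (p (nat_lit 0xc9) (nat_lit 0) (p (nat_lit 0xc1) (nat_lit 0) (p (nat_lit 0x81) (nat_lit 1) (p (nat_lit 0x101) (nat_lit 1) (p (nat_lit 0x119) (nat_lit 0) (p (nat_lit 0xd1) (nat_lit 0) (p (nat_lit 0x89) (nat_lit 0) (p (nat_lit 0x41) (nat_lit 0) (p (nat_lit 0x10a0b09890a9a) (nat_lit 0) (p (nat_lit 0x98a89088a1a) (nat_lit 0) (p (nat_lit 0x1090a0888079a) (nat_lit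 0) (p (nat_lit 0x8898807871a) (nat_lit 0) (p (nat_lit 0x8000000000800080787088a) (nat_lit 0) (p (nat_lit 0x8000000000800078706860a) (nat_lit 0) (p (nat_lit 0x10806860782) (nat_lit 0) (p (nat_lit 0x786058702) (nat_lit 0) (p (nat_lit 0x10705850482) (nat_lit 0) (p (nat_lit 0x685048402) (nat_lit 0) (p (nat_lit 0x16000c) (nat_lit 0) (p (nat_lit 0x60592) (nat_lit 0) (p (nat_lit 0x48512) (nat_lit 0) (p (nat_lit 0x50392) (nat_lit 0) (p (nat_lit 0x38312) (nat_lit 0) (p (nat_lit 0x40212) (nat_lit 0) (p (nat_lit 0x28192) (nat_lit 0) (p (nat_lit 0x30092) (nat_lit 0) (p (nat_lit 0x18012) (nat_lit 0) pn)))))))))))))))))))))))))))))))))))) :=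
  Cl.node (nat_lit 0xd1) (nat_lit 2) (by decide +kernel) (ClAll.succ (ClAll.succ ClAll.zero s15) n13)

def n29 : Cl (O (nat_lit 5)) (R (nat_lit 6353))
    (p (nat_lit 0x41) (nat_lit 0) (p (nat_lit 0x10d0e0c8c0d9a) (nat_lit 0) (p (nat_lit 0xc8d8c0b8d1a) (nat_lit 0) (p (nat_lit 0x10c0d0b8b0a9a) (nat_lit 0) (p (nat_lit 0xb8c8b0a8a1a) (nat_lit 0) (p (nat_lit 0x2a825800002a8258b0a8a0b8a) (nat_lit 0) (p (nat_lit 0x2a825800002a8258a8a09890a) (nat_lit 0) (p (nat_lit 0xb000c) (nat_lit 1) (p (nat_lit 0x200014) (nat_lit 0) (p (nat_lit 0x200004) (nat_lit 0) (p (nat_lit 0x109) (nat_lit 1) (p (nat_lit 0xc9) (nat_lit 1) (p (nat_lit 0xc1) (nat_lit 0) (p (nat_lit 0x119) (nat_lit 1) (p (nat_lit 0xd1) (nat_lit 0) (p (nat_lit 0x89) (nat_lit 0) (p (nat_lit 0x41) (nat_lit 0) (p (nat_lit 0x10a0b09890a9a) (nat_lit 0) (p (nat_lit 0x98a89088a1a) (nat_lit 0) (p (nat_lit 0x1090a0888079a) (nat_lit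 0) (p (nat_lit 0x8898807871a) (nat_lit 0) (p (nat_lit 0x8000000000800080787088a) (nat_lit 0) (p (nat_lit 0x8000000000800078706860a) (nat_lit 0) (p (nat_lit 0x10806860782) (nat_lit 0) (p (nat_lit 0x786058702) (nat_lit 0) (p (nat_lit 0x10705850482) (nat_lit 0) (p (nat_lit 0x685048402) (nat_lit 0) (p (nat_lit 0x16000c) (nat_lit 0) (p (nat_lit 0x60592) (nat_lit 0) (p (nat_lit 0x48512) (nat_lit 0) (p (nat_lit 0x50392) (nat_lit 0) (p (nat_lit 0x38312) (nat_lit 0) (p (nat_lit 0x40212) (nat_lit 0) (p (nat_lit 0x28192) (nat_lit 0) (p (nat_lit 0x30092) (nat_lit 0) (p (nat_lit 0x18012) (nat_lit 0) pn)))))))))))))))))))))))))))))))))))) :=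
  Cl.node (nat_lit 0x89) (nat_lit 2) (by decide +kernel) (ClAll.succ (ClAll.succ ClAll.zero s29) s30)

def n30 : Cl (O (nat_lit 5)) (R (nat_lit 6353))
    (p (nat_lit 0x10d0e0c8c0d9a) (nat_lit 0) (p (nat_lit 0xc8d8c0b8d1a) (nat_lit 0) (p (nat_lit 0x10c0d0b8b0a9a) (nat_lit 0) (p (nat_lit 0xb8c8b0a8a1a) (nat_lit 0) (p (nat_lit 0x2a825800002a8258b0a8a0b8a) (nat_lit 0) (p (nat_lit 0x2a825800002a8258a8a09890a) (nat_lit 0) (p (nat_lit 0xb000c) (nat_lit 1) (p (nat_lit 0x200014) (nat_lit 0) (p (nat_lit 0x200004) (nat_lit 0) (p (nat_lit 0x109) (nat_lit 1) (p (nat_lit 0x101) (nat_lit 0) (p (nat_lit 0x81) (nat_lit 1) (p (nat_lit 0xc1) (nat_lit 1) (p (nat_lit 0x119) (nat_lit 1) (p (nat_lit 0xd1) (nat_lit 0) (p (nat_lit 0x89) (nat_lit 0) (p (nat_lit 0x41) (nat_lit 0) (p (nat_lit 0x10a0b09890a9a) (nat_lit 0) (p (nat_lit 0x98a89088a1a) (nat_lit 0) (p (nat_lit 0x1090a0888079a) (nat_lit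 0) (p (nat_lit 0x8898807871a) (nat_lit 0) (p (nat_lit 0x8000000000800080787088a) (nat_lit 0) (p (nat_lit 0x8000000000800078706860a) (nat_lit 0) (p (nat_lit 0x10806860782) (nat_lit 0) (p (nat_lit 0x786058702) (nat_lit 0) (p (nat_lit 0x10705850482) (nat_lit 0) (p (nat_lit 0x685048402) (nat_lit 0) (p (nat_lit 0x16000c) (nat_lit 0) (p (nat_lit 0x60592) (nat_lit 0) (p (nat_lit 0x48512) (nat_lit 0) (p (nat_lit 0x50392) (nat_lit 0) (p (nat_lit 0x38312) (nat_lit 0) (p (nat_lit 0x40212) (nat_lit 0) (p (nat_lit 0x28192) (nat_lit 0) (p (nat_lit 0x30092) (nat_lit 0) (p (nat_lit 0x18012) (nat_lit 0) pn)))))))))))))))))))))))))))))))))))) :=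
  Cl.node (nat_lit 0xc9) (nat_lit 2) (by decide +kernel) (ClAll.succ (ClAll.succ ClAll.zero s44) s45)

def n31 : Cl (O (nat_lit 5)) (R (nat_lit 6353))
    (p (nat_lit 0x10d0e0c8c0d9a) (nat_lit 0) (p (nat_lit 0xc8d8c0b8d1a) (nat_lit 0) (p (nat_lit 0x10c0d0b8b0a9a) (nat_lit 0) (p (nat_lit 0xb8c8b0a8a1a) (nat_lit 0) (p (nat_lit 0x2a825800002a8258b0a8a0b8a) (nat_lit 0) (p (nat_lit 0x2a825800002a8258a8a09890a) (nat_lit 0) (p (nat_lit 0xb000c) (nat_lit 1) (p (nat_lit 0x119) (nat_lit 0) (p (nat_lit 0x200014) (nat_lit 0) (p (nat_lit 0x200004) (nat_lit 0) (p (nat_lit 0xc1) (nat_lit 0) (p (nat_lit 0x81) (nat_lit 1) (p (nat_lit 0x101) (nat_lit 1) (p (nat_lit 0x111) (nat_lit 0) (p (nat_lit 0xd1) (nat_lit 1) (p (nat_lit 0x89) (nat_lit 0) (p (nat_lit 0x41) (nat_lit 0) (p (nat_lit 0x10a0b09890a9a) (nat_lit 0) (p (nat_lit 0x98a89088a1a) (nat_lit 0) (p (nat_lit 0x1090a0888079a) (nat_lit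 0) (p (nat_lit 0x8898807871a) (nat_lit 0) (p (nat_lit 0x8000000000800080787088a) (nat_lit 0) (p (nat_lit 0x8000000000800078706860a) (nat_lit 0) (p (nat_lit 0x10806860782) (nat_lit 0) (p (nat_lit 0x786058702) (nat_lit 0) (p (nat_lit 0x10705850482) (nat_lit 0) (p (nat_lit 0x685048402) (nat_lit 0) (p (nat_lit 0x16000c) (nat_lit 0) (p (nat_lit 0x60592) (nat_lit 0) (p (nat_lit 0x48512) (nat_lit 0) (p (nat_lit 0x50392) (nat_lit 0) (p (nat_lit 0x38312) (nat_lit 0) (p (nat_lit 0x40212) (nat_lit 0) (p (nat_lit 0x28192) (nat_lit 0) (p (nat_lit 0x30092) (nat_lit 0) (p (nat_lit 0x18012) (nat_lit 0) pn)))))))))))))))))))))))))))))))))))) :=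
  Cl.node (nat_lit 0x109) (nat_lit 2) (by decide +kernel) (ClAll.succ (ClAll.succ ClAll.zero s56) s57)

def n32 : Cl (O (nat_lit 5)) (R (nat_lit 6353))
    (p (nat_lit 0x81) (nat_lit 0) (p (nat_lit 0x10d0e0c8c0d9a) (nat_lit 0) (p (nat_lit 0xc8d8c0b8d1a) (nat_lit 0) (p (nat_lit 0x10c0d0b8b0a9a) (nat_lit 0) (p (nat_lit 0xb8c8b0a8a1a) (nat_lit 0) (p (nat_lit 0x2a825800002a8258b0a8a0b8a) (nat_lit 0) (p (nat_lit 0x2a825800002a8258a8a09890a) (nat_lit 0) (p (nat_lit 0xb000c) (nat_lit 1) (p (nat_lit 0x200014) (nat_lit 0) (p (nat_lit 0x200004) (nat_lit 0) (p (nat_lit 0x111) (nat_lit 1) (p (nat_lit 0xd1) (nat_lit 1) (p (nat_lit 0xc1) (nat_lit 0) (p (nat_lit 0x119) (nat_lit 1) (p (nat_lit 0xc9) (nat_lit 0) (p (nat_lit 0x89) (nat_lit 1) (p (nat_lit 0x41) (nat_lit 0) (p (nat_lit 0x10a0b09890a9a) (nat_lit 0) (p (nat_lit 0x98a89088a1a) (nat_lit 0) (p (nat_lit 0x1090a0888079a) (nat_lit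 0) (p (nat_lit 0x8898807871a) (nat_lit 0) (p (nat_lit 0x8000000000800080787088a) (nat_lit 0) (p (nat_lit 0x8000000000800078706860a) (nat_lit 0) (p (nat_lit 0x10806860782) (nat_lit 0) (p (nat_lit 0x786058702) (nat_lit 0) (p (nat_lit 0x10705850482) (nat_lit 0) (p (nat_lit 0x685048402) (nat_lit 0) (p (nat_lit 0x16000c) (nat_lit 0) (p (nat_lit 0x60592) (nat_lit 0) (p (nat_lit 0x48512) (nat_lit 0) (p (nat_lit 0x50392) (nat_lit 0) (p (nat_lit 0x38312) (nat_lit 0) (p (nat_lit 0x40212) (nat_lit 0) (p (nat_lit 0x28192) (nat_lit 0) (p (nat_lit 0x30092) (nat_lit 0) (p (nat_lit 0x18012) (nat_lit 0) pn)))))))))))))))))))))))))))))))))))) :=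
  Cl.node (nat_lit 0x89) (nat_lit 2) (by decide +kernel) (ClAll.succ (ClAll.succ ClAll.zero s77) s78)

def n33 : Cl (O (nat_lit 5)) (R (nat_lit 6353))
    (p (nat_lit 0x10d0e0c8c0d9a) (nat_lit 0) (p (nat_lit 0xc8d8c0b8d1a) (nat_lit 0) (p (nat_lit 0x10c0d0b8b0a9a) (nat_lit 0) (p (nat_lit 0xb8c8b0a8a1a) (nat_lit 0) (p (nat_lit 0x2a825800002a8258b0a8a0b8a) (nat_lit 0) (p (nat_lit 0x2a825800002a8258a8a09890a) (nat_lit 0) (p (nat_lit 0xb000c) (nat_lit 1) (p (nat_lit 0x111) (nat_lit 0) (p (nat_lit 0x200014) (nat_lit 0) (p (nat_lit 0x200004) (nat_lit 0) (p (nat_lit 0x89) (nat_lit 0) (p (nat_lit 0x109) (nat_lit 1) (p (nat_lit 0x101) (nat_lit 0) (p (nat_lit 0x119) (nat_lit 0) (p (nat_lit 0xd1) (nat_lit 0) (p (nat_lit 0x81) (nat_lit 0) (p (nat_lit 0x41) (nat_lit 1) (p (nat_lit 0x10a0b09890a9a) (nat_lit 0) (p (nat_lit 0x98a89088a1a) (nat_lit 0) (p (nat_lit 0x1090a0888079a) (nat_lit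 0) (p (nat_lit 0x8898807871a) (nat_lit 0) (p (nat_lit 0x8000000000800080787088a) (nat_lit 0) (p (nat_lit 0x8000000000800078706860a) (nat_lit 0) (p (nat_lit 0x10806860782) (nat_lit 0) (p (nat_lit 0x786058702) (nat_lit 0) (p (nat_lit 0x10705850482) (nat_lit 0) (p (nat_lit 0x685048402) (nat_lit 0) (p (nat_lit 0x16000c) (nat_lit 0) (p (nat_lit 0x60592) (nat_lit 0) (p (nat_lit 0x48512) (nat_lit 0) (p (nat_lit 0x50392) (nat_lit 0) (p (nat_lit 0x38312) (nat_lit 0) (p (nat_lit 0x40212) (nat_lit 0) (p (nat_lit 0x28192) (nat_lit 0) (p (nat_lit 0x30092) (nat_lit 0) (p (nat_lit 0x18012) (nat_lit 0) pn)))))))))))))))))))))))))))))))))))) :=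
  Cl.node (nat_lit 0xc9) (nat_lit 2) (by decide +kernel) (ClAll.succ (ClAll.succ ClAll.zero s93) s94)

def n34 : Cl (O (nat_lit 5)) (R (nat_lit 6353))
    (p (nat_lit 0x10d0e0c8c0d9a) (nat_lit 0) (p (nat_lit 0xc8d8c0b8d1a) (nat_lit 0) (p (nat_lit 0x10c0d0b8b0a9a) (nat_lit 0) (p (nat_lit 0xb8c8b0a8a1a) (nat_lit 0) (p (nat_lit 0x2a825800002a8258b0a8a0b8a) (nat_lit 0) (p (nat_lit 0x2a825800002a8258a8a09890a) (nat_lit 0) (p (nat_lit 0xb000c) (nat_lit 1) (p (nat_lit 0x200014) (nat_lit 0) (p (nat_lit 0x200004) (nat_lit 0) (p (nat_lit 0xc9) (nat_lit 0) (p (nat_lit 0x89) (nat_lit 1) (p (nat_lit 0x109) (nat_lit 1) (p (nat_lit 0x101) (nat_lit 0) (p (nat_lit 0x119) (nat_lit 0) (p (nat_lit 0xd1) (nat_lit 0) (p (nat_lit 0x81) (nat_lit 0) (p (nat_lit 0x41) (nat_lit 1) (p (nat_lit 0x10a0b09890a9a) (nat_lit 0) (p (nat_lit 0x98a89088a1a) (nat_lit 0) (p (nat_lit 0x1090a0888079a) (nat_lit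 0) (p (nat_lit 0x8898807871a) (nat_lit 0) (p (nat_lit 0x8000000000800080787088a) (nat_lit 0) (p (nat_lit 0x8000000000800078706860a) (nat_lit 0) (p (nat_lit 0x10806860782) (nat_lit 0) (p (nat_lit 0x786058702) (nat_lit 0) (p (nat_lit 0x10705850482) (nat_lit 0) (p (nat_lit 0x685048402) (nat_lit 0) (p (nat_lit 0x16000c) (nat_lit 0) (p (nat_lit 0x60592) (nat_lit 0) (p (nat_lit 0x48512) (nat_lit 0) (p (nat_lit 0x50392) (nat_lit 0) (p (nat_lit 0x38312) (nat_lit 0) (p (nat_lit 0x40212) (nat_lit 0) (p (nat_lit 0x28192) (nat_lit 0) (p (nat_lit 0x30092) (nat_lit 0) (p (nat_lit 0x18012) (nat_lit 0) pn)))))))))))))))))))))))))))))))))))) :=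
  Cl.node (nat_lit 0xd1) (nat_lit 2) (by decide +kernel) (ClAll.succ (ClAll.succ ClAll.zero s99) n14)

def n35 : Cl (O (nat_lit 5)) (R (nat_lit 6353))
    (p (nat_lit 0x10d0e0c8c0d9a) (nat_lit 0) (p (nat_lit 0xc8d8c0b8d1a) (nat_lit 0) (p (nat_lit 0x10c0d0b8b0a9a) (nat_lit 0) (p (nat_lit 0xb8c8b0a8a1a) (nat_lit 0) (p (nat_lit 0x2a825800002a8258b0a8a0b8a) (nat_lit 0) (p (nat_lit 0x2a825800002a8258a8a09890a) (nat_lit 0) (p (nat_lit 0xb000c) (nat_lit 1) (p (nat_lit 0x200014) (nat_lit 0) (p (nat_lit 0x200004) (nat_lit 0) (p (nat_lit 0xc9) (nat_lit 1) (p (nat_lit 0x89) (nat_lit 1) (p (nat_lit 0xc1) (nat_lit 0) (p (nat_lit 0x101) (nat_lit 1) (p (nat_lit 0x119) (nat_lit 0) (p (nat_lit 0xd1) (nat_lit 0) (p (nat_lit 0x81) (nat_lit 0) (p (nat_lit 0x41) (nat_lit 1) (p (nat_lit 0x10a0b09890a9a) (nat_lit 0) (p (nat_lit 0x98a89088a1a) (nat_lit 0) (p (nat_lit 0x1090a0888079a) (nat_lit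 0) (p (nat_lit 0x8898807871a) (nat_lit 0) (p (nat_lit 0x8000000000800080787088a) (nat_lit 0) (p (nat_lit 0x8000000000800078706860a) (nat_lit 0) (p (nat_lit 0x10806860782) (nat_lit 0) (p (nat_lit 0x786058702) (nat_lit 0) (p (nat_lit 0x10705850482) (nat_lit 0) (p (nat_lit 0x685048402) (nat_lit 0) (p (nat_lit 0x16000c) (nat_lit 0) (p (nat_lit 0x60592) (nat_lit 0) (p (nat_lit 0x48512) (nat_lit 0) (p (nat_lit 0x50392) (nat_lit 0) (p (nat_lit 0x38312) (nat_lit 0) (p (nat_lit 0x40212) (nat_lit 0) (p (nat_lit 0x28192) (nat_lit 0) (p (nat_lit 0x30092) (nat_lit 0) (p (nat_lit 0x18012) (nat_lit 0) pn)))))))))))))))))))))))))))))))))))) :=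
  Cl.node (nat_lit 0x109) (nat_lit 2) (by decide +kernel) (ClAll.succ (ClAll.succ ClAll.zero n15) n16)

def n36 : Cl (O (nat_lit 5)) (R (nat_lit 6353))
    (p (nat_lit 0x109) (nat_lit 0) (p (nat_lit 0x10d0e0c8c0d9a) (nat_lit 0) (p (nat_lit 0xc8d8c0b8d1a) (nat_lit 0) (p (nat_lit 0x10c0d0b8b0a9a) (nat_lit 0) (p (nat_lit 0xb8c8b0a8a1a) (nat_lit 0) (p (nat_lit 0x2a825800002a8258b0a8a0b8a) (nat_lit 0) (p (nat_lit 0x2a825800002a8258a8a09890a) (nat_lit 0) (p (nat_lit 0xb000c) (nat_lit 1) (p (nat_lit 0x200014) (nat_lit 0) (p (nat_lit 0x200004) (nat_lit 0) (p (nat_lit 0x89) (nat_lit 1) (p (nat_lit 0xc1) (nat_lit 1) (p (nat_lit 0x101) (nat_lit 1) (p (nat_lit 0x119) (nat_lit 0) (p (nat_lit 0xd1) (nat_lit 0) (p (nat_lit 0x81) (nat_lit 0) (p (nat_lit 0x41) (nat_lit 1) (p (nat_lit 0x10a0b09890a9a) (nat_lit 0) (p (nat_lit 0x98a89088a1a) (nat_lit 0) (p (nat_lit 0x1090a0888079a) (nat_lit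 0) (p (nat_lit 0x8898807871a) (nat_lit 0) (p (nat_lit 0x8000000000800080787088a) (nat_lit 0) (p (nat_lit 0x8000000000800078706860a) (nat_lit 0) (p (nat_lit 0x10806860782) (nat_lit 0) (p (nat_lit 0x786058702) (nat_lit 0) (p (nat_lit 0x10705850482) (nat_lit 0) (p (nat_lit 0x685048402) (nat_lit 0) (p (nat_lit 0x16000c) (nat_lit 0) (p (nat_lit 0x60592) (nat_lit 0) (p (nat_lit 0x48512) (nat_lit 0) (p (nat_lit 0x50392) (nat_lit 0) (p (nat_lit 0x38312) (nat_lit 0) (p (nat_lit 0x40212) (nat_lit 0) (p (nat_lit 0x28192) (nat_lit 0) (p (nat_lit 0x30092) (nat_lit 0) (p (nat_lit 0x18012) (nat_lit 0) pn)))))))))))))))))))))))))))))))))))) :=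
  Cl.node (nat_lit 0x101) (nat_lit 2) (by decide +kernel) (ClAll.succ (ClAll.succ ClAll.zero n17) n18)

def n37 : Cl (O (nat_lit 5)) (R (nat_lit 6353))
    (p (nat_lit 0x109) (nat_lit 1) (p (nat_lit 0x10d0e0c8c0d9a) (nat_lit 0) (p (nat_lit 0xc8d8c0b8d1a) (nat_lit 0) (p (nat_lit 0x10c0d0b8b0a9a) (nat_lit 0) (p (nat_lit 0xb8c8b0a8a1a) (nat_lit 0) (p (nat_lit 0x2a825800002a8258b0a8a0b8a) (nat_lit 0) (p (nat_lit 0x2a825800002a8258a8a09890a) (nat_lit 0) (p (nat_lit 0xb000c) (nat_lit 1) (p (nat_lit 0x200014) (nat_lit 0) (p (nat_lit 0x200004) (nat_lit 0) (p (nat_lit 0x89) (nat_lit 1) (p (nat_lit 0xc1) (nat_lit 1) (p (nat_lit 0x101) (nat_lit 1) (p (nat_lit 0x119) (nat_lit 0) (p (nat_lit 0xd1) (nat_lit 0) (p (nat_lit 0x81) (nat_lit 0) (p (nat_lit 0x41) (nat_lit 1) (p (nat_lit 0x10a0b09890a9a) (nat_lit 0) (p (nat_lit 0x98a89088a1a) (nat_lit 0) (p (nat_lit 0x1090a0888079a) (nat_lit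 0) (p (nat_lit 0x8898807871a) (nat_lit 0) (p (nat_lit 0x8000000000800080787088a) (nat_lit 0) (p (nat_lit 0x8000000000800078706860a) (nat_lit 0) (p (nat_lit 0x10806860782) (nat_lit 0) (p (nat_lit 0x786058702) (nat_lit 0) (p (nat_lit 0x10705850482) (nat_lit 0) (p (nat_lit 0x685048402) (nat_lit 0) (p (nat_lit 0x16000c) (nat_lit 0) (p (nat_lit 0x60592) (nat_lit 0) (p (nat_lit 0x48512) (nat_lit 0) (p (nat_lit 0x50392) (nat_lit 0) (p (nat_lit 0x38312) (nat_lit 0) (p (nat_lit 0x40212) (nat_lit 0) (p (nat_lit 0x28192) (nat_lit 0) (p (nat_lit 0x30092) (nat_lit 0) (p (nat_lit 0x18012) (nat_lit 0) pn)))))))))))))))))))))))))))))))))))) :=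
  Cl.node (nat_lit 0x41) (nat_lit 2) (by decide +kernel) (ClAll.succ (ClAll.succ ClAll.zero n19) n20)

def n38 : Cl (O (nat_lit 5)) (R (nat_lit 6353))
    (p (nat_lit 0x10d0e0c8c0d9a) (nat_lit 0) (p (nat_lit 0xc8d8c0b8d1a) (nat_lit 0) (p (nat_lit 0x10c0d0b8b0a9a) (nat_lit 0) (p (nat_lit 0xb8c8b0a8a1a) (nat_lit 0) (p (nat_lit 0x2a825800002a8258b0a8a0b8a) (nat_lit 0) (p (nat_lit 0x2a825800002a8258a8a09890a) (nat_lit 0) (p (nat_lit 0xb000c) (nat_lit 1) (p (nat_lit 0x200014) (nat_lit 0) (p (nat_lit 0x200004) (nat_lit 0) (p (nat_lit 0x109) (nat_lit 0) (p (nat_lit 0x89) (nat_lit 1) (p (nat_lit 0xc9) (nat_lit 1) (p (nat_lit 0xc1) (nat_lit 0) (p (nat_lit 0x119) (nat_lit 1) (p (nat_lit 0xd1) (nat_lit 0) (p (nat_lit 0x81) (nat_lit 0) (p (nat_lit 0x41) (nat_lit 1) (p (nat_lit 0x10a0b09890a9a) (nat_lit 0) (p (nat_lit 0x98a89088a1a) (nat_lit 0) (p (nat_lit 0x1090a0888079a) (nat_lit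 0) (p (nat_lit 0x8898807871a) (nat_lit 0) (p (nat_lit 0x8000000000800080787088a) (nat_lit 0) (p (nat_lit 0x8000000000800078706860a) (nat_lit 0) (p (nat_lit 0x10806860782) (nat_lit 0) (p (nat_lit 0x786058702) (nat_lit 0) (p (nat_lit 0x10705850482) (nat_lit 0) (p (nat_lit 0x685048402) (nat_lit 0) (p (nat_lit 0x16000c) (nat_lit 0) (p (nat_lit 0x60592) (nat_lit 0) (p (nat_lit 0x48512) (nat_lit 0) (p (nat_lit 0x50392) (nat_lit 0) (p (nat_lit 0x38312) (nat_lit 0) (p (nat_lit 0x40212) (nat_lit 0) (p (nat_lit 0x28192) (nat_lit 0) (p (nat_lit 0x30092) (nat_lit 0) (p (nat_lit 0x18012) (nat_lit 0) pn)))))))))))))))))))))))))))))))))))) :=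
  Cl.node (nat_lit 0x111) (nat_lit 2) (by decide +kernel) (ClAll.succ (ClAll.succ ClAll.zero s141) s142)

def n39 : Cl (O (nat_lit 5)) (R (nat_lit 6353))
    (p (nat_lit 0x10d0e0c8c0d9a) (nat_lit 0) (p (nat_lit 0xc8d8c0b8d1a) (nat_lit 0) (p (nat_lit 0x10c0d0b8b0a9a) (nat_lit 0) (p (nat_lit 0xb8c8b0a8a1a) (nat_lit 0) (p (nat_lit 0x2a825800002a8258b0a8a0b8a) (nat_lit 0) (p (nat_lit 0x2a825800002a8258a8a09890a) (nat_lit 0) (p (nat_lit 0xb000c) (nat_lit 1) (p (nat_lit 0x200014) (nat_lit 0) (p (nat_lit 0x200004) (nat_lit 0) (p (nat_lit 0x109) (nat_lit 1) (p (nat_lit 0x89) (nat_lit 1) (p (nat_lit 0xc9) (nat_lit 1) (p (nat_lit 0xc1) (nat_lit 0) (p (nat_lit 0x119) (nat_lit 1) (p (nat_lit 0xd1) (nat_lit 0) (p (nat_lit 0x81) (nat_lit 0) (p (nat_lit 0x41) (nat_lit 1) (p (nat_lit 0x10a0b09890a9a) (nat_lit 0) (p (nat_lit 0x98a89088a1a) (nat_lit 0) (p (nat_lit 0x1090a0888079a) (nat_lit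 0) (p (nat_lit 0x8898807871a) (nat_lit 0) (p (nat_lit 0x8000000000800080787088a) (nat_lit 0) (p (nat_lit 0x8000000000800078706860a) (nat_lit 0) (p (nat_lit 0x10806860782) (nat_lit 0) (p (nat_lit 0x786058702) (nat_lit 0) (p (nat_lit 0x10705850482) (nat_lit 0) (p (nat_lit 0x685048402) (nat_lit 0) (p (nat_lit 0x16000c) (nat_lit 0) (p (nat_lit 0x60592) (nat_lit 0) (p (nat_lit 0x48512) (nat_lit 0) (p (nat_lit 0x50392) (nat_lit 0) (p (nat_lit 0x38312) (nat_lit 0) (p (nat_lit 0x40212) (nat_lit 0) (p (nat_lit 0x28192) (nat_lit 0) (p (nat_lit 0x30092) (nat_lit 0) (p (nat_lit 0x18012) (nat_lit 0) pn)))))))))))))))))))))))))))))))))))) :=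
  Cl.node (nat_lit 0x41) (nat_lit 2) (by decide +kernel) (ClAll.succ (ClAll.succ ClAll.zero s146) s147)

def n40 : Cl (O (nat_lit 5)) (R (nat_lit 6353))
    (p (nat_lit 0x10d0e0c8c0d9a) (nat_lit 0) (p (nat_lit 0xc8d8c0b8d1a) (nat_lit 0) (p (nat_lit 0x10c0d0b8b0a9a) (nat_lit 0) (p (nat_lit 0xb8c8b0a8a1a) (nat_lit 0) (p (nat_lit 0x2a825800002a8258b0a8a0b8a) (nat_lit 0) (p (nat_lit 0x2a825800002a8258a8a09890a) (nat_lit 0) (p (nat_lit 0xb000c) (nat_lit 1) (p (nat_lit 0x200014) (nat_lit 0) (p (nat_lit 0x200004) (nat_lit 0) (p (nat_lit 0x109) (nat_lit 0) (p (nat_lit 0x89) (nat_lit 1) (p (nat_lit 0x101) (nat_lit 0) (p (nat_lit 0xc1) (nat_lit 1) (p (nat_lit 0x119) (nat_lit 1) (p (nat_lit 0xd1) (nat_lit 0) (p (nat_lit 0x81) (nat_lit 0) (p (nat_lit 0x41) (nat_lit 1) (p (nat_lit 0x10a0b09890a9a) (nat_lit 0) (p (nat_lit 0x98a89088a1a) (nat_lit 0) (p (nat_lit 0x1090a0888079a) (nat_lit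 0) (p (nat_lit 0x8898807871a) (nat_lit 0) (p (nat_lit 0x8000000000800080787088a) (nat_lit 0) (p (nat_lit 0x8000000000800078706860a) (nat_lit 0) (p (nat_lit 0x10806860782) (nat_lit 0) (p (nat_lit 0x786058702) (nat_lit 0) (p (nat_lit 0x10705850482) (nat_lit 0) (p (nat_lit 0x685048402) (nat_lit 0) (p (nat_lit 0x16000c) (nat_lit 0) (p (nat_lit 0x60592) (nat_lit 0) (p (nat_lit 0x48512) (nat_lit 0) (p (nat_lit 0x50392) (nat_lit 0) (p (nat_lit 0x38312) (nat_lit 0) (p (nat_lit 0x40212) (nat_lit 0) (p (nat_lit 0x28192) (nat_lit 0) (p (nat_lit 0x30092) (nat_lit 0) (p (nat_lit 0x18012) (nat_lit 0) pn)))))))))))))))))))))))))))))))))))) :=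
  Cl.node (nat_lit 0x111) (nat_lit 2) (by decide +kernel) (ClAll.succ (ClAll.succ ClAll.zero s152) s153)

def n41 : Cl (O (nat_lit 5)) (R (nat_lit 6353))
    (p (nat_lit 0x10d0e0c8c0d9a) (nat_lit 0) (p (nat_lit 0xc8d8c0b8d1a) (nat_lit 0) (p (nat_lit 0x10c0d0b8b0a9a) (nat_lit 0) (p (nat_lit 0xb8c8b0a8a1a) (nat_lit 0) (p (nat_lit 0x2a825800002a8258b0a8a0b8a) (nat_lit 0) (p (nat_lit 0x2a825800002a8258a8a09890a) (nat_lit 0) (p (nat_lit 0xb000c) (nat_lit 1) (p (nat_lit 0x200014) (nat_lit 0) (p (nat_lit 0x200004) (nat_lit 0) (p (nat_lit 0x109) (nat_lit 1) (p (nat_lit 0x89) (nat_lit 1) (p (nat_lit 0x101) (nat_lit 0) (p (nat_lit 0xc1) (nat_lit 1) (p (nat_lit 0x119) (nat_lit 1) (p (nat_lit 0xd1) (nat_lit 0) (p (nat_lit 0x81) (nat_lit 0) (p (nat_lit 0x41) (nat_lit 1) (p (nat_lit 0x10a0b09890a9a) (nat_lit 0) (p (nat_lit 0x98a89088a1a) (nat_lit 0) (p (nat_lit 0x1090a0888079a) (nat_lit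 0) (p (nat_lit 0x8898807871a) (nat_lit 0) (p (nat_lit 0x8000000000800080787088a) (nat_lit 0) (p (nat_lit 0x8000000000800078706860a) (nat_lit 0) (p (nat_lit 0x10806860782) (nat_lit 0) (p (nat_lit 0x786058702) (nat_lit 0) (p (nat_lit 0x10705850482) (nat_lit 0) (p (nat_lit 0x685048402) (nat_lit 0) (p (nat_lit 0x16000c) (nat_lit 0) (p (nat_lit 0x60592) (nat_lit 0) (p (nat_lit 0x48512) (nat_lit 0) (p (nat_lit 0x50392) (nat_lit 0) (p (nat_lit 0x38312) (nat_lit 0) (p (nat_lit 0x40212) (nat_lit 0) (p (nat_lit 0x28192) (nat_lit 0) (p (nat_lit 0x30092) (nat_lit 0) (p (nat_lit 0x18012) (nat_lit 0) pn)))))))))))))))))))))))))))))))))))) :=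
  Cl.node (nat_lit 0xc9) (nat_lit 2) (by decide +kernel) (ClAll.succ (ClAll.succ ClAll.zero s157) n21)

def n42 : Cl (O (nat_lit 5)) (R (nat_lit 6353))
    (p (nat_lit 0xc9) (nat_lit 0) (p (nat_lit 0x10d0e0c8c0d9a) (nat_lit 0) (p (nat_lit 0xc8d8c0b8d1a) (nat_lit 0) (p (nat_lit 0x10c0d0b8b0a9a) (nat_lit 0) (p (nat_lit 0xb8c8b0a8a1a) (nat_lit 0) (p (nat_lit 0x2a825800002a8258b0a8a0b8a) (nat_lit 0) (p (nat_lit 0x2a825800002a8258a8a09890a) (nat_lit 0) (p (nat_lit 0xb000c) (nat_lit 1) (p (nat_lit 0x200014) (nat_lit 0) (p (nat_lit 0x200004) (nat_lit 0) (p (nat_lit 0x89) (nat_lit 1) (p (nat_lit 0x101) (nat_lit 1) (p (nat_lit 0xc1) (nat_lit 1) (p (nat_lit 0x119) (nat_lit 1) (p (nat_lit 0xd1) (nat_lit 0) (p (nat_lit 0x81) (nat_lit 0) (p (nat_lit 0x41) (nat_lit 1) (p (nat_lit 0x10a0b09890a9a) (nat_lit 0) (p (nat_lit 0x98a89088a1a) (nat_lit 0) (p (nat_lit 0x1090a0888079a) (nat_lit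 0) (p (nat_lit 0x8898807871a) (nat_lit 0) (p (nat_lit 0x8000000000800080787088a) (nat_lit 0) (p (nat_lit 0x8000000000800078706860a) (nat_lit 0) (p (nat_lit 0x10806860782) (nat_lit 0) (p (nat_lit 0x786058702) (nat_lit 0) (p (nat_lit 0x10705850482) (nat_lit 0) (p (nat_lit 0x685048402) (nat_lit 0) (p (nat_lit 0x16000c) (nat_lit 0) (p (nat_lit 0x60592) (nat_lit 0) (p (nat_lit 0x48512) (nat_lit 0) (p (nat_lit 0x50392) (nat_lit 0) (p (nat_lit 0x38312) (nat_lit 0) (p (nat_lit 0x40212) (nat_lit 0) (p (nat_lit 0x28192) (nat_lit 0) (p (nat_lit 0x30092) (nat_lit 0) (p (nat_lit 0x18012) (nat_lit 0) pn)))))))))))))))))))))))))))))))))))) :=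
  Cl.node (nat_lit 0xc1) (nat_lit 2) (by decide +kernel) (ClAll.succ (ClAll.succ ClAll.zero s168) n22)

def n43 : Cl (O (nat_lit 5)) (R (nat_lit 6353))
    (p (nat_lit 0xc9) (nat_lit 1) (p (nat_lit 0x10d0e0c8c0d9a) (nat_lit 0) (p (nat_lit 0xc8d8c0b8d1a) (nat_lit 0) (p (nat_lit 0x10c0d0b8b0a9a) (nat_lit 0) (p (nat_lit 0xb8c8b0a8a1a) (nat_lit 0) (p (nat_lit 0x2a825800002a8258b0a8a0b8a) (nat_lit 0) (p (nat_lit 0x2a825800002a8258a8a09890a) (nat_lit 0) (p (nat_lit 0xb000c) (nat_lit 1) (p (nat_lit 0x200014) (nat_lit 0) (p (nat_lit 0x200004) (nat_lit 0) (p (nat_lit 0x89) (nat_lit 1) (p (nat_lit 0x101) (nat_lit 1) (p (nat_lit 0xc1) (nat_lit 1) (p (nat_lit 0x119) (nat_lit 1) (p (nat_lit 0xd1) (nat_lit 0) (p (nat_lit 0x81) (nat_lit 0) (p (nat_lit 0x41) (nat_lit 1) (p (nat_lit 0x10a0b09890a9a) (nat_lit 0) (p (nat_lit 0x98a89088a1a) (nat_lit 0) (p (nat_lit 0x1090a0888079a) (nat_lit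 0) (p (nat_lit 0x8898807871a) (nat_lit 0) (p (nat_lit 0x8000000000800080787088a) (nat_lit 0) (p (nat_lit 0x8000000000800078706860a) (nat_lit 0) (p (nat_lit 0x10806860782) (nat_lit 0) (p (nat_lit 0x786058702) (nat_lit 0) (p (nat_lit 0x10705850482) (nat_lit 0) (p (nat_lit 0x685048402) (nat_lit 0) (p (nat_lit 0x16000c) (nat_lit 0) (p (nat_lit 0x60592) (nat_lit 0) (p (nat_lit 0x48512) (nat_lit 0) (p (nat_lit 0x50392) (nat_lit 0) (p (nat_lit 0x38312) (nat_lit 0) (p (nat_lit 0x40212) (nat_lit 0) (p (nat_lit 0x28192) (nat_lit 0) (p (nat_lit 0x30092) (nat_lit 0) (p (nat_lit 0x18012) (nat_lit 0) pn)))))))))))))))))))))))))))))))))))) :=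
  Cl.node (nat_lit 0x41) (nat_lit 2) (by decide +kernel) (ClAll.succ (ClAll.succ ClAll.zero n23) n24)

def n44 : Cl (O (nat_lit 5)) (R (nat_lit 6353))
    (p (nat_lit 0xc8d8c0b8d1a) (nat_lit 0) (p (nat_lit 0x10c0d0b8b0a9a) (nat_lit 0) (p (nat_lit 0xb8c8b0a8a1a) (nat_lit 0) (p (nat_lit 0x2a825800002a8258b0a8a0b8a) (nat_lit 0) (p (nat_lit 0x2a825800002a8258a8a09890a) (nat_lit 0) (p (nat_lit 0xb000c) (nat_lit 1) (p (nat_lit 0x119) (nat_lit 1) (p (nat_lit 0x200014) (nat_lit 0) (p (nat_lit 0x200004) (nat_lit 0) (p (nat_lit 0xc9) (nat_lit 0) (p (nat_lit 0x89) (nat_lit 1) (p (nat_lit 0x109) (nat_lit 1) (p (nat_lit 0x101) (nat_lit 0) (p (nat_lit 0x111) (nat_lit 0) (p (nat_lit 0xd1) (nat_lit 1) (p (nat_lit 0x81) (nat_lit 0) (p (nat_lit 0x41) (nat_lit 1) (p (nat_lit 0x10a0b09890a9a) (nat_lit 0) (p (nat_lit 0x98a89088a1a) (nat_lit 0) (p (nat_lit 0x1090a0888079a) (nat_lit 0) (p (nat_lit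 0x8898807871a) (nat_lit 0) (p (nat_lit 0x8000000000800080787088a) (nat_lit 0) (p (nat_lit 0x8000000000800078706860a) (nat_lit 0) (p (nat_lit 0x10806860782) (nat_lit 0) (p (nat_lit 0x786058702) (nat_lit 0) (p (nat_lit 0x10705850482) (nat_lit 0) (p (nat_lit 0x685048402) (nat_lit 0) (p (nat_lit 0x16000c) (nat_lit 0) (p (nat_lit 0x60592) (nat_lit 0) (p (nat_lit 0x48512) (nat_lit 0) (p (nat_lit 0x50392) (nat_lit 0) (p (nat_lit 0x38312) (nat_lit 0) (p (nat_lit 0x40212) (nat_lit 0) (p (nat_lit 0x28192) (nat_lit 0) (p (nat_lit 0x30092) (nat_lit 0) (p (nat_lit 0x18012) (nat_lit 0) pn)))))))))))))))))))))))))))))))))))) :=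
  Cl.node (nat_lit 0x10d0e0c8c0d9a) (nat_lit 1) (by decide +kernel) (ClAll.succ ClAll.zero n25)

def n45 : Cl (O (nat_lit 5)) (R (nat_lit 6353))
    (p (nat_lit 0x119) (nat_lit 1) (p (nat_lit 0x10d0e0c8c0d9a) (nat_lit 0) (p (nat_lit 0xc8d8c0b8d1a) (nat_lit 0) (p (nat_lit 0x10c0d0b8b0a9a) (nat_lit 0) (p (nat_lit 0xb8c8b0a8a1a) (nat_lit 0) (p (nat_lit 0x2a825800002a8258b0a8a0b8a) (nat_lit 0) (p (nat_lit 0x2a825800002a8258a8a09890a) (nat_lit 0) (p (nat_lit 0xb000c) (nat_lit 1) (p (nat_lit 0x200014) (nat_lit 0) (p (nat_lit 0x200004) (nat_lit 0) (p (nat_lit 0xc9) (nat_lit 0) (p (nat_lit 0x89) (nat_lit 1) (p (nat_lit 0x101) (nat_lit 1) (p (nat_lit 0x111) (nat_lit 0) (p (nat_lit 0xd1) (nat_lit 1) (p (nat_lit 0x81) (nat_lit 0) (p (nat_lit 0x41) (nat_lit 1) (p (nat_lit 0x10a0b09890a9a) (nat_lit 0) (p (nat_lit 0x98a89088a1a) (nat_lit 0) (p (nat_lit 0x1090a0888079a) (nat_lit 0) (p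 (nat_lit 0x8898807871a) (nat_lit 0) (p (nat_lit 0x8000000000800080787088a) (nat_lit 0) (p (nat_lit 0x8000000000800078706860a) (nat_lit 0) (p (nat_lit 0x10806860782) (nat_lit 0) (p (nat_lit 0x786058702) (nat_lit 0) (p (nat_lit 0x10705850482) (nat_lit 0) (p (nat_lit 0x685048402) (nat_lit 0) (p (nat_lit 0x16000c) (nat_lit 0) (p (nat_lit 0x60592) (nat_lit 0) (p (nat_lit 0x48512) (nat_lit 0) (p (nat_lit 0x50392) (nat_lit 0) (p (nat_lit 0x38312) (nat_lit 0) (p (nat_lit 0x40212) (nat_lit 0) (p (nat_lit 0x28192) (nat_lit 0) (p (nat_lit 0x30092) (nat_lit 0) (p (nat_lit 0x18012) (nat_lit 0) pn)))))))))))))))))))))))))))))))))))) :=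
  Cl.node (nat_lit 0xc1) (nat_lit 2) (by decide +kernel) (ClAll.succ (ClAll.succ ClAll.zero s194) s195)

def n46 : Cl (O (nat_lit 5)) (R (nat_lit 6353))
    (p (nat_lit 0xc8d8c0b8d1a) (nat_lit 0) (p (nat_lit 0x10c0d0b8b0a9a) (nat_lit 0) (p (nat_lit 0xb8c8b0a8a1a) (nat_lit 0) (p (nat_lit 0x2a825800002a8258b0a8a0b8a) (nat_lit 0) (p (nat_lit 0x2a825800002a8258a8a09890a) (nat_lit 0) (p (nat_lit 0xb000c) (nat_lit 1) (p (nat_lit 0x111) (nat_lit 0) (p (nat_lit 0x200014) (nat_lit 0) (p (nat_lit 0x200004) (nat_lit 0) (p (nat_lit 0xc9) (nat_lit 0) (p (nat_lit 0x81) (nat_lit 0) (p (nat_lit 0x101) (nat_lit 1) (p (nat_lit 0x119) (nat_lit 0) (p (nat_lit 0xd1) (nat_lit 0) (p (nat_lit 0x89) (nat_lit 0) (p (nat_lit 0x41) (nat_lit 0) (p (nat_lit 0x10a0b09890a9a) (nat_lit 0) (p (nat_lit 0x98a89088a1a) (nat_lit 0) (p (nat_lit 0x1090a0888079a) (nat_lit 0) (p (nat_lit 0x8898807871a) (nat_lit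 0) (p (nat_lit 0x8000000000800080787088a) (nat_lit 0) (p (nat_lit 0x8000000000800078706860a) (nat_lit 0) (p (nat_lit 0x10806860782) (nat_lit 0) (p (nat_lit 0x786058702) (nat_lit 0) (p (nat_lit 0x10705850482) (nat_lit 0) (p (nat_lit 0x685048402) (nat_lit 0) (p (nat_lit 0x16000c) (nat_lit 0) (p (nat_lit 0x60592) (nat_lit 0) (p (nat_lit 0x48512) (nat_lit 0) (p (nat_lit 0x50392) (nat_lit 0) (p (nat_lit 0x38312) (nat_lit 0) (p (nat_lit 0x40212) (nat_lit 0) (p (nat_lit 0x28192) (nat_lit 0) (p (nat_lit 0x30092) (nat_lit 0) (p (nat_lit 0x18012) (nat_lit 0) pn))))))))))))))))))))))))))))))))))) :=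
  Cl.node (nat_lit 0x10d0e0c8c0d9a) (nat_lit 1) (by decide +kernel) (ClAll.succ ClAll.zero n26)

def n47 : Cl (O (nat_lit 5)) (R (nat_lit 6353))
    (p (nat_lit 0xc8d8c0b8d1a) (nat_lit 0) (p (nat_lit 0x10c0d0b8b0a9a) (nat_lit 0) (p (nat_lit 0xb8c8b0a8a1a) (nat_lit 0) (p (nat_lit 0x2a825800002a8258b0a8a0b8a) (nat_lit 0) (p (nat_lit 0x2a825800002a8258a8a09890a) (nat_lit 0) (p (nat_lit 0xb000c) (nat_lit 1) (p (nat_lit 0x111) (nat_lit 0) (p (nat_lit 0x200014) (nat_lit 0) (p (nat_lit 0x200004) (nat_lit 0) (p (nat_lit 0xc9) (nat_lit 1) (p (nat_lit 0x81) (nat_lit 0) (p (nat_lit 0x101) (nat_lit 1) (p (nat_lit 0x119) (nat_lit 0) (p (nat_lit 0xd1) (nat_lit 0) (p (nat_lit 0x89) (nat_lit 0) (p (nat_lit 0x41) (nat_lit 0) (p (nat_lit 0x10a0b09890a9a) (nat_lit 0) (p (nat_lit 0x98a89088a1a) (nat_lit 0) (p (nat_lit 0x1090a0888079a) (nat_lit 0) (p (nat_lit 0x8898807871a) (nat_lit 0) (p (nat_lit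 0x8000000000800080787088a) (nat_lit 0) (p (nat_lit 0x8000000000800078706860a) (nat_lit 0) (p (nat_lit 0x10806860782) (nat_lit 0) (p (nat_lit 0x786058702) (nat_lit 0) (p (nat_lit 0x10705850482) (nat_lit 0) (p (nat_lit 0x685048402) (nat_lit 0) (p (nat_lit 0x16000c) (nat_lit 0) (p (nat_lit 0x60592) (nat_lit 0) (p (nat_lit 0x48512) (nat_lit 0) (p (nat_lit 0x50392) (nat_lit 0) (p (nat_lit 0x38312) (nat_lit 0) (p (nat_lit 0x40212) (nat_lit 0) (p (nat_lit 0x28192) (nat_lit 0) (p (nat_lit 0x30092) (nat_lit 0) (p (nat_lit 0x18012) (nat_lit 0) pn))))))))))))))))))))))))))))))))))) :=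
  Cl.node (nat_lit 0x10d0e0c8c0d9a) (nat_lit 1) (by decide +kernel) (ClAll.succ ClAll.zero n27)

def n48 : Cl (O (nat_lit 5)) (R (nat_lit 6353))
    (p (nat_lit 0xc8d8c0b8d1a) (nat_lit 0) (p (nat_lit 0x10c0d0b8b0a9a) (nat_lit 0) (p (nat_lit 0xb8c8b0a8a1a) (nat_lit 0) (p (nat_lit 0x2a825800002a8258b0a8a0b8a) (nat_lit 0) (p (nat_lit 0x2a825800002a8258a8a09890a) (nat_lit 0) (p (nat_lit 0xb000c) (nat_lit 1) (p (nat_lit 0x200014) (nat_lit 0) (p (nat_lit 0x200004) (nat_lit 0) (p (nat_lit 0xc9) (nat_lit 0) (p (nat_lit 0xc1) (nat_lit 0) (p (nat_lit 0x81) (nat_lit 1) (p (nat_lit 0x101) (nat_lit 1) (p (nat_lit 0x119) (nat_lit 0) (p (nat_lit 0xd1) (nat_lit 0) (p (nat_lit 0x89) (nat_lit 0) (p (nat_lit 0x41) (nat_lit 0) (p (nat_lit 0x10a0b09890a9a) (nat_lit 0) (p (nat_lit 0x98a89088a1a) (nat_lit 0) (p (nat_lit 0x1090a0888079a) (nat_lit 0) (p (nat_lit 0x8898807871a) (nat_lit 0) (p (nat_lit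 0x8000000000800080787088a) (nat_lit 0) (p (nat_lit 0x8000000000800078706860a) (nat_lit 0) (p (nat_lit 0x10806860782) (nat_lit 0) (p (nat_lit 0x786058702) (nat_lit 0) (p (nat_lit 0x10705850482) (nat_lit 0) (p (nat_lit 0x685048402) (nat_lit 0) (p (nat_lit 0x16000c) (nat_lit 0) (p (nat_lit 0x60592) (nat_lit 0) (p (nat_lit 0x48512) (nat_lit 0) (p (nat_lit 0x50392) (nat_lit 0) (p (nat_lit 0x38312) (nat_lit 0) (p (nat_lit 0x40212) (nat_lit 0) (p (nat_lit 0x28192) (nat_lit 0) (p (nat_lit 0x30092) (nat_lit 0) (p (nat_lit 0x18012) (nat_lit 0) pn))))))))))))))))))))))))))))))))))) :=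
  Cl.node (nat_lit 0x10d0e0c8c0d9a) (nat_lit 1) (by decide +kernel) (ClAll.succ ClAll.zero n28)

def n49 : Cl (O (nat_lit 5)) (R (nat_lit 6353))
    (p (nat_lit 0x10d0e0c8c0d9a) (nat_lit 0) (p (nat_lit 0xc8d8c0b8d1a) (nat_lit 0) (p (nat_lit 0x10c0d0b8b0a9a) (nat_lit 0) (p (nat_lit 0xb8c8b0a8a1a) (nat_lit 0) (p (nat_lit 0x2a825800002a8258b0a8a0b8a) (nat_lit 0) (p (nat_lit 0x2a825800002a8258a8a09890a) (nat_lit 0) (p (nat_lit 0xb000c) (nat_lit 1) (p (nat_lit 0x200014) (nat_lit 0) (p (nat_lit 0x200004) (nat_lit 0) (p (nat_lit 0x109) (nat_lit 1) (p (nat_lit 0xc9) (nat_lit 1) (p (nat_lit 0xc1) (nat_lit 0) (p (nat_lit 0x119) (nat_lit 1) (p (nat_lit 0xd1) (nat_lit 0) (p (nat_lit 0x89) (nat_lit 0) (p (nat_lit 0x41) (nat_lit 0) (p (nat_lit 0x10a0b09890a9a) (nat_lit 0) (p (nat_lit 0x98a89088a1a) (nat_lit 0) (p (nat_lit 0x1090a0888079a) (nat_lit 0) (p (nat_lit 0x8898807871a) (nat_lit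 0) (p (nat_lit 0x8000000000800080787088a) (nat_lit 0) (p (nat_lit 0x8000000000800078706860a) (nat_lit 0) (p (nat_lit 0x10806860782) (nat_lit 0) (p (nat_lit 0x786058702) (nat_lit 0) (p (nat_lit 0x10705850482) (nat_lit 0) (p (nat_lit 0x685048402) (nat_lit 0) (p (nat_lit 0x16000c) (nat_lit 0) (p (nat_lit 0x60592) (nat_lit 0) (p (nat_lit 0x48512) (nat_lit 0) (p (nat_lit 0x50392) (nat_lit 0) (p (nat_lit 0x38312) (nat_lit 0) (p (nat_lit 0x40212) (nat_lit 0) (p (nat_lit 0x28192) (nat_lit 0) (p (nat_lit 0x30092) (nat_lit 0) (p (nat_lit 0x18012) (nat_lit 0) pn))))))))))))))))))))))))))))))))))) :=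
  Cl.node (nat_lit 0x41) (nat_lit 2) (by decide +kernel) (ClAll.succ (ClAll.succ ClAll.zero n29) s31)

def n50 : Cl (O (nat_lit 5)) (R (nat_lit 6353))
    (p (nat_lit 0xc8d8c0b8d1a) (nat_lit 0) (p (nat_lit 0x10c0d0b8b0a9a) (nat_lit 0) (p (nat_lit 0xb8c8b0a8a1a) (nat_lit 0) (p (nat_lit 0x2a825800002a8258b0a8a0b8a) (nat_lit 0) (p (nat_lit 0x2a825800002a8258a8a09890a) (nat_lit 0) (p (nat_lit 0xb000c) (nat_lit 1) (p (nat_lit 0x200014) (nat_lit 0) (p (nat_lit 0x200004) (nat_lit 0) (p (nat_lit 0x109) (nat_lit 1) (p (nat_lit 0x101) (nat_lit 0) (p (nat_lit 0x81) (nat_lit 1) (p (nat_lit 0xc1) (nat_lit 1) (p (nat_lit 0x119) (nat_lit 1) (p (nat_lit 0xd1) (nat_lit 0) (p (nat_lit 0x89) (nat_lit 0) (p (nat_lit 0x41) (nat_lit 0) (p (nat_lit 0x10a0b09890a9a) (nat_lit 0) (p (nat_lit 0x98a89088a1a) (nat_lit 0) (p (nat_lit 0x1090a0888079a) (nat_lit 0) (p (nat_lit 0x8898807871a) (nat_lit 0)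 (p (nat_lit 0x8000000000800080787088a) (nat_lit 0) (p (nat_lit 0x8000000000800078706860a) (nat_lit 0) (p (nat_lit 0x10806860782) (nat_lit 0) (p (nat_lit 0x786058702) (nat_lit 0) (p (nat_lit 0x10705850482) (nat_lit 0) (p (nat_lit 0x685048402) (nat_lit 0) (p (nat_lit 0x16000c) (nat_lit 0) (p (nat_lit 0x60592) (nat_lit 0) (p (nat_lit 0x48512) (nat_lit 0) (p (nat_lit 0x50392) (nat_lit 0) (p (nat_lit 0x38312) (nat_lit 0) (p (nat_lit 0x40212) (nat_lit 0) (p (nat_lit 0x28192) (nat_lit 0) (p (nat_lit 0x30092) (nat_lit 0) (p (nat_lit 0x18012) (nat_lit 0) pn))))))))))))))))))))))))))))))))))) :=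
  Cl.node (nat_lit 0x10d0e0c8c0d9a) (nat_lit 1) (by decide +kernel) (ClAll.succ ClAll.zero n30)

def n51 : Cl (O (nat_lit 5)) (R (nat_lit 6353))
    (p (nat_lit 0xc8d8c0b8d1a) (nat_lit 0) (p (nat_lit 0x10c0d0b8b0a9a) (nat_lit 0) (p (nat_lit 0xb8c8b0a8a1a) (nat_lit 0) (p (nat_lit 0x2a825800002a8258b0a8a0b8a) (nat_lit 0) (p (nat_lit 0x2a825800002a8258a8a09890a) (nat_lit 0) (p (nat_lit 0xb000c) (nat_lit 1) (p (nat_lit 0x119) (nat_lit 0) (p (nat_lit 0x200014) (nat_lit 0) (p (nat_lit 0x200004) (nat_lit 0) (p (nat_lit 0xc1) (nat_lit 0) (p (nat_lit 0x81) (nat_lit 1) (p (nat_lit 0x101) (nat_lit 1) (p (nat_lit 0x111) (nat_lit 0) (p (nat_lit 0xd1) (nat_lit 1) (p (nat_lit 0x89) (nat_lit 0) (p (nat_lit 0x41) (nat_lit 0) (p (nat_lit 0x10a0b09890a9a) (nat_lit 0) (p (nat_lit 0x98a89088a1a) (nat_lit 0) (p (nat_lit 0x1090a0888079a) (nat_lit 0) (p (nat_lit 0x8898807871a) (nat_lit 0) (p (nat_lit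 0x8000000000800080787088a) (nat_lit 0) (p (nat_lit 0x8000000000800078706860a) (nat_lit 0) (p (nat_lit 0x10806860782) (nat_lit 0) (p (nat_lit 0x786058702) (nat_lit 0) (p (nat_lit 0x10705850482) (nat_lit 0) (p (nat_lit 0x685048402) (nat_lit 0) (p (nat_lit 0x16000c) (nat_lit 0) (p (nat_lit 0x60592) (nat_lit 0) (p (nat_lit 0x48512) (nat_lit 0) (p (nat_lit 0x50392) (nat_lit 0) (p (nat_lit 0x38312) (nat_lit 0) (p (nat_lit 0x40212) (nat_lit 0) (p (nat_lit 0x28192) (nat_lit 0) (p (nat_lit 0x30092) (nat_lit 0) (p (nat_lit 0x18012) (nat_lit 0) pn))))))))))))))))))))))))))))))))))) :=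
  Cl.node (nat_lit 0x10d0e0c8c0d9a) (nat_lit 1) (by decide +kernel) (ClAll.succ ClAll.zero n31)

def n52 : Cl (O (nat_lit 5)) (R (nat_lit 6353))
    (p (nat_lit 0x10d0e0c8c0d9a) (nat_lit 0) (p (nat_lit 0xc8d8c0b8d1a) (nat_lit 0) (p (nat_lit 0x10c0d0b8b0a9a) (nat_lit 0) (p (nat_lit 0xb8c8b0a8a1a) (nat_lit 0) (p (nat_lit 0x2a825800002a8258b0a8a0b8a) (nat_lit 0) (p (nat_lit 0x2a825800002a8258a8a09890a) (nat_lit 0) (p (nat_lit 0xb000c) (nat_lit 1) (p (nat_lit 0x200014) (nat_lit 0) (p (nat_lit 0x200004) (nat_lit 0) (p (nat_lit 0x111) (nat_lit 1) (p (nat_lit 0xd1) (nat_lit 1) (p (nat_lit 0xc1) (nat_lit 0) (p (nat_lit 0x119) (nat_lit 1) (p (nat_lit 0xc9) (nat_lit 0) (p (nat_lit 0x89) (nat_lit 1) (p (nat_lit 0x41) (nat_lit 0) (p (nat_lit 0x10a0b09890a9a) (nat_lit 0) (p (nat_lit 0x98a89088a1a) (nat_lit 0) (p (nat_lit 0x1090a0888079a) (nat_lit 0) (p (nat_lit 0x8898807871a) (nat_lit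 0) (p (nat_lit 0x8000000000800080787088a) (nat_lit 0) (p (nat_lit 0x8000000000800078706860a) (nat_lit 0) (p (nat_lit 0x10806860782) (nat_lit 0) (p (nat_lit 0x786058702) (nat_lit 0) (p (nat_lit 0x10705850482) (nat_lit 0) (p (nat_lit 0x685048402) (nat_lit 0) (p (nat_lit 0x16000c) (nat_lit 0) (p (nat_lit 0x60592) (nat_lit 0) (p (nat_lit 0x48512) (nat_lit 0) (p (nat_lit 0x50392) (nat_lit 0) (p (nat_lit 0x38312) (nat_lit 0) (p (nat_lit 0x40212) (nat_lit 0) (p (nat_lit 0x28192) (nat_lit 0) (p (nat_lit 0x30092) (nat_lit 0) (p (nat_lit 0x18012) (nat_lit 0) pn))))))))))))))))))))))))))))))))))) :=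
  Cl.node (nat_lit 0x81) (nat_lit 2) (by decide +kernel) (ClAll.succ (ClAll.succ ClAll.zero n32) s79)

def n53 : Cl (O (nat_lit 5)) (R (nat_lit 6353))
    (p (nat_lit 0xc8d8c0b8d1a) (nat_lit 0) (p (nat_lit 0x10c0d0b8b0a9a) (nat_lit 0) (p (nat_lit 0xb8c8b0a8a1a) (nat_lit 0) (p (nat_lit 0x2a825800002a8258b0a8a0b8a) (nat_lit 0) (p (nat_lit 0x2a825800002a8258a8a09890a) (nat_lit 0) (p (nat_lit 0xb000c) (nat_lit 1) (p (nat_lit 0x111) (nat_lit 0) (p (nat_lit 0x200014) (nat_lit 0) (p (nat_lit 0x200004) (nat_lit 0) (p (nat_lit 0x89) (nat_lit 0) (p (nat_lit 0x109) (nat_lit 1) (p (nat_lit 0x101) (nat_lit 0) (p (nat_lit 0x119) (nat_lit 0) (p (nat_lit 0xd1) (nat_lit 0) (p (nat_lit 0x81) (nat_lit 0) (p (nat_lit 0x41) (nat_lit 1) (p (nat_lit 0x10a0b09890a9a) (nat_lit 0) (p (nat_lit 0x98a89088a1a) (nat_lit 0) (p (nat_lit 0x1090a0888079a) (nat_lit 0) (p (nat_lit 0x8898807871a) (nat_lit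 0) (p (nat_lit 0x8000000000800080787088a) (nat_lit 0) (p (nat_lit 0x8000000000800078706860a) (nat_lit 0) (p (nat_lit 0x10806860782) (nat_lit 0) (p (nat_lit 0x786058702) (nat_lit 0) (p (nat_lit 0x10705850482) (nat_lit 0) (p (nat_lit 0x685048402) (nat_lit 0) (p (nat_lit 0x16000c) (nat_lit 0) (p (nat_lit 0x60592) (nat_lit 0) (p (nat_lit 0x48512) (nat_lit 0) (p (nat_lit 0x50392) (nat_lit 0) (p (nat_lit 0x38312) (nat_lit 0) (p (nat_lit 0x40212) (nat_lit 0) (p (nat_lit 0x28192) (nat_lit 0) (p (nat_lit 0x30092) (nat_lit 0) (p (nat_lit 0x18012) (nat_lit 0) pn))))))))))))))))))))))))))))))))))) :=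
  Cl.node (nat_lit 0x10d0e0c8c0d9a) (nat_lit 1) (by decide +kernel) (ClAll.succ ClAll.zero n33)

def n54 : Cl (O (nat_lit 5)) (R (nat_lit 6353))
    (p (nat_lit 0xc8d8c0b8d1a) (nat_lit 0) (p (nat_lit 0x10c0d0b8b0a9a) (nat_lit 0) (p (nat_lit 0xb8c8b0a8a1a) (nat_lit 0) (p (nat_lit 0x2a825800002a8258b0a8a0b8a) (nat_lit 0) (p (nat_lit 0x2a825800002a8258a8a09890a) (nat_lit 0) (p (nat_lit 0xb000c) (nat_lit 1) (p (nat_lit 0x200014) (nat_lit 0) (p (nat_lit 0x200004) (nat_lit 0) (p (nat_lit 0xc9) (nat_lit 0) (p (nat_lit 0x89) (nat_lit 1) (p (nat_lit 0x109) (nat_lit 1) (p (nat_lit 0x101) (nat_lit 0) (p (nat_lit 0x119) (nat_lit 0) (p (nat_lit 0xd1) (nat_lit 0) (p (nat_lit 0x81) (nat_lit 0) (p (nat_lit 0x41) (nat_lit 1) (p (nat_lit 0x10a0b09890a9a) (nat_lit 0) (p (nat_lit 0x98a89088a1a) (nat_lit 0) (p (nat_lit 0x1090a0888079a) (nat_lit 0) (p (nat_lit 0x8898807871a) (nat_lit 0) (p (nat_lit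 0x8000000000800080787088a) (nat_lit 0) (p (nat_lit 0x8000000000800078706860a) (nat_lit 0) (p (nat_lit 0x10806860782) (nat_lit 0) (p (nat_lit 0x786058702) (nat_lit 0) (p (nat_lit 0x10705850482) (nat_lit 0) (p (nat_lit 0x685048402) (nat_lit 0) (p (nat_lit 0x16000c) (nat_lit 0) (p (nat_lit 0x60592) (nat_lit 0) (p (nat_lit 0x48512) (nat_lit 0) (p (nat_lit 0x50392) (nat_lit 0) (p (nat_lit 0x38312) (nat_lit 0) (p (nat_lit 0x40212) (nat_lit 0) (p (nat_lit 0x28192) (nat_lit 0) (p (nat_lit 0x30092) (nat_lit 0) (p (nat_lit 0x18012) (nat_lit 0) pn))))))))))))))))))))))))))))))))))) :=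
  Cl.node (nat_lit 0x10d0e0c8c0d9a) (nat_lit 1) (by decide +kernel) (ClAll.succ ClAll.zero n34)

def n55 : Cl (O (nat_lit 5)) (R (nat_lit 6353))
    (p (nat_lit 0xc8d8c0b8d1a) (nat_lit 0) (p (nat_lit 0x10c0d0b8b0a9a) (nat_lit 0) (p (nat_lit 0xb8c8b0a8a1a) (nat_lit 0) (p (nat_lit 0x2a825800002a8258b0a8a0b8a) (nat_lit 0) (p (nat_lit 0x2a825800002a8258a8a09890a) (nat_lit 0) (p (nat_lit 0xb000c) (nat_lit 1) (p (nat_lit 0x200014) (nat_lit 0) (p (nat_lit 0x200004) (nat_lit 0) (p (nat_lit 0xc9) (nat_lit 1) (p (nat_lit 0x89) (nat_lit 1) (p (nat_lit 0xc1) (nat_lit 0) (p (nat_lit 0x101) (nat_lit 1) (p (nat_lit 0x119) (nat_lit 0) (p (nat_lit 0xd1) (nat_lit 0) (p (nat_lit 0x81) (nat_lit 0) (p (nat_lit 0x41) (nat_lit 1) (p (nat_lit 0x10a0b09890a9a) (nat_lit 0) (p (nat_lit 0x98a89088a1a) (nat_lit 0) (p (nat_lit 0x1090a0888079a) (nat_lit 0) (p (nat_lit 0x8898807871a) (nat_lit 0) (p (nat_lit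 0x8000000000800080787088a) (nat_lit 0) (p (nat_lit 0x8000000000800078706860a) (nat_lit 0) (p (nat_lit 0x10806860782) (nat_lit 0) (p (nat_lit 0x786058702) (nat_lit 0) (p (nat_lit 0x10705850482) (nat_lit 0) (p (nat_lit 0x685048402) (nat_lit 0) (p (nat_lit 0x16000c) (nat_lit 0) (p (nat_lit 0x60592) (nat_lit 0) (p (nat_lit 0x48512) (nat_lit 0) (p (nat_lit 0x50392) (nat_lit 0) (p (nat_lit 0x38312) (nat_lit 0) (p (nat_lit 0x40212) (nat_lit 0) (p (nat_lit 0x28192) (nat_lit 0) (p (nat_lit 0x30092) (nat_lit 0) (p (nat_lit 0x18012) (nat_lit 0) pn))))))))))))))))))))))))))))))))))) :=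
  Cl.node (nat_lit 0x10d0e0c8c0d9a) (nat_lit 1) (by decide +kernel) (ClAll.succ ClAll.zero n35)

def n56 : Cl (O (nat_lit 5)) (R (nat_lit 6353))
    (p (nat_lit 0x10d0e0c8c0d9a) (nat_lit 0) (p (nat_lit 0xc8d8c0b8d1a) (nat_lit 0) (p (nat_lit 0x10c0d0b8b0a9a) (nat_lit 0) (p (nat_lit 0xb8c8b0a8a1a) (nat_lit 0) (p (nat_lit 0x2a825800002a8258b0a8a0b8a) (nat_lit 0) (p (nat_lit 0x2a825800002a8258a8a09890a) (nat_lit 0) (p (nat_lit 0xb000c) (nat_lit 1) (p (nat_lit 0x200014) (nat_lit 0) (p (nat_lit 0x200004) (nat_lit 0) (p (nat_lit 0x89) (nat_lit 1) (p (nat_lit 0xc1) (nat_lit 1) (p (nat_lit 0x101) (nat_lit 1) (p (nat_lit 0x119) (nat_lit 0) (p (nat_lit 0xd1) (nat_lit 0) (p (nat_lit 0x81) (nat_lit 0) (p (nat_lit 0x41) (nat_lit 1) (p (nat_lit 0x10a0b09890a9a) (nat_lit 0) (p (nat_lit 0x98a89088a1a) (nat_lit 0) (p (nat_lit 0x1090a0888079a) (nat_lit 0) (p (nat_lit 0x8898807871a) (nat_lit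 0) (p (nat_lit 0x8000000000800080787088a) (nat_lit 0) (p (nat_lit 0x8000000000800078706860a) (nat_lit 0) (p (nat_lit 0x10806860782) (nat_lit 0) (p (nat_lit 0x786058702) (nat_lit 0) (p (nat_lit 0x10705850482) (nat_lit 0) (p (nat_lit 0x685048402) (nat_lit 0) (p (nat_lit 0x16000c) (nat_lit 0) (p (nat_lit 0x60592) (nat_lit 0) (p (nat_lit 0x48512) (nat_lit 0) (p (nat_lit 0x50392) (nat_lit 0) (p (nat_lit 0x38312) (nat_lit 0) (p (nat_lit 0x40212) (nat_lit 0) (p (nat_lit 0x28192) (nat_lit 0) (p (nat_lit 0x30092) (nat_lit 0) (p (nat_lit 0x18012) (nat_lit 0) pn))))))))))))))))))))))))))))))))))) :=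
  Cl.node (nat_lit 0x109) (nat_lit 2) (by decide +kernel) (ClAll.succ (ClAll.succ ClAll.zero n36) n37)

def n57 : Cl (O (nat_lit 5)) (R (nat_lit 6353))
    (p (nat_lit 0xc8d8c0b8d1a) (nat_lit 0) (p (nat_lit 0x10c0d0b8b0a9a) (nat_lit 0) (p (nat_lit 0xb8c8b0a8a1a) (nat_lit 0) (p (nat_lit 0x2a825800002a8258b0a8a0b8a) (nat_lit 0) (p (nat_lit 0x2a825800002a8258a8a09890a) (nat_lit 0) (p (nat_lit 0xb000c) (nat_lit 1) (p (nat_lit 0x200014) (nat_lit 0) (p (nat_lit 0x200004) (nat_lit 0) (p (nat_lit 0x109) (nat_lit 0) (p (nat_lit 0x89) (nat_lit 1) (p (nat_lit 0xc9) (nat_lit 1) (p (nat_lit 0xc1) (nat_lit 0) (p (nat_lit 0x119) (nat_lit 1) (p (nat_lit 0xd1) (nat_lit 0) (p (nat_lit 0x81) (nat_lit 0) (p (nat_lit 0x41) (nat_lit 1) (p (nat_lit 0x10a0b09890a9a) (nat_lit 0) (p (nat_lit 0x98a89088a1a) (nat_lit 0) (p (nat_lit 0x1090a0888079a) (nat_lit 0) (p (nat_lit 0x8898807871a) (nat_lit 0)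 (p (nat_lit 0x8000000000800080787088a) (nat_lit 0) (p (nat_lit 0x8000000000800078706860a) (nat_lit 0) (p (nat_lit 0x10806860782) (nat_lit 0) (p (nat_lit 0x786058702) (nat_lit 0) (p (nat_lit 0x10705850482) (nat_lit 0) (p (nat_lit 0x685048402) (nat_lit 0) (p (nat_lit 0x16000c) (nat_lit 0) (p (nat_lit 0x60592) (nat_lit 0) (p (nat_lit 0x48512) (nat_lit 0) (p (nat_lit 0x50392) (nat_lit 0) (p (nat_lit 0x38312) (nat_lit 0) (p (nat_lit 0x40212) (nat_lit 0) (p (nat_lit 0x28192) (nat_lit 0) (p (nat_lit 0x30092) (nat_lit 0) (p (nat_lit 0x18012) (nat_lit 0) pn))))))))))))))))))))))))))))))))))) :=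
  Cl.node (nat_lit 0x10d0e0c8c0d9a) (nat_lit 1) (by decide +kernel) (ClAll.succ ClAll.zero n38)

def n58 : Cl (O (nat_lit 5)) (R (nat_lit 6353))
    (p (nat_lit 0xc8d8c0b8d1a) (nat_lit 0) (p (nat_lit 0x10c0d0b8b0a9a) (nat_lit 0) (p (nat_lit 0xb8c8b0a8a1a) (nat_lit 0) (p (nat_lit 0x2a825800002a8258b0a8a0b8a) (nat_lit 0) (p (nat_lit 0x2a825800002a8258a8a09890a) (nat_lit 0) (p (nat_lit 0xb000c) (nat_lit 1) (p (nat_lit 0x200014) (nat_lit 0) (p (nat_lit 0x200004) (nat_lit 0) (p (nat_lit 0x109) (nat_lit 1) (p (nat_lit 0x89) (nat_lit 1) (p (nat_lit 0xc9) (nat_lit 1) (p (nat_lit 0xc1) (nat_lit 0) (p (nat_lit 0x119) (nat_lit 1) (p (nat_lit 0xd1) (nat_lit 0) (p (nat_lit 0x81) (nat_lit 0) (p (nat_lit 0x41) (nat_lit 1) (p (nat_lit 0x10a0b09890a9a) (nat_lit 0) (p (nat_lit 0x98a89088a1a) (nat_lit 0) (p (nat_lit 0x1090a0888079a) (nat_lit 0) (p (nat_lit 0x8898807871a) (nat_lit 0) (p (nat_lit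 0x8000000000800080787088a) (nat_lit 0) (p (nat_lit 0x8000000000800078706860a) (nat_lit 0) (p (nat_lit 0x10806860782) (nat_lit 0) (p (nat_lit 0x786058702) (nat_lit 0) (p (nat_lit 0x10705850482) (nat_lit 0) (p (nat_lit 0x685048402) (nat_lit 0) (p (nat_lit 0x16000c) (nat_lit 0) (p (nat_lit 0x60592) (nat_lit 0) (p (nat_lit 0x48512) (nat_lit 0) (p (nat_lit 0x50392) (nat_lit 0) (p (nat_lit 0x38312) (nat_lit 0) (p (nat_lit 0x40212) (nat_lit 0) (p (nat_lit 0x28192) (nat_lit 0) (p (nat_lit 0x30092) (nat_lit 0) (p (nat_lit 0x18012) (nat_lit 0) pn))))))))))))))))))))))))))))))))))) :=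
  Cl.node (nat_lit 0x10d0e0c8c0d9a) (nat_lit 1) (by decide +kernel) (ClAll.succ ClAll.zero n39)

def n59 : Cl (O (nat_lit 5)) (R (nat_lit 6353))
    (p (nat_lit 0xc8d8c0b8d1a) (nat_lit 0) (p (nat_lit 0x10c0d0b8b0a9a) (nat_lit 0) (p (nat_lit 0xb8c8b0a8a1a) (nat_lit 0) (p (nat_lit 0x2a825800002a8258b0a8a0b8a) (nat_lit 0) (p (nat_lit 0x2a825800002a8258a8a09890a) (nat_lit 0) (p (nat_lit 0xb000c) (nat_lit 1) (p (nat_lit 0x200014) (nat_lit 0) (p (nat_lit 0x200004) (nat_lit 0) (p (nat_lit 0x109) (nat_lit 0) (p (nat_lit 0x89) (nat_lit 1) (p (nat_lit 0x101) (nat_lit 0) (p (nat_lit 0xc1) (nat_lit 1) (p (nat_lit 0x119) (nat_lit 1) (p (nat_lit 0xd1) (nat_lit 0) (p (nat_lit 0x81) (nat_lit 0) (p (nat_lit 0x41) (nat_lit 1) (p (nat_lit 0x10a0b09890a9a) (nat_lit 0) (p (nat_lit 0x98a89088a1a) (nat_lit 0) (p (nat_lit 0x1090a0888079a) (nat_lit 0) (p (nat_lit 0x8898807871a) (nat_lit 0) (p (nat_lit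 0x8000000000800080787088a) (nat_lit 0) (p (nat_lit 0x8000000000800078706860a) (nat_lit 0) (p (nat_lit 0x10806860782) (nat_lit 0) (p (nat_lit 0x786058702) (nat_lit 0) (p (nat_lit 0x10705850482) (nat_lit 0) (p (nat_lit 0x685048402) (nat_lit 0) (p (nat_lit 0x16000c) (nat_lit 0) (p (nat_lit 0x60592) (nat_lit 0) (p (nat_lit 0x48512) (nat_lit 0) (p (nat_lit 0x50392) (nat_lit 0) (p (nat_lit 0x38312) (nat_lit 0) (p (nat_lit 0x40212) (nat_lit 0) (p (nat_lit 0x28192) (nat_lit 0) (p (nat_lit 0x30092) (nat_lit 0) (p (nat_lit 0x18012) (nat_lit 0) pn))))))))))))))))))))))))))))))))))) :=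
  Cl.node (nat_lit 0x10d0e0c8c0d9a) (nat_lit 1) (by decide +kernel) (ClAll.succ ClAll.zero n40)

def n60 : Cl (O (nat_lit 5)) (R (nat_lit 6353))
    (p (nat_lit 0xc8d8c0b8d1a) (nat_lit 0) (p (nat_lit 0x10c0d0b8b0a9a) (nat_lit 0) (p (nat_lit 0xb8c8b0a8a1a) (nat_lit 0) (p (nat_lit 0x2a825800002a8258b0a8a0b8a) (nat_lit 0) (p (nat_lit 0x2a825800002a8258a8a09890a) (nat_lit 0) (p (nat_lit 0xb000c) (nat_lit 1) (p (nat_lit 0x200014) (nat_lit 0) (p (nat_lit 0x200004) (nat_lit 0) (p (nat_lit 0x109) (nat_lit 1) (p (nat_lit 0x89) (nat_lit 1) (p (nat_lit 0x101) (nat_lit 0) (p (nat_lit 0xc1) (nat_lit 1) (p (nat_lit 0x119) (nat_lit 1) (p (nat_lit 0xd1) (nat_lit 0) (p (nat_lit 0x81) (nat_lit 0) (p (nat_lit 0x41) (nat_lit 1) (p (nat_lit 0x10a0b09890a9a) (nat_lit 0) (p (nat_lit 0x98a89088a1a) (nat_lit 0) (p (nat_lit 0x1090a0888079a) (nat_lit 0) (p (nat_lit 0x8898807871a) (nat_lit 0) (p (nat_lit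 0x8000000000800080787088a) (nat_lit 0) (p (nat_lit 0x8000000000800078706860a) (nat_lit 0) (p (nat_lit 0x10806860782) (nat_lit 0) (p (nat_lit 0x786058702) (nat_lit 0) (p (nat_lit 0x10705850482) (nat_lit 0) (p (nat_lit 0x685048402) (nat_lit 0) (p (nat_lit 0x16000c) (nat_lit 0) (p (nat_lit 0x60592) (nat_lit 0) (p (nat_lit 0x48512) (nat_lit 0) (p (nat_lit 0x50392) (nat_lit 0) (p (nat_lit 0x38312) (nat_lit 0) (p (nat_lit 0x40212) (nat_lit 0) (p (nat_lit 0x28192) (nat_lit 0) (p (nat_lit 0x30092) (nat_lit 0) (p (nat_lit 0x18012) (nat_lit 0) pn))))))))))))))))))))))))))))))))))) :=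
  Cl.node (nat_lit 0x10d0e0c8c0d9a) (nat_lit 1) (by decide +kernel) (ClAll.succ ClAll.zero n41)

def n61 : Cl (O (nat_lit 5)) (R (nat_lit 6353))
    (p (nat_lit 0x10d0e0c8c0d9a) (nat_lit 0) (p (nat_lit 0xc8d8c0b8d1a) (nat_lit 0) (p (nat_lit 0x10c0d0b8b0a9a) (nat_lit 0) (p (nat_lit 0xb8c8b0a8a1a) (nat_lit 0) (p (nat_lit 0x2a825800002a8258b0a8a0b8a) (nat_lit 0) (p (nat_lit 0x2a825800002a8258a8a09890a) (nat_lit 0) (p (nat_lit 0xb000c) (nat_lit 1) (p (nat_lit 0x200014) (nat_lit 0) (p (nat_lit 0x200004) (nat_lit 0) (p (nat_lit 0x89) (nat_lit 1) (p (nat_lit 0x101) (nat_lit 1) (p (nat_lit 0xc1) (nat_lit 1) (p (nat_lit 0x119) (nat_lit 1) (p (nat_lit 0xd1) (nat_lit 0) (p (nat_lit 0x81) (nat_lit 0) (p (nat_lit 0x41) (nat_lit 1) (p (nat_lit 0x10a0b09890a9a) (nat_lit 0) (p (nat_lit 0x98a89088a1a) (nat_lit 0) (p (nat_lit 0x1090a0888079a) (nat_lit 0) (p (nat_lit 0x8898807871a) (nat_lit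 0) (p (nat_lit 0x8000000000800080787088a) (nat_lit 0) (p (nat_lit 0x8000000000800078706860a) (nat_lit 0) (p (nat_lit 0x10806860782) (nat_lit 0) (p (nat_lit 0x786058702) (nat_lit 0) (p (nat_lit 0x10705850482) (nat_lit 0) (p (nat_lit 0x685048402) (nat_lit 0) (p (nat_lit 0x16000c) (nat_lit 0) (p (nat_lit 0x60592) (nat_lit 0) (p (nat_lit 0x48512) (nat_lit 0) (p (nat_lit 0x50392) (nat_lit 0) (p (nat_lit 0x38312) (nat_lit 0) (p (nat_lit 0x40212) (nat_lit 0) (p (nat_lit 0x28192) (nat_lit 0) (p (nat_lit 0x30092) (nat_lit 0) (p (nat_lit 0x18012) (nat_lit 0) pn))))))))))))))))))))))))))))))))))) :=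
  Cl.node (nat_lit 0xc9) (nat_lit 2) (by decide +kernel) (ClAll.succ (ClAll.succ ClAll.zero n42) n43)

def n62 : Cl (O (nat_lit 5)) (R (nat_lit 6353))
    (p (nat_lit 0x10c0d0b8b0a9a) (nat_lit 0) (p (nat_lit 0xb8c8b0a8a1a) (nat_lit 0) (p (nat_lit 0x2a825800002a8258b0a8a0b8a) (nat_lit 0) (p (nat_lit 0x2a825800002a8258a8a09890a) (nat_lit 0) (p (nat_lit 0xb000c) (nat_lit 1) (p (nat_lit 0x119) (nat_lit 1) (p (nat_lit 0x200014) (nat_lit 0) (p (nat_lit 0x200004) (nat_lit 0) (p (nat_lit 0xc9) (nat_lit 0) (p (nat_lit 0x89) (nat_lit 1) (p (nat_lit 0x109) (nat_lit 1) (p (nat_lit 0x101) (nat_lit 0) (p (nat_lit 0x111) (nat_lit 0) (p (nat_lit 0xd1) (nat_lit 1) (p (nat_lit 0x81) (nat_lit 0) (p (nat_lit 0x41) (nat_lit 1) (p (nat_lit 0x10a0b09890a9a) (nat_lit 0) (p (nat_lit 0x98a89088a1a) (nat_lit 0) (p (nat_lit 0x1090a0888079a) (nat_lit 0) (p (nat_lit 0x8898807871a) (nat_lit 0) (p (nat_lit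 0x8000000000800080787088a) (nat_lit 0) (p (nat_lit 0x8000000000800078706860a) (nat_lit 0) (p (nat_lit 0x10806860782) (nat_lit 0) (p (nat_lit 0x786058702) (nat_lit 0) (p (nat_lit 0x10705850482) (nat_lit 0) (p (nat_lit 0x685048402) (nat_lit 0) (p (nat_lit 0x16000c) (nat_lit 0) (p (nat_lit 0x60592) (nat_lit 0) (p (nat_lit 0x48512) (nat_lit 0) (p (nat_lit 0x50392) (nat_lit 0) (p (nat_lit 0x38312) (nat_lit 0) (p (nat_lit 0x40212) (nat_lit 0) (p (nat_lit 0x28192) (nat_lit 0) (p (nat_lit 0x30092) (nat_lit 0) (p (nat_lit 0x18012) (nat_lit 0) pn))))))))))))))))))))))))))))))))))) :=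
  Cl.node (nat_lit 0xc8d8c0b8d1a) (nat_lit 1) (by decide +kernel) (ClAll.succ ClAll.zero n44)

def n63 : Cl (O (nat_lit 5)) (R (nat_lit 6353))
    (p (nat_lit 0x10d0e0c8c0d9a) (nat_lit 0) (p (nat_lit 0xc8d8c0b8d1a) (nat_lit 0) (p (nat_lit 0x10c0d0b8b0a9a) (nat_lit 0) (p (nat_lit 0xb8c8b0a8a1a) (nat_lit 0) (p (nat_lit 0x2a825800002a8258b0a8a0b8a) (nat_lit 0) (p (nat_lit 0x2a825800002a8258a8a09890a) (nat_lit 0) (p (nat_lit 0xb000c) (nat_lit 1) (p (nat_lit 0x200014) (nat_lit 0) (p (nat_lit 0x200004) (nat_lit 0) (p (nat_lit 0xc9) (nat_lit 0) (p (nat_lit 0x89) (nat_lit 1) (p (nat_lit 0x101) (nat_lit 1) (p (nat_lit 0x111) (nat_lit 0) (p (nat_lit 0xd1) (nat_lit 1) (p (nat_lit 0x81) (nat_lit 0) (p (nat_lit 0x41) (nat_lit 1) (p (nat_lit 0x10a0b09890a9a) (nat_lit 0) (p (nat_lit 0x98a89088a1a) (nat_lit 0) (p (nat_lit 0x1090a0888079a) (nat_lit 0) (p (nat_lit 0x8898807871a) (nat_lit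 0) (p (nat_lit 0x8000000000800080787088a) (nat_lit 0) (p (nat_lit 0x8000000000800078706860a) (nat_lit 0) (p (nat_lit 0x10806860782) (nat_lit 0) (p (nat_lit 0x786058702) (nat_lit 0) (p (nat_lit 0x10705850482) (nat_lit 0) (p (nat_lit 0x685048402) (nat_lit 0) (p (nat_lit 0x16000c) (nat_lit 0) (p (nat_lit 0x60592) (nat_lit 0) (p (nat_lit 0x48512) (nat_lit 0) (p (nat_lit 0x50392) (nat_lit 0) (p (nat_lit 0x38312) (nat_lit 0) (p (nat_lit 0x40212) (nat_lit 0) (p (nat_lit 0x28192) (nat_lit 0) (p (nat_lit 0x30092) (nat_lit 0) (p (nat_lit 0x18012) (nat_lit 0) pn))))))))))))))))))))))))))))))))))) :=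
  Cl.node (nat_lit 0x119) (nat_lit 2) (by decide +kernel) (ClAll.succ (ClAll.succ ClAll.zero s193) n45)

def n64 : Cl (O (nat_lit 5)) (R (nat_lit 6353))
    (p (nat_lit 0x10d0e0c8c0d9a) (nat_lit 0) (p (nat_lit 0xc8d8c0b8d1a) (nat_lit 0) (p (nat_lit 0x10c0d0b8b0a9a) (nat_lit 0) (p (nat_lit 0xb8c8b0a8a1a) (nat_lit 0) (p (nat_lit 0x2a825800002a8258b0a8a0b8a) (nat_lit 0) (p (nat_lit 0x2a825800002a8258a8a09890a) (nat_lit 0) (p (nat_lit 0xb000c) (nat_lit 1) (p (nat_lit 0x200014) (nat_lit 0) (p (nat_lit 0x200004) (nat_lit 0) (p (nat_lit 0x109) (nat_lit 0) (p (nat_lit 0xc9) (nat_lit 1) (p (nat_lit 0x89) (nat_lit 1) (p (nat_lit 0x111) (nat_lit 1) (p (nat_lit 0xd1) (nat_lit 1) (p (nat_lit 0x81) (nat_lit 0) (p (nat_lit 0x41) (nat_lit 1) (p (nat_lit 0x10a0b09890a9a) (nat_lit 0) (p (nat_lit 0x98a89088a1a) (nat_lit 0) (p (nat_lit 0x1090a0888079a) (nat_lit 0) (p (nat_lit 0x8898807871a)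 (nat_lit 0) (p (nat_lit 0x8000000000800080787088a) (nat_lit 0) (p (nat_lit 0x8000000000800078706860a) (nat_lit 0) (p (nat_lit 0x10806860782) (nat_lit 0) (p (nat_lit 0x786058702) (nat_lit 0) (p (nat_lit 0x10705850482) (nat_lit 0) (p (nat_lit 0x685048402) (nat_lit 0) (p (nat_lit 0x16000c) (nat_lit 0) (p (nat_lit 0x60592) (nat_lit 0) (p (nat_lit 0x48512) (nat_lit 0) (p (nat_lit 0x50392) (nat_lit 0) (p (nat_lit 0x38312) (nat_lit 0) (p (nat_lit 0x40212) (nat_lit 0) (p (nat_lit 0x28192) (nat_lit 0) (p (nat_lit 0x30092) (nat_lit 0) (p (nat_lit 0x18012) (nat_lit 0) pn))))))))))))))))))))))))))))))))))) :=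
  Cl.node (nat_lit 0x101) (nat_lit 2) (by decide +kernel) (ClAll.succ (ClAll.succ ClAll.zero s205) s206)

def n65 : Cl (O (nat_lit 5)) (R (nat_lit 6353))
    (p (nat_lit 0x10d0e0c8c0d9a) (nat_lit 0) (p (nat_lit 0xc8d8c0b8d1a) (nat_lit 0) (p (nat_lit 0x10c0d0b8b0a9a) (nat_lit 0) (p (nat_lit 0xb8c8b0a8a1a) (nat_lit 0) (p (nat_lit 0x2a825800002a8258b0a8a0b8a) (nat_lit 0) (p (nat_lit 0x2a825800002a8258a8a09890a) (nat_lit 0) (p (nat_lit 0xb000c) (nat_lit 1) (p (nat_lit 0x200014) (nat_lit 0) (p (nat_lit 0x200004) (nat_lit 0) (p (nat_lit 0x109) (nat_lit 1) (p (nat_lit 0xc9) (nat_lit 1) (p (nat_lit 0x89) (nat_lit 1) (p (nat_lit 0x111) (nat_lit 1) (p (nat_lit 0xd1) (nat_lit 1) (p (nat_lit 0x81) (nat_lit 0) (p (nat_lit 0x41) (nat_lit 1) (p (nat_lit 0x10a0b09890a9a) (nat_lit 0) (p (nat_lit 0x98a89088a1a) (nat_lit 0) (p (nat_lit 0x1090a0888079a) (nat_lit 0) (p (nat_lit 0x8898807871a)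 (nat_lit 0) (p (nat_lit 0x8000000000800080787088a) (nat_lit 0) (p (nat_lit 0x8000000000800078706860a) (nat_lit 0) (p (nat_lit 0x10806860782) (nat_lit 0) (p (nat_lit 0x786058702) (nat_lit 0) (p (nat_lit 0x10705850482) (nat_lit 0) (p (nat_lit 0x685048402) (nat_lit 0) (p (nat_lit 0x16000c) (nat_lit 0) (p (nat_lit 0x60592) (nat_lit 0) (p (nat_lit 0x48512) (nat_lit 0) (p (nat_lit 0x50392) (nat_lit 0) (p (nat_lit 0x38312) (nat_lit 0) (p (nat_lit 0x40212) (nat_lit 0) (p (nat_lit 0x28192) (nat_lit 0) (p (nat_lit 0x30092) (nat_lit 0) (p (nat_lit 0x18012) (nat_lit 0) pn))))))))))))))))))))))))))))))))))) :=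
  Cl.node (nat_lit 0x41) (nat_lit 2) (by decide +kernel) (ClAll.succ (ClAll.succ ClAll.zero s210) s211)

def n66 : Cl (O (nat_lit 5)) (R (nat_lit 6353))
    (p (nat_lit 0x10d0e0c8c0d9a) (nat_lit 0) (p (nat_lit 0xc8d8c0b8d1a) (nat_lit 0) (p (nat_lit 0x10c0d0b8b0a9a) (nat_lit 0) (p (nat_lit 0xb8c8b0a8a1a) (nat_lit 0) (p (nat_lit 0x2a825800002a8258b0a8a0b8a) (nat_lit 0) (p (nat_lit 0x2a825800002a8258a8a09890a) (nat_lit 0) (p (nat_lit 0xb000c) (nat_lit 1) (p (nat_lit 0x200014) (nat_lit 0) (p (nat_lit 0x200004) (nat_lit 0) (p (nat_lit 0x111) (nat_lit 1) (p (nat_lit 0xd1) (nat_lit 1) (p (nat_lit 0xc9) (nat_lit 0) (p (nat_lit 0x119) (nat_lit 1) (p (nat_lit 0xc1) (nat_lit 0) (p (nat_lit 0x81) (nat_lit 1) (p (nat_lit 0x41) (nat_lit 1) (p (nat_lit 0x10a0b09890a9a) (nat_lit 0) (p (nat_lit 0x98a89088a1a) (nat_lit 0) (p (nat_lit 0x1090a0888079a) (nat_lit 0) (p (nat_lit 0x8898807871a)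 (nat_lit 0) (p (nat_lit 0x8000000000800080787088a) (nat_lit 0) (p (nat_lit 0x8000000000800078706860a) (nat_lit 0) (p (nat_lit 0x10806860782) (nat_lit 0) (p (nat_lit 0x786058702) (nat_lit 0) (p (nat_lit 0x10705850482) (nat_lit 0) (p (nat_lit 0x685048402) (nat_lit 0) (p (nat_lit 0x16000c) (nat_lit 0) (p (nat_lit 0x60592) (nat_lit 0) (p (nat_lit 0x48512) (nat_lit 0) (p (nat_lit 0x50392) (nat_lit 0) (p (nat_lit 0x38312) (nat_lit 0) (p (nat_lit 0x40212) (nat_lit 0) (p (nat_lit 0x28192) (nat_lit 0) (p (nat_lit 0x30092) (nat_lit 0) (p (nat_lit 0x18012) (nat_lit 0) pn))))))))))))))))))))))))))))))))))) :=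
  Cl.node (nat_lit 0x89) (nat_lit 2) (by decide +kernel) (ClAll.succ (ClAll.succ ClAll.zero s222) s223)

def n67 : Cl (O (nat_lit 5)) (R (nat_lit 6353))
    (p (nat_lit 0xd1) (nat_lit 0) (p (nat_lit 0x10d0e0c8c0d9a) (nat_lit 0) (p (nat_lit 0xc8d8c0b8d1a) (nat_lit 0) (p (nat_lit 0x10c0d0b8b0a9a) (nat_lit 0) (p (nat_lit 0xb8c8b0a8a1a) (nat_lit 0) (p (nat_lit 0x2a825800002a8258b0a8a0b8a) (nat_lit 0) (p (nat_lit 0x2a825800002a8258a8a09890a) (nat_lit 0) (p (nat_lit 0xb000c) (nat_lit 1) (p (nat_lit 0x200014) (nat_lit 0) (p (nat_lit 0x200004) (nat_lit 0) (p (nat_lit 0x109) (nat_lit 1) (p (nat_lit 0xc9) (nat_lit 1) (p (nat_lit 0x119) (nat_lit 1) (p (nat_lit 0xc1) (nat_lit 0) (p (nat_lit 0x81) (nat_lit 1) (p (nat_lit 0x41) (nat_lit 1) (p (nat_lit 0x10a0b09890a9a) (nat_lit 0) (p (nat_lit 0x98a89088a1a) (nat_lit 0) (p (nat_lit 0x1090a0888079a) (nat_lit 0) (p (nat_lit 0x8898807871a)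 (nat_lit 0) (p (nat_lit 0x8000000000800080787088a) (nat_lit 0) (p (nat_lit 0x8000000000800078706860a) (nat_lit 0) (p (nat_lit 0x10806860782) (nat_lit 0) (p (nat_lit 0x786058702) (nat_lit 0) (p (nat_lit 0x10705850482) (nat_lit 0) (p (nat_lit 0x685048402) (nat_lit 0) (p (nat_lit 0x16000c) (nat_lit 0) (p (nat_lit 0x60592) (nat_lit 0) (p (nat_lit 0x48512) (nat_lit 0) (p (nat_lit 0x50392) (nat_lit 0) (p (nat_lit 0x38312) (nat_lit 0) (p (nat_lit 0x40212) (nat_lit 0) (p (nat_lit 0x28192) (nat_lit 0) (p (nat_lit 0x30092) (nat_lit 0) (p (nat_lit 0x18012) (nat_lit 0) pn))))))))))))))))))))))))))))))))))) :=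
  Cl.node (nat_lit 0x41) (nat_lit 2) (by decide +kernel) (ClAll.succ (ClAll.succ ClAll.zero s232) s233)

def n68 : Cl (O (nat_lit 5)) (R (nat_lit 6353))
    (p (nat_lit 0x10c0d0b8b0a9a) (nat_lit 0) (p (nat_lit 0xb8c8b0a8a1a) (nat_lit 0) (p (nat_lit 0x2a825800002a8258b0a8a0b8a) (nat_lit 0) (p (nat_lit 0x2a825800002a8258a8a09890a) (nat_lit 0) (p (nat_lit 0xb000c) (nat_lit 1) (p (nat_lit 0x111) (nat_lit 0) (p (nat_lit 0x200014) (nat_lit 0) (p (nat_lit 0x200004) (nat_lit 0) (p (nat_lit 0xc9) (nat_lit 0) (p (nat_lit 0x81) (nat_lit 0) (p (nat_lit 0x101) (nat_lit 1) (p (nat_lit 0x119) (nat_lit 0) (p (nat_lit 0xd1) (nat_lit 0) (p (nat_lit 0x89) (nat_lit 0) (p (nat_lit 0x41) (nat_lit 0) (p (nat_lit 0x10a0b09890a9a) (nat_lit 0) (p (nat_lit 0x98a89088a1a) (nat_lit 0) (p (nat_lit 0x1090a0888079a) (nat_lit 0) (p (nat_lit 0x8898807871a) (nat_lit 0) (p (nat_lit 0x8000000000800080787088a)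 (nat_lit 0) (p (nat_lit 0x8000000000800078706860a) (nat_lit 0) (p (nat_lit 0x10806860782) (nat_lit 0) (p (nat_lit 0x786058702) (nat_lit 0) (p (nat_lit 0x10705850482) (nat_lit 0) (p (nat_lit 0x685048402) (nat_lit 0) (p (nat_lit 0x16000c) (nat_lit 0) (p (nat_lit 0x60592) (nat_lit 0) (p (nat_lit 0x48512) (nat_lit 0) (p (nat_lit 0x50392) (nat_lit 0) (p (nat_lit 0x38312) (nat_lit 0) (p (nat_lit 0x40212) (nat_lit 0) (p (nat_lit 0x28192) (nat_lit 0) (p (nat_lit 0x30092) (nat_lit 0) (p (nat_lit 0x18012) (nat_lit 0) pn)))))))))))))))))))))))))))))))))) :=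
  Cl.node (nat_lit 0xc8d8c0b8d1a) (nat_lit 1) (by decide +kernel) (ClAll.succ ClAll.zero n46)

def n69 : Cl (O (nat_lit 5)) (R (nat_lit 6353))
    (p (nat_lit 0x10c0d0b8b0a9a) (nat_lit 0) (p (nat_lit 0xb8c8b0a8a1a) (nat_lit 0) (p (nat_lit 0x2a825800002a8258b0a8a0b8a) (nat_lit 0) (p (nat_lit 0x2a825800002a8258a8a09890a) (nat_lit 0) (p (nat_lit 0xb000c) (nat_lit 1) (p (nat_lit 0x111) (nat_lit 0) (p (nat_lit 0x200014) (nat_lit 0) (p (nat_lit 0x200004) (nat_lit 0) (p (nat_lit 0xc9) (nat_lit 1) (p (nat_lit 0x81) (nat_lit 0) (p (nat_lit 0x101) (nat_lit 1) (p (nat_lit 0x119) (nat_lit 0) (p (nat_lit 0xd1) (nat_lit 0) (p (nat_lit 0x89) (nat_lit 0) (p (nat_lit 0x41) (nat_lit 0) (p (nat_lit 0x10a0b09890a9a) (nat_lit 0) (p (nat_lit 0x98a89088a1a) (nat_lit 0) (p (nat_lit 0x1090a0888079a) (nat_lit 0) (p (nat_lit 0x8898807871a) (nat_lit 0) (p (nat_lit 0x8000000000800080787088a) (nat_lit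 0) (p (nat_lit 0x8000000000800078706860a) (nat_lit 0) (p (nat_lit 0x10806860782) (nat_lit 0) (p (nat_lit 0x786058702) (nat_lit 0) (p (nat_lit 0x10705850482) (nat_lit 0) (p (nat_lit 0x685048402) (nat_lit 0) (p (nat_lit 0x16000c) (nat_lit 0) (p (nat_lit 0x60592) (nat_lit 0) (p (nat_lit 0x48512) (nat_lit 0) (p (nat_lit 0x50392) (nat_lit 0) (p (nat_lit 0x38312) (nat_lit 0) (p (nat_lit 0x40212) (nat_lit 0) (p (nat_lit 0x28192) (nat_lit 0) (p (nat_lit 0x30092) (nat_lit 0) (p (nat_lit 0x18012) (nat_lit 0) pn)))))))))))))))))))))))))))))))))) :=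
  Cl.node (nat_lit 0xc8d8c0b8d1a) (nat_lit 1) (by decide +kernel) (ClAll.succ ClAll.zero n47)

def n70 : Cl (O (nat_lit 5)) (R (nat_lit 6353))
    (p (nat_lit 0x10c0d0b8b0a9a) (nat_lit 0) (p (nat_lit 0xb8c8b0a8a1a) (nat_lit 0) (p (nat_lit 0x2a825800002a8258b0a8a0b8a) (nat_lit 0) (p (nat_lit 0x2a825800002a8258a8a09890a) (nat_lit 0) (p (nat_lit 0xb000c) (nat_lit 1) (p (nat_lit 0x200014) (nat_lit 0) (p (nat_lit 0x200004) (nat_lit 0) (p (nat_lit 0xc9) (nat_lit 0) (p (nat_lit 0xc1) (nat_lit 0) (p (nat_lit 0x81) (nat_lit 1) (p (nat_lit 0x101) (nat_lit 1) (p (nat_lit 0x119) (nat_lit 0) (p (nat_lit 0xd1) (nat_lit 0) (p (nat_lit 0x89) (nat_lit 0) (p (nat_lit 0x41) (nat_lit 0) (p (nat_lit 0x10a0b09890a9a) (nat_lit 0) (p (nat_lit 0x98a89088a1a) (nat_lit 0) (p (nat_lit 0x1090a0888079a) (nat_lit 0) (p (nat_lit 0x8898807871a) (nat_lit 0) (p (nat_lit 0x8000000000800080787088a) (nat_lit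 0) (p (nat_lit 0x8000000000800078706860a) (nat_lit 0) (p (nat_lit 0x10806860782) (nat_lit 0) (p (nat_lit 0x786058702) (nat_lit 0) (p (nat_lit 0x10705850482) (nat_lit 0) (p (nat_lit 0x685048402) (nat_lit 0) (p (nat_lit 0x16000c) (nat_lit 0) (p (nat_lit 0x60592) (nat_lit 0) (p (nat_lit 0x48512) (nat_lit 0) (p (nat_lit 0x50392) (nat_lit 0) (p (nat_lit 0x38312) (nat_lit 0) (p (nat_lit 0x40212) (nat_lit 0) (p (nat_lit 0x28192) (nat_lit 0) (p (nat_lit 0x30092) (nat_lit 0) (p (nat_lit 0x18012) (nat_lit 0) pn)))))))))))))))))))))))))))))))))) :=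
  Cl.node (nat_lit 0xc8d8c0b8d1a) (nat_lit 1) (by decide +kernel) (ClAll.succ ClAll.zero n48)

def n71 : Cl (O (nat_lit 5)) (R (nat_lit 6353))
    (p (nat_lit 0xc8d8c0b8d1a) (nat_lit 0) (p (nat_lit 0x10c0d0b8b0a9a) (nat_lit 0) (p (nat_lit 0xb8c8b0a8a1a) (nat_lit 0) (p (nat_lit 0x2a825800002a8258b0a8a0b8a) (nat_lit 0) (p (nat_lit 0x2a825800002a8258a8a09890a) (nat_lit 0) (p (nat_lit 0xb000c) (nat_lit 1) (p (nat_lit 0x200014) (nat_lit 0) (p (nat_lit 0x200004) (nat_lit 0) (p (nat_lit 0x109) (nat_lit 1) (p (nat_lit 0xc9) (nat_lit 1) (p (nat_lit 0xc1) (nat_lit 0) (p (nat_lit 0x119) (nat_lit 1) (p (nat_lit 0xd1) (nat_lit 0) (p (nat_lit 0x89) (nat_lit 0) (p (nat_lit 0x41) (nat_lit 0) (p (nat_lit 0x10a0b09890a9a) (nat_lit 0) (p (nat_lit 0x98a89088a1a) (nat_lit 0) (p (nat_lit 0x1090a0888079a) (nat_lit 0) (p (nat_lit 0x8898807871a) (nat_lit 0) (p (nat_lit 0x8000000000800080787088a)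 (nat_lit 0) (p (nat_lit 0x8000000000800078706860a) (nat_lit 0) (p (nat_lit 0x10806860782) (nat_lit 0) (p (nat_lit 0x786058702) (nat_lit 0) (p (nat_lit 0x10705850482) (nat_lit 0) (p (nat_lit 0x685048402) (nat_lit 0) (p (nat_lit 0x16000c) (nat_lit 0) (p (nat_lit 0x60592) (nat_lit 0) (p (nat_lit 0x48512) (nat_lit 0) (p (nat_lit 0x50392) (nat_lit 0) (p (nat_lit 0x38312) (nat_lit 0) (p (nat_lit 0x40212) (nat_lit 0) (p (nat_lit 0x28192) (nat_lit 0) (p (nat_lit 0x30092) (nat_lit 0) (p (nat_lit 0x18012) (nat_lit 0) pn)))))))))))))))))))))))))))))))))) :=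
  Cl.node (nat_lit 0x10d0e0c8c0d9a) (nat_lit 1) (by decide +kernel) (ClAll.succ ClAll.zero n49)

def n72 : Cl (O (nat_lit 5)) (R (nat_lit 6353))
    (p (nat_lit 0x10c0d0b8b0a9a) (nat_lit 0) (p (nat_lit 0xb8c8b0a8a1a) (nat_lit 0) (p (nat_lit 0x2a825800002a8258b0a8a0b8a) (nat_lit 0) (p (nat_lit 0x2a825800002a8258a8a09890a) (nat_lit 0) (p (nat_lit 0xb000c) (nat_lit 1) (p (nat_lit 0x200014) (nat_lit 0) (p (nat_lit 0x200004) (nat_lit 0) (p (nat_lit 0x109) (nat_lit 1) (p (nat_lit 0x101) (nat_lit 0) (p (nat_lit 0x81) (nat_lit 1) (p (nat_lit 0xc1) (nat_lit 1) (p (nat_lit 0x119) (nat_lit 1) (p (nat_lit 0xd1) (nat_lit 0) (p (nat_lit 0x89) (nat_lit 0) (p (nat_lit 0x41) (nat_lit 0) (p (nat_lit 0x10a0b09890a9a) (nat_lit 0) (p (nat_lit 0x98a89088a1a) (nat_lit 0) (p (nat_lit 0x1090a0888079a) (nat_lit 0) (p (nat_lit 0x8898807871a) (nat_lit 0) (p (nat_lit 0x8000000000800080787088a) (nat_lit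 0) (p (nat_lit 0x8000000000800078706860a) (nat_lit 0) (p (nat_lit 0x10806860782) (nat_lit 0) (p (nat_lit 0x786058702) (nat_lit 0) (p (nat_lit 0x10705850482) (nat_lit 0) (p (nat_lit 0x685048402) (nat_lit 0) (p (nat_lit 0x16000c) (nat_lit 0) (p (nat_lit 0x60592) (nat_lit 0) (p (nat_lit 0x48512) (nat_lit 0) (p (nat_lit 0x50392) (nat_lit 0) (p (nat_lit 0x38312) (nat_lit 0) (p (nat_lit 0x40212) (nat_lit 0) (p (nat_lit 0x28192) (nat_lit 0) (p (nat_lit 0x30092) (nat_lit 0) (p (nat_lit 0x18012) (nat_lit 0) pn)))))))))))))))))))))))))))))))))) :=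
  Cl.node (nat_lit 0xc8d8c0b8d1a) (nat_lit 1) (by decide +kernel) (ClAll.succ ClAll.zero n50)

def n73 : Cl (O (nat_lit 5)) (R (nat_lit 6353))
    (p (nat_lit 0x10c0d0b8b0a9a) (nat_lit 0) (p (nat_lit 0xb8c8b0a8a1a) (nat_lit 0) (p (nat_lit 0x2a825800002a8258b0a8a0b8a) (nat_lit 0) (p (nat_lit 0x2a825800002a8258a8a09890a) (nat_lit 0) (p (nat_lit 0xb000c) (nat_lit 1) (p (nat_lit 0x119) (nat_lit 0) (p (nat_lit 0x200014) (nat_lit 0) (p (nat_lit 0x200004) (nat_lit 0) (p (nat_lit 0xc1) (nat_lit 0) (p (nat_lit 0x81) (nat_lit 1) (p (nat_lit 0x101) (nat_lit 1) (p (nat_lit 0x111) (nat_lit 0) (p (nat_lit 0xd1) (nat_lit 1) (p (nat_lit 0x89) (nat_lit 0) (p (nat_lit 0x41) (nat_lit 0) (p (nat_lit 0x10a0b09890a9a) (nat_lit 0) (p (nat_lit 0x98a89088a1a) (nat_lit 0) (p (nat_lit 0x1090a0888079a) (nat_lit 0) (p (nat_lit 0x8898807871a) (nat_lit 0) (p (nat_lit 0x8000000000800080787088a) (nat_lit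 0) (p (nat_lit 0x8000000000800078706860a) (nat_lit 0) (p (nat_lit 0x10806860782) (nat_lit 0) (p (nat_lit 0x786058702) (nat_lit 0) (p (nat_lit 0x10705850482) (nat_lit 0) (p (nat_lit 0x685048402) (nat_lit 0) (p (nat_lit 0x16000c) (nat_lit 0) (p (nat_lit 0x60592) (nat_lit 0) (p (nat_lit 0x48512) (nat_lit 0) (p (nat_lit 0x50392) (nat_lit 0) (p (nat_lit 0x38312) (nat_lit 0) (p (nat_lit 0x40212) (nat_lit 0) (p (nat_lit 0x28192) (nat_lit 0) (p (nat_lit 0x30092) (nat_lit 0) (p (nat_lit 0x18012) (nat_lit 0) pn)))))))))))))))))))))))))))))))))) :=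
  Cl.node (nat_lit 0xc8d8c0b8d1a) (nat_lit 1) (by decide +kernel) (ClAll.succ ClAll.zero n51)

def n74 : Cl (O (nat_lit 5)) (R (nat_lit 6353))
    (p (nat_lit 0xc8d8c0b8d1a) (nat_lit 0) (p (nat_lit 0x10c0d0b8b0a9a) (nat_lit 0) (p (nat_lit 0xb8c8b0a8a1a) (nat_lit 0) (p (nat_lit 0x2a825800002a8258b0a8a0b8a) (nat_lit 0) (p (nat_lit 0x2a825800002a8258a8a09890a) (nat_lit 0) (p (nat_lit 0xb000c) (nat_lit 1) (p (nat_lit 0x200014) (nat_lit 0) (p (nat_lit 0x200004) (nat_lit 0) (p (nat_lit 0x111) (nat_lit 1) (p (nat_lit 0xd1) (nat_lit 1) (p (nat_lit 0xc1) (nat_lit 0) (p (nat_lit 0x119) (nat_lit 1) (p (nat_lit 0xc9) (nat_lit 0) (p (nat_lit 0x89) (nat_lit 1) (p (nat_lit 0x41) (nat_lit 0) (p (nat_lit 0x10a0b09890a9a) (nat_lit 0) (p (nat_lit 0x98a89088a1a) (nat_lit 0) (p (nat_lit 0x1090a0888079a) (nat_lit 0) (p (nat_lit 0x8898807871a) (nat_lit 0) (p (nat_lit 0x8000000000800080787088a)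 (nat_lit 0) (p (nat_lit 0x8000000000800078706860a) (nat_lit 0) (p (nat_lit 0x10806860782) (nat_lit 0) (p (nat_lit 0x786058702) (nat_lit 0) (p (nat_lit 0x10705850482) (nat_lit 0) (p (nat_lit 0x685048402) (nat_lit 0) (p (nat_lit 0x16000c) (nat_lit 0) (p (nat_lit 0x60592) (nat_lit 0) (p (nat_lit 0x48512) (nat_lit 0) (p (nat_lit 0x50392) (nat_lit 0) (p (nat_lit 0x38312) (nat_lit 0) (p (nat_lit 0x40212) (nat_lit 0) (p (nat_lit 0x28192) (nat_lit 0) (p (nat_lit 0x30092) (nat_lit 0) (p (nat_lit 0x18012) (nat_lit 0) pn)))))))))))))))))))))))))))))))))) :=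
  Cl.node (nat_lit 0x10d0e0c8c0d9a) (nat_lit 1) (by decide +kernel) (ClAll.succ ClAll.zero n52)

def n75 : Cl (O (nat_lit 5)) (R (nat_lit 6353))
    (p (nat_lit 0x10c0d0b8b0a9a) (nat_lit 0) (p (nat_lit 0xb8c8b0a8a1a) (nat_lit 0) (p (nat_lit 0x2a825800002a8258b0a8a0b8a) (nat_lit 0) (p (nat_lit 0x2a825800002a8258a8a09890a) (nat_lit 0) (p (nat_lit 0xb000c) (nat_lit 1) (p (nat_lit 0x111) (nat_lit 0) (p (nat_lit 0x200014) (nat_lit 0) (p (nat_lit 0x200004) (nat_lit 0) (p (nat_lit 0x89) (nat_lit 0) (p (nat_lit 0x109) (nat_lit 1) (p (nat_lit 0x101) (nat_lit 0) (p (nat_lit 0x119) (nat_lit 0) (p (nat_lit 0xd1) (nat_lit 0) (p (nat_lit 0x81) (nat_lit 0) (p (nat_lit 0x41) (nat_lit 1) (p (nat_lit 0x10a0b09890a9a) (nat_lit 0) (p (nat_lit 0x98a89088a1a) (nat_lit 0) (p (nat_lit 0x1090a0888079a) (nat_lit 0) (p (nat_lit 0x8898807871a) (nat_lit 0) (p (nat_lit 0x8000000000800080787088a) (nat_lit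 0) (p (nat_lit 0x8000000000800078706860a) (nat_lit 0) (p (nat_lit 0x10806860782) (nat_lit 0) (p (nat_lit 0x786058702) (nat_lit 0) (p (nat_lit 0x10705850482) (nat_lit 0) (p (nat_lit 0x685048402) (nat_lit 0) (p (nat_lit 0x16000c) (nat_lit 0) (p (nat_lit 0x60592) (nat_lit 0) (p (nat_lit 0x48512) (nat_lit 0) (p (nat_lit 0x50392) (nat_lit 0) (p (nat_lit 0x38312) (nat_lit 0) (p (nat_lit 0x40212) (nat_lit 0) (p (nat_lit 0x28192) (nat_lit 0) (p (nat_lit 0x30092) (nat_lit 0) (p (nat_lit 0x18012) (nat_lit 0) pn)))))))))))))))))))))))))))))))))) :=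
  Cl.node (nat_lit 0xc8d8c0b8d1a) (nat_lit 1) (by decide +kernel) (ClAll.succ ClAll.zero n53)

def n76 : Cl (O (nat_lit 5)) (R (nat_lit 6353))
    (p (nat_lit 0x10c0d0b8b0a9a) (nat_lit 0) (p (nat_lit 0xb8c8b0a8a1a) (nat_lit 0) (p (nat_lit 0x2a825800002a8258b0a8a0b8a) (nat_lit 0) (p (nat_lit 0x2a825800002a8258a8a09890a) (nat_lit 0) (p (nat_lit 0xb000c) (nat_lit 1) (p (nat_lit 0x200014) (nat_lit 0) (p (nat_lit 0x200004) (nat_lit 0) (p (nat_lit 0xc9) (nat_lit 0) (p (nat_lit 0x89) (nat_lit 1) (p (nat_lit 0x109) (nat_lit 1) (p (nat_lit 0x101) (nat_lit 0) (p (nat_lit 0x119) (nat_lit 0) (p (nat_lit 0xd1) (nat_lit 0) (p (nat_lit 0x81) (nat_lit 0) (p (nat_lit 0x41) (nat_lit 1) (p (nat_lit 0x10a0b09890a9a) (nat_lit 0) (p (nat_lit 0x98a89088a1a) (nat_lit 0) (p (nat_lit 0x1090a0888079a) (nat_lit 0) (p (nat_lit 0x8898807871a) (nat_lit 0) (p (nat_lit 0x8000000000800080787088a) (nat_lit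 0) (p (nat_lit 0x8000000000800078706860a) (nat_lit 0) (p (nat_lit 0x10806860782) (nat_lit 0) (p (nat_lit 0x786058702) (nat_lit 0) (p (nat_lit 0x10705850482) (nat_lit 0) (p (nat_lit 0x685048402) (nat_lit 0) (p (nat_lit 0x16000c) (nat_lit 0) (p (nat_lit 0x60592) (nat_lit 0) (p (nat_lit 0x48512) (nat_lit 0) (p (nat_lit 0x50392) (nat_lit 0) (p (nat_lit 0x38312) (nat_lit 0) (p (nat_lit 0x40212) (nat_lit 0) (p (nat_lit 0x28192) (nat_lit 0) (p (nat_lit 0x30092) (nat_lit 0) (p (nat_lit 0x18012) (nat_lit 0) pn)))))))))))))))))))))))))))))))))) :=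
  Cl.node (nat_lit 0xc8d8c0b8d1a) (nat_lit 1) (by decide +kernel) (ClAll.succ ClAll.zero n54)

def n77 : Cl (O (nat_lit 5)) (R (nat_lit 6353))
    (p (nat_lit 0x10c0d0b8b0a9a) (nat_lit 0) (p (nat_lit 0xb8c8b0a8a1a) (nat_lit 0) (p (nat_lit 0x2a825800002a8258b0a8a0b8a) (nat_lit 0) (p (nat_lit 0x2a825800002a8258a8a09890a) (nat_lit 0) (p (nat_lit 0xb000c) (nat_lit 1) (p (nat_lit 0x200014) (nat_lit 0) (p (nat_lit 0x200004) (nat_lit 0) (p (nat_lit 0xc9) (nat_lit 1) (p (nat_lit 0x89) (nat_lit 1) (p (nat_lit 0xc1) (nat_lit 0) (p (nat_lit 0x101) (nat_lit 1) (p (nat_lit 0x119) (nat_lit 0) (p (nat_lit 0xd1) (nat_lit 0) (p (nat_lit 0x81) (nat_lit 0) (p (nat_lit 0x41) (nat_lit 1) (p (nat_lit 0x10a0b09890a9a) (nat_lit 0) (p (nat_lit 0x98a89088a1a) (nat_lit 0) (p (nat_lit 0x1090a0888079a) (nat_lit 0) (p (nat_lit 0x8898807871a) (nat_lit 0) (p (nat_lit 0x8000000000800080787088a) (nat_lit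 0) (p (nat_lit 0x8000000000800078706860a) (nat_lit 0) (p (nat_lit 0x10806860782) (nat_lit 0) (p (nat_lit 0x786058702) (nat_lit 0) (p (nat_lit 0x10705850482) (nat_lit 0) (p (nat_lit 0x685048402) (nat_lit 0) (p (nat_lit 0x16000c) (nat_lit 0) (p (nat_lit 0x60592) (nat_lit 0) (p (nat_lit 0x48512) (nat_lit 0) (p (nat_lit 0x50392) (nat_lit 0) (p (nat_lit 0x38312) (nat_lit 0) (p (nat_lit 0x40212) (nat_lit 0) (p (nat_lit 0x28192) (nat_lit 0) (p (nat_lit 0x30092) (nat_lit 0) (p (nat_lit 0x18012) (nat_lit 0) pn)))))))))))))))))))))))))))))))))) :=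
  Cl.node (nat_lit 0xc8d8c0b8d1a) (nat_lit 1) (by decide +kernel) (ClAll.succ ClAll.zero n55)

def n78 : Cl (O (nat_lit 5)) (R (nat_lit 6353))
    (p (nat_lit 0xc8d8c0b8d1a) (nat_lit 0) (p (nat_lit 0x10c0d0b8b0a9a) (nat_lit 0) (p (nat_lit 0xb8c8b0a8a1a) (nat_lit 0) (p (nat_lit 0x2a825800002a8258b0a8a0b8a) (nat_lit 0) (p (nat_lit 0x2a825800002a8258a8a09890a) (nat_lit 0) (p (nat_lit 0xb000c) (nat_lit 1) (p (nat_lit 0x200014) (nat_lit 0) (p (nat_lit 0x200004) (nat_lit 0) (p (nat_lit 0x89) (nat_lit 1) (p (nat_lit 0xc1) (nat_lit 1) (p (nat_lit 0x101) (nat_lit 1) (p (nat_lit 0x119) (nat_lit 0) (p (nat_lit 0xd1) (nat_lit 0) (p (nat_lit 0x81) (nat_lit 0) (p (nat_lit 0x41) (nat_lit 1) (p (nat_lit 0x10a0b09890a9a) (nat_lit 0) (p (nat_lit 0x98a89088a1a) (nat_lit 0) (p (nat_lit 0x1090a0888079a) (nat_lit 0) (p (nat_lit 0x8898807871a) (nat_lit 0) (p (nat_lit 0x8000000000800080787088a)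 (nat_lit 0) (p (nat_lit 0x8000000000800078706860a) (nat_lit 0) (p (nat_lit 0x10806860782) (nat_lit 0) (p (nat_lit 0x786058702) (nat_lit 0) (p (nat_lit 0x10705850482) (nat_lit 0) (p (nat_lit 0x685048402) (nat_lit 0) (p (nat_lit 0x16000c) (nat_lit 0) (p (nat_lit 0x60592) (nat_lit 0) (p (nat_lit 0x48512) (nat_lit 0) (p (nat_lit 0x50392) (nat_lit 0) (p (nat_lit 0x38312) (nat_lit 0) (p (nat_lit 0x40212) (nat_lit 0) (p (nat_lit 0x28192) (nat_lit 0) (p (nat_lit 0x30092) (nat_lit 0) (p (nat_lit 0x18012) (nat_lit 0) pn)))))))))))))))))))))))))))))))))) :=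
  Cl.node (nat_lit 0x10d0e0c8c0d9a) (nat_lit 1) (by decide +kernel) (ClAll.succ ClAll.zero n56)

def n79 : Cl (O (nat_lit 5)) (R (nat_lit 6353))
    (p (nat_lit 0x10c0d0b8b0a9a) (nat_lit 0) (p (nat_lit 0xb8c8b0a8a1a) (nat_lit 0) (p (nat_lit 0x2a825800002a8258b0a8a0b8a) (nat_lit 0) (p (nat_lit 0x2a825800002a8258a8a09890a) (nat_lit 0) (p (nat_lit 0xb000c) (nat_lit 1) (p (nat_lit 0x200014) (nat_lit 0) (p (nat_lit 0x200004) (nat_lit 0) (p (nat_lit 0x109) (nat_lit 0) (p (nat_lit 0x89) (nat_lit 1) (p (nat_lit 0xc9) (nat_lit 1) (p (nat_lit 0xc1) (nat_lit 0) (p (nat_lit 0x119) (nat_lit 1) (p (nat_lit 0xd1) (nat_lit 0) (p (nat_lit 0x81) (nat_lit 0) (p (nat_lit 0x41) (nat_lit 1) (p (nat_lit 0x10a0b09890a9a) (nat_lit 0) (p (nat_lit 0x98a89088a1a) (nat_lit 0) (p (nat_lit 0x1090a0888079a) (nat_lit 0) (p (nat_lit 0x8898807871a) (nat_lit 0) (p (nat_lit 0x8000000000800080787088a) (nat_lit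 0) (p (nat_lit 0x8000000000800078706860a) (nat_lit 0) (p (nat_lit 0x10806860782) (nat_lit 0) (p (nat_lit 0x786058702) (nat_lit 0) (p (nat_lit 0x10705850482) (nat_lit 0) (p (nat_lit 0x685048402) (nat_lit 0) (p (nat_lit 0x16000c) (nat_lit 0) (p (nat_lit 0x60592) (nat_lit 0) (p (nat_lit 0x48512) (nat_lit 0) (p (nat_lit 0x50392) (nat_lit 0) (p (nat_lit 0x38312) (nat_lit 0) (p (nat_lit 0x40212) (nat_lit 0) (p (nat_lit 0x28192) (nat_lit 0) (p (nat_lit 0x30092) (nat_lit 0) (p (nat_lit 0x18012) (nat_lit 0) pn)))))))))))))))))))))))))))))))))) :=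
  Cl.node (nat_lit 0xc8d8c0b8d1a) (nat_lit 1) (by decide +kernel) (ClAll.succ ClAll.zero n57)

def n80 : Cl (O (nat_lit 5)) (R (nat_lit 6353))
    (p (nat_lit 0x10c0d0b8b0a9a) (nat_lit 0) (p (nat_lit 0xb8c8b0a8a1a) (nat_lit 0) (p (nat_lit 0x2a825800002a8258b0a8a0b8a) (nat_lit 0) (p (nat_lit 0x2a825800002a8258a8a09890a) (nat_lit 0) (p (nat_lit 0xb000c) (nat_lit 1) (p (nat_lit 0x200014) (nat_lit 0) (p (nat_lit 0x200004) (nat_lit 0) (p (nat_lit 0x109) (nat_lit 1) (p (nat_lit 0x89) (nat_lit 1) (p (nat_lit 0xc9) (nat_lit 1) (p (nat_lit 0xc1) (nat_lit 0) (p (nat_lit 0x119) (nat_lit 1) (p (nat_lit 0xd1) (nat_lit 0) (p (nat_lit 0x81) (nat_lit 0) (p (nat_lit 0x41) (nat_lit 1) (p (nat_lit 0x10a0b09890a9a) (nat_lit 0) (p (nat_lit 0x98a89088a1a) (nat_lit 0) (p (nat_lit 0x1090a0888079a) (nat_lit 0) (p (nat_lit 0x8898807871a) (nat_lit 0) (p (nat_lit 0x8000000000800080787088a) (nat_lit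 0) (p (nat_lit 0x8000000000800078706860a) (nat_lit 0) (p (nat_lit 0x10806860782) (nat_lit 0) (p (nat_lit 0x786058702) (nat_lit 0) (p (nat_lit 0x10705850482) (nat_lit 0) (p (nat_lit 0x685048402) (nat_lit 0) (p (nat_lit 0x16000c) (nat_lit 0) (p (nat_lit 0x60592) (nat_lit 0) (p (nat_lit 0x48512) (nat_lit 0) (p (nat_lit 0x50392) (nat_lit 0) (p (nat_lit 0x38312) (nat_lit 0) (p (nat_lit 0x40212) (nat_lit 0) (p (nat_lit 0x28192) (nat_lit 0) (p (nat_lit 0x30092) (nat_lit 0) (p (nat_lit 0x18012) (nat_lit 0) pn)))))))))))))))))))))))))))))))))) :=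
  Cl.node (nat_lit 0xc8d8c0b8d1a) (nat_lit 1) (by decide +kernel) (ClAll.succ ClAll.zero n58)

def n81 : Cl (O (nat_lit 5)) (R (nat_lit 6353))
    (p (nat_lit 0x10c0d0b8b0a9a) (nat_lit 0) (p (nat_lit 0xb8c8b0a8a1a) (nat_lit 0) (p (nat_lit 0x2a825800002a8258b0a8a0b8a) (nat_lit 0) (p (nat_lit 0x2a825800002a8258a8a09890a) (nat_lit 0) (p (nat_lit 0xb000c) (nat_lit 1) (p (nat_lit 0x200014) (nat_lit 0) (p (nat_lit 0x200004) (nat_lit 0) (p (nat_lit 0x109) (nat_lit 0) (p (nat_lit 0x89) (nat_lit 1) (p (nat_lit 0x101) (nat_lit 0) (p (nat_lit 0xc1) (nat_lit 1) (p (nat_lit 0x119) (nat_lit 1) (p (nat_lit 0xd1) (nat_lit 0) (p (nat_lit 0x81) (nat_lit 0) (p (nat_lit 0x41) (nat_lit 1) (p (nat_lit 0x10a0b09890a9a) (nat_lit 0) (p (nat_lit 0x98a89088a1a) (nat_lit 0) (p (nat_lit 0x1090a0888079a) (nat_lit 0) (p (nat_lit 0x8898807871a) (nat_lit 0) (p (nat_lit 0x8000000000800080787088a) (nat_lit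 0) (p (nat_lit 0x8000000000800078706860a) (nat_lit 0) (p (nat_lit 0x10806860782) (nat_lit 0) (p (nat_lit 0x786058702) (nat_lit 0) (p (nat_lit 0x10705850482) (nat_lit 0) (p (nat_lit 0x685048402) (nat_lit 0) (p (nat_lit 0x16000c) (nat_lit 0) (p (nat_lit 0x60592) (nat_lit 0) (p (nat_lit 0x48512) (nat_lit 0) (p (nat_lit 0x50392) (nat_lit 0) (p (nat_lit 0x38312) (nat_lit 0) (p (nat_lit 0x40212) (nat_lit 0) (p (nat_lit 0x28192) (nat_lit 0) (p (nat_lit 0x30092) (nat_lit 0) (p (nat_lit 0x18012) (nat_lit 0) pn)))))))))))))))))))))))))))))))))) :=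
  Cl.node (nat_lit 0xc8d8c0b8d1a) (nat_lit 1) (by decide +kernel) (ClAll.succ ClAll.zero n59)

def n82 : Cl (O (nat_lit 5)) (R (nat_lit 6353))
    (p (nat_lit 0x10c0d0b8b0a9a) (nat_lit 0) (p (nat_lit 0xb8c8b0a8a1a) (nat_lit 0) (p (nat_lit 0x2a825800002a8258b0a8a0b8a) (nat_lit 0) (p (nat_lit 0x2a825800002a8258a8a09890a) (nat_lit 0) (p (nat_lit 0xb000c) (nat_lit 1) (p (nat_lit 0x200014) (nat_lit 0) (p (nat_lit 0x200004) (nat_lit 0) (p (nat_lit 0x109) (nat_lit 1) (p (nat_lit 0x89) (nat_lit 1) (p (nat_lit 0x101) (nat_lit 0) (p (nat_lit 0xc1) (nat_lit 1) (p (nat_lit 0x119) (nat_lit 1) (p (nat_lit 0xd1) (nat_lit 0) (p (nat_lit 0x81) (nat_lit 0) (p (nat_lit 0x41) (nat_lit 1) (p (nat_lit 0x10a0b09890a9a) (nat_lit 0) (p (nat_lit 0x98a89088a1a) (nat_lit 0) (p (nat_lit 0x1090a0888079a) (nat_lit 0) (p (nat_lit 0x8898807871a) (nat_lit 0) (p (nat_lit 0x8000000000800080787088a) (nat_lit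 0) (p (nat_lit 0x8000000000800078706860a) (nat_lit 0) (p (nat_lit 0x10806860782) (nat_lit 0) (p (nat_lit 0x786058702) (nat_lit 0) (p (nat_lit 0x10705850482) (nat_lit 0) (p (nat_lit 0x685048402) (nat_lit 0) (p (nat_lit 0x16000c) (nat_lit 0) (p (nat_lit 0x60592) (nat_lit 0) (p (nat_lit 0x48512) (nat_lit 0) (p (nat_lit 0x50392) (nat_lit 0) (p (nat_lit 0x38312) (nat_lit 0) (p (nat_lit 0x40212) (nat_lit 0) (p (nat_lit 0x28192) (nat_lit 0) (p (nat_lit 0x30092) (nat_lit 0) (p (nat_lit 0x18012) (nat_lit 0) pn)))))))))))))))))))))))))))))))))) :=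
  Cl.node (nat_lit 0xc8d8c0b8d1a) (nat_lit 1) (by decide +kernel) (ClAll.succ ClAll.zero n60)

def n83 : Cl (O (nat_lit 5)) (R (nat_lit 6353))
    (p (nat_lit 0xc8d8c0b8d1a) (nat_lit 0) (p (nat_lit 0x10c0d0b8b0a9a) (nat_lit 0) (p (nat_lit 0xb8c8b0a8a1a) (nat_lit 0) (p (nat_lit 0x2a825800002a8258b0a8a0b8a) (nat_lit 0) (p (nat_lit 0x2a825800002a8258a8a09890a) (nat_lit 0) (p (nat_lit 0xb000c) (nat_lit 1) (p (nat_lit 0x200014) (nat_lit 0) (p (nat_lit 0x200004) (nat_lit 0) (p (nat_lit 0x89) (nat_lit 1) (p (nat_lit 0x101) (nat_lit 1) (p (nat_lit 0xc1) (nat_lit 1) (p (nat_lit 0x119) (nat_lit 1) (p (nat_lit 0xd1) (nat_lit 0) (p (nat_lit 0x81) (nat_lit 0) (p (nat_lit 0x41) (nat_lit 1) (p (nat_lit 0x10a0b09890a9a) (nat_lit 0) (p (nat_lit 0x98a89088a1a) (nat_lit 0) (p (nat_lit 0x1090a0888079a) (nat_lit 0) (p (nat_lit 0x8898807871a) (nat_lit 0) (p (nat_lit 0x8000000000800080787088a)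 (nat_lit 0) (p (nat_lit 0x8000000000800078706860a) (nat_lit 0) (p (nat_lit 0x10806860782) (nat_lit 0) (p (nat_lit 0x786058702) (nat_lit 0) (p (nat_lit 0x10705850482) (nat_lit 0) (p (nat_lit 0x685048402) (nat_lit 0) (p (nat_lit 0x16000c) (nat_lit 0) (p (nat_lit 0x60592) (nat_lit 0) (p (nat_lit 0x48512) (nat_lit 0) (p (nat_lit 0x50392) (nat_lit 0) (p (nat_lit 0x38312) (nat_lit 0) (p (nat_lit 0x40212) (nat_lit 0) (p (nat_lit 0x28192) (nat_lit 0) (p (nat_lit 0x30092) (nat_lit 0) (p (nat_lit 0x18012) (nat_lit 0) pn)))))))))))))))))))))))))))))))))) :=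
  Cl.node (nat_lit 0x10d0e0c8c0d9a) (nat_lit 1) (by decide +kernel) (ClAll.succ ClAll.zero n61)

def n84 : Cl (O (nat_lit 5)) (R (nat_lit 6353))
    (p (nat_lit 0xb8c8b0a8a1a) (nat_lit 0) (p (nat_lit 0x2a825800002a8258b0a8a0b8a) (nat_lit 0) (p (nat_lit 0x2a825800002a8258a8a09890a) (nat_lit 0) (p (nat_lit 0xb000c) (nat_lit 1) (p (nat_lit 0x119) (nat_lit 1) (p (nat_lit 0x200014) (nat_lit 0) (p (nat_lit 0x200004) (nat_lit 0) (p (nat_lit 0xc9) (nat_lit 0) (p (nat_lit 0x89) (nat_lit 1) (p (nat_lit 0x109) (nat_lit 1) (p (nat_lit 0x101) (nat_lit 0) (p (nat_lit 0x111) (nat_lit 0) (p (nat_lit 0xd1) (nat_lit 1) (p (nat_lit 0x81) (nat_lit 0) (p (nat_lit 0x41) (nat_lit 1) (p (nat_lit 0x10a0b09890a9a) (nat_lit 0) (p (nat_lit 0x98a89088a1a) (nat_lit 0) (p (nat_lit 0x1090a0888079a) (nat_lit 0) (p (nat_lit 0x8898807871a) (nat_lit 0) (p (nat_lit 0x8000000000800080787088a) (nat_lit 0) (p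 (nat_lit 0x8000000000800078706860a) (nat_lit 0) (p (nat_lit 0x10806860782) (nat_lit 0) (p (nat_lit 0x786058702) (nat_lit 0) (p (nat_lit 0x10705850482) (nat_lit 0) (p (nat_lit 0x685048402) (nat_lit 0) (p (nat_lit 0x16000c) (nat_lit 0) (p (nat_lit 0x60592) (nat_lit 0) (p (nat_lit 0x48512) (nat_lit 0) (p (nat_lit 0x50392) (nat_lit 0) (p (nat_lit 0x38312) (nat_lit 0) (p (nat_lit 0x40212) (nat_lit 0) (p (nat_lit 0x28192) (nat_lit 0) (p (nat_lit 0x30092) (nat_lit 0) (p (nat_lit 0x18012) (nat_lit 0) pn)))))))))))))))))))))))))))))))))) :=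
  Cl.node (nat_lit 0x10c0d0b8b0a9a) (nat_lit 1) (by decide +kernel) (ClAll.succ ClAll.zero n62)

def n85 : Cl (O (nat_lit 5)) (R (nat_lit 6353))
    (p (nat_lit 0xc8d8c0b8d1a) (nat_lit 0) (p (nat_lit 0x10c0d0b8b0a9a) (nat_lit 0) (p (nat_lit 0xb8c8b0a8a1a) (nat_lit 0) (p (nat_lit 0x2a825800002a8258b0a8a0b8a) (nat_lit 0) (p (nat_lit 0x2a825800002a8258a8a09890a) (nat_lit 0) (p (nat_lit 0xb000c) (nat_lit 1) (p (nat_lit 0x200014) (nat_lit 0) (p (nat_lit 0x200004) (nat_lit 0) (p (nat_lit 0xc9) (nat_lit 0) (p (nat_lit 0x89) (nat_lit 1) (p (nat_lit 0x101) (nat_lit 1) (p (nat_lit 0x111) (nat_lit 0) (p (nat_lit 0xd1) (nat_lit 1) (p (nat_lit 0x81) (nat_lit 0) (p (nat_lit 0x41) (nat_lit 1) (p (nat_lit 0x10a0b09890a9a) (nat_lit 0) (p (nat_lit 0x98a89088a1a) (nat_lit 0) (p (nat_lit 0x1090a0888079a) (nat_lit 0) (p (nat_lit 0x8898807871a) (nat_lit 0) (p (nat_lit 0x8000000000800080787088a)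 (nat_lit 0) (p (nat_lit 0x8000000000800078706860a) (nat_lit 0) (p (nat_lit 0x10806860782) (nat_lit 0) (p (nat_lit 0x786058702) (nat_lit 0) (p (nat_lit 0x10705850482) (nat_lit 0) (p (nat_lit 0x685048402) (nat_lit 0) (p (nat_lit 0x16000c) (nat_lit 0) (p (nat_lit 0x60592) (nat_lit 0) (p (nat_lit 0x48512) (nat_lit 0) (p (nat_lit 0x50392) (nat_lit 0) (p (nat_lit 0x38312) (nat_lit 0) (p (nat_lit 0x40212) (nat_lit 0) (p (nat_lit 0x28192) (nat_lit 0) (p (nat_lit 0x30092) (nat_lit 0) (p (nat_lit 0x18012) (nat_lit 0) pn)))))))))))))))))))))))))))))))))) :=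
  Cl.node (nat_lit 0x10d0e0c8c0d9a) (nat_lit 1) (by decide +kernel) (ClAll.succ ClAll.zero n63)

def n86 : Cl (O (nat_lit 5)) (R (nat_lit 6353))
    (p (nat_lit 0xc8d8c0b8d1a) (nat_lit 0) (p (nat_lit 0x10c0d0b8b0a9a) (nat_lit 0) (p (nat_lit 0xb8c8b0a8a1a) (nat_lit 0) (p (nat_lit 0x2a825800002a8258b0a8a0b8a) (nat_lit 0) (p (nat_lit 0x2a825800002a8258a8a09890a) (nat_lit 0) (p (nat_lit 0xb000c) (nat_lit 1) (p (nat_lit 0x200014) (nat_lit 0) (p (nat_lit 0x200004) (nat_lit 0) (p (nat_lit 0x109) (nat_lit 0) (p (nat_lit 0xc9) (nat_lit 1) (p (nat_lit 0x89) (nat_lit 1) (p (nat_lit 0x111) (nat_lit 1) (p (nat_lit 0xd1) (nat_lit 1) (p (nat_lit 0x81) (nat_lit 0) (p (nat_lit 0x41) (nat_lit 1) (p (nat_lit 0x10a0b09890a9a) (nat_lit 0) (p (nat_lit 0x98a89088a1a) (nat_lit 0) (p (nat_lit 0x1090a0888079a) (nat_lit 0) (p (nat_lit 0x8898807871a) (nat_lit 0) (p (nat_lit 0x8000000000800080787088a)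 (nat_lit 0) (p (nat_lit 0x8000000000800078706860a) (nat_lit 0) (p (nat_lit 0x10806860782) (nat_lit 0) (p (nat_lit 0x786058702) (nat_lit 0) (p (nat_lit 0x10705850482) (nat_lit 0) (p (nat_lit 0x685048402) (nat_lit 0) (p (nat_lit 0x16000c) (nat_lit 0) (p (nat_lit 0x60592) (nat_lit 0) (p (nat_lit 0x48512) (nat_lit 0) (p (nat_lit 0x50392) (nat_lit 0) (p (nat_lit 0x38312) (nat_lit 0) (p (nat_lit 0x40212) (nat_lit 0) (p (nat_lit 0x28192) (nat_lit 0) (p (nat_lit 0x30092) (nat_lit 0) (p (nat_lit 0x18012) (nat_lit 0) pn)))))))))))))))))))))))))))))))))) :=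
  Cl.node (nat_lit 0x10d0e0c8c0d9a) (nat_lit 1) (by decide +kernel) (ClAll.succ ClAll.zero n64)

def n87 : Cl (O (nat_lit 5)) (R (nat_lit 6353))
    (p (nat_lit 0xc8d8c0b8d1a) (nat_lit 0) (p (nat_lit 0x10c0d0b8b0a9a) (nat_lit 0) (p (nat_lit 0xb8c8b0a8a1a) (nat_lit 0) (p (nat_lit 0x2a825800002a8258b0a8a0b8a) (nat_lit 0) (p (nat_lit 0x2a825800002a8258a8a09890a) (nat_lit 0) (p (nat_lit 0xb000c) (nat_lit 1) (p (nat_lit 0x200014) (nat_lit 0) (p (nat_lit 0x200004) (nat_lit 0) (p (nat_lit 0x109) (nat_lit 1) (p (nat_lit 0xc9) (nat_lit 1) (p (nat_lit 0x89) (nat_lit 1) (p (nat_lit 0x111) (nat_lit 1) (p (nat_lit 0xd1) (nat_lit 1) (p (nat_lit 0x81) (nat_lit 0) (p (nat_lit 0x41) (nat_lit 1) (p (nat_lit 0x10a0b09890a9a) (nat_lit 0) (p (nat_lit 0x98a89088a1a) (nat_lit 0) (p (nat_lit 0x1090a0888079a) (nat_lit 0) (p (nat_lit 0x8898807871a) (nat_lit 0) (p (nat_lit 0x8000000000800080787088a)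 (nat_lit 0) (p (nat_lit 0x8000000000800078706860a) (nat_lit 0) (p (nat_lit 0x10806860782) (nat_lit 0) (p (nat_lit 0x786058702) (nat_lit 0) (p (nat_lit 0x10705850482) (nat_lit 0) (p (nat_lit 0x685048402) (nat_lit 0) (p (nat_lit 0x16000c) (nat_lit 0) (p (nat_lit 0x60592) (nat_lit 0) (p (nat_lit 0x48512) (nat_lit 0) (p (nat_lit 0x50392) (nat_lit 0) (p (nat_lit 0x38312) (nat_lit 0) (p (nat_lit 0x40212) (nat_lit 0) (p (nat_lit 0x28192) (nat_lit 0) (p (nat_lit 0x30092) (nat_lit 0) (p (nat_lit 0x18012) (nat_lit 0) pn)))))))))))))))))))))))))))))))))) :=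
  Cl.node (nat_lit 0x10d0e0c8c0d9a) (nat_lit 1) (by decide +kernel) (ClAll.succ ClAll.zero n65)

def n88 : Cl (O (nat_lit 5)) (R (nat_lit 6353))
    (p (nat_lit 0xc8d8c0b8d1a) (nat_lit 0) (p (nat_lit 0x10c0d0b8b0a9a) (nat_lit 0) (p (nat_lit 0xb8c8b0a8a1a) (nat_lit 0) (p (nat_lit 0x2a825800002a8258b0a8a0b8a) (nat_lit 0) (p (nat_lit 0x2a825800002a8258a8a09890a) (nat_lit 0) (p (nat_lit 0xb000c) (nat_lit 1) (p (nat_lit 0x200014) (nat_lit 0) (p (nat_lit 0x200004) (nat_lit 0) (p (nat_lit 0x111) (nat_lit 1) (p (nat_lit 0xd1) (nat_lit 1) (p (nat_lit 0xc9) (nat_lit 0) (p (nat_lit 0x119) (nat_lit 1) (p (nat_lit 0xc1) (nat_lit 0) (p (nat_lit 0x81) (nat_lit 1) (p (nat_lit 0x41) (nat_lit 1) (p (nat_lit 0x10a0b09890a9a) (nat_lit 0) (p (nat_lit 0x98a89088a1a) (nat_lit 0) (p (nat_lit 0x1090a0888079a) (nat_lit 0) (p (nat_lit 0x8898807871a) (nat_lit 0) (p (nat_lit 0x8000000000800080787088a)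 (nat_lit 0) (p (nat_lit 0x8000000000800078706860a) (nat_lit 0) (p (nat_lit 0x10806860782) (nat_lit 0) (p (nat_lit 0x786058702) (nat_lit 0) (p (nat_lit 0x10705850482) (nat_lit 0) (p (nat_lit 0x685048402) (nat_lit 0) (p (nat_lit 0x16000c) (nat_lit 0) (p (nat_lit 0x60592) (nat_lit 0) (p (nat_lit 0x48512) (nat_lit 0) (p (nat_lit 0x50392) (nat_lit 0) (p (nat_lit 0x38312) (nat_lit 0) (p (nat_lit 0x40212) (nat_lit 0) (p (nat_lit 0x28192) (nat_lit 0) (p (nat_lit 0x30092) (nat_lit 0) (p (nat_lit 0x18012) (nat_lit 0) pn)))))))))))))))))))))))))))))))))) :=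
  Cl.node (nat_lit 0x10d0e0c8c0d9a) (nat_lit 1) (by decide +kernel) (ClAll.succ ClAll.zero n66)

def n89 : Cl (O (nat_lit 5)) (R (nat_lit 6353))
    (p (nat_lit 0x10d0e0c8c0d9a) (nat_lit 0) (p (nat_lit 0xc8d8c0b8d1a) (nat_lit 0) (p (nat_lit 0x10c0d0b8b0a9a) (nat_lit 0) (p (nat_lit 0xb8c8b0a8a1a) (nat_lit 0) (p (nat_lit 0x2a825800002a8258b0a8a0b8a) (nat_lit 0) (p (nat_lit 0x2a825800002a8258a8a09890a) (nat_lit 0) (p (nat_lit 0xb000c) (nat_lit 1) (p (nat_lit 0x200014) (nat_lit 0) (p (nat_lit 0x200004) (nat_lit 0) (p (nat_lit 0x109) (nat_lit 1) (p (nat_lit 0xc9) (nat_lit 1) (p (nat_lit 0x119) (nat_lit 1) (p (nat_lit 0xc1) (nat_lit 0) (p (nat_lit 0x81) (nat_lit 1) (p (nat_lit 0x41) (nat_lit 1) (p (nat_lit 0x10a0b09890a9a) (nat_lit 0) (p (nat_lit 0x98a89088a1a) (nat_lit 0) (p (nat_lit 0x1090a0888079a) (nat_lit 0) (p (nat_lit 0x8898807871a) (nat_lit 0) (p (nat_lit 0x8000000000800080787088a)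 (nat_lit 0) (p (nat_lit 0x8000000000800078706860a) (nat_lit 0) (p (nat_lit 0x10806860782) (nat_lit 0) (p (nat_lit 0x786058702) (nat_lit 0) (p (nat_lit 0x10705850482) (nat_lit 0) (p (nat_lit 0x685048402) (nat_lit 0) (p (nat_lit 0x16000c) (nat_lit 0) (p (nat_lit 0x60592) (nat_lit 0) (p (nat_lit 0x48512) (nat_lit 0) (p (nat_lit 0x50392) (nat_lit 0) (p (nat_lit 0x38312) (nat_lit 0) (p (nat_lit 0x40212) (nat_lit 0) (p (nat_lit 0x28192) (nat_lit 0) (p (nat_lit 0x30092) (nat_lit 0) (p (nat_lit 0x18012) (nat_lit 0) pn)))))))))))))))))))))))))))))))))) :=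
  Cl.node (nat_lit 0xd1) (nat_lit 2) (by decide +kernel) (ClAll.succ (ClAll.succ ClAll.zero n67) s234)

def n90 : Cl (O (nat_lit 5)) (R (nat_lit 6353))
    (p (nat_lit 0xb8c8b0a8a1a) (nat_lit 0) (p (nat_lit 0x2a825800002a8258b0a8a0b8a) (nat_lit 0) (p (nat_lit 0x2a825800002a8258a8a09890a) (nat_lit 0) (p (nat_lit 0xb000c) (nat_lit 1) (p (nat_lit 0x111) (nat_lit 0) (p (nat_lit 0x200014) (nat_lit 0) (p (nat_lit 0x200004) (nat_lit 0) (p (nat_lit 0xc9) (nat_lit 0) (p (nat_lit 0x81) (nat_lit 0) (p (nat_lit 0x101) (nat_lit 1) (p (nat_lit 0x119) (nat_lit 0) (p (nat_lit 0xd1) (nat_lit 0) (p (nat_lit 0x89) (nat_lit 0) (p (nat_lit 0x41) (nat_lit 0) (p (nat_lit 0x10a0b09890a9a) (nat_lit 0) (p (nat_lit 0x98a89088a1a) (nat_lit 0) (p (nat_lit 0x1090a0888079a) (nat_lit 0) (p (nat_lit 0x8898807871a) (nat_lit 0) (p (nat_lit 0x8000000000800080787088a) (nat_lit 0) (p (nat_lit 0x8000000000800078706860a)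 (nat_lit 0) (p (nat_lit 0x10806860782) (nat_lit 0) (p (nat_lit 0x786058702) (nat_lit 0) (p (nat_lit 0x10705850482) (nat_lit 0) (p (nat_lit 0x685048402) (nat_lit 0) (p (nat_lit 0x16000c) (nat_lit 0) (p (nat_lit 0x60592) (nat_lit 0) (p (nat_lit 0x48512) (nat_lit 0) (p (nat_lit 0x50392) (nat_lit 0) (p (nat_lit 0x38312) (nat_lit 0) (p (nat_lit 0x40212) (nat_lit 0) (p (nat_lit 0x28192) (nat_lit 0) (p (nat_lit 0x30092) (nat_lit 0) (p (nat_lit 0x18012) (nat_lit 0) pn))))))))))))))))))))))))))))))))) :=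
  Cl.node (nat_lit 0x10c0d0b8b0a9a) (nat_lit 1) (by decide +kernel) (ClAll.succ ClAll.zero n68)

def n91 : Cl (O (nat_lit 5)) (R (nat_lit 6353))
    (p (nat_lit 0xb8c8b0a8a1a) (nat_lit 0) (p (nat_lit 0x2a825800002a8258b0a8a0b8a) (nat_lit 0) (p (nat_lit 0x2a825800002a8258a8a09890a) (nat_lit 0) (p (nat_lit 0xb000c) (nat_lit 1) (p (nat_lit 0x111) (nat_lit 0) (p (nat_lit 0x200014) (nat_lit 0) (p (nat_lit 0x200004) (nat_lit 0) (p (nat_lit 0xc9) (nat_lit 1) (p (nat_lit 0x81) (nat_lit 0) (p (nat_lit 0x101) (nat_lit 1) (p (nat_lit 0x119) (nat_lit 0) (p (nat_lit 0xd1) (nat_lit 0) (p (nat_lit 0x89) (nat_lit 0) (p (nat_lit 0x41) (nat_lit 0) (p (nat_lit 0x10a0b09890a9a) (nat_lit 0) (p (nat_lit 0x98a89088a1a) (nat_lit 0) (p (nat_lit 0x1090a0888079a) (nat_lit 0) (p (nat_lit 0x8898807871a) (nat_lit 0) (p (nat_lit 0x8000000000800080787088a) (nat_lit 0) (p (nat_lit 0x8000000000800078706860a)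 (nat_lit 0) (p (nat_lit 0x10806860782) (nat_lit 0) (p (nat_lit 0x786058702) (nat_lit 0) (p (nat_lit 0x10705850482) (nat_lit 0) (p (nat_lit 0x685048402) (nat_lit 0) (p (nat_lit 0x16000c) (nat_lit 0) (p (nat_lit 0x60592) (nat_lit 0) (p (nat_lit 0x48512) (nat_lit 0) (p (nat_lit 0x50392) (nat_lit 0) (p (nat_lit 0x38312) (nat_lit 0) (p (nat_lit 0x40212) (nat_lit 0) (p (nat_lit 0x28192) (nat_lit 0) (p (nat_lit 0x30092) (nat_lit 0) (p (nat_lit 0x18012) (nat_lit 0) pn))))))))))))))))))))))))))))))))) :=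
  Cl.node (nat_lit 0x10c0d0b8b0a9a) (nat_lit 1) (by decide +kernel) (ClAll.succ ClAll.zero n69)

def n92 : Cl (O (nat_lit 5)) (R (nat_lit 6353))
    (p (nat_lit 0xb8c8b0a8a1a) (nat_lit 0) (p (nat_lit 0x2a825800002a8258b0a8a0b8a) (nat_lit 0) (p (nat_lit 0x2a825800002a8258a8a09890a) (nat_lit 0) (p (nat_lit 0xb000c) (nat_lit 1) (p (nat_lit 0x200014) (nat_lit 0) (p (nat_lit 0x200004) (nat_lit 0) (p (nat_lit 0xc9) (nat_lit 0) (p (nat_lit 0xc1) (nat_lit 0) (p (nat_lit 0x81) (nat_lit 1) (p (nat_lit 0x101) (nat_lit 1) (p (nat_lit 0x119) (nat_lit 0) (p (nat_lit 0xd1) (nat_lit 0) (p (nat_lit 0x89) (nat_lit 0) (p (nat_lit 0x41) (nat_lit 0) (p (nat_lit 0x10a0b09890a9a) (nat_lit 0) (p (nat_lit 0x98a89088a1a) (nat_lit 0) (p (nat_lit 0x1090a0888079a) (nat_lit 0) (p (nat_lit 0x8898807871a) (nat_lit 0) (p (nat_lit 0x8000000000800080787088a) (nat_lit 0) (p (nat_lit 0x8000000000800078706860a)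 (nat_lit 0) (p (nat_lit 0x10806860782) (nat_lit 0) (p (nat_lit 0x786058702) (nat_lit 0) (p (nat_lit 0x10705850482) (nat_lit 0) (p (nat_lit 0x685048402) (nat_lit 0) (p (nat_lit 0x16000c) (nat_lit 0) (p (nat_lit 0x60592) (nat_lit 0) (p (nat_lit 0x48512) (nat_lit 0) (p (nat_lit 0x50392) (nat_lit 0) (p (nat_lit 0x38312) (nat_lit 0) (p (nat_lit 0x40212) (nat_lit 0) (p (nat_lit 0x28192) (nat_lit 0) (p (nat_lit 0x30092) (nat_lit 0) (p (nat_lit 0x18012) (nat_lit 0) pn))))))))))))))))))))))))))))))))) :=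
  Cl.node (nat_lit 0x10c0d0b8b0a9a) (nat_lit 1) (by decide +kernel) (ClAll.succ ClAll.zero n70)

def n93 : Cl (O (nat_lit 5)) (R (nat_lit 6353))
    (p (nat_lit 0x10c0d0b8b0a9a) (nat_lit 0) (p (nat_lit 0xb8c8b0a8a1a) (nat_lit 0) (p (nat_lit 0x2a825800002a8258b0a8a0b8a) (nat_lit 0) (p (nat_lit 0x2a825800002a8258a8a09890a) (nat_lit 0) (p (nat_lit 0xb000c) (nat_lit 1) (p (nat_lit 0x200014) (nat_lit 0) (p (nat_lit 0x200004) (nat_lit 0) (p (nat_lit 0x109) (nat_lit 1) (p (nat_lit 0xc9) (nat_lit 1) (p (nat_lit 0xc1) (nat_lit 0) (p (nat_lit 0x119) (nat_lit 1) (p (nat_lit 0xd1) (nat_lit 0) (p (nat_lit 0x89) (nat_lit 0) (p (nat_lit 0x41) (nat_lit 0) (p (nat_lit 0x10a0b09890a9a) (nat_lit 0) (p (nat_lit 0x98a89088a1a) (nat_lit 0) (p (nat_lit 0x1090a0888079a) (nat_lit 0) (p (nat_lit 0x8898807871a) (nat_lit 0) (p (nat_lit 0x8000000000800080787088a) (nat_lit 0) (p (nat_lit 0x8000000000800078706860a)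 (nat_lit 0) (p (nat_lit 0x10806860782) (nat_lit 0) (p (nat_lit 0x786058702) (nat_lit 0) (p (nat_lit 0x10705850482) (nat_lit 0) (p (nat_lit 0x685048402) (nat_lit 0) (p (nat_lit 0x16000c) (nat_lit 0) (p (nat_lit 0x60592) (nat_lit 0) (p (nat_lit 0x48512) (nat_lit 0) (p (nat_lit 0x50392) (nat_lit 0) (p (nat_lit 0x38312) (nat_lit 0) (p (nat_lit 0x40212) (nat_lit 0) (p (nat_lit 0x28192) (nat_lit 0) (p (nat_lit 0x30092) (nat_lit 0) (p (nat_lit 0x18012) (nat_lit 0) pn))))))))))))))))))))))))))))))))) :=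
  Cl.node (nat_lit 0xc8d8c0b8d1a) (nat_lit 1) (by decide +kernel) (ClAll.succ ClAll.zero n71)

def n94 : Cl (O (nat_lit 5)) (R (nat_lit 6353))
    (p (nat_lit 0xb8c8b0a8a1a) (nat_lit 0) (p (nat_lit 0x2a825800002a8258b0a8a0b8a) (nat_lit 0) (p (nat_lit 0x2a825800002a8258a8a09890a) (nat_lit 0) (p (nat_lit 0xb000c) (nat_lit 1) (p (nat_lit 0x200014) (nat_lit 0) (p (nat_lit 0x200004) (nat_lit 0) (p (nat_lit 0x109) (nat_lit 1) (p (nat_lit 0x101) (nat_lit 0) (p (nat_lit 0x81) (nat_lit 1) (p (nat_lit 0xc1) (nat_lit 1) (p (nat_lit 0x119) (nat_lit 1) (p (nat_lit 0xd1) (nat_lit 0) (p (nat_lit 0x89) (nat_lit 0) (p (nat_lit 0x41) (nat_lit 0) (p (nat_lit 0x10a0b09890a9a) (nat_lit 0) (p (nat_lit 0x98a89088a1a) (nat_lit 0) (p (nat_lit 0x1090a0888079a) (nat_lit 0) (p (nat_lit 0x8898807871a) (nat_lit 0) (p (nat_lit 0x8000000000800080787088a) (nat_lit 0) (p (nat_lit 0x8000000000800078706860a)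 (nat_lit 0) (p (nat_lit 0x10806860782) (nat_lit 0) (p (nat_lit 0x786058702) (nat_lit 0) (p (nat_lit 0x10705850482) (nat_lit 0) (p (nat_lit 0x685048402) (nat_lit 0) (p (nat_lit 0x16000c) (nat_lit 0) (p (nat_lit 0x60592) (nat_lit 0) (p (nat_lit 0x48512) (nat_lit 0) (p (nat_lit 0x50392) (nat_lit 0) (p (nat_lit 0x38312) (nat_lit 0) (p (nat_lit 0x40212) (nat_lit 0) (p (nat_lit 0x28192) (nat_lit 0) (p (nat_lit 0x30092) (nat_lit 0) (p (nat_lit 0x18012) (nat_lit 0) pn))))))))))))))))))))))))))))))))) :=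
  Cl.node (nat_lit 0x10c0d0b8b0a9a) (nat_lit 1) (by decide +kernel) (ClAll.succ ClAll.zero n72)

def n95 : Cl (O (nat_lit 5)) (R (nat_lit 6353))
    (p (nat_lit 0xb8c8b0a8a1a) (nat_lit 0) (p (nat_lit 0x2a825800002a8258b0a8a0b8a) (nat_lit 0) (p (nat_lit 0x2a825800002a8258a8a09890a) (nat_lit 0) (p (nat_lit 0xb000c) (nat_lit 1) (p (nat_lit 0x119) (nat_lit 0) (p (nat_lit 0x200014) (nat_lit 0) (p (nat_lit 0x200004) (nat_lit 0) (p (nat_lit 0xc1) (nat_lit 0) (p (nat_lit 0x81) (nat_lit 1) (p (nat_lit 0x101) (nat_lit 1) (p (nat_lit 0x111) (nat_lit 0) (p (nat_lit 0xd1) (nat_lit 1) (p (nat_lit 0x89) (nat_lit 0) (p (nat_lit 0x41) (nat_lit 0) (p (nat_lit 0x10a0b09890a9a) (nat_lit 0) (p (nat_lit 0x98a89088a1a) (nat_lit 0) (p (nat_lit 0x1090a0888079a) (nat_lit 0) (p (nat_lit 0x8898807871a) (nat_lit 0) (p (nat_lit 0x8000000000800080787088a) (nat_lit 0) (p (nat_lit 0x8000000000800078706860a)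 (nat_lit 0) (p (nat_lit 0x10806860782) (nat_lit 0) (p (nat_lit 0x786058702) (nat_lit 0) (p (nat_lit 0x10705850482) (nat_lit 0) (p (nat_lit 0x685048402) (nat_lit 0) (p (nat_lit 0x16000c) (nat_lit 0) (p (nat_lit 0x60592) (nat_lit 0) (p (nat_lit 0x48512) (nat_lit 0) (p (nat_lit 0x50392) (nat_lit 0) (p (nat_lit 0x38312) (nat_lit 0) (p (nat_lit 0x40212) (nat_lit 0) (p (nat_lit 0x28192) (nat_lit 0) (p (nat_lit 0x30092) (nat_lit 0) (p (nat_lit 0x18012) (nat_lit 0) pn))))))))))))))))))))))))))))))))) :=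
  Cl.node (nat_lit 0x10c0d0b8b0a9a) (nat_lit 1) (by decide +kernel) (ClAll.succ ClAll.zero n73)

def n96 : Cl (O (nat_lit 5)) (R (nat_lit 6353))
    (p (nat_lit 0x10c0d0b8b0a9a) (nat_lit 0) (p (nat_lit 0xb8c8b0a8a1a) (nat_lit 0) (p (nat_lit 0x2a825800002a8258b0a8a0b8a) (nat_lit 0) (p (nat_lit 0x2a825800002a8258a8a09890a) (nat_lit 0) (p (nat_lit 0xb000c) (nat_lit 1) (p (nat_lit 0x200014) (nat_lit 0) (p (nat_lit 0x200004) (nat_lit 0) (p (nat_lit 0x111) (nat_lit 1) (p (nat_lit 0xd1) (nat_lit 1) (p (nat_lit 0xc1) (nat_lit 0) (p (nat_lit 0x119) (nat_lit 1) (p (nat_lit 0xc9) (nat_lit 0) (p (nat_lit 0x89) (nat_lit 1) (p (nat_lit 0x41) (nat_lit 0) (p (nat_lit 0x10a0b09890a9a) (nat_lit 0) (p (nat_lit 0x98a89088a1a) (nat_lit 0) (p (nat_lit 0x1090a0888079a) (nat_lit 0) (p (nat_lit 0x8898807871a) (nat_lit 0) (p (nat_lit 0x8000000000800080787088a) (nat_lit 0) (p (nat_lit 0x8000000000800078706860a)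 (nat_lit 0) (p (nat_lit 0x10806860782) (nat_lit 0) (p (nat_lit 0x786058702) (nat_lit 0) (p (nat_lit 0x10705850482) (nat_lit 0) (p (nat_lit 0x685048402) (nat_lit 0) (p (nat_lit 0x16000c) (nat_lit 0) (p (nat_lit 0x60592) (nat_lit 0) (p (nat_lit 0x48512) (nat_lit 0) (p (nat_lit 0x50392) (nat_lit 0) (p (nat_lit 0x38312) (nat_lit 0) (p (nat_lit 0x40212) (nat_lit 0) (p (nat_lit 0x28192) (nat_lit 0) (p (nat_lit 0x30092) (nat_lit 0) (p (nat_lit 0x18012) (nat_lit 0) pn))))))))))))))))))))))))))))))))) :=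
  Cl.node (nat_lit 0xc8d8c0b8d1a) (nat_lit 1) (by decide +kernel) (ClAll.succ ClAll.zero n74)

def n97 : Cl (O (nat_lit 5)) (R (nat_lit 6353))
    (p (nat_lit 0xb8c8b0a8a1a) (nat_lit 0) (p (nat_lit 0x2a825800002a8258b0a8a0b8a) (nat_lit 0) (p (nat_lit 0x2a825800002a8258a8a09890a) (nat_lit 0) (p (nat_lit 0xb000c) (nat_lit 1) (p (nat_lit 0x111) (nat_lit 0) (p (nat_lit 0x200014) (nat_lit 0) (p (nat_lit 0x200004) (nat_lit 0) (p (nat_lit 0x89) (nat_lit 0) (p (nat_lit 0x109) (nat_lit 1) (p (nat_lit 0x101) (nat_lit 0) (p (nat_lit 0x119) (nat_lit 0) (p (nat_lit 0xd1) (nat_lit 0) (p (nat_lit 0x81) (nat_lit 0) (p (nat_lit 0x41) (nat_lit 1) (p (nat_lit 0x10a0b09890a9a) (nat_lit 0) (p (nat_lit 0x98a89088a1a) (nat_lit 0) (p (nat_lit 0x1090a0888079a) (nat_lit 0) (p (nat_lit 0x8898807871a) (nat_lit 0) (p (nat_lit 0x8000000000800080787088a) (nat_lit 0) (p (nat_lit 0x8000000000800078706860a)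 (nat_lit 0) (p (nat_lit 0x10806860782) (nat_lit 0) (p (nat_lit 0x786058702) (nat_lit 0) (p (nat_lit 0x10705850482) (nat_lit 0) (p (nat_lit 0x685048402) (nat_lit 0) (p (nat_lit 0x16000c) (nat_lit 0) (p (nat_lit 0x60592) (nat_lit 0) (p (nat_lit 0x48512) (nat_lit 0) (p (nat_lit 0x50392) (nat_lit 0) (p (nat_lit 0x38312) (nat_lit 0) (p (nat_lit 0x40212) (nat_lit 0) (p (nat_lit 0x28192) (nat_lit 0) (p (nat_lit 0x30092) (nat_lit 0) (p (nat_lit 0x18012) (nat_lit 0) pn))))))))))))))))))))))))))))))))) :=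
  Cl.node (nat_lit 0x10c0d0b8b0a9a) (nat_lit 1) (by decide +kernel) (ClAll.succ ClAll.zero n75)

def n98 : Cl (O (nat_lit 5)) (R (nat_lit 6353))
    (p (nat_lit 0xb8c8b0a8a1a) (nat_lit 0) (p (nat_lit 0x2a825800002a8258b0a8a0b8a) (nat_lit 0) (p (nat_lit 0x2a825800002a8258a8a09890a) (nat_lit 0) (p (nat_lit 0xb000c) (nat_lit 1) (p (nat_lit 0x200014) (nat_lit 0) (p (nat_lit 0x200004) (nat_lit 0) (p (nat_lit 0xc9) (nat_lit 0) (p (nat_lit 0x89) (nat_lit 1) (p (nat_lit 0x109) (nat_lit 1) (p (nat_lit 0x101) (nat_lit 0) (p (nat_lit 0x119) (nat_lit 0) (p (nat_lit 0xd1) (nat_lit 0) (p (nat_lit 0x81) (nat_lit 0) (p (nat_lit 0x41) (nat_lit 1) (p (nat_lit 0x10a0b09890a9a) (nat_lit 0) (p (nat_lit 0x98a89088a1a) (nat_lit 0) (p (nat_lit 0x1090a0888079a) (nat_lit 0) (p (nat_lit 0x8898807871a) (nat_lit 0) (p (nat_lit 0x8000000000800080787088a) (nat_lit 0) (p (nat_lit 0x8000000000800078706860a)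 (nat_lit 0) (p (nat_lit 0x10806860782) (nat_lit 0) (p (nat_lit 0x786058702) (nat_lit 0) (p (nat_lit 0x10705850482) (nat_lit 0) (p (nat_lit 0x685048402) (nat_lit 0) (p (nat_lit 0x16000c) (nat_lit 0) (p (nat_lit 0x60592) (nat_lit 0) (p (nat_lit 0x48512) (nat_lit 0) (p (nat_lit 0x50392) (nat_lit 0) (p (nat_lit 0x38312) (nat_lit 0) (p (nat_lit 0x40212) (nat_lit 0) (p (nat_lit 0x28192) (nat_lit 0) (p (nat_lit 0x30092) (nat_lit 0) (p (nat_lit 0x18012) (nat_lit 0) pn))))))))))))))))))))))))))))))))) :=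
  Cl.node (nat_lit 0x10c0d0b8b0a9a) (nat_lit 1) (by decide +kernel) (ClAll.succ ClAll.zero n76)

def n99 : Cl (O (nat_lit 5)) (R (nat_lit 6353))
    (p (nat_lit 0xb8c8b0a8a1a) (nat_lit 0) (p (nat_lit 0x2a825800002a8258b0a8a0b8a) (nat_lit 0) (p (nat_lit 0x2a825800002a8258a8a09890a) (nat_lit 0) (p (nat_lit 0xb000c) (nat_lit 1) (p (nat_lit 0x200014) (nat_lit 0) (p (nat_lit 0x200004) (nat_lit 0) (p (nat_lit 0xc9) (nat_lit 1) (p (nat_lit 0x89) (nat_lit 1) (p (nat_lit 0xc1) (nat_lit 0) (p (nat_lit 0x101) (nat_lit 1) (p (nat_lit 0x119) (nat_lit 0) (p (nat_lit 0xd1) (nat_lit 0) (p (nat_lit 0x81) (nat_lit 0) (p (nat_lit 0x41) (nat_lit 1) (p (nat_lit 0x10a0b09890a9a) (nat_lit 0) (p (nat_lit 0x98a89088a1a) (nat_lit 0) (p (nat_lit 0x1090a0888079a) (nat_lit 0) (p (nat_lit 0x8898807871a) (nat_lit 0) (p (nat_lit 0x8000000000800080787088a) (nat_lit 0) (p (nat_lit 0x8000000000800078706860a)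 (nat_lit 0) (p (nat_lit 0x10806860782) (nat_lit 0) (p (nat_lit 0x786058702) (nat_lit 0) (p (nat_lit 0x10705850482) (nat_lit 0) (p (nat_lit 0x685048402) (nat_lit 0) (p (nat_lit 0x16000c) (nat_lit 0) (p (nat_lit 0x60592) (nat_lit 0) (p (nat_lit 0x48512) (nat_lit 0) (p (nat_lit 0x50392) (nat_lit 0) (p (nat_lit 0x38312) (nat_lit 0) (p (nat_lit 0x40212) (nat_lit 0) (p (nat_lit 0x28192) (nat_lit 0) (p (nat_lit 0x30092) (nat_lit 0) (p (nat_lit 0x18012) (nat_lit 0) pn))))))))))))))))))))))))))))))))) :=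
  Cl.node (nat_lit 0x10c0d0b8b0a9a) (nat_lit 1) (by decide +kernel) (ClAll.succ ClAll.zero n77)

def n100 : Cl (O (nat_lit 5)) (R (nat_lit 6353))
    (p (nat_lit 0x10c0d0b8b0a9a) (nat_lit 0) (p (nat_lit 0xb8c8b0a8a1a) (nat_lit 0) (p (nat_lit 0x2a825800002a8258b0a8a0b8a) (nat_lit 0) (p (nat_lit 0x2a825800002a8258a8a09890a) (nat_lit 0) (p (nat_lit 0xb000c) (nat_lit 1) (p (nat_lit 0x200014) (nat_lit 0) (p (nat_lit 0x200004) (nat_lit 0) (p (nat_lit 0x89) (nat_lit 1) (p (nat_lit 0xc1) (nat_lit 1) (p (nat_lit 0x101) (nat_lit 1) (p (nat_lit 0x119) (nat_lit 0) (p (nat_lit 0xd1) (nat_lit 0) (p (nat_lit 0x81) (nat_lit 0) (p (nat_lit 0x41) (nat_lit 1) (p (nat_lit 0x10a0b09890a9a) (nat_lit 0) (p (nat_lit 0x98a89088a1a) (nat_lit 0) (p (nat_lit 0x1090a0888079a) (nat_lit 0) (p (nat_lit 0x8898807871a) (nat_lit 0) (p (nat_lit 0x8000000000800080787088a) (nat_lit 0) (p (nat_lit 0x8000000000800078706860a)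 (nat_lit 0) (p (nat_lit 0x10806860782) (nat_lit 0) (p (nat_lit 0x786058702) (nat_lit 0) (p (nat_lit 0x10705850482) (nat_lit 0) (p (nat_lit 0x685048402) (nat_lit 0) (p (nat_lit 0x16000c) (nat_lit 0) (p (nat_lit 0x60592) (nat_lit 0) (p (nat_lit 0x48512) (nat_lit 0) (p (nat_lit 0x50392) (nat_lit 0) (p (nat_lit 0x38312) (nat_lit 0) (p (nat_lit 0x40212) (nat_lit 0) (p (nat_lit 0x28192) (nat_lit 0) (p (nat_lit 0x30092) (nat_lit 0) (p (nat_lit 0x18012) (nat_lit 0) pn))))))))))))))))))))))))))))))))) :=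
  Cl.node (nat_lit 0xc8d8c0b8d1a) (nat_lit 1) (by decide +kernel) (ClAll.succ ClAll.zero n78)

def n101 : Cl (O (nat_lit 5)) (R (nat_lit 6353))
    (p (nat_lit 0xb8c8b0a8a1a) (nat_lit 0) (p (nat_lit 0x2a825800002a8258b0a8a0b8a) (nat_lit 0) (p (nat_lit 0x2a825800002a8258a8a09890a) (nat_lit 0) (p (nat_lit 0xb000c) (nat_lit 1) (p (nat_lit 0x200014) (nat_lit 0) (p (nat_lit 0x200004) (nat_lit 0) (p (nat_lit 0x109) (nat_lit 0) (p (nat_lit 0x89) (nat_lit 1) (p (nat_lit 0xc9) (nat_lit 1) (p (nat_lit 0xc1) (nat_lit 0) (p (nat_lit 0x119) (nat_lit 1) (p (nat_lit 0xd1) (nat_lit 0) (p (nat_lit 0x81) (nat_lit 0) (p (nat_lit 0x41) (nat_lit 1) (p (nat_lit 0x10a0b09890a9a) (nat_lit 0) (p (nat_lit 0x98a89088a1a) (nat_lit 0) (p (nat_lit 0x1090a0888079a) (nat_lit 0) (p (nat_lit 0x8898807871a) (nat_lit 0) (p (nat_lit 0x8000000000800080787088a) (nat_lit 0) (p (nat_lit 0x8000000000800078706860a)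 (nat_lit 0) (p (nat_lit 0x10806860782) (nat_lit 0) (p (nat_lit 0x786058702) (nat_lit 0) (p (nat_lit 0x10705850482) (nat_lit 0) (p (nat_lit 0x685048402) (nat_lit 0) (p (nat_lit 0x16000c) (nat_lit 0) (p (nat_lit 0x60592) (nat_lit 0) (p (nat_lit 0x48512) (nat_lit 0) (p (nat_lit 0x50392) (nat_lit 0) (p (nat_lit 0x38312) (nat_lit 0) (p (nat_lit 0x40212) (nat_lit 0) (p (nat_lit 0x28192) (nat_lit 0) (p (nat_lit 0x30092) (nat_lit 0) (p (nat_lit 0x18012) (nat_lit 0) pn))))))))))))))))))))))))))))))))) :=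
  Cl.node (nat_lit 0x10c0d0b8b0a9a) (nat_lit 1) (by decide +kernel) (ClAll.succ ClAll.zero n79)

def n102 : Cl (O (nat_lit 5)) (R (nat_lit 6353))
    (p (nat_lit 0xb8c8b0a8a1a) (nat_lit 0) (p (nat_lit 0x2a825800002a8258b0a8a0b8a) (nat_lit 0) (p (nat_lit 0x2a825800002a8258a8a09890a) (nat_lit 0) (p (nat_lit 0xb000c) (nat_lit 1) (p (nat_lit 0x200014) (nat_lit 0) (p (nat_lit 0x200004) (nat_lit 0) (p (nat_lit 0x109) (nat_lit 1) (p (nat_lit 0x89) (nat_lit 1) (p (nat_lit 0xc9) (nat_lit 1) (p (nat_lit 0xc1) (nat_lit 0) (p (nat_lit 0x119) (nat_lit 1) (p (nat_lit 0xd1) (nat_lit 0) (p (nat_lit 0x81) (nat_lit 0) (p (nat_lit 0x41) (nat_lit 1) (p (nat_lit 0x10a0b09890a9a) (nat_lit 0) (p (nat_lit 0x98a89088a1a) (nat_lit 0) (p (nat_lit 0x1090a0888079a) (nat_lit 0) (p (nat_lit 0x8898807871a) (nat_lit 0) (p (nat_lit 0x8000000000800080787088a) (nat_lit 0) (p (nat_lit 0x8000000000800078706860a)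 (nat_lit 0) (p (nat_lit 0x10806860782) (nat_lit 0) (p (nat_lit 0x786058702) (nat_lit 0) (p (nat_lit 0x10705850482) (nat_lit 0) (p (nat_lit 0x685048402) (nat_lit 0) (p (nat_lit 0x16000c) (nat_lit 0) (p (nat_lit 0x60592) (nat_lit 0) (p (nat_lit 0x48512) (nat_lit 0) (p (nat_lit 0x50392) (nat_lit 0) (p (nat_lit 0x38312) (nat_lit 0) (p (nat_lit 0x40212) (nat_lit 0) (p (nat_lit 0x28192) (nat_lit 0) (p (nat_lit 0x30092) (nat_lit 0) (p (nat_lit 0x18012) (nat_lit 0) pn))))))))))))))))))))))))))))))))) :=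
  Cl.node (nat_lit 0x10c0d0b8b0a9a) (nat_lit 1) (by decide +kernel) (ClAll.succ ClAll.zero n80)

def n103 : Cl (O (nat_lit 5)) (R (nat_lit 6353))
    (p (nat_lit 0xb8c8b0a8a1a) (nat_lit 0) (p (nat_lit 0x2a825800002a8258b0a8a0b8a) (nat_lit 0) (p (nat_lit 0x2a825800002a8258a8a09890a) (nat_lit 0) (p (nat_lit 0xb000c) (nat_lit 1) (p (nat_lit 0x200014) (nat_lit 0) (p (nat_lit 0x200004) (nat_lit 0) (p (nat_lit 0x109) (nat_lit 0) (p (nat_lit 0x89) (nat_lit 1) (p (nat_lit 0x101) (nat_lit 0) (p (nat_lit 0xc1) (nat_lit 1) (p (nat_lit 0x119) (nat_lit 1) (p (nat_lit 0xd1) (nat_lit 0) (p (nat_lit 0x81) (nat_lit 0) (p (nat_lit 0x41) (nat_lit 1) (p (nat_lit 0x10a0b09890a9a) (nat_lit 0) (p (nat_lit 0x98a89088a1a) (nat_lit 0) (p (nat_lit 0x1090a0888079a) (nat_lit 0) (p (nat_lit 0x8898807871a) (nat_lit 0) (p (nat_lit 0x8000000000800080787088a) (nat_lit 0) (p (nat_lit 0x8000000000800078706860a)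 (nat_lit 0) (p (nat_lit 0x10806860782) (nat_lit 0) (p (nat_lit 0x786058702) (nat_lit 0) (p (nat_lit 0x10705850482) (nat_lit 0) (p (nat_lit 0x685048402) (nat_lit 0) (p (nat_lit 0x16000c) (nat_lit 0) (p (nat_lit 0x60592) (nat_lit 0) (p (nat_lit 0x48512) (nat_lit 0) (p (nat_lit 0x50392) (nat_lit 0) (p (nat_lit 0x38312) (nat_lit 0) (p (nat_lit 0x40212) (nat_lit 0) (p (nat_lit 0x28192) (nat_lit 0) (p (nat_lit 0x30092) (nat_lit 0) (p (nat_lit 0x18012) (nat_lit 0) pn))))))))))))))))))))))))))))))))) :=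
  Cl.node (nat_lit 0x10c0d0b8b0a9a) (nat_lit 1) (by decide +kernel) (ClAll.succ ClAll.zero n81)

def n104 : Cl (O (nat_lit 5)) (R (nat_lit 6353))
    (p (nat_lit 0xb8c8b0a8a1a) (nat_lit 0) (p (nat_lit 0x2a825800002a8258b0a8a0b8a) (nat_lit 0) (p (nat_lit 0x2a825800002a8258a8a09890a) (nat_lit 0) (p (nat_lit 0xb000c) (nat_lit 1) (p (nat_lit 0x200014) (nat_lit 0) (p (nat_lit 0x200004) (nat_lit 0) (p (nat_lit 0x109) (nat_lit 1) (p (nat_lit 0x89) (nat_lit 1) (p (nat_lit 0x101) (nat_lit 0) (p (nat_lit 0xc1) (nat_lit 1) (p (nat_lit 0x119) (nat_lit 1) (p (nat_lit 0xd1) (nat_lit 0) (p (nat_lit 0x81) (nat_lit 0) (p (nat_lit 0x41) (nat_lit 1) (p (nat_lit 0x10a0b09890a9a) (nat_lit 0) (p (nat_lit 0x98a89088a1a) (nat_lit 0) (p (nat_lit 0x1090a0888079a) (nat_lit 0) (p (nat_lit 0x8898807871a) (nat_lit 0) (p (nat_lit 0x8000000000800080787088a) (nat_lit 0) (p (nat_lit 0x8000000000800078706860a)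 (nat_lit 0) (p (nat_lit 0x10806860782) (nat_lit 0) (p (nat_lit 0x786058702) (nat_lit 0) (p (nat_lit 0x10705850482) (nat_lit 0) (p (nat_lit 0x685048402) (nat_lit 0) (p (nat_lit 0x16000c) (nat_lit 0) (p (nat_lit 0x60592) (nat_lit 0) (p (nat_lit 0x48512) (nat_lit 0) (p (nat_lit 0x50392) (nat_lit 0) (p (nat_lit 0x38312) (nat_lit 0) (p (nat_lit 0x40212) (nat_lit 0) (p (nat_lit 0x28192) (nat_lit 0) (p (nat_lit 0x30092) (nat_lit 0) (p (nat_lit 0x18012) (nat_lit 0) pn))))))))))))))))))))))))))))))))) :=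
  Cl.node (nat_lit 0x10c0d0b8b0a9a) (nat_lit 1) (by decide +kernel) (ClAll.succ ClAll.zero n82)

def n105 : Cl (O (nat_lit 5)) (R (nat_lit 6353))
    (p (nat_lit 0x10c0d0b8b0a9a) (nat_lit 0) (p (nat_lit 0xb8c8b0a8a1a) (nat_lit 0) (p (nat_lit 0x2a825800002a8258b0a8a0b8a) (nat_lit 0) (p (nat_lit 0x2a825800002a8258a8a09890a) (nat_lit 0) (p (nat_lit 0xb000c) (nat_lit 1) (p (nat_lit 0x200014) (nat_lit 0) (p (nat_lit 0x200004) (nat_lit 0) (p (nat_lit 0x89) (nat_lit 1) (p (nat_lit 0x101) (nat_lit 1) (p (nat_lit 0xc1) (nat_lit 1) (p (nat_lit 0x119) (nat_lit 1) (p (nat_lit 0xd1) (nat_lit 0) (p (nat_lit 0x81) (nat_lit 0) (p (nat_lit 0x41) (nat_lit 1) (p (nat_lit 0x10a0b09890a9a) (nat_lit 0) (p (nat_lit 0x98a89088a1a) (nat_lit 0) (p (nat_lit 0x1090a0888079a) (nat_lit 0) (p (nat_lit 0x8898807871a) (nat_lit 0) (p (nat_lit 0x8000000000800080787088a) (nat_lit 0) (p (nat_lit 0x8000000000800078706860a)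 (nat_lit 0) (p (nat_lit 0x10806860782) (nat_lit 0) (p (nat_lit 0x786058702) (nat_lit 0) (p (nat_lit 0x10705850482) (nat_lit 0) (p (nat_lit 0x685048402) (nat_lit 0) (p (nat_lit 0x16000c) (nat_lit 0) (p (nat_lit 0x60592) (nat_lit 0) (p (nat_lit 0x48512) (nat_lit 0) (p (nat_lit 0x50392) (nat_lit 0) (p (nat_lit 0x38312) (nat_lit 0) (p (nat_lit 0x40212) (nat_lit 0) (p (nat_lit 0x28192) (nat_lit 0) (p (nat_lit 0x30092) (nat_lit 0) (p (nat_lit 0x18012) (nat_lit 0) pn))))))))))))))))))))))))))))))))) :=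
  Cl.node (nat_lit 0xc8d8c0b8d1a) (nat_lit 1) (by decide +kernel) (ClAll.succ ClAll.zero n83)

def n106 : Cl (O (nat_lit 5)) (R (nat_lit 6353))
    (p (nat_lit 0x2a825800002a8258b0a8a0b8a) (nat_lit 0) (p (nat_lit 0x2a825800002a8258a8a09890a) (nat_lit 0) (p (nat_lit 0xb000c) (nat_lit 1) (p (nat_lit 0x119) (nat_lit 1) (p (nat_lit 0x200014) (nat_lit 0) (p (nat_lit 0x200004) (nat_lit 0) (p (nat_lit 0xc9) (nat_lit 0) (p (nat_lit 0x89) (nat_lit 1) (p (nat_lit 0x109) (nat_lit 1) (p (nat_lit 0x101) (nat_lit 0) (p (nat_lit 0x111) (nat_lit 0) (p (nat_lit 0xd1) (nat_lit 1) (p (nat_lit 0x81) (nat_lit 0) (p (nat_lit 0x41) (nat_lit 1) (p (nat_lit 0x10a0b09890a9a) (nat_lit 0) (p (nat_lit 0x98a89088a1a) (nat_lit 0) (p (nat_lit 0x1090a0888079a) (nat_lit 0) (p (nat_lit 0x8898807871a) (nat_lit 0) (p (nat_lit 0x8000000000800080787088a) (nat_lit 0) (p (nat_lit 0x8000000000800078706860a) (nat_lit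 0) (p (nat_lit 0x10806860782) (nat_lit 0) (p (nat_lit 0x786058702) (nat_lit 0) (p (nat_lit 0x10705850482) (nat_lit 0) (p (nat_lit 0x685048402) (nat_lit 0) (p (nat_lit 0x16000c) (nat_lit 0) (p (nat_lit 0x60592) (nat_lit 0) (p (nat_lit 0x48512) (nat_lit 0) (p (nat_lit 0x50392) (nat_lit 0) (p (nat_lit 0x38312) (nat_lit 0) (p (nat_lit 0x40212) (nat_lit 0) (p (nat_lit 0x28192) (nat_lit 0) (p (nat_lit 0x30092) (nat_lit 0) (p (nat_lit 0x18012) (nat_lit 0) pn))))))))))))))))))))))))))))))))) :=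
  Cl.node (nat_lit 0xb8c8b0a8a1a) (nat_lit 1) (by decide +kernel) (ClAll.succ ClAll.zero n84)

def n107 : Cl (O (nat_lit 5)) (R (nat_lit 6353))
    (p (nat_lit 0x10c0d0b8b0a9a) (nat_lit 0) (p (nat_lit 0xb8c8b0a8a1a) (nat_lit 0) (p (nat_lit 0x2a825800002a8258b0a8a0b8a) (nat_lit 0) (p (nat_lit 0x2a825800002a8258a8a09890a) (nat_lit 0) (p (nat_lit 0xb000c) (nat_lit 1) (p (nat_lit 0x200014) (nat_lit 0) (p (nat_lit 0x200004) (nat_lit 0) (p (nat_lit 0xc9) (nat_lit 0) (p (nat_lit 0x89) (nat_lit 1) (p (nat_lit 0x101) (nat_lit 1) (p (nat_lit 0x111) (nat_lit 0) (p (nat_lit 0xd1) (nat_lit 1) (p (nat_lit 0x81) (nat_lit 0) (p (nat_lit 0x41) (nat_lit 1) (p (nat_lit 0x10a0b09890a9a) (nat_lit 0) (p (nat_lit 0x98a89088a1a) (nat_lit 0) (p (nat_lit 0x1090a0888079a) (nat_lit 0) (p (nat_lit 0x8898807871a) (nat_lit 0) (p (nat_lit 0x8000000000800080787088a) (nat_lit 0) (p (nat_lit 0x8000000000800078706860a)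 (nat_lit 0) (p (nat_lit 0x10806860782) (nat_lit 0) (p (nat_lit 0x786058702) (nat_lit 0) (p (nat_lit 0x10705850482) (nat_lit 0) (p (nat_lit 0x685048402) (nat_lit 0) (p (nat_lit 0x16000c) (nat_lit 0) (p (nat_lit 0x60592) (nat_lit 0) (p (nat_lit 0x48512) (nat_lit 0) (p (nat_lit 0x50392) (nat_lit 0) (p (nat_lit 0x38312) (nat_lit 0) (p (nat_lit 0x40212) (nat_lit 0) (p (nat_lit 0x28192) (nat_lit 0) (p (nat_lit 0x30092) (nat_lit 0) (p (nat_lit 0x18012) (nat_lit 0) pn))))))))))))))))))))))))))))))))) :=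
  Cl.node (nat_lit 0xc8d8c0b8d1a) (nat_lit 1) (by decide +kernel) (ClAll.succ ClAll.zero n85)

def n108 : Cl (O (nat_lit 5)) (R (nat_lit 6353))
    (p (nat_lit 0x10c0d0b8b0a9a) (nat_lit 0) (p (nat_lit 0xb8c8b0a8a1a) (nat_lit 0) (p (nat_lit 0x2a825800002a8258b0a8a0b8a) (nat_lit 0) (p (nat_lit 0x2a825800002a8258a8a09890a) (nat_lit 0) (p (nat_lit 0xb000c) (nat_lit 1) (p (nat_lit 0x200014) (nat_lit 0) (p (nat_lit 0x200004) (nat_lit 0) (p (nat_lit 0x109) (nat_lit 0) (p (nat_lit 0xc9) (nat_lit 1) (p (nat_lit 0x89) (nat_lit 1) (p (nat_lit 0x111) (nat_lit 1) (p (nat_lit 0xd1) (nat_lit 1) (p (nat_lit 0x81) (nat_lit 0) (p (nat_lit 0x41) (nat_lit 1) (p (nat_lit 0x10a0b09890a9a) (nat_lit 0) (p (nat_lit 0x98a89088a1a) (nat_lit 0) (p (nat_lit 0x1090a0888079a) (nat_lit 0) (p (nat_lit 0x8898807871a) (nat_lit 0) (p (nat_lit 0x8000000000800080787088a) (nat_lit 0) (p (nat_lit 0x8000000000800078706860a)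 (nat_lit 0) (p (nat_lit 0x10806860782) (nat_lit 0) (p (nat_lit 0x786058702) (nat_lit 0) (p (nat_lit 0x10705850482) (nat_lit 0) (p (nat_lit 0x685048402) (nat_lit 0) (p (nat_lit 0x16000c) (nat_lit 0) (p (nat_lit 0x60592) (nat_lit 0) (p (nat_lit 0x48512) (nat_lit 0) (p (nat_lit 0x50392) (nat_lit 0) (p (nat_lit 0x38312) (nat_lit 0) (p (nat_lit 0x40212) (nat_lit 0) (p (nat_lit 0x28192) (nat_lit 0) (p (nat_lit 0x30092) (nat_lit 0) (p (nat_lit 0x18012) (nat_lit 0) pn))))))))))))))))))))))))))))))))) :=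
  Cl.node (nat_lit 0xc8d8c0b8d1a) (nat_lit 1) (by decide +kernel) (ClAll.succ ClAll.zero n86)

def n109 : Cl (O (nat_lit 5)) (R (nat_lit 6353))
    (p (nat_lit 0x10c0d0b8b0a9a) (nat_lit 0) (p (nat_lit 0xb8c8b0a8a1a) (nat_lit 0) (p (nat_lit 0x2a825800002a8258b0a8a0b8a) (nat_lit 0) (p (nat_lit 0x2a825800002a8258a8a09890a) (nat_lit 0) (p (nat_lit 0xb000c) (nat_lit 1) (p (nat_lit 0x200014) (nat_lit 0) (p (nat_lit 0x200004) (nat_lit 0) (p (nat_lit 0x109) (nat_lit 1) (p (nat_lit 0xc9) (nat_lit 1) (p (nat_lit 0x89) (nat_lit 1) (p (nat_lit 0x111) (nat_lit 1) (p (nat_lit 0xd1) (nat_lit 1) (p (nat_lit 0x81) (nat_lit 0) (p (nat_lit 0x41) (nat_lit 1) (p (nat_lit 0x10a0b09890a9a) (nat_lit 0) (p (nat_lit 0x98a89088a1a) (nat_lit 0) (p (nat_lit 0x1090a0888079a) (nat_lit 0) (p (nat_lit 0x8898807871a) (nat_lit 0) (p (nat_lit 0x8000000000800080787088a) (nat_lit 0) (p (nat_lit 0x8000000000800078706860a)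 (nat_lit 0) (p (nat_lit 0x10806860782) (nat_lit 0) (p (nat_lit 0x786058702) (nat_lit 0) (p (nat_lit 0x10705850482) (nat_lit 0) (p (nat_lit 0x685048402) (nat_lit 0) (p (nat_lit 0x16000c) (nat_lit 0) (p (nat_lit 0x60592) (nat_lit 0) (p (nat_lit 0x48512) (nat_lit 0) (p (nat_lit 0x50392) (nat_lit 0) (p (nat_lit 0x38312) (nat_lit 0) (p (nat_lit 0x40212) (nat_lit 0) (p (nat_lit 0x28192) (nat_lit 0) (p (nat_lit 0x30092) (nat_lit 0) (p (nat_lit 0x18012) (nat_lit 0) pn))))))))))))))))))))))))))))))))) :=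
  Cl.node (nat_lit 0xc8d8c0b8d1a) (nat_lit 1) (by decide +kernel) (ClAll.succ ClAll.zero n87)

def n110 : Cl (O (nat_lit 5)) (R (nat_lit 6353))
    (p (nat_lit 0x10c0d0b8b0a9a) (nat_lit 0) (p (nat_lit 0xb8c8b0a8a1a) (nat_lit 0) (p (nat_lit 0x2a825800002a8258b0a8a0b8a) (nat_lit 0) (p (nat_lit 0x2a825800002a8258a8a09890a) (nat_lit 0) (p (nat_lit 0xb000c) (nat_lit 1) (p (nat_lit 0x200014) (nat_lit 0) (p (nat_lit 0x200004) (nat_lit 0) (p (nat_lit 0x111) (nat_lit 1) (p (nat_lit 0xd1) (nat_lit 1) (p (nat_lit 0xc9) (nat_lit 0) (p (nat_lit 0x119) (nat_lit 1) (p (nat_lit 0xc1) (nat_lit 0) (p (nat_lit 0x81) (nat_lit 1) (p (nat_lit 0x41) (nat_lit 1) (p (nat_lit 0x10a0b09890a9a) (nat_lit 0) (p (nat_lit 0x98a89088a1a) (nat_lit 0) (p (nat_lit 0x1090a0888079a) (nat_lit 0) (p (nat_lit 0x8898807871a) (nat_lit 0) (p (nat_lit 0x8000000000800080787088a) (nat_lit 0) (p (nat_lit 0x8000000000800078706860a)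 (nat_lit 0) (p (nat_lit 0x10806860782) (nat_lit 0) (p (nat_lit 0x786058702) (nat_lit 0) (p (nat_lit 0x10705850482) (nat_lit 0) (p (nat_lit 0x685048402) (nat_lit 0) (p (nat_lit 0x16000c) (nat_lit 0) (p (nat_lit 0x60592) (nat_lit 0) (p (nat_lit 0x48512) (nat_lit 0) (p (nat_lit 0x50392) (nat_lit 0) (p (nat_lit 0x38312) (nat_lit 0) (p (nat_lit 0x40212) (nat_lit 0) (p (nat_lit 0x28192) (nat_lit 0) (p (nat_lit 0x30092) (nat_lit 0) (p (nat_lit 0x18012) (nat_lit 0) pn))))))))))))))))))))))))))))))))) :=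
  Cl.node (nat_lit 0xc8d8c0b8d1a) (nat_lit 1) (by decide +kernel) (ClAll.succ ClAll.zero n88)

def n111 : Cl (O (nat_lit 5)) (R (nat_lit 6353))
    (p (nat_lit 0xc8d8c0b8d1a) (nat_lit 0) (p (nat_lit 0x10c0d0b8b0a9a) (nat_lit 0) (p (nat_lit 0xb8c8b0a8a1a) (nat_lit 0) (p (nat_lit 0x2a825800002a8258b0a8a0b8a) (nat_lit 0) (p (nat_lit 0x2a825800002a8258a8a09890a) (nat_lit 0) (p (nat_lit 0xb000c) (nat_lit 1) (p (nat_lit 0x200014) (nat_lit 0) (p (nat_lit 0x200004) (nat_lit 0) (p (nat_lit 0x109) (nat_lit 1) (p (nat_lit 0xc9) (nat_lit 1) (p (nat_lit 0x119) (nat_lit 1) (p (nat_lit 0xc1) (nat_lit 0) (p (nat_lit 0x81) (nat_lit 1) (p (nat_lit 0x41) (nat_lit 1) (p (nat_lit 0x10a0b09890a9a) (nat_lit 0) (p (nat_lit 0x98a89088a1a) (nat_lit 0) (p (nat_lit 0x1090a0888079a) (nat_lit 0) (p (nat_lit 0x8898807871a) (nat_lit 0) (p (nat_lit 0x8000000000800080787088a) (nat_lit 0) (p (nat_lit 0x8000000000800078706860a)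 (nat_lit 0) (p (nat_lit 0x10806860782) (nat_lit 0) (p (nat_lit 0x786058702) (nat_lit 0) (p (nat_lit 0x10705850482) (nat_lit 0) (p (nat_lit 0x685048402) (nat_lit 0) (p (nat_lit 0x16000c) (nat_lit 0) (p (nat_lit 0x60592) (nat_lit 0) (p (nat_lit 0x48512) (nat_lit 0) (p (nat_lit 0x50392) (nat_lit 0) (p (nat_lit 0x38312) (nat_lit 0) (p (nat_lit 0x40212) (nat_lit 0) (p (nat_lit 0x28192) (nat_lit 0) (p (nat_lit 0x30092) (nat_lit 0) (p (nat_lit 0x18012) (nat_lit 0) pn))))))))))))))))))))))))))))))))) :=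
  Cl.node (nat_lit 0x10d0e0c8c0d9a) (nat_lit 1) (by decide +kernel) (ClAll.succ ClAll.zero n89)

def n112 : Cl (O (nat_lit 5)) (R (nat_lit 6353))
    (p (nat_lit 0x2a825800002a8258b0a8a0b8a) (nat_lit 0) (p (nat_lit 0x2a825800002a8258a8a09890a) (nat_lit 0) (p (nat_lit 0xb000c) (nat_lit 1) (p (nat_lit 0x111) (nat_lit 0) (p (nat_lit 0x200014) (nat_lit 0) (p (nat_lit 0x200004) (nat_lit 0) (p (nat_lit 0xc9) (nat_lit 0) (p (nat_lit 0x81) (nat_lit 0) (p (nat_lit 0x101) (nat_lit 1) (p (nat_lit 0x119) (nat_lit 0) (p (nat_lit 0xd1) (nat_lit 0) (p (nat_lit 0x89) (nat_lit 0) (p (nat_lit 0x41) (nat_lit 0) (p (nat_lit 0x10a0b09890a9a) (nat_lit 0) (p (nat_lit 0x98a89088a1a) (nat_lit 0) (p (nat_lit 0x1090a0888079a) (nat_lit 0) (p (nat_lit 0x8898807871a) (nat_lit 0) (p (nat_lit 0x8000000000800080787088a) (nat_lit 0) (p (nat_lit 0x8000000000800078706860a) (nat_lit 0) (p (nat_lit 0x10806860782)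 (nat_lit 0) (p (nat_lit 0x786058702) (nat_lit 0) (p (nat_lit 0x10705850482) (nat_lit 0) (p (nat_lit 0x685048402) (nat_lit 0) (p (nat_lit 0x16000c) (nat_lit 0) (p (nat_lit 0x60592) (nat_lit 0) (p (nat_lit 0x48512) (nat_lit 0) (p (nat_lit 0x50392) (nat_lit 0) (p (nat_lit 0x38312) (nat_lit 0) (p (nat_lit 0x40212) (nat_lit 0) (p (nat_lit 0x28192) (nat_lit 0) (p (nat_lit 0x30092) (nat_lit 0) (p (nat_lit 0x18012) (nat_lit 0) pn)))))))))))))))))))))))))))))))) :=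
  Cl.node (nat_lit 0xb8c8b0a8a1a) (nat_lit 1) (by decide +kernel) (ClAll.succ ClAll.zero n90)

def n113 : Cl (O (nat_lit 5)) (R (nat_lit 6353))
    (p (nat_lit 0x2a825800002a8258b0a8a0b8a) (nat_lit 0) (p (nat_lit 0x2a825800002a8258a8a09890a) (nat_lit 0) (p (nat_lit 0xb000c) (nat_lit 1) (p (nat_lit 0x111) (nat_lit 0) (p (nat_lit 0x200014) (nat_lit 0) (p (nat_lit 0x200004) (nat_lit 0) (p (nat_lit 0xc9) (nat_lit 1) (p (nat_lit 0x81) (nat_lit 0) (p (nat_lit 0x101) (nat_lit 1) (p (nat_lit 0x119) (nat_lit 0) (p (nat_lit 0xd1) (nat_lit 0) (p (nat_lit 0x89) (nat_lit 0) (p (nat_lit 0x41) (nat_lit 0) (p (nat_lit 0x10a0b09890a9a) (nat_lit 0) (p (nat_lit 0x98a89088a1a) (nat_lit 0) (p (nat_lit 0x1090a0888079a) (nat_lit 0) (p (nat_lit 0x8898807871a) (nat_lit 0) (p (nat_lit 0x8000000000800080787088a) (nat_lit 0) (p (nat_lit 0x8000000000800078706860a) (nat_lit 0) (p (nat_lit 0x10806860782)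 (nat_lit 0) (p (nat_lit 0x786058702) (nat_lit 0) (p (nat_lit 0x10705850482) (nat_lit 0) (p (nat_lit 0x685048402) (nat_lit 0) (p (nat_lit 0x16000c) (nat_lit 0) (p (nat_lit 0x60592) (nat_lit 0) (p (nat_lit 0x48512) (nat_lit 0) (p (nat_lit 0x50392) (nat_lit 0) (p (nat_lit 0x38312) (nat_lit 0) (p (nat_lit 0x40212) (nat_lit 0) (p (nat_lit 0x28192) (nat_lit 0) (p (nat_lit 0x30092) (nat_lit 0) (p (nat_lit 0x18012) (nat_lit 0) pn)))))))))))))))))))))))))))))))) :=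
  Cl.node (nat_lit 0xb8c8b0a8a1a) (nat_lit 1) (by decide +kernel) (ClAll.succ ClAll.zero n91)

def n114 : Cl (O (nat_lit 5)) (R (nat_lit 6353))
    (p (nat_lit 0x2a825800002a8258b0a8a0b8a) (nat_lit 0) (p (nat_lit 0x2a825800002a8258a8a09890a) (nat_lit 0) (p (nat_lit 0xb000c) (nat_lit 1) (p (nat_lit 0x200014) (nat_lit 0) (p (nat_lit 0x200004) (nat_lit 0) (p (nat_lit 0xc9) (nat_lit 0) (p (nat_lit 0xc1) (nat_lit 0) (p (nat_lit 0x81) (nat_lit 1) (p (nat_lit 0x101) (nat_lit 1) (p (nat_lit 0x119) (nat_lit 0) (p (nat_lit 0xd1) (nat_lit 0) (p (nat_lit 0x89) (nat_lit 0) (p (nat_lit 0x41) (nat_lit 0) (p (nat_lit 0x10a0b09890a9a) (nat_lit 0) (p (nat_lit 0x98a89088a1a) (nat_lit 0) (p (nat_lit 0x1090a0888079a) (nat_lit 0) (p (nat_lit 0x8898807871a) (nat_lit 0) (p (nat_lit 0x8000000000800080787088a) (nat_lit 0) (p (nat_lit 0x8000000000800078706860a) (nat_lit 0) (p (nat_lit 0x10806860782)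 (nat_lit 0) (p (nat_lit 0x786058702) (nat_lit 0) (p (nat_lit 0x10705850482) (nat_lit 0) (p (nat_lit 0x685048402) (nat_lit 0) (p (nat_lit 0x16000c) (nat_lit 0) (p (nat_lit 0x60592) (nat_lit 0) (p (nat_lit 0x48512) (nat_lit 0) (p (nat_lit 0x50392) (nat_lit 0) (p (nat_lit 0x38312) (nat_lit 0) (p (nat_lit 0x40212) (nat_lit 0) (p (nat_lit 0x28192) (nat_lit 0) (p (nat_lit 0x30092) (nat_lit 0) (p (nat_lit 0x18012) (nat_lit 0) pn)))))))))))))))))))))))))))))))) :=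
  Cl.node (nat_lit 0xb8c8b0a8a1a) (nat_lit 1) (by decide +kernel) (ClAll.succ ClAll.zero n92)

def n115 : Cl (O (nat_lit 5)) (R (nat_lit 6353))
    (p (nat_lit 0xb8c8b0a8a1a) (nat_lit 0) (p (nat_lit 0x2a825800002a8258b0a8a0b8a) (nat_lit 0) (p (nat_lit 0x2a825800002a8258a8a09890a) (nat_lit 0) (p (nat_lit 0xb000c) (nat_lit 1) (p (nat_lit 0x200014) (nat_lit 0) (p (nat_lit 0x200004) (nat_lit 0) (p (nat_lit 0x109) (nat_lit 1) (p (nat_lit 0xc9) (nat_lit 1) (p (nat_lit 0xc1) (nat_lit 0) (p (nat_lit 0x119) (nat_lit 1) (p (nat_lit 0xd1) (nat_lit 0) (p (nat_lit 0x89) (nat_lit 0) (p (nat_lit 0x41) (nat_lit 0) (p (nat_lit 0x10a0b09890a9a) (nat_lit 0) (p (nat_lit 0x98a89088a1a) (nat_lit 0) (p (nat_lit 0x1090a0888079a) (nat_lit 0) (p (nat_lit 0x8898807871a) (nat_lit 0) (p (nat_lit 0x8000000000800080787088a) (nat_lit 0) (p (nat_lit 0x8000000000800078706860a) (nat_lit 0) (p (nat_lit 0x10806860782)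 (nat_lit 0) (p (nat_lit 0x786058702) (nat_lit 0) (p (nat_lit 0x10705850482) (nat_lit 0) (p (nat_lit 0x685048402) (nat_lit 0) (p (nat_lit 0x16000c) (nat_lit 0) (p (nat_lit 0x60592) (nat_lit 0) (p (nat_lit 0x48512) (nat_lit 0) (p (nat_lit 0x50392) (nat_lit 0) (p (nat_lit 0x38312) (nat_lit 0) (p (nat_lit 0x40212) (nat_lit 0) (p (nat_lit 0x28192) (nat_lit 0) (p (nat_lit 0x30092) (nat_lit 0) (p (nat_lit 0x18012) (nat_lit 0) pn)))))))))))))))))))))))))))))))) :=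
  Cl.node (nat_lit 0x10c0d0b8b0a9a) (nat_lit 1) (by decide +kernel) (ClAll.succ ClAll.zero n93)

def n116 : Cl (O (nat_lit 5)) (R (nat_lit 6353))
    (p (nat_lit 0x2a825800002a8258b0a8a0b8a) (nat_lit 0) (p (nat_lit 0x2a825800002a8258a8a09890a) (nat_lit 0) (p (nat_lit 0xb000c) (nat_lit 1) (p (nat_lit 0x200014) (nat_lit 0) (p (nat_lit 0x200004) (nat_lit 0) (p (nat_lit 0x109) (nat_lit 1) (p (nat_lit 0x101) (nat_lit 0) (p (nat_lit 0x81) (nat_lit 1) (p (nat_lit 0xc1) (nat_lit 1) (p (nat_lit 0x119) (nat_lit 1) (p (nat_lit 0xd1) (nat_lit 0) (p (nat_lit 0x89) (nat_lit 0) (p (nat_lit 0x41) (nat_lit 0) (p (nat_lit 0x10a0b09890a9a) (nat_lit 0) (p (nat_lit 0x98a89088a1a) (nat_lit 0) (p (nat_lit 0x1090a0888079a) (nat_lit 0) (p (nat_lit 0x8898807871a) (nat_lit 0) (p (nat_lit 0x8000000000800080787088a) (nat_lit 0) (p (nat_lit 0x8000000000800078706860a) (nat_lit 0) (p (nat_lit 0x10806860782)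 (nat_lit 0) (p (nat_lit 0x786058702) (nat_lit 0) (p (nat_lit 0x10705850482) (nat_lit 0) (p (nat_lit 0x685048402) (nat_lit 0) (p (nat_lit 0x16000c) (nat_lit 0) (p (nat_lit 0x60592) (nat_lit 0) (p (nat_lit 0x48512) (nat_lit 0) (p (nat_lit 0x50392) (nat_lit 0) (p (nat_lit 0x38312) (nat_lit 0) (p (nat_lit 0x40212) (nat_lit 0) (p (nat_lit 0x28192) (nat_lit 0) (p (nat_lit 0x30092) (nat_lit 0) (p (nat_lit 0x18012) (nat_lit 0) pn)))))))))))))))))))))))))))))))) :=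
  Cl.node (nat_lit 0xb8c8b0a8a1a) (nat_lit 1) (by decide +kernel) (ClAll.succ ClAll.zero n94)

def n117 : Cl (O (nat_lit 5)) (R (nat_lit 6353))
    (p (nat_lit 0x2a825800002a8258b0a8a0b8a) (nat_lit 0) (p (nat_lit 0x2a825800002a8258a8a09890a) (nat_lit 0) (p (nat_lit 0xb000c) (nat_lit 1) (p (nat_lit 0x119) (nat_lit 0) (p (nat_lit 0x200014) (nat_lit 0) (p (nat_lit 0x200004) (nat_lit 0) (p (nat_lit 0xc1) (nat_lit 0) (p (nat_lit 0x81) (nat_lit 1) (p (nat_lit 0x101) (nat_lit 1) (p (nat_lit 0x111) (nat_lit 0) (p (nat_lit 0xd1) (nat_lit 1) (p (nat_lit 0x89) (nat_lit 0) (p (nat_lit 0x41) (nat_lit 0) (p (nat_lit 0x10a0b09890a9a) (nat_lit 0) (p (nat_lit 0x98a89088a1a) (nat_lit 0) (p (nat_lit 0x1090a0888079a) (nat_lit 0) (p (nat_lit 0x8898807871a) (nat_lit 0) (p (nat_lit 0x8000000000800080787088a) (nat_lit 0) (p (nat_lit 0x8000000000800078706860a) (nat_lit 0) (p (nat_lit 0x10806860782)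 (nat_lit 0) (p (nat_lit 0x786058702) (nat_lit 0) (p (nat_lit 0x10705850482) (nat_lit 0) (p (nat_lit 0x685048402) (nat_lit 0) (p (nat_lit 0x16000c) (nat_lit 0) (p (nat_lit 0x60592) (nat_lit 0) (p (nat_lit 0x48512) (nat_lit 0) (p (nat_lit 0x50392) (nat_lit 0) (p (nat_lit 0x38312) (nat_lit 0) (p (nat_lit 0x40212) (nat_lit 0) (p (nat_lit 0x28192) (nat_lit 0) (p (nat_lit 0x30092) (nat_lit 0) (p (nat_lit 0x18012) (nat_lit 0) pn)))))))))))))))))))))))))))))))) :=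
  Cl.node (nat_lit 0xb8c8b0a8a1a) (nat_lit 1) (by decide +kernel) (ClAll.succ ClAll.zero n95)

def n118 : Cl (O (nat_lit 5)) (R (nat_lit 6353))
    (p (nat_lit 0xb8c8b0a8a1a) (nat_lit 0) (p (nat_lit 0x2a825800002a8258b0a8a0b8a) (nat_lit 0) (p (nat_lit 0x2a825800002a8258a8a09890a) (nat_lit 0) (p (nat_lit 0xb000c) (nat_lit 1) (p (nat_lit 0x200014) (nat_lit 0) (p (nat_lit 0x200004) (nat_lit 0) (p (nat_lit 0x111) (nat_lit 1) (p (nat_lit 0xd1) (nat_lit 1) (p (nat_lit 0xc1) (nat_lit 0) (p (nat_lit 0x119) (nat_lit 1) (p (nat_lit 0xc9) (nat_lit 0) (p (nat_lit 0x89) (nat_lit 1) (p (nat_lit 0x41) (nat_lit 0) (p (nat_lit 0x10a0b09890a9a) (nat_lit 0) (p (nat_lit 0x98a89088a1a) (nat_lit 0) (p (nat_lit 0x1090a0888079a) (nat_lit 0) (p (nat_lit 0x8898807871a) (nat_lit 0) (p (nat_lit 0x8000000000800080787088a) (nat_lit 0) (p (nat_lit 0x8000000000800078706860a) (nat_lit 0) (p (nat_lit 0x10806860782)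 (nat_lit 0) (p (nat_lit 0x786058702) (nat_lit 0) (p (nat_lit 0x10705850482) (nat_lit 0) (p (nat_lit 0x685048402) (nat_lit 0) (p (nat_lit 0x16000c) (nat_lit 0) (p (nat_lit 0x60592) (nat_lit 0) (p (nat_lit 0x48512) (nat_lit 0) (p (nat_lit 0x50392) (nat_lit 0) (p (nat_lit 0x38312) (nat_lit 0) (p (nat_lit 0x40212) (nat_lit 0) (p (nat_lit 0x28192) (nat_lit 0) (p (nat_lit 0x30092) (nat_lit 0) (p (nat_lit 0x18012) (nat_lit 0) pn)))))))))))))))))))))))))))))))) :=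
  Cl.node (nat_lit 0x10c0d0b8b0a9a) (nat_lit 1) (by decide +kernel) (ClAll.succ ClAll.zero n96)

def n119 : Cl (O (nat_lit 5)) (R (nat_lit 6353))
    (p (nat_lit 0x2a825800002a8258b0a8a0b8a) (nat_lit 0) (p (nat_lit 0x2a825800002a8258a8a09890a) (nat_lit 0) (p (nat_lit 0xb000c) (nat_lit 1) (p (nat_lit 0x111) (nat_lit 0) (p (nat_lit 0x200014) (nat_lit 0) (p (nat_lit 0x200004) (nat_lit 0) (p (nat_lit 0x89) (nat_lit 0) (p (nat_lit 0x109) (nat_lit 1) (p (nat_lit 0x101) (nat_lit 0) (p (nat_lit 0x119) (nat_lit 0) (p (nat_lit 0xd1) (nat_lit 0) (p (nat_lit 0x81) (nat_lit 0) (p (nat_lit 0x41) (nat_lit 1) (p (nat_lit 0x10a0b09890a9a) (nat_lit 0) (p (nat_lit 0x98a89088a1a) (nat_lit 0) (p (nat_lit 0x1090a0888079a) (nat_lit 0) (p (nat_lit 0x8898807871a) (nat_lit 0) (p (nat_lit 0x8000000000800080787088a) (nat_lit 0) (p (nat_lit 0x8000000000800078706860a) (nat_lit 0) (p (nat_lit 0x10806860782)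 (nat_lit 0) (p (nat_lit 0x786058702) (nat_lit 0) (p (nat_lit 0x10705850482) (nat_lit 0) (p (nat_lit 0x685048402) (nat_lit 0) (p (nat_lit 0x16000c) (nat_lit 0) (p (nat_lit 0x60592) (nat_lit 0) (p (nat_lit 0x48512) (nat_lit 0) (p (nat_lit 0x50392) (nat_lit 0) (p (nat_lit 0x38312) (nat_lit 0) (p (nat_lit 0x40212) (nat_lit 0) (p (nat_lit 0x28192) (nat_lit 0) (p (nat_lit 0x30092) (nat_lit 0) (p (nat_lit 0x18012) (nat_lit 0) pn)))))))))))))))))))))))))))))))) :=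
  Cl.node (nat_lit 0xb8c8b0a8a1a) (nat_lit 1) (by decide +kernel) (ClAll.succ ClAll.zero n97)

def n120 : Cl (O (nat_lit 5)) (R (nat_lit 6353))
    (p (nat_lit 0x2a825800002a8258b0a8a0b8a) (nat_lit 0) (p (nat_lit 0x2a825800002a8258a8a09890a) (nat_lit 0) (p (nat_lit 0xb000c) (nat_lit 1) (p (nat_lit 0x200014) (nat_lit 0) (p (nat_lit 0x200004) (nat_lit 0) (p (nat_lit 0xc9) (nat_lit 0) (p (nat_lit 0x89) (nat_lit 1) (p (nat_lit 0x109) (nat_lit 1) (p (nat_lit 0x101) (nat_lit 0) (p (nat_lit 0x119) (nat_lit 0) (p (nat_lit 0xd1) (nat_lit 0) (p (nat_lit 0x81) (nat_lit 0) (p (nat_lit 0x41) (nat_lit 1) (p (nat_lit 0x10a0b09890a9a) (nat_lit 0) (p (nat_lit 0x98a89088a1a) (nat_lit 0) (p (nat_lit 0x1090a0888079a) (nat_lit 0) (p (nat_lit 0x8898807871a) (nat_lit 0) (p (nat_lit 0x8000000000800080787088a) (nat_lit 0) (p (nat_lit 0x8000000000800078706860a) (nat_lit 0) (p (nat_lit 0x10806860782)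 (nat_lit 0) (p (nat_lit 0x786058702) (nat_lit 0) (p (nat_lit 0x10705850482) (nat_lit 0) (p (nat_lit 0x685048402) (nat_lit 0) (p (nat_lit 0x16000c) (nat_lit 0) (p (nat_lit 0x60592) (nat_lit 0) (p (nat_lit 0x48512) (nat_lit 0) (p (nat_lit 0x50392) (nat_lit 0) (p (nat_lit 0x38312) (nat_lit 0) (p (nat_lit 0x40212) (nat_lit 0) (p (nat_lit 0x28192) (nat_lit 0) (p (nat_lit 0x30092) (nat_lit 0) (p (nat_lit 0x18012) (nat_lit 0) pn)))))))))))))))))))))))))))))))) :=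
  Cl.node (nat_lit 0xb8c8b0a8a1a) (nat_lit 1) (by decide +kernel) (ClAll.succ ClAll.zero n98)

def n121 : Cl (O (nat_lit 5)) (R (nat_lit 6353))
    (p (nat_lit 0x2a825800002a8258b0a8a0b8a) (nat_lit 0) (p (nat_lit 0x2a825800002a8258a8a09890a) (nat_lit 0) (p (nat_lit 0xb000c) (nat_lit 1) (p (nat_lit 0x200014) (nat_lit 0) (p (nat_lit 0x200004) (nat_lit 0) (p (nat_lit 0xc9) (nat_lit 1) (p (nat_lit 0x89) (nat_lit 1) (p (nat_lit 0xc1) (nat_lit 0) (p (nat_lit 0x101) (nat_lit 1) (p (nat_lit 0x119) (nat_lit 0) (p (nat_lit 0xd1) (nat_lit 0) (p (nat_lit 0x81) (nat_lit 0) (p (nat_lit 0x41) (nat_lit 1) (p (nat_lit 0x10a0b09890a9a) (nat_lit 0) (p (nat_lit 0x98a89088a1a) (nat_lit 0) (p (nat_lit 0x1090a0888079a) (nat_lit 0) (p (nat_lit 0x8898807871a) (nat_lit 0) (p (nat_lit 0x8000000000800080787088a) (nat_lit 0) (p (nat_lit 0x8000000000800078706860a) (nat_lit 0) (p (nat_lit 0x10806860782)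 (nat_lit 0) (p (nat_lit 0x786058702) (nat_lit 0) (p (nat_lit 0x10705850482) (nat_lit 0) (p (nat_lit 0x685048402) (nat_lit 0) (p (nat_lit 0x16000c) (nat_lit 0) (p (nat_lit 0x60592) (nat_lit 0) (p (nat_lit 0x48512) (nat_lit 0) (p (nat_lit 0x50392) (nat_lit 0) (p (nat_lit 0x38312) (nat_lit 0) (p (nat_lit 0x40212) (nat_lit 0) (p (nat_lit 0x28192) (nat_lit 0) (p (nat_lit 0x30092) (nat_lit 0) (p (nat_lit 0x18012) (nat_lit 0) pn)))))))))))))))))))))))))))))))) :=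
  Cl.node (nat_lit 0xb8c8b0a8a1a) (nat_lit 1) (by decide +kernel) (ClAll.succ ClAll.zero n99)

def n122 : Cl (O (nat_lit 5)) (R (nat_lit 6353))
    (p (nat_lit 0xb8c8b0a8a1a) (nat_lit 0) (p (nat_lit 0x2a825800002a8258b0a8a0b8a) (nat_lit 0) (p (nat_lit 0x2a825800002a8258a8a09890a) (nat_lit 0) (p (nat_lit 0xb000c) (nat_lit 1) (p (nat_lit 0x200014) (nat_lit 0) (p (nat_lit 0x200004) (nat_lit 0) (p (nat_lit 0x89) (nat_lit 1) (p (nat_lit 0xc1) (nat_lit 1) (p (nat_lit 0x101) (nat_lit 1) (p (nat_lit 0x119) (nat_lit 0) (p (nat_lit 0xd1) (nat_lit 0) (p (nat_lit 0x81) (nat_lit 0) (p (nat_lit 0x41) (nat_lit 1) (p (nat_lit 0x10a0b09890a9a) (nat_lit 0) (p (nat_lit 0x98a89088a1a) (nat_lit 0) (p (nat_lit 0x1090a0888079a) (nat_lit 0) (p (nat_lit 0x8898807871a) (nat_lit 0) (p (nat_lit 0x8000000000800080787088a) (nat_lit 0) (p (nat_lit 0x8000000000800078706860a) (nat_lit 0) (p (nat_lit 0x10806860782)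 (nat_lit 0) (p (nat_lit 0x786058702) (nat_lit 0) (p (nat_lit 0x10705850482) (nat_lit 0) (p (nat_lit 0x685048402) (nat_lit 0) (p (nat_lit 0x16000c) (nat_lit 0) (p (nat_lit 0x60592) (nat_lit 0) (p (nat_lit 0x48512) (nat_lit 0) (p (nat_lit 0x50392) (nat_lit 0) (p (nat_lit 0x38312) (nat_lit 0) (p (nat_lit 0x40212) (nat_lit 0) (p (nat_lit 0x28192) (nat_lit 0) (p (nat_lit 0x30092) (nat_lit 0) (p (nat_lit 0x18012) (nat_lit 0) pn)))))))))))))))))))))))))))))))) :=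
  Cl.node (nat_lit 0x10c0d0b8b0a9a) (nat_lit 1) (by decide +kernel) (ClAll.succ ClAll.zero n100)

def n123 : Cl (O (nat_lit 5)) (R (nat_lit 6353))
    (p (nat_lit 0x2a825800002a8258b0a8a0b8a) (nat_lit 0) (p (nat_lit 0x2a825800002a8258a8a09890a) (nat_lit 0) (p (nat_lit 0xb000c) (nat_lit 1) (p (nat_lit 0x200014) (nat_lit 0) (p (nat_lit 0x200004) (nat_lit 0) (p (nat_lit 0x109) (nat_lit 0) (p (nat_lit 0x89) (nat_lit 1) (p (nat_lit 0xc9) (nat_lit 1) (p (nat_lit 0xc1) (nat_lit 0) (p (nat_lit 0x119) (nat_lit 1) (p (nat_lit 0xd1) (nat_lit 0) (p (nat_lit 0x81) (nat_lit 0) (p (nat_lit 0x41) (nat_lit 1) (p (nat_lit 0x10a0b09890a9a) (nat_lit 0) (p (nat_lit 0x98a89088a1a) (nat_lit 0) (p (nat_lit 0x1090a0888079a) (nat_lit 0) (p (nat_lit 0x8898807871a) (nat_lit 0) (p (nat_lit 0x8000000000800080787088a) (nat_lit 0) (p (nat_lit 0x8000000000800078706860a) (nat_lit 0) (p (nat_lit 0x10806860782)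 (nat_lit 0) (p (nat_lit 0x786058702) (nat_lit 0) (p (nat_lit 0x10705850482) (nat_lit 0) (p (nat_lit 0x685048402) (nat_lit 0) (p (nat_lit 0x16000c) (nat_lit 0) (p (nat_lit 0x60592) (nat_lit 0) (p (nat_lit 0x48512) (nat_lit 0) (p (nat_lit 0x50392) (nat_lit 0) (p (nat_lit 0x38312) (nat_lit 0) (p (nat_lit 0x40212) (nat_lit 0) (p (nat_lit 0x28192) (nat_lit 0) (p (nat_lit 0x30092) (nat_lit 0) (p (nat_lit 0x18012) (nat_lit 0) pn)))))))))))))))))))))))))))))))) :=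
  Cl.node (nat_lit 0xb8c8b0a8a1a) (nat_lit 1) (by decide +kernel) (ClAll.succ ClAll.zero n101)

def n124 : Cl (O (nat_lit 5)) (R (nat_lit 6353))
    (p (nat_lit 0x2a825800002a8258b0a8a0b8a) (nat_lit 0) (p (nat_lit 0x2a825800002a8258a8a09890a) (nat_lit 0) (p (nat_lit 0xb000c) (nat_lit 1) (p (nat_lit 0x200014) (nat_lit 0) (p (nat_lit 0x200004) (nat_lit 0) (p (nat_lit 0x109) (nat_lit 1) (p (nat_lit 0x89) (nat_lit 1) (p (nat_lit 0xc9) (nat_lit 1) (p (nat_lit 0xc1) (nat_lit 0) (p (nat_lit 0x119) (nat_lit 1) (p (nat_lit 0xd1) (nat_lit 0) (p (nat_lit 0x81) (nat_lit 0) (p (nat_lit 0x41) (nat_lit 1) (p (nat_lit 0x10a0b09890a9a) (nat_lit 0) (p (nat_lit 0x98a89088a1a) (nat_lit 0) (p (nat_lit 0x1090a0888079a) (nat_lit 0) (p (nat_lit 0x8898807871a) (nat_lit 0) (p (nat_lit 0x8000000000800080787088a) (nat_lit 0) (p (nat_lit 0x8000000000800078706860a) (nat_lit 0) (p (nat_lit 0x10806860782)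 (nat_lit 0) (p (nat_lit 0x786058702) (nat_lit 0) (p (nat_lit 0x10705850482) (nat_lit 0) (p (nat_lit 0x685048402) (nat_lit 0) (p (nat_lit 0x16000c) (nat_lit 0) (p (nat_lit 0x60592) (nat_lit 0) (p (nat_lit 0x48512) (nat_lit 0) (p (nat_lit 0x50392) (nat_lit 0) (p (nat_lit 0x38312) (nat_lit 0) (p (nat_lit 0x40212) (nat_lit 0) (p (nat_lit 0x28192) (nat_lit 0) (p (nat_lit 0x30092) (nat_lit 0) (p (nat_lit 0x18012) (nat_lit 0) pn)))))))))))))))))))))))))))))))) :=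
  Cl.node (nat_lit 0xb8c8b0a8a1a) (nat_lit 1) (by decide +kernel) (ClAll.succ ClAll.zero n102)

def n125 : Cl (O (nat_lit 5)) (R (nat_lit 6353))
    (p (nat_lit 0x2a825800002a8258b0a8a0b8a) (nat_lit 0) (p (nat_lit 0x2a825800002a8258a8a09890a) (nat_lit 0) (p (nat_lit 0xb000c) (nat_lit 1) (p (nat_lit 0x200014) (nat_lit 0) (p (nat_lit 0x200004) (nat_lit 0) (p (nat_lit 0x109) (nat_lit 0) (p (nat_lit 0x89) (nat_lit 1) (p (nat_lit 0x101) (nat_lit 0) (p (nat_lit 0xc1) (nat_lit 1) (p (nat_lit 0x119) (nat_lit 1) (p (nat_lit 0xd1) (nat_lit 0) (p (nat_lit 0x81) (nat_lit 0) (p (nat_lit 0x41) (nat_lit 1) (p (nat_lit 0x10a0b09890a9a) (nat_lit 0) (p (nat_lit 0x98a89088a1a) (nat_lit 0) (p (nat_lit 0x1090a0888079a) (nat_lit 0) (p (nat_lit 0x8898807871a) (nat_lit 0) (p (nat_lit 0x8000000000800080787088a) (nat_lit 0) (p (nat_lit 0x8000000000800078706860a) (nat_lit 0) (p (nat_lit 0x10806860782)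 (nat_lit 0) (p (nat_lit 0x786058702) (nat_lit 0) (p (nat_lit 0x10705850482) (nat_lit 0) (p (nat_lit 0x685048402) (nat_lit 0) (p (nat_lit 0x16000c) (nat_lit 0) (p (nat_lit 0x60592) (nat_lit 0) (p (nat_lit 0x48512) (nat_lit 0) (p (nat_lit 0x50392) (nat_lit 0) (p (nat_lit 0x38312) (nat_lit 0) (p (nat_lit 0x40212) (nat_lit 0) (p (nat_lit 0x28192) (nat_lit 0) (p (nat_lit 0x30092) (nat_lit 0) (p (nat_lit 0x18012) (nat_lit 0) pn)))))))))))))))))))))))))))))))) :=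
  Cl.node (nat_lit 0xb8c8b0a8a1a) (nat_lit 1) (by decide +kernel) (ClAll.succ ClAll.zero n103)

def n126 : Cl (O (nat_lit 5)) (R (nat_lit 6353))
    (p (nat_lit 0x2a825800002a8258b0a8a0b8a) (nat_lit 0) (p (nat_lit 0x2a825800002a8258a8a09890a) (nat_lit 0) (p (nat_lit 0xb000c) (nat_lit 1) (p (nat_lit 0x200014) (nat_lit 0) (p (nat_lit 0x200004) (nat_lit 0) (p (nat_lit 0x109) (nat_lit 1) (p (nat_lit 0x89) (nat_lit 1) (p (nat_lit 0x101) (nat_lit 0) (p (nat_lit 0xc1) (nat_lit 1) (p (nat_lit 0x119) (nat_lit 1) (p (nat_lit 0xd1) (nat_lit 0) (p (nat_lit 0x81) (nat_lit 0) (p (nat_lit 0x41) (nat_lit 1) (p (nat_lit 0x10a0b09890a9a) (nat_lit 0) (p (nat_lit 0x98a89088a1a) (nat_lit 0) (p (nat_lit 0x1090a0888079a) (nat_lit 0) (p (nat_lit 0x8898807871a) (nat_lit 0) (p (nat_lit 0x8000000000800080787088a) (nat_lit 0) (p (nat_lit 0x8000000000800078706860a) (nat_lit 0) (p (nat_lit 0x10806860782)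 (nat_lit 0) (p (nat_lit 0x786058702) (nat_lit 0) (p (nat_lit 0x10705850482) (nat_lit 0) (p (nat_lit 0x685048402) (nat_lit 0) (p (nat_lit 0x16000c) (nat_lit 0) (p (nat_lit 0x60592) (nat_lit 0) (p (nat_lit 0x48512) (nat_lit 0) (p (nat_lit 0x50392) (nat_lit 0) (p (nat_lit 0x38312) (nat_lit 0) (p (nat_lit 0x40212) (nat_lit 0) (p (nat_lit 0x28192) (nat_lit 0) (p (nat_lit 0x30092) (nat_lit 0) (p (nat_lit 0x18012) (nat_lit 0) pn)))))))))))))))))))))))))))))))) :=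
  Cl.node (nat_lit 0xb8c8b0a8a1a) (nat_lit 1) (by decide +kernel) (ClAll.succ ClAll.zero n104)

def n127 : Cl (O (nat_lit 5)) (R (nat_lit 6353))
    (p (nat_lit 0xb8c8b0a8a1a) (nat_lit 0) (p (nat_lit 0x2a825800002a8258b0a8a0b8a) (nat_lit 0) (p (nat_lit 0x2a825800002a8258a8a09890a) (nat_lit 0) (p (nat_lit 0xb000c) (nat_lit 1) (p (nat_lit 0x200014) (nat_lit 0) (p (nat_lit 0x200004) (nat_lit 0) (p (nat_lit 0x89) (nat_lit 1) (p (nat_lit 0x101) (nat_lit 1) (p (nat_lit 0xc1) (nat_lit 1) (p (nat_lit 0x119) (nat_lit 1) (p (nat_lit 0xd1) (nat_lit 0) (p (nat_lit 0x81) (nat_lit 0) (p (nat_lit 0x41) (nat_lit 1) (p (nat_lit 0x10a0b09890a9a) (nat_lit 0) (p (nat_lit 0x98a89088a1a) (nat_lit 0) (p (nat_lit 0x1090a0888079a) (nat_lit 0) (p (nat_lit 0x8898807871a) (nat_lit 0) (p (nat_lit 0x8000000000800080787088a) (nat_lit 0) (p (nat_lit 0x8000000000800078706860a) (nat_lit 0) (p (nat_lit 0x10806860782)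 (nat_lit 0) (p (nat_lit 0x786058702) (nat_lit 0) (p (nat_lit 0x10705850482) (nat_lit 0) (p (nat_lit 0x685048402) (nat_lit 0) (p (nat_lit 0x16000c) (nat_lit 0) (p (nat_lit 0x60592) (nat_lit 0) (p (nat_lit 0x48512) (nat_lit 0) (p (nat_lit 0x50392) (nat_lit 0) (p (nat_lit 0x38312) (nat_lit 0) (p (nat_lit 0x40212) (nat_lit 0) (p (nat_lit 0x28192) (nat_lit 0) (p (nat_lit 0x30092) (nat_lit 0) (p (nat_lit 0x18012) (nat_lit 0) pn)))))))))))))))))))))))))))))))) :=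
  Cl.node (nat_lit 0x10c0d0b8b0a9a) (nat_lit 1) (by decide +kernel) (ClAll.succ ClAll.zero n105)

def n128 : Cl (O (nat_lit 5)) (R (nat_lit 6353))
    (p (nat_lit 0x2a825800002a8258a8a09890a) (nat_lit 0) (p (nat_lit 0xb000c) (nat_lit 1) (p (nat_lit 0x119) (nat_lit 1) (p (nat_lit 0x200014) (nat_lit 0) (p (nat_lit 0x200004) (nat_lit 0) (p (nat_lit 0xc9) (nat_lit 0) (p (nat_lit 0x89) (nat_lit 1) (p (nat_lit 0x109) (nat_lit 1) (p (nat_lit 0x101) (nat_lit 0) (p (nat_lit 0x111) (nat_lit 0) (p (nat_lit 0xd1) (nat_lit 1) (p (nat_lit 0x81) (nat_lit 0) (p (nat_lit 0x41) (nat_lit 1) (p (nat_lit 0x10a0b09890a9a) (nat_lit 0) (p (nat_lit 0x98a89088a1a) (nat_lit 0) (p (nat_lit 0x1090a0888079a) (nat_lit 0) (p (nat_lit 0x8898807871a) (nat_lit 0) (p (nat_lit 0x8000000000800080787088a) (nat_lit 0) (p (nat_lit 0x8000000000800078706860a) (nat_lit 0) (p (nat_lit 0x10806860782) (nat_lit 0) (p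 (nat_lit 0x786058702) (nat_lit 0) (p (nat_lit 0x10705850482) (nat_lit 0) (p (nat_lit 0x685048402) (nat_lit 0) (p (nat_lit 0x16000c) (nat_lit 0) (p (nat_lit 0x60592) (nat_lit 0) (p (nat_lit 0x48512) (nat_lit 0) (p (nat_lit 0x50392) (nat_lit 0) (p (nat_lit 0x38312) (nat_lit 0) (p (nat_lit 0x40212) (nat_lit 0) (p (nat_lit 0x28192) (nat_lit 0) (p (nat_lit 0x30092) (nat_lit 0) (p (nat_lit 0x18012) (nat_lit 0) pn)))))))))))))))))))))))))))))))) :=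
  Cl.node (nat_lit 0x2a825800002a8258b0a8a0b8a) (nat_lit 1) (by decide +kernel) (ClAll.succ ClAll.zero n106)

def n129 : Cl (O (nat_lit 5)) (R (nat_lit 6353))
    (p (nat_lit 0xb8c8b0a8a1a) (nat_lit 0) (p (nat_lit 0x2a825800002a8258b0a8a0b8a) (nat_lit 0) (p (nat_lit 0x2a825800002a8258a8a09890a) (nat_lit 0) (p (nat_lit 0xb000c) (nat_lit 1) (p (nat_lit 0x200014) (nat_lit 0) (p (nat_lit 0x200004) (nat_lit 0) (p (nat_lit 0xc9) (nat_lit 0) (p (nat_lit 0x89) (nat_lit 1) (p (nat_lit 0x101) (nat_lit 1) (p (nat_lit 0x111) (nat_lit 0) (p (nat_lit 0xd1) (nat_lit 1) (p (nat_lit 0x81) (nat_lit 0) (p (nat_lit 0x41) (nat_lit 1) (p (nat_lit 0x10a0b09890a9a) (nat_lit 0) (p (nat_lit 0x98a89088a1a) (nat_lit 0) (p (nat_lit 0x1090a0888079a) (nat_lit 0) (p (nat_lit 0x8898807871a) (nat_lit 0) (p (nat_lit 0x8000000000800080787088a) (nat_lit 0) (p (nat_lit 0x8000000000800078706860a) (nat_lit 0)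 (p (nat_lit 0x10806860782) (nat_lit 0) (p (nat_lit 0x786058702) (nat_lit 0) (p (nat_lit 0x10705850482) (nat_lit 0) (p (nat_lit 0x685048402) (nat_lit 0) (p (nat_lit 0x16000c) (nat_lit 0) (p (nat_lit 0x60592) (nat_lit 0) (p (nat_lit 0x48512) (nat_lit 0) (p (nat_lit 0x50392) (nat_lit 0) (p (nat_lit 0x38312) (nat_lit 0) (p (nat_lit 0x40212) (nat_lit 0) (p (nat_lit 0x28192) (nat_lit 0) (p (nat_lit 0x30092) (nat_lit 0) (p (nat_lit 0x18012) (nat_lit 0) pn)))))))))))))))))))))))))))))))) :=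
  Cl.node (nat_lit 0x10c0d0b8b0a9a) (nat_lit 1) (by decide +kernel) (ClAll.succ ClAll.zero n107)

def n130 : Cl (O (nat_lit 5)) (R (nat_lit 6353))
    (p (nat_lit 0xb8c8b0a8a1a) (nat_lit 0) (p (nat_lit 0x2a825800002a8258b0a8a0b8a) (nat_lit 0) (p (nat_lit 0x2a825800002a8258a8a09890a) (nat_lit 0) (p (nat_lit 0xb000c) (nat_lit 1) (p (nat_lit 0x200014) (nat_lit 0) (p (nat_lit 0x200004) (nat_lit 0) (p (nat_lit 0x109) (nat_lit 0) (p (nat_lit 0xc9) (nat_lit 1) (p (nat_lit 0x89) (nat_lit 1) (p (nat_lit 0x111) (nat_lit 1) (p (nat_lit 0xd1) (nat_lit 1) (p (nat_lit 0x81) (nat_lit 0) (p (nat_lit 0x41) (nat_lit 1) (p (nat_lit 0x10a0b09890a9a) (nat_lit 0) (p (nat_lit 0x98a89088a1a) (nat_lit 0) (p (nat_lit 0x1090a0888079a) (nat_lit 0) (p (nat_lit 0x8898807871a) (nat_lit 0) (p (nat_lit 0x8000000000800080787088a) (nat_lit 0) (p (nat_lit 0x8000000000800078706860a) (nat_lit 0) (p (nat_lit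 0x10806860782) (nat_lit 0) (p (nat_lit 0x786058702) (nat_lit 0) (p (nat_lit 0x10705850482) (nat_lit 0) (p (nat_lit 0x685048402) (nat_lit 0) (p (nat_lit 0x16000c) (nat_lit 0) (p (nat_lit 0x60592) (nat_lit 0) (p (nat_lit 0x48512) (nat_lit 0) (p (nat_lit 0x50392) (nat_lit 0) (p (nat_lit 0x38312) (nat_lit 0) (p (nat_lit 0x40212) (nat_lit 0) (p (nat_lit 0x28192) (nat_lit 0) (p (nat_lit 0x30092) (nat_lit 0) (p (nat_lit 0x18012) (nat_lit 0) pn)))))))))))))))))))))))))))))))) :=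
  Cl.node (nat_lit 0x10c0d0b8b0a9a) (nat_lit 1) (by decide +kernel) (ClAll.succ ClAll.zero n108)

def n131 : Cl (O (nat_lit 5)) (R (nat_lit 6353))
    (p (nat_lit 0xb8c8b0a8a1a) (nat_lit 0) (p (nat_lit 0x2a825800002a8258b0a8a0b8a) (nat_lit 0) (p (nat_lit 0x2a825800002a8258a8a09890a) (nat_lit 0) (p (nat_lit 0xb000c) (nat_lit 1) (p (nat_lit 0x200014) (nat_lit 0) (p (nat_lit 0x200004) (nat_lit 0) (p (nat_lit 0x109) (nat_lit 1) (p (nat_lit 0xc9) (nat_lit 1) (p (nat_lit 0x89) (nat_lit 1) (p (nat_lit 0x111) (nat_lit 1) (p (nat_lit 0xd1) (nat_lit 1) (p (nat_lit 0x81) (nat_lit 0) (p (nat_lit 0x41) (nat_lit 1) (p (nat_lit 0x10a0b09890a9a) (nat_lit 0) (p (nat_lit 0x98a89088a1a) (nat_lit 0) (p (nat_lit 0x1090a0888079a) (nat_lit 0) (p (nat_lit 0x8898807871a) (nat_lit 0) (p (nat_lit 0x8000000000800080787088a) (nat_lit 0) (p (nat_lit 0x8000000000800078706860a) (nat_lit 0) (p (nat_lit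 0x10806860782) (nat_lit 0) (p (nat_lit 0x786058702) (nat_lit 0) (p (nat_lit 0x10705850482) (nat_lit 0) (p (nat_lit 0x685048402) (nat_lit 0) (p (nat_lit 0x16000c) (nat_lit 0) (p (nat_lit 0x60592) (nat_lit 0) (p (nat_lit 0x48512) (nat_lit 0) (p (nat_lit 0x50392) (nat_lit 0) (p (nat_lit 0x38312) (nat_lit 0) (p (nat_lit 0x40212) (nat_lit 0) (p (nat_lit 0x28192) (nat_lit 0) (p (nat_lit 0x30092) (nat_lit 0) (p (nat_lit 0x18012) (nat_lit 0) pn)))))))))))))))))))))))))))))))) :=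
  Cl.node (nat_lit 0x10c0d0b8b0a9a) (nat_lit 1) (by decide +kernel) (ClAll.succ ClAll.zero n109)

def n132 : Cl (O (nat_lit 5)) (R (nat_lit 6353))
    (p (nat_lit 0xb8c8b0a8a1a) (nat_lit 0) (p (nat_lit 0x2a825800002a8258b0a8a0b8a) (nat_lit 0) (p (nat_lit 0x2a825800002a8258a8a09890a) (nat_lit 0) (p (nat_lit 0xb000c) (nat_lit 1) (p (nat_lit 0x200014) (nat_lit 0) (p (nat_lit 0x200004) (nat_lit 0) (p (nat_lit 0x111) (nat_lit 1) (p (nat_lit 0xd1) (nat_lit 1) (p (nat_lit 0xc9) (nat_lit 0) (p (nat_lit 0x119) (nat_lit 1) (p (nat_lit 0xc1) (nat_lit 0) (p (nat_lit 0x81) (nat_lit 1) (p (nat_lit 0x41) (nat_lit 1) (p (nat_lit 0x10a0b09890a9a) (nat_lit 0) (p (nat_lit 0x98a89088a1a) (nat_lit 0) (p (nat_lit 0x1090a0888079a) (nat_lit 0) (p (nat_lit 0x8898807871a) (nat_lit 0) (p (nat_lit 0x8000000000800080787088a) (nat_lit 0) (p (nat_lit 0x8000000000800078706860a) (nat_lit 0) (p (nat_lit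 0x10806860782) (nat_lit 0) (p (nat_lit 0x786058702) (nat_lit 0) (p (nat_lit 0x10705850482) (nat_lit 0) (p (nat_lit 0x685048402) (nat_lit 0) (p (nat_lit 0x16000c) (nat_lit 0) (p (nat_lit 0x60592) (nat_lit 0) (p (nat_lit 0x48512) (nat_lit 0) (p (nat_lit 0x50392) (nat_lit 0) (p (nat_lit 0x38312) (nat_lit 0) (p (nat_lit 0x40212) (nat_lit 0) (p (nat_lit 0x28192) (nat_lit 0) (p (nat_lit 0x30092) (nat_lit 0) (p (nat_lit 0x18012) (nat_lit 0) pn)))))))))))))))))))))))))))))))) :=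
  Cl.node (nat_lit 0x10c0d0b8b0a9a) (nat_lit 1) (by decide +kernel) (ClAll.succ ClAll.zero n110)

def n133 : Cl (O (nat_lit 5)) (R (nat_lit 6353))
    (p (nat_lit 0x10c0d0b8b0a9a) (nat_lit 0) (p (nat_lit 0xb8c8b0a8a1a) (nat_lit 0) (p (nat_lit 0x2a825800002a8258b0a8a0b8a) (nat_lit 0) (p (nat_lit 0x2a825800002a8258a8a09890a) (nat_lit 0) (p (nat_lit 0xb000c) (nat_lit 1) (p (nat_lit 0x200014) (nat_lit 0) (p (nat_lit 0x200004) (nat_lit 0) (p (nat_lit 0x109) (nat_lit 1) (p (nat_lit 0xc9) (nat_lit 1) (p (nat_lit 0x119) (nat_lit 1) (p (nat_lit 0xc1) (nat_lit 0) (p (nat_lit 0x81) (nat_lit 1) (p (nat_lit 0x41) (nat_lit 1) (p (nat_lit 0x10a0b09890a9a) (nat_lit 0) (p (nat_lit 0x98a89088a1a) (nat_lit 0) (p (nat_lit 0x1090a0888079a) (nat_lit 0) (p (nat_lit 0x8898807871a) (nat_lit 0) (p (nat_lit 0x8000000000800080787088a) (nat_lit 0) (p (nat_lit 0x8000000000800078706860a) (nat_lit 0)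 (p (nat_lit 0x10806860782) (nat_lit 0) (p (nat_lit 0x786058702) (nat_lit 0) (p (nat_lit 0x10705850482) (nat_lit 0) (p (nat_lit 0x685048402) (nat_lit 0) (p (nat_lit 0x16000c) (nat_lit 0) (p (nat_lit 0x60592) (nat_lit 0) (p (nat_lit 0x48512) (nat_lit 0) (p (nat_lit 0x50392) (nat_lit 0) (p (nat_lit 0x38312) (nat_lit 0) (p (nat_lit 0x40212) (nat_lit 0) (p (nat_lit 0x28192) (nat_lit 0) (p (nat_lit 0x30092) (nat_lit 0) (p (nat_lit 0x18012) (nat_lit 0) pn)))))))))))))))))))))))))))))))) :=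
  Cl.node (nat_lit 0xc8d8c0b8d1a) (nat_lit 1) (by decide +kernel) (ClAll.succ ClAll.zero n111)

def n134 : Cl (O (nat_lit 5)) (R (nat_lit 6353))
    (p (nat_lit 0x2a825800002a8258a8a09890a) (nat_lit 0) (p (nat_lit 0xb000c) (nat_lit 1) (p (nat_lit 0x111) (nat_lit 0) (p (nat_lit 0x200014) (nat_lit 0) (p (nat_lit 0x200004) (nat_lit 0) (p (nat_lit 0xc9) (nat_lit 0) (p (nat_lit 0x81) (nat_lit 0) (p (nat_lit 0x101) (nat_lit 1) (p (nat_lit 0x119) (nat_lit 0) (p (nat_lit 0xd1) (nat_lit 0) (p (nat_lit 0x89) (nat_lit 0) (p (nat_lit 0x41) (nat_lit 0) (p (nat_lit 0x10a0b09890a9a) (nat_lit 0) (p (nat_lit 0x98a89088a1a) (nat_lit 0) (p (nat_lit 0x1090a0888079a) (nat_lit 0) (p (nat_lit 0x8898807871a) (nat_lit 0) (p (nat_lit 0x8000000000800080787088a) (nat_lit 0) (p (nat_lit 0x8000000000800078706860a) (nat_lit 0) (p (nat_lit 0x10806860782) (nat_lit 0) (p (nat_lit 0x786058702) (nat_lit 0)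 (p (nat_lit 0x10705850482) (nat_lit 0) (p (nat_lit 0x685048402) (nat_lit 0) (p (nat_lit 0x16000c) (nat_lit 0) (p (nat_lit 0x60592) (nat_lit 0) (p (nat_lit 0x48512) (nat_lit 0) (p (nat_lit 0x50392) (nat_lit 0) (p (nat_lit 0x38312) (nat_lit 0) (p (nat_lit 0x40212) (nat_lit 0) (p (nat_lit 0x28192) (nat_lit 0) (p (nat_lit 0x30092) (nat_lit 0) (p (nat_lit 0x18012) (nat_lit 0) pn))))))))))))))))))))))))))))))) :=
  Cl.node (nat_lit 0x2a825800002a8258b0a8a0b8a) (nat_lit 1) (by decide +kernel) (ClAll.succ ClAll.zero n112)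

def n135 : Cl (O (nat_lit 5)) (R (nat_lit 6353))
    (p (nat_lit 0x2a825800002a8258a8a09890a) (nat_lit 0) (p (nat_lit 0xb000c) (nat_lit 1) (p (nat_lit 0x111) (nat_lit 0) (p (nat_lit 0x200014) (nat_lit 0) (p (nat_lit 0x200004) (nat_lit 0) (p (nat_lit 0xc9) (nat_lit 1) (p (nat_lit 0x81) (nat_lit 0) (p (nat_lit 0x101) (nat_lit 1) (p (nat_lit 0x119) (nat_lit 0) (p (nat_lit 0xd1) (nat_lit 0) (p (nat_lit 0x89) (nat_lit 0) (p (nat_lit 0x41) (nat_lit 0) (p (nat_lit 0x10a0b09890a9a) (nat_lit 0) (p (nat_lit 0x98a89088a1a) (nat_lit 0) (p (nat_lit 0x1090a0888079a) (nat_lit 0) (p (nat_lit 0x8898807871a) (nat_lit 0) (p (nat_lit 0x8000000000800080787088a) (nat_lit 0) (p (nat_lit 0x8000000000800078706860a) (nat_lit 0) (p (nat_lit 0x10806860782) (nat_lit 0) (p (nat_lit 0x786058702) (nat_lit 0) (p (nat_lit 0x10705850482) (nat_lit 0) (p (nat_lit 0x685048402) (nat_lit 0) (p (nat_lit 0x16000c)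 (nat_lit 0) (p (nat_lit 0x60592) (nat_lit 0) (p (nat_lit 0x48512) (nat_lit 0) (p (nat_lit 0x50392) (nat_lit 0) (p (nat_lit 0x38312) (nat_lit 0) (p (nat_lit 0x40212) (nat_lit 0) (p (nat_lit 0x28192) (nat_lit 0) (p (nat_lit 0x30092) (nat_lit 0) (p (nat_lit 0x18012) (nat_lit 0) pn))))))))))))))))))))))))))))))) :=
  Cl.node (nat_lit 0x2a825800002a8258b0a8a0b8a) (nat_lit 1) (by decide +kernel) (ClAll.succ ClAll.zero n113)

def n136 : Cl (O (nat_lit 5)) (R (nat_lit 6353))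
    (p (nat_lit 0x2a825800002a8258a8a09890a) (nat_lit 0) (p (nat_lit 0xb000c) (nat_lit 1) (p (nat_lit 0x200014) (nat_lit 0) (p (nat_lit 0x200004) (nat_lit 0) (p (nat_lit 0xc9) (nat_lit 0) (p (nat_lit 0xc1) (nat_lit 0) (p (nat_lit 0x81) (nat_lit 1) (p (nat_lit 0x101) (nat_lit 1) (p (nat_lit 0x119) (nat_lit 0) (p (nat_lit 0xd1) (nat_lit 0) (p (nat_lit 0x89) (nat_lit 0) (p (nat_lit 0x41) (nat_lit 0) (p (nat_lit 0x10a0b09890a9a) (nat_lit 0) (p (nat_lit 0x98a89088a1a) (nat_lit 0) (p (nat_lit 0x1090a0888079a) (nat_lit 0) (p (nat_lit 0x8898807871a) (nat_lit 0) (p (nat_lit 0x8000000000800080787088a) (nat_lit 0) (p (nat_lit 0x8000000000800078706860a) (nat_lit 0) (p (nat_lit 0x10806860782) (nat_lit 0) (p (nat_lit 0x786058702) (nat_lit 0) (p (nat_lit 0x10705850482) (nat_lit 0) (p (nat_lit 0x685048402) (nat_lit 0) (p (nat_lit 0x16000c) (nat_lit 0) (p (nat_lit 0x60592) (nat_lit 0) (p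 (nat_lit 0x48512) (nat_lit 0) (p (nat_lit 0x50392) (nat_lit 0) (p (nat_lit 0x38312) (nat_lit 0) (p (nat_lit 0x40212) (nat_lit 0) (p (nat_lit 0x28192) (nat_lit 0) (p (nat_lit 0x30092) (nat_lit 0) (p (nat_lit 0x18012) (nat_lit 0) pn))))))))))))))))))))))))))))))) :=
  Cl.node (nat_lit 0x2a825800002a8258b0a8a0b8a) (nat_lit 1) (by decide +kernel) (ClAll.succ ClAll.zero n114)

def n137 : Cl (O (nat_lit 5)) (R (nat_lit 6353))
    (p (nat_lit 0x2a825800002a8258b0a8a0b8a) (nat_lit 0) (p (nat_lit 0x2a825800002a8258a8a09890a) (nat_lit 0) (p (nat_lit 0xb000c) (nat_lit 1) (p (nat_lit 0x200014) (nat_lit 0) (p (nat_lit 0x200004) (nat_lit 0) (p (nat_lit 0x109) (nat_lit 1) (p (nat_lit 0xc9) (nat_lit 1) (p (nat_lit 0xc1) (nat_lit 0) (p (nat_lit 0x119) (nat_lit 1) (p (nat_lit 0xd1) (nat_lit 0) (p (nat_lit 0x89) (nat_lit 0) (p (nat_lit 0x41) (nat_lit 0) (p (nat_lit 0x10a0b09890a9a) (nat_lit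 0) (p (nat_lit 0x98a89088a1a) (nat_lit 0) (p (nat_lit 0x1090a0888079a) (nat_lit 0) (p (nat_lit 0x8898807871a) (nat_lit 0) (p (nat_lit 0x8000000000800080787088a) (nat_lit 0) (p (nat_lit 0x8000000000800078706860a) (nat_lit 0) (p (nat_lit 0x10806860782) (nat_lit 0) (p (nat_lit 0x786058702) (nat_lit 0) (p (nat_lit 0x10705850482) (nat_lit 0) (p (nat_lit 0x685048402) (nat_lit 0) (p (nat_lit 0x16000c) (nat_lit 0) (p (nat_lit 0x60592) (nat_lit 0) (p (nat_lit 0x48512) (nat_lit 0) (p (nat_lit 0x50392) (nat_lit 0) (p (nat_lit 0x38312) (nat_lit 0) (p (nat_lit 0x40212) (nat_lit 0) (p (nat_lit 0x28192) (nat_lit 0) (p (nat_lit 0x30092) (nat_lit 0) (p (nat_lit 0x18012) (nat_lit 0) pn))))))))))))))))))))))))))))))) :=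
  Cl.node (nat_lit 0xb8c8b0a8a1a) (nat_lit 1) (by decide +kernel) (ClAll.succ ClAll.zero n115)

def n138 : Cl (O (nat_lit 5)) (R (nat_lit 6353))
    (p (nat_lit 0x2a825800002a8258a8a09890a) (nat_lit 0) (p (nat_lit 0xb000c) (nat_lit 1) (p (nat_lit 0x200014) (nat_lit 0) (p (nat_lit 0x200004) (nat_lit 0) (p (nat_lit 0x109) (nat_lit 1) (p (nat_lit 0x101) (nat_lit 0) (p (nat_lit 0x81) (nat_lit 1) (p (nat_lit 0xc1) (nat_lit 1) (p (nat_lit 0x119) (nat_lit 1) (p (nat_lit 0xd1) (nat_lit 0) (p (nat_lit 0x89) (nat_lit 0) (p (nat_lit 0x41) (nat_lit 0) (p (nat_lit 0x10a0b09890a9a) (nat_lit 0) (p (nat_lit 0x98a89088a1a) (nat_lit 0) (p (nat_lit 0x1090a0888079a) (nat_lit 0) (p (nat_lit 0x8898807871a) (nat_lit 0) (p (nat_lit 0x8000000000800080787088a) (nat_lit 0) (p (nat_lit 0x8000000000800078706860a) (nat_lit 0) (p (nat_lit 0x10806860782) (nat_lit 0) (p (nat_lit 0x786058702) (nat_lit 0)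 (p (nat_lit 0x10705850482) (nat_lit 0) (p (nat_lit 0x685048402) (nat_lit 0) (p (nat_lit 0x16000c) (nat_lit 0) (p (nat_lit 0x60592) (nat_lit 0) (p (nat_lit 0x48512) (nat_lit 0) (p (nat_lit 0x50392) (nat_lit 0) (p (nat_lit 0x38312) (nat_lit 0) (p (nat_lit 0x40212) (nat_lit 0) (p (nat_lit 0x28192) (nat_lit 0) (p (nat_lit 0x30092) (nat_lit 0) (p (nat_lit 0x18012) (nat_lit 0) pn))))))))))))))))))))))))))))))) :=
  Cl.node (nat_lit 0x2a825800002a8258b0a8a0b8a) (nat_lit 1) (by decide +kernel) (ClAll.succ ClAll.zero n116)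

def n139 : Cl (O (nat_lit 5)) (R (nat_lit 6353))
    (p (nat_lit 0x2a825800002a8258a8a09890a) (nat_lit 0) (p (nat_lit 0xb000c) (nat_lit 1) (p (nat_lit 0x119) (nat_lit 0) (p (nat_lit 0x200014) (nat_lit 0) (p (nat_lit 0x200004) (nat_lit 0) (p (nat_lit 0xc1) (nat_lit 0) (p (nat_lit 0x81) (nat_lit 1) (p (nat_lit 0x101) (nat_lit 1) (p (nat_lit 0x111) (nat_lit 0) (p (nat_lit 0xd1) (nat_lit 1) (p (nat_lit 0x89) (nat_lit 0) (p (nat_lit 0x41) (nat_lit 0) (p (nat_lit 0x10a0b09890a9a) (nat_lit 0) (p (nat_lit 0x98a89088a1a) (nat_lit 0) (p (nat_lit 0x1090a0888079a) (nat_lit 0) (p (nat_lit 0x8898807871a) (nat_lit 0) (p (nat_lit 0x8000000000800080787088a) (nat_lit 0) (p (nat_lit 0x8000000000800078706860a) (nat_lit 0) (p (nat_lit 0x10806860782) (nat_lit 0) (p (nat_lit 0x786058702) (nat_lit 0) (p (nat_lit 0x10705850482) (nat_lit 0) (p (nat_lit 0x685048402) (nat_lit 0) (p (nat_lit 0x16000c)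 (nat_lit 0) (p (nat_lit 0x60592) (nat_lit 0) (p (nat_lit 0x48512) (nat_lit 0) (p (nat_lit 0x50392) (nat_lit 0) (p (nat_lit 0x38312) (nat_lit 0) (p (nat_lit 0x40212) (nat_lit 0) (p (nat_lit 0x28192) (nat_lit 0) (p (nat_lit 0x30092) (nat_lit 0) (p (nat_lit 0x18012) (nat_lit 0) pn))))))))))))))))))))))))))))))) :=
  Cl.node (nat_lit 0x2a825800002a8258b0a8a0b8a) (nat_lit 1) (by decide +kernel) (ClAll.succ ClAll.zero n117)

def n140 : Cl (O (nat_lit 5)) (R (nat_lit 6353))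
    (p (nat_lit 0x2a825800002a8258b0a8a0b8a) (nat_lit 0) (p (nat_lit 0x2a825800002a8258a8a09890a) (nat_lit 0) (p (nat_lit 0xb000c) (nat_lit 1) (p (nat_lit 0x200014) (nat_lit 0) (p (nat_lit 0x200004) (nat_lit 0) (p (nat_lit 0x111) (nat_lit 1) (p (nat_lit 0xd1) (nat_lit 1) (p (nat_lit 0xc1) (nat_lit 0) (p (nat_lit 0x119) (nat_lit 1) (p (nat_lit 0xc9) (nat_lit 0) (p (nat_lit 0x89) (nat_lit 1) (p (nat_lit 0x41) (nat_lit 0) (p (nat_lit 0x10a0b09890a9a) (nat_lit 0) (p (nat_lit 0x98a89088a1a) (nat_lit 0) (p (nat_lit 0x1090a0888079a) (nat_lit 0) (p (nat_lit 0x8898807871a) (nat_lit 0) (p (nat_lit 0x8000000000800080787088a) (nat_lit 0) (p (nat_lit 0x8000000000800078706860a) (nat_lit 0) (p (nat_lit 0x10806860782) (nat_lit 0) (p (nat_lit 0x786058702) (nat_lit 0) (p (nat_lit 0x10705850482) (nat_lit 0) (p (nat_lit 0x685048402) (nat_lit 0) (p (nat_lit 0x16000c) (nat_lit 0) (p (nat_lit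 0x60592) (nat_lit 0) (p (nat_lit 0x48512) (nat_lit 0) (p (nat_lit 0x50392) (nat_lit 0) (p (nat_lit 0x38312) (nat_lit 0) (p (nat_lit 0x40212) (nat_lit 0) (p (nat_lit 0x28192) (nat_lit 0) (p (nat_lit 0x30092) (nat_lit 0) (p (nat_lit 0x18012) (nat_lit 0) pn))))))))))))))))))))))))))))))) :=
  Cl.node (nat_lit 0xb8c8b0a8a1a) (nat_lit 1) (by decide +kernel) (ClAll.succ ClAll.zero n118)

def n141 : Cl (O (nat_lit 5)) (R (nat_lit 6353))
    (p (nat_lit 0x2a825800002a8258a8a09890a) (nat_lit 0) (p (nat_lit 0xb000c) (nat_lit 1) (p (nat_lit 0x111) (nat_lit 0) (p (nat_lit 0x200014) (nat_lit 0) (p (nat_lit 0x200004) (nat_lit 0) (p (nat_lit 0x89) (nat_lit 0) (p (nat_lit 0x109) (nat_lit 1) (p (nat_lit 0x101) (nat_lit 0) (p (nat_lit 0x119) (nat_lit 0) (p (nat_lit 0xd1) (nat_lit 0) (p (nat_lit 0x81) (nat_lit 0) (p (nat_lit 0x41) (nat_lit 1) (p (nat_lit 0x10a0b09890a9a) (nat_lit 0) (p (nat_lit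 0x98a89088a1a) (nat_lit 0) (p (nat_lit 0x1090a0888079a) (nat_lit 0) (p (nat_lit 0x8898807871a) (nat_lit 0) (p (nat_lit 0x8000000000800080787088a) (nat_lit 0) (p (nat_lit 0x8000000000800078706860a) (nat_lit 0) (p (nat_lit 0x10806860782) (nat_lit 0) (p (nat_lit 0x786058702) (nat_lit 0) (p (nat_lit 0x10705850482) (nat_lit 0) (p (nat_lit 0x685048402) (nat_lit 0) (p (nat_lit 0x16000c) (nat_lit 0) (p (nat_lit 0x60592) (nat_lit 0) (p (nat_lit 0x48512) (nat_lit 0) (p (nat_lit 0x50392) (nat_lit 0) (p (nat_lit 0x38312) (nat_lit 0) (p (nat_lit 0x40212) (nat_lit 0) (p (nat_lit 0x28192) (nat_lit 0) (p (nat_lit 0x30092) (nat_lit 0) (p (nat_lit 0x18012) (nat_lit 0) pn))))))))))))))))))))))))))))))) :=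
  Cl.node (nat_lit 0x2a825800002a8258b0a8a0b8a) (nat_lit 1) (by decide +kernel) (ClAll.succ ClAll.zero n119)

def n142 : Cl (O (nat_lit 5)) (R (nat_lit 6353))
    (p (nat_lit 0x2a825800002a8258a8a09890a) (nat_lit 0) (p (nat_lit 0xb000c) (nat_lit 1) (p (nat_lit 0x200014) (nat_lit 0) (p (nat_lit 0x200004) (nat_lit 0) (p (nat_lit 0xc9) (nat_lit 0) (p (nat_lit 0x89) (nat_lit 1) (p (nat_lit 0x109) (nat_lit 1) (p (nat_lit 0x101) (nat_lit 0) (p (nat_lit 0x119) (nat_lit 0) (p (nat_lit 0xd1) (nat_lit 0) (p (nat_lit 0x81) (nat_lit 0) (p (nat_lit 0x41) (nat_lit 1) (p (nat_lit 0x10a0b09890a9a) (nat_lit 0) (p (nat_lit 0x98a89088a1a) (nat_lit 0) (p (nat_lit 0x1090a0888079a) (nat_lit 0) (p (nat_lit 0x8898807871a) (nat_lit 0) (p (nat_lit 0x8000000000800080787088a) (nat_lit 0) (p (nat_lit 0x8000000000800078706860a) (nat_lit 0) (p (nat_lit 0x10806860782) (nat_lit 0) (p (nat_lit 0x786058702)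 (nat_lit 0) (p (nat_lit 0x10705850482) (nat_lit 0) (p (nat_lit 0x685048402) (nat_lit 0) (p (nat_lit 0x16000c) (nat_lit 0) (p (nat_lit 0x60592) (nat_lit 0) (p (nat_lit 0x48512) (nat_lit 0) (p (nat_lit 0x50392) (nat_lit 0) (p (nat_lit 0x38312) (nat_lit 0) (p (nat_lit 0x40212) (nat_lit 0) (p (nat_lit 0x28192) (nat_lit 0) (p (nat_lit 0x30092) (nat_lit 0) (p (nat_lit 0x18012) (nat_lit 0) pn))))))))))))))))))))))))))))))) :=
  Cl.node (nat_lit 0x2a825800002a8258b0a8a0b8a) (nat_lit 1) (by decide +kernel) (ClAll.succ ClAll.zero n120)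

def n143 : Cl (O (nat_lit 5)) (R (nat_lit 6353))
    (p (nat_lit 0x2a825800002a8258a8a09890a) (nat_lit 0) (p (nat_lit 0xb000c) (nat_lit 1) (p (nat_lit 0x200014) (nat_lit 0) (p (nat_lit 0x200004) (nat_lit 0) (p (nat_lit 0xc9) (nat_lit 1) (p (nat_lit 0x89) (nat_lit 1) (p (nat_lit 0xc1) (nat_lit 0) (p (nat_lit 0x101) (nat_lit 1) (p (nat_lit 0x119) (nat_lit 0) (p (nat_lit 0xd1) (nat_lit 0) (p (nat_lit 0x81) (nat_lit 0) (p (nat_lit 0x41) (nat_lit 1) (p (nat_lit 0x10a0b09890a9a) (nat_lit 0) (p (nat_lit 0x98a89088a1a) (nat_lit 0) (p (nat_lit 0x1090a0888079a) (nat_lit 0) (p (nat_lit 0x8898807871a) (nat_lit 0) (p (nat_lit 0x8000000000800080787088a) (nat_lit 0) (p (nat_lit 0x8000000000800078706860a) (nat_lit 0) (p (nat_lit 0x10806860782) (nat_lit 0) (p (nat_lit 0x786058702) (nat_lit 0) (p (nat_lit 0x10705850482) (nat_lit 0) (p (nat_lit 0x685048402) (nat_lit 0) (p (nat_lit 0x16000c)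 (nat_lit 0) (p (nat_lit 0x60592) (nat_lit 0) (p (nat_lit 0x48512) (nat_lit 0) (p (nat_lit 0x50392) (nat_lit 0) (p (nat_lit 0x38312) (nat_lit 0) (p (nat_lit 0x40212) (nat_lit 0) (p (nat_lit 0x28192) (nat_lit 0) (p (nat_lit 0x30092) (nat_lit 0) (p (nat_lit 0x18012) (nat_lit 0) pn))))))))))))))))))))))))))))))) :=
  Cl.node (nat_lit 0x2a825800002a8258b0a8a0b8a) (nat_lit 1) (by decide +kernel) (ClAll.succ ClAll.zero n121)

def n144 : Cl (O (nat_lit 5)) (R (nat_lit 6353))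
    (p (nat_lit 0x2a825800002a8258b0a8a0b8a) (nat_lit 0) (p (nat_lit 0x2a825800002a8258a8a09890a) (nat_lit 0) (p (nat_lit 0xb000c) (nat_lit 1) (p (nat_lit 0x200014) (nat_lit 0) (p (nat_lit 0x200004) (nat_lit 0) (p (nat_lit 0x89) (nat_lit 1) (p (nat_lit 0xc1) (nat_lit 1) (p (nat_lit 0x101) (nat_lit 1) (p (nat_lit 0x119) (nat_lit 0) (p (nat_lit 0xd1) (nat_lit 0) (p (nat_lit 0x81) (nat_lit 0) (p (nat_lit 0x41) (nat_lit 1) (p (nat_lit 0x10a0b09890a9a) (nat_lit 0) (p (nat_lit 0x98a89088a1a) (nat_lit 0) (p (nat_lit 0x1090a0888079a) (nat_lit 0) (p (nat_lit 0x8898807871a) (nat_lit 0) (p (nat_lit 0x8000000000800080787088a) (nat_lit 0) (p (nat_lit 0x8000000000800078706860a) (nat_lit 0) (p (nat_lit 0x10806860782) (nat_lit 0) (p (nat_lit 0x786058702) (nat_lit 0) (p (nat_lit 0x10705850482) (nat_lit 0) (p (nat_lit 0x685048402) (nat_lit 0) (p (nat_lit 0x16000c) (nat_lit 0) (p (nat_lit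 0x60592) (nat_lit 0) (p (nat_lit 0x48512) (nat_lit 0) (p (nat_lit 0x50392) (nat_lit 0) (p (nat_lit 0x38312) (nat_lit 0) (p (nat_lit 0x40212) (nat_lit 0) (p (nat_lit 0x28192) (nat_lit 0) (p (nat_lit 0x30092) (nat_lit 0) (p (nat_lit 0x18012) (nat_lit 0) pn))))))))))))))))))))))))))))))) :=
  Cl.node (nat_lit 0xb8c8b0a8a1a) (nat_lit 1) (by decide +kernel) (ClAll.succ ClAll.zero n122)

def n145 : Cl (O (nat_lit 5)) (R (nat_lit 6353))
    (p (nat_lit 0x2a825800002a8258a8a09890a) (nat_lit 0) (p (nat_lit 0xb000c) (nat_lit 1) (p (nat_lit 0x200014) (nat_lit 0) (p (nat_lit 0x200004) (nat_lit 0) (p (nat_lit 0x109) (nat_lit 0) (p (nat_lit 0x89) (nat_lit 1) (p (nat_lit 0xc9) (nat_lit 1) (p (nat_lit 0xc1) (nat_lit 0) (p (nat_lit 0x119) (nat_lit 1) (p (nat_lit 0xd1) (nat_lit 0) (p (nat_lit 0x81) (nat_lit 0) (p (nat_lit 0x41) (nat_lit 1) (p (nat_lit 0x10a0b09890a9a) (nat_lit 0) (p (nat_lit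 0x98a89088a1a) (nat_lit 0) (p (nat_lit 0x1090a0888079a) (nat_lit 0) (p (nat_lit 0x8898807871a) (nat_lit 0) (p (nat_lit 0x8000000000800080787088a) (nat_lit 0) (p (nat_lit 0x8000000000800078706860a) (nat_lit 0) (p (nat_lit 0x10806860782) (nat_lit 0) (p (nat_lit 0x786058702) (nat_lit 0) (p (nat_lit 0x10705850482) (nat_lit 0) (p (nat_lit 0x685048402) (nat_lit 0) (p (nat_lit 0x16000c) (nat_lit 0) (p (nat_lit 0x60592) (nat_lit 0) (p (nat_lit 0x48512) (nat_lit 0) (p (nat_lit 0x50392) (nat_lit 0) (p (nat_lit 0x38312) (nat_lit 0) (p (nat_lit 0x40212) (nat_lit 0) (p (nat_lit 0x28192) (nat_lit 0) (p (nat_lit 0x30092) (nat_lit 0) (p (nat_lit 0x18012) (nat_lit 0) pn))))))))))))))))))))))))))))))) :=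
  Cl.node (nat_lit 0x2a825800002a8258b0a8a0b8a) (nat_lit 1) (by decide +kernel) (ClAll.succ ClAll.zero n123)

def n146 : Cl (O (nat_lit 5)) (R (nat_lit 6353))
    (p (nat_lit 0x2a825800002a8258a8a09890a) (nat_lit 0) (p (nat_lit 0xb000c) (nat_lit 1) (p (nat_lit 0x200014) (nat_lit 0) (p (nat_lit 0x200004) (nat_lit 0) (p (nat_lit 0x109) (nat_lit 1) (p (nat_lit 0x89) (nat_lit 1) (p (nat_lit 0xc9) (nat_lit 1) (p (nat_lit 0xc1) (nat_lit 0) (p (nat_lit 0x119) (nat_lit 1) (p (nat_lit 0xd1) (nat_lit 0) (p (nat_lit 0x81) (nat_lit 0) (p (nat_lit 0x41) (nat_lit 1) (p (nat_lit 0x10a0b09890a9a) (nat_lit 0) (p (nat_lit 0x98a89088a1a) (nat_lit 0) (p (nat_lit 0x1090a0888079a) (nat_lit 0) (p (nat_lit 0x8898807871a) (nat_lit 0) (p (nat_lit 0x8000000000800080787088a) (nat_lit 0) (p (nat_lit 0x8000000000800078706860a) (nat_lit 0) (p (nat_lit 0x10806860782) (nat_lit 0) (p (nat_lit 0x786058702)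 (nat_lit 0) (p (nat_lit 0x10705850482) (nat_lit 0) (p (nat_lit 0x685048402) (nat_lit 0) (p (nat_lit 0x16000c) (nat_lit 0) (p (nat_lit 0x60592) (nat_lit 0) (p (nat_lit 0x48512) (nat_lit 0) (p (nat_lit 0x50392) (nat_lit 0) (p (nat_lit 0x38312) (nat_lit 0) (p (nat_lit 0x40212) (nat_lit 0) (p (nat_lit 0x28192) (nat_lit 0) (p (nat_lit 0x30092) (nat_lit 0) (p (nat_lit 0x18012) (nat_lit 0) pn))))))))))))))))))))))))))))))) :=
  Cl.node (nat_lit 0x2a825800002a8258b0a8a0b8a) (nat_lit 1) (by decide +kernel) (ClAll.succ ClAll.zero n124)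

def n147 : Cl (O (nat_lit 5)) (R (nat_lit 6353))
    (p (nat_lit 0x2a825800002a8258a8a09890a) (nat_lit 0) (p (nat_lit 0xb000c) (nat_lit 1) (p (nat_lit 0x200014) (nat_lit 0) (p (nat_lit 0x200004) (nat_lit 0) (p (nat_lit 0x109) (nat_lit 0) (p (nat_lit 0x89) (nat_lit 1) (p (nat_lit 0x101) (nat_lit 0) (p (nat_lit 0xc1) (nat_lit 1) (p (nat_lit 0x119) (nat_lit 1) (p (nat_lit 0xd1) (nat_lit 0) (p (nat_lit 0x81) (nat_lit 0) (p (nat_lit 0x41) (nat_lit 1) (p (nat_lit 0x10a0b09890a9a) (nat_lit 0) (p (nat_lit 0x98a89088a1a) (nat_lit 0) (p (nat_lit 0x1090a0888079a) (nat_lit 0) (p (nat_lit 0x8898807871a) (nat_lit 0) (p (nat_lit 0x8000000000800080787088a) (nat_lit 0) (p (nat_lit 0x8000000000800078706860a) (nat_lit 0) (p (nat_lit 0x10806860782) (nat_lit 0) (p (nat_lit 0x786058702) (nat_lit 0) (p (nat_lit 0x10705850482) (nat_lit 0) (p (nat_lit 0x685048402) (nat_lit 0) (p (nat_lit 0x16000c)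 (nat_lit 0) (p (nat_lit 0x60592) (nat_lit 0) (p (nat_lit 0x48512) (nat_lit 0) (p (nat_lit 0x50392) (nat_lit 0) (p (nat_lit 0x38312) (nat_lit 0) (p (nat_lit 0x40212) (nat_lit 0) (p (nat_lit 0x28192) (nat_lit 0) (p (nat_lit 0x30092) (nat_lit 0) (p (nat_lit 0x18012) (nat_lit 0) pn))))))))))))))))))))))))))))))) :=
  Cl.node (nat_lit 0x2a825800002a8258b0a8a0b8a) (nat_lit 1) (by decide +kernel) (ClAll.succ ClAll.zero n125)

def n148 : Cl (O (nat_lit 5)) (R (nat_lit 6353))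
    (p (nat_lit 0x2a825800002a8258a8a09890a) (nat_lit 0) (p (nat_lit 0xb000c) (nat_lit 1) (p (nat_lit 0x200014) (nat_lit 0) (p (nat_lit 0x200004) (nat_lit 0) (p (nat_lit 0x109) (nat_lit 1) (p (nat_lit 0x89) (nat_lit 1) (p (nat_lit 0x101) (nat_lit 0) (p (nat_lit 0xc1) (nat_lit 1) (p (nat_lit 0x119) (nat_lit 1) (p (nat_lit 0xd1) (nat_lit 0) (p (nat_lit 0x81) (nat_lit 0) (p (nat_lit 0x41) (nat_lit 1) (p (nat_lit 0x10a0b09890a9a) (nat_lit 0) (p (nat_lit 0x98a89088a1a) (nat_lit 0) (p (nat_lit 0x1090a0888079a) (nat_lit 0) (p (nat_lit 0x8898807871a) (nat_lit 0) (p (nat_lit 0x8000000000800080787088a) (nat_lit 0) (p (nat_lit 0x8000000000800078706860a) (nat_lit 0) (p (nat_lit 0x10806860782) (nat_lit 0) (p (nat_lit 0x786058702) (nat_lit 0) (p (nat_lit 0x10705850482) (nat_lit 0) (p (nat_lit 0x685048402) (nat_lit 0) (p (nat_lit 0x16000c) (nat_lit 0) (p (nat_lit 0x60592) (nat_lit 0)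 (p (nat_lit 0x48512) (nat_lit 0) (p (nat_lit 0x50392) (nat_lit 0) (p (nat_lit 0x38312) (nat_lit 0) (p (nat_lit 0x40212) (nat_lit 0) (p (nat_lit 0x28192) (nat_lit 0) (p (nat_lit 0x30092) (nat_lit 0) (p (nat_lit 0x18012) (nat_lit 0) pn))))))))))))))))))))))))))))))) :=
  Cl.node (nat_lit 0x2a825800002a8258b0a8a0b8a) (nat_lit 1) (by decide +kernel) (ClAll.succ ClAll.zero n126)

def n149 : Cl (O (nat_lit 5)) (R (nat_lit 6353))
    (p (nat_lit 0x2a825800002a8258b0a8a0b8a) (nat_lit 0) (p (nat_lit 0x2a825800002a8258a8a09890a) (nat_lit 0) (p (nat_lit 0xb000c) (nat_lit 1) (p (nat_lit 0x200014) (nat_lit 0) (p (nat_lit 0x200004) (nat_lit 0) (p (nat_lit 0x89) (nat_lit 1) (p (nat_lit 0x101) (nat_lit 1) (p (nat_lit 0xc1) (nat_lit 1) (p (nat_lit 0x119) (nat_lit 1) (p (nat_lit 0xd1) (nat_lit 0) (p (nat_lit 0x81) (nat_lit 0) (p (nat_lit 0x41) (nat_lit 1) (p (nat_lit 0x10a0b09890a9a) (nat_lit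 0) (p (nat_lit 0x98a89088a1a) (nat_lit 0) (p (nat_lit 0x1090a0888079a) (nat_lit 0) (p (nat_lit 0x8898807871a) (nat_lit 0) (p (nat_lit 0x8000000000800080787088a) (nat_lit 0) (p (nat_lit 0x8000000000800078706860a) (nat_lit 0) (p (nat_lit 0x10806860782) (nat_lit 0) (p (nat_lit 0x786058702) (nat_lit 0) (p (nat_lit 0x10705850482) (nat_lit 0) (p (nat_lit 0x685048402) (nat_lit 0) (p (nat_lit 0x16000c) (nat_lit 0) (p (nat_lit 0x60592) (nat_lit 0) (p (nat_lit 0x48512) (nat_lit 0) (p (nat_lit 0x50392) (nat_lit 0) (p (nat_lit 0x38312) (nat_lit 0) (p (nat_lit 0x40212) (nat_lit 0) (p (nat_lit 0x28192) (nat_lit 0) (p (nat_lit 0x30092) (nat_lit 0) (p (nat_lit 0x18012) (nat_lit 0) pn))))))))))))))))))))))))))))))) :=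
  Cl.node (nat_lit 0xb8c8b0a8a1a) (nat_lit 1) (by decide +kernel) (ClAll.succ ClAll.zero n127)

def n150 : Cl (O (nat_lit 5)) (R (nat_lit 6353))
    (p (nat_lit 0xb000c) (nat_lit 1) (p (nat_lit 0x119) (nat_lit 1) (p (nat_lit 0x200014) (nat_lit 0) (p (nat_lit 0x200004) (nat_lit 0) (p (nat_lit 0xc9) (nat_lit 0) (p (nat_lit 0x89) (nat_lit 1) (p (nat_lit 0x109) (nat_lit 1) (p (nat_lit 0x101) (nat_lit 0) (p (nat_lit 0x111) (nat_lit 0) (p (nat_lit 0xd1) (nat_lit 1) (p (nat_lit 0x81) (nat_lit 0) (p (nat_lit 0x41) (nat_lit 1) (p (nat_lit 0x10a0b09890a9a) (nat_lit 0) (p (nat_lit 0x98a89088a1a) (nat_lit 0) (p (nat_lit 0x1090a0888079a) (nat_lit 0) (p (nat_lit 0x8898807871a) (nat_lit 0) (p (nat_lit 0x8000000000800080787088a) (nat_lit 0) (p (nat_lit 0x8000000000800078706860a) (nat_lit 0) (p (nat_lit 0x10806860782) (nat_lit 0) (p (nat_lit 0x786058702) (nat_lit 0) (p (nat_lit 0x10705850482)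 (nat_lit 0) (p (nat_lit 0x685048402) (nat_lit 0) (p (nat_lit 0x16000c) (nat_lit 0) (p (nat_lit 0x60592) (nat_lit 0) (p (nat_lit 0x48512) (nat_lit 0) (p (nat_lit 0x50392) (nat_lit 0) (p (nat_lit 0x38312) (nat_lit 0) (p (nat_lit 0x40212) (nat_lit 0) (p (nat_lit 0x28192) (nat_lit 0) (p (nat_lit 0x30092) (nat_lit 0) (p (nat_lit 0x18012) (nat_lit 0) pn))))))))))))))))))))))))))))))) :=
  Cl.node (nat_lit 0x2a825800002a8258a8a09890a) (nat_lit 1) (by decide +kernel) (ClAll.succ ClAll.zero n128)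

def n151 : Cl (O (nat_lit 5)) (R (nat_lit 6353))
    (p (nat_lit 0x2a825800002a8258b0a8a0b8a) (nat_lit 0) (p (nat_lit 0x2a825800002a8258a8a09890a) (nat_lit 0) (p (nat_lit 0xb000c) (nat_lit 1) (p (nat_lit 0x200014) (nat_lit 0) (p (nat_lit 0x200004) (nat_lit 0) (p (nat_lit 0xc9) (nat_lit 0) (p (nat_lit 0x89) (nat_lit 1) (p (nat_lit 0x101) (nat_lit 1) (p (nat_lit 0x111) (nat_lit 0) (p (nat_lit 0xd1) (nat_lit 1) (p (nat_lit 0x81) (nat_lit 0) (p (nat_lit 0x41) (nat_lit 1) (p (nat_lit 0x10a0b09890a9a) (nat_lit 0) (p (nat_lit 0x98a89088a1a) (nat_lit 0) (p (nat_lit 0x1090a0888079a) (nat_lit 0) (p (nat_lit 0x8898807871a) (nat_lit 0) (p (nat_lit 0x8000000000800080787088a) (nat_lit 0) (p (nat_lit 0x8000000000800078706860a) (nat_lit 0) (p (nat_lit 0x10806860782) (nat_lit 0) (p (nat_lit 0x786058702) (nat_lit 0) (p (nat_lit 0x10705850482) (nat_lit 0) (p (nat_lit 0x685048402) (nat_lit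 0) (p (nat_lit 0x16000c) (nat_lit 0) (p (nat_lit 0x60592) (nat_lit 0) (p (nat_lit 0x48512) (nat_lit 0) (p (nat_lit 0x50392) (nat_lit 0) (p (nat_lit 0x38312) (nat_lit 0) (p (nat_lit 0x40212) (nat_lit 0) (p (nat_lit 0x28192) (nat_lit 0) (p (nat_lit 0x30092) (nat_lit 0) (p (nat_lit 0x18012) (nat_lit 0) pn))))))))))))))))))))))))))))))) :=
  Cl.node (nat_lit 0xb8c8b0a8a1a) (nat_lit 1) (by decide +kernel) (ClAll.succ ClAll.zero n129)

def n152 : Cl (O (nat_lit 5)) (R (nat_lit 6353))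
    (p (nat_lit 0x2a825800002a8258b0a8a0b8a) (nat_lit 0) (p (nat_lit 0x2a825800002a8258a8a09890a) (nat_lit 0) (p (nat_lit 0xb000c) (nat_lit 1) (p (nat_lit 0x200014) (nat_lit 0) (p (nat_lit 0x200004) (nat_lit 0) (p (nat_lit 0x109) (nat_lit 0) (p (nat_lit 0xc9) (nat_lit 1) (p (nat_lit 0x89) (nat_lit 1) (p (nat_lit 0x111) (nat_lit 1) (p (nat_lit 0xd1) (nat_lit 1) (p (nat_lit 0x81) (nat_lit 0) (p (nat_lit 0x41) (nat_lit 1) (p (nat_lit 0x10a0b09890a9a) (nat_lit 0) (p (nat_lit 0x98a89088a1a) (nat_lit 0) (p (nat_lit 0x1090a0888079a) (nat_lit 0) (p (nat_lit 0x8898807871a) (nat_lit 0) (p (nat_lit 0x8000000000800080787088a) (nat_lit 0) (p (nat_lit 0x8000000000800078706860a) (nat_lit 0) (p (nat_lit 0x10806860782) (nat_lit 0) (p (nat_lit 0x786058702) (nat_lit 0) (p (nat_lit 0x10705850482) (nat_lit 0) (p (nat_lit 0x685048402) (nat_lit 0) (p (nat_lit 0x16000c) (nat_lit 0) (p (nat_lit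 0x60592) (nat_lit 0) (p (nat_lit 0x48512) (nat_lit 0) (p (nat_lit 0x50392) (nat_lit 0) (p (nat_lit 0x38312) (nat_lit 0) (p (nat_lit 0x40212) (nat_lit 0) (p (nat_lit 0x28192) (nat_lit 0) (p (nat_lit 0x30092) (nat_lit 0) (p (nat_lit 0x18012) (nat_lit 0) pn))))))))))))))))))))))))))))))) :=
  Cl.node (nat_lit 0xb8c8b0a8a1a) (nat_lit 1) (by decide +kernel) (ClAll.succ ClAll.zero n130)

def n153 : Cl (O (nat_lit 5)) (R (nat_lit 6353))
    (p (nat_lit 0x2a825800002a8258b0a8a0b8a) (nat_lit 0) (p (nat_lit 0x2a825800002a8258a8a09890a) (nat_lit 0) (p (nat_lit 0xb000c) (nat_lit 1) (p (nat_lit 0x200014) (nat_lit 0) (p (nat_lit 0x200004) (nat_lit 0) (p (nat_lit 0x109) (nat_lit 1) (p (nat_lit 0xc9) (nat_lit 1) (p (nat_lit 0x89) (nat_lit 1) (p (nat_lit 0x111) (nat_lit 1) (p (nat_lit 0xd1) (nat_lit 1) (p (nat_lit 0x81) (nat_lit 0) (p (nat_lit 0x41) (nat_lit 1) (p (nat_lit 0x10a0b09890a9a)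 (nat_lit 0) (p (nat_lit 0x98a89088a1a) (nat_lit 0) (p (nat_lit 0x1090a0888079a) (nat_lit 0) (p (nat_lit 0x8898807871a) (nat_lit 0) (p (nat_lit 0x8000000000800080787088a) (nat_lit 0) (p (nat_lit 0x8000000000800078706860a) (nat_lit 0) (p (nat_lit 0x10806860782) (nat_lit 0) (p (nat_lit 0x786058702) (nat_lit 0) (p (nat_lit 0x10705850482) (nat_lit 0) (p (nat_lit 0x685048402) (nat_lit 0) (p (nat_lit 0x16000c) (nat_lit 0) (p (nat_lit 0x60592) (nat_lit 0) (p (nat_lit 0x48512) (nat_lit 0) (p (nat_lit 0x50392) (nat_lit 0) (p (nat_lit 0x38312) (nat_lit 0) (p (nat_lit 0x40212) (nat_lit 0) (p (nat_lit 0x28192) (nat_lit 0) (p (nat_lit 0x30092) (nat_lit 0) (p (nat_lit 0x18012) (nat_lit 0) pn))))))))))))))))))))))))))))))) :=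
  Cl.node (nat_lit 0xb8c8b0a8a1a) (nat_lit 1) (by decide +kernel) (ClAll.succ ClAll.zero n131)

def n154 : Cl (O (nat_lit 5)) (R (nat_lit 6353))
    (p (nat_lit 0x2a825800002a8258b0a8a0b8a) (nat_lit 0) (p (nat_lit 0x2a825800002a8258a8a09890a) (nat_lit 0) (p (nat_lit 0xb000c) (nat_lit 1) (p (nat_lit 0x200014) (nat_lit 0) (p (nat_lit 0x200004) (nat_lit 0) (p (nat_lit 0x111) (nat_lit 1) (p (nat_lit 0xd1) (nat_lit 1) (p (nat_lit 0xc9) (nat_lit 0) (p (nat_lit 0x119) (nat_lit 1) (p (nat_lit 0xc1) (nat_lit 0) (p (nat_lit 0x81) (nat_lit 1) (p (nat_lit 0x41) (nat_lit 1) (p (nat_lit 0x10a0b09890a9a) (nat_lit 0) (p (nat_lit 0x98a89088a1a) (nat_lit 0) (p (nat_lit 0x1090a0888079a) (nat_lit 0) (p (nat_lit 0x8898807871a) (nat_lit 0) (p (nat_lit 0x8000000000800080787088a) (nat_lit 0) (p (nat_lit 0x8000000000800078706860a) (nat_lit 0) (p (nat_lit 0x10806860782) (nat_lit 0) (p (nat_lit 0x786058702)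 (nat_lit 0) (p (nat_lit 0x10705850482) (nat_lit 0) (p (nat_lit 0x685048402) (nat_lit 0) (p (nat_lit 0x16000c) (nat_lit 0) (p (nat_lit 0x60592) (nat_lit 0) (p (nat_lit 0x48512) (nat_lit 0) (p (nat_lit 0x50392) (nat_lit 0) (p (nat_lit 0x38312) (nat_lit 0) (p (nat_lit 0x40212) (nat_lit 0) (p (nat_lit 0x28192) (nat_lit 0) (p (nat_lit 0x30092) (nat_lit 0) (p (nat_lit 0x18012) (nat_lit 0) pn))))))))))))))))))))))))))))))) :=
  Cl.node (nat_lit 0xb8c8b0a8a1a) (nat_lit 1) (by decide +kernel) (ClAll.succ ClAll.zero n132)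

def n155 : Cl (O (nat_lit 5)) (R (nat_lit 6353))
    (p (nat_lit 0xb8c8b0a8a1a) (nat_lit 0) (p (nat_lit 0x2a825800002a8258b0a8a0b8a) (nat_lit 0) (p (nat_lit 0x2a825800002a8258a8a09890a) (nat_lit 0) (p (nat_lit 0xb000c) (nat_lit 1) (p (nat_lit 0x200014) (nat_lit 0) (p (nat_lit 0x200004) (nat_lit 0) (p (nat_lit 0x109) (nat_lit 1) (p (nat_lit 0xc9) (nat_lit 1) (p (nat_lit 0x119) (nat_lit 1) (p (nat_lit 0xc1) (nat_lit 0) (p (nat_lit 0x81) (nat_lit 1) (p (nat_lit 0x41) (nat_lit 1) (p (nat_lit 0x10a0b09890a9a) (nat_lit 0) (p (nat_lit 0x98a89088a1a) (nat_lit 0) (p (nat_lit 0x1090a0888079a) (nat_lit 0) (p (nat_lit 0x8898807871a) (nat_lit 0) (p (nat_lit 0x8000000000800080787088a) (nat_lit 0) (p (nat_lit 0x8000000000800078706860a) (nat_lit 0) (p (nat_lit 0x10806860782) (nat_lit 0) (p (nat_lit 0x786058702) (nat_lit 0) (p (nat_lit 0x10705850482) (nat_lit 0) (p (nat_lit 0x685048402)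 (nat_lit 0) (p (nat_lit 0x16000c) (nat_lit 0) (p (nat_lit 0x60592) (nat_lit 0) (p (nat_lit 0x48512) (nat_lit 0) (p (nat_lit 0x50392) (nat_lit 0) (p (nat_lit 0x38312) (nat_lit 0) (p (nat_lit 0x40212) (nat_lit 0) (p (nat_lit 0x28192) (nat_lit 0) (p (nat_lit 0x30092) (nat_lit 0) (p (nat_lit 0x18012) (nat_lit 0) pn))))))))))))))))))))))))))))))) :=
  Cl.node (nat_lit 0x10c0d0b8b0a9a) (nat_lit 1) (by decide +kernel) (ClAll.succ ClAll.zero n133)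

def n156 : Cl (O (nat_lit 5)) (R (nat_lit 6353))
    (p (nat_lit 0xb000c) (nat_lit 1) (p (nat_lit 0x111) (nat_lit 0) (p (nat_lit 0x200014) (nat_lit 0) (p (nat_lit 0x200004) (nat_lit 0) (p (nat_lit 0xc9) (nat_lit 0) (p (nat_lit 0x81) (nat_lit 0) (p (nat_lit 0x101) (nat_lit 1) (p (nat_lit 0x119) (nat_lit 0) (p (nat_lit 0xd1) (nat_lit 0) (p (nat_lit 0x89) (nat_lit 0) (p (nat_lit 0x41) (nat_lit 0) (p (nat_lit 0x10a0b09890a9a) (nat_lit 0) (p (nat_lit 0x98a89088a1a) (nat_lit 0) (p (nat_lit 0x1090a0888079a) (nat_lit 0) (p (nat_lit 0x8898807871a) (nat_lit 0) (p (nat_lit 0x8000000000800080787088a) (nat_lit 0) (p (nat_lit 0x8000000000800078706860a) (nat_lit 0) (p (nat_lit 0x10806860782) (nat_lit 0) (p (nat_lit 0x786058702) (nat_lit 0) (p (nat_lit 0x10705850482) (nat_lit 0) (p (nat_lit 0x685048402) (nat_lit 0) (p (nat_lit 0x16000c) (nat_lit 0) (p (nat_lit 0x60592) (nat_lit 0) (p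 (nat_lit 0x48512) (nat_lit 0) (p (nat_lit 0x50392) (nat_lit 0) (p (nat_lit 0x38312) (nat_lit 0) (p (nat_lit 0x40212) (nat_lit 0) (p (nat_lit 0x28192) (nat_lit 0) (p (nat_lit 0x30092) (nat_lit 0) (p (nat_lit 0x18012) (nat_lit 0) pn)))))))))))))))))))))))))))))) :=
  Cl.node (nat_lit 0x2a825800002a8258a8a09890a) (nat_lit 1) (by decide +kernel) (ClAll.succ ClAll.zero n134)

def n157 : Cl (O (nat_lit 5)) (R (nat_lit 6353))
    (p (nat_lit 0xb000c) (nat_lit 1) (p (nat_lit 0x111) (nat_lit 0) (p (nat_lit 0x200014) (nat_lit 0) (p (nat_lit 0x200004) (nat_lit 0) (p (nat_lit 0xc9) (nat_lit 1) (p (nat_lit 0x81) (nat_lit 0) (p (nat_lit 0x101) (nat_lit 1) (p (nat_lit 0x119) (nat_lit 0) (p (nat_lit 0xd1) (nat_lit 0) (p (nat_lit 0x89) (nat_lit 0) (p (nat_lit 0x41) (nat_lit 0) (p (nat_lit 0x10a0b09890a9a) (nat_lit 0) (p (nat_lit 0x98a89088a1a) (nat_lit 0) (p (nat_lit 0x1090a0888079a) (nat_lit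 0) (p (nat_lit 0x8898807871a) (nat_lit 0) (p (nat_lit 0x8000000000800080787088a) (nat_lit 0) (p (nat_lit 0x8000000000800078706860a) (nat_lit 0) (p (nat_lit 0x10806860782) (nat_lit 0) (p (nat_lit 0x786058702) (nat_lit 0) (p (nat_lit 0x10705850482) (nat_lit 0) (p (nat_lit 0x685048402) (nat_lit 0) (p (nat_lit 0x16000c) (nat_lit 0) (p (nat_lit 0x60592) (nat_lit 0) (p (nat_lit 0x48512) (nat_lit 0) (p (nat_lit 0x50392) (nat_lit 0) (p (nat_lit 0x38312) (nat_lit 0) (p (nat_lit 0x40212) (nat_lit 0) (p (nat_lit 0x28192) (nat_lit 0) (p (nat_lit 0x30092) (nat_lit 0) (p (nat_lit 0x18012) (nat_lit 0) pn)))))))))))))))))))))))))))))) :=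
  Cl.node (nat_lit 0x2a825800002a8258a8a09890a) (nat_lit 1) (by decide +kernel) (ClAll.succ ClAll.zero n135)

def n158 : Cl (O (nat_lit 5)) (R (nat_lit 6353))
    (p (nat_lit 0xb000c) (nat_lit 1) (p (nat_lit 0x200014) (nat_lit 0) (p (nat_lit 0x200004) (nat_lit 0) (p (nat_lit 0xc9) (nat_lit 0) (p (nat_lit 0xc1) (nat_lit 0) (p (nat_lit 0x81) (nat_lit 1) (p (nat_lit 0x101) (nat_lit 1) (p (nat_lit 0x119) (nat_lit 0) (p (nat_lit 0xd1) (nat_lit 0) (p (nat_lit 0x89) (nat_lit 0) (p (nat_lit 0x41) (nat_lit 0) (p (nat_lit 0x10a0b09890a9a) (nat_lit 0) (p (nat_lit 0x98a89088a1a) (nat_lit 0) (p (nat_lit 0x1090a0888079a) (nat_lit 0) (p (nat_lit 0x8898807871a) (nat_lit 0) (p (nat_lit 0x8000000000800080787088a) (nat_lit 0) (p (nat_lit 0x8000000000800078706860a) (nat_lit 0) (p (nat_lit 0x10806860782) (nat_lit 0) (p (nat_lit 0x786058702) (nat_lit 0) (p (nat_lit 0x10705850482) (nat_lit 0)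 (p (nat_lit 0x685048402) (nat_lit 0) (p (nat_lit 0x16000c) (nat_lit 0) (p (nat_lit 0x60592) (nat_lit 0) (p (nat_lit 0x48512) (nat_lit 0) (p (nat_lit 0x50392) (nat_lit 0) (p (nat_lit 0x38312) (nat_lit 0) (p (nat_lit 0x40212) (nat_lit 0) (p (nat_lit 0x28192) (nat_lit 0) (p (nat_lit 0x30092) (nat_lit 0) (p (nat_lit 0x18012) (nat_lit 0) pn)))))))))))))))))))))))))))))) :=
  Cl.node (nat_lit 0x2a825800002a8258a8a09890a) (nat_lit 1) (by decide +kernel) (ClAll.succ ClAll.zero n136)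

def n159 : Cl (O (nat_lit 5)) (R (nat_lit 6353))
    (p (nat_lit 0x2a825800002a8258a8a09890a) (nat_lit 0) (p (nat_lit 0xb000c) (nat_lit 1) (p (nat_lit 0x200014) (nat_lit 0) (p (nat_lit 0x200004) (nat_lit 0) (p (nat_lit 0x109) (nat_lit 1) (p (nat_lit 0xc9) (nat_lit 1) (p (nat_lit 0xc1) (nat_lit 0) (p (nat_lit 0x119) (nat_lit 1) (p (nat_lit 0xd1) (nat_lit 0) (p (nat_lit 0x89) (nat_lit 0) (p (nat_lit 0x41) (nat_lit 0) (p (nat_lit 0x10a0b09890a9a) (nat_lit 0) (p (nat_lit 0x98a89088a1a) (nat_lit 0) (p (nat_lit 0x1090a0888079a) (nat_lit 0) (p (nat_lit 0x8898807871a) (nat_lit 0) (p (nat_lit 0x8000000000800080787088a) (nat_lit 0) (p (nat_lit 0x8000000000800078706860a) (nat_lit 0) (p (nat_lit 0x10806860782) (nat_lit 0) (p (nat_lit 0x786058702) (nat_lit 0) (p (nat_lit 0x10705850482) (nat_lit 0) (p (nat_lit 0x685048402) (nat_lit 0) (p (nat_lit 0x16000c) (nat_lit 0) (p (nat_lit 0x60592)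 (nat_lit 0) (p (nat_lit 0x48512) (nat_lit 0) (p (nat_lit 0x50392) (nat_lit 0) (p (nat_lit 0x38312) (nat_lit 0) (p (nat_lit 0x40212) (nat_lit 0) (p (nat_lit 0x28192) (nat_lit 0) (p (nat_lit 0x30092) (nat_lit 0) (p (nat_lit 0x18012) (nat_lit 0) pn)))))))))))))))))))))))))))))) :=
  Cl.node (nat_lit 0x2a825800002a8258b0a8a0b8a) (nat_lit 1) (by decide +kernel) (ClAll.succ ClAll.zero n137)

def n160 : Cl (O (nat_lit 5)) (R (nat_lit 6353))
    (p (nat_lit 0xb000c) (nat_lit 1) (p (nat_lit 0x200014) (nat_lit 0) (p (nat_lit 0x200004) (nat_lit 0) (p (nat_lit 0x109) (nat_lit 1) (p (nat_lit 0x101) (nat_lit 0) (p (nat_lit 0x81) (nat_lit 1) (p (nat_lit 0xc1) (nat_lit 1) (p (nat_lit 0x119) (nat_lit 1) (p (nat_lit 0xd1) (nat_lit 0) (p (nat_lit 0x89) (nat_lit 0) (p (nat_lit 0x41) (nat_lit 0) (p (nat_lit 0x10a0b09890a9a) (nat_lit 0) (p (nat_lit 0x98a89088a1a) (nat_lit 0) (p (nat_lit 0x1090a0888079a)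 (nat_lit 0) (p (nat_lit 0x8898807871a) (nat_lit 0) (p (nat_lit 0x8000000000800080787088a) (nat_lit 0) (p (nat_lit 0x8000000000800078706860a) (nat_lit 0) (p (nat_lit 0x10806860782) (nat_lit 0) (p (nat_lit 0x786058702) (nat_lit 0) (p (nat_lit 0x10705850482) (nat_lit 0) (p (nat_lit 0x685048402) (nat_lit 0) (p (nat_lit 0x16000c) (nat_lit 0) (p (nat_lit 0x60592) (nat_lit 0) (p (nat_lit 0x48512) (nat_lit 0) (p (nat_lit 0x50392) (nat_lit 0) (p (nat_lit 0x38312) (nat_lit 0) (p (nat_lit 0x40212) (nat_lit 0) (p (nat_lit 0x28192) (nat_lit 0) (p (nat_lit 0x30092) (nat_lit 0) (p (nat_lit 0x18012) (nat_lit 0) pn)))))))))))))))))))))))))))))) :=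
  Cl.node (nat_lit 0x2a825800002a8258a8a09890a) (nat_lit 1) (by decide +kernel) (ClAll.succ ClAll.zero n138)

def n161 : Cl (O (nat_lit 5)) (R (nat_lit 6353))
    (p (nat_lit 0xb000c) (nat_lit 1) (p (nat_lit 0x119) (nat_lit 0) (p (nat_lit 0x200014) (nat_lit 0) (p (nat_lit 0x200004) (nat_lit 0) (p (nat_lit 0xc1) (nat_lit 0) (p (nat_lit 0x81) (nat_lit 1) (p (nat_lit 0x101) (nat_lit 1) (p (nat_lit 0x111) (nat_lit 0) (p (nat_lit 0xd1) (nat_lit 1) (p (nat_lit 0x89) (nat_lit 0) (p (nat_lit 0x41) (nat_lit 0) (p (nat_lit 0x10a0b09890a9a) (nat_lit 0) (p (nat_lit 0x98a89088a1a) (nat_lit 0) (p (nat_lit 0x1090a0888079a) (nat_lit 0) (p (nat_lit 0x8898807871a) (nat_lit 0) (p (nat_lit 0x8000000000800080787088a) (nat_lit 0) (p (nat_lit 0x8000000000800078706860a) (nat_lit 0) (p (nat_lit 0x10806860782) (nat_lit 0) (p (nat_lit 0x786058702) (nat_lit 0) (p (nat_lit 0x10705850482) (nat_lit 0)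 (p (nat_lit 0x685048402) (nat_lit 0) (p (nat_lit 0x16000c) (nat_lit 0) (p (nat_lit 0x60592) (nat_lit 0) (p (nat_lit 0x48512) (nat_lit 0) (p (nat_lit 0x50392) (nat_lit 0) (p (nat_lit 0x38312) (nat_lit 0) (p (nat_lit 0x40212) (nat_lit 0) (p (nat_lit 0x28192) (nat_lit 0) (p (nat_lit 0x30092) (nat_lit 0) (p (nat_lit 0x18012) (nat_lit 0) pn)))))))))))))))))))))))))))))) :=
  Cl.node (nat_lit 0x2a825800002a8258a8a09890a) (nat_lit 1) (by decide +kernel) (ClAll.succ ClAll.zero n139)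

def n162 : Cl (O (nat_lit 5)) (R (nat_lit 6353))
    (p (nat_lit 0x2a825800002a8258a8a09890a) (nat_lit 0) (p (nat_lit 0xb000c) (nat_lit 1) (p (nat_lit 0x200014) (nat_lit 0) (p (nat_lit 0x200004) (nat_lit 0) (p (nat_lit 0x111) (nat_lit 1) (p (nat_lit 0xd1) (nat_lit 1) (p (nat_lit 0xc1) (nat_lit 0) (p (nat_lit 0x119) (nat_lit 1) (p (nat_lit 0xc9) (nat_lit 0) (p (nat_lit 0x89) (nat_lit 1) (p (nat_lit 0x41) (nat_lit 0) (p (nat_lit 0x10a0b09890a9a) (nat_lit 0) (p (nat_lit 0x98a89088a1a) (nat_lit 0) (p (nat_lit 0x1090a0888079a) (nat_lit 0) (p (nat_lit 0x8898807871a) (nat_lit 0) (p (nat_lit 0x8000000000800080787088a) (nat_lit 0) (p (nat_lit 0x8000000000800078706860a) (nat_lit 0) (p (nat_lit 0x10806860782) (nat_lit 0) (p (nat_lit 0x786058702) (nat_lit 0) (p (nat_lit 0x10705850482) (nat_lit 0) (p (nat_lit 0x685048402) (nat_lit 0) (p (nat_lit 0x16000c) (nat_lit 0) (p (nat_lit 0x60592)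 (nat_lit 0) (p (nat_lit 0x48512) (nat_lit 0) (p (nat_lit 0x50392) (nat_lit 0) (p (nat_lit 0x38312) (nat_lit 0) (p (nat_lit 0x40212) (nat_lit 0) (p (nat_lit 0x28192) (nat_lit 0) (p (nat_lit 0x30092) (nat_lit 0) (p (nat_lit 0x18012) (nat_lit 0) pn)))))))))))))))))))))))))))))) :=
  Cl.node (nat_lit 0x2a825800002a8258b0a8a0b8a) (nat_lit 1) (by decide +kernel) (ClAll.succ ClAll.zero n140)

def n163 : Cl (O (nat_lit 5)) (R (nat_lit 6353))
    (p (nat_lit 0xb000c) (nat_lit 1) (p (nat_lit 0x111) (nat_lit 0) (p (nat_lit 0x200014) (nat_lit 0) (p (nat_lit 0x200004) (nat_lit 0) (p (nat_lit 0x89) (nat_lit 0) (p (nat_lit 0x109) (nat_lit 1) (p (nat_lit 0x101) (nat_lit 0) (p (nat_lit 0x119) (nat_lit 0) (p (nat_lit 0xd1) (nat_lit 0) (p (nat_lit 0x81) (nat_lit 0) (p (nat_lit 0x41) (nat_lit 1) (p (nat_lit 0x10a0b09890a9a) (nat_lit 0) (p (nat_lit 0x98a89088a1a) (nat_lit 0) (p (nat_lit 0x1090a0888079a)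 (nat_lit 0) (p (nat_lit 0x8898807871a) (nat_lit 0) (p (nat_lit 0x8000000000800080787088a) (nat_lit 0) (p (nat_lit 0x8000000000800078706860a) (nat_lit 0) (p (nat_lit 0x10806860782) (nat_lit 0) (p (nat_lit 0x786058702) (nat_lit 0) (p (nat_lit 0x10705850482) (nat_lit 0) (p (nat_lit 0x685048402) (nat_lit 0) (p (nat_lit 0x16000c) (nat_lit 0) (p (nat_lit 0x60592) (nat_lit 0) (p (nat_lit 0x48512) (nat_lit 0) (p (nat_lit 0x50392) (nat_lit 0) (p (nat_lit 0x38312) (nat_lit 0) (p (nat_lit 0x40212) (nat_lit 0) (p (nat_lit 0x28192) (nat_lit 0) (p (nat_lit 0x30092) (nat_lit 0) (p (nat_lit 0x18012) (nat_lit 0) pn)))))))))))))))))))))))))))))) :=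
  Cl.node (nat_lit 0x2a825800002a8258a8a09890a) (nat_lit 1) (by decide +kernel) (ClAll.succ ClAll.zero n141)

def n164 : Cl (O (nat_lit 5)) (R (nat_lit 6353))
    (p (nat_lit 0xb000c) (nat_lit 1) (p (nat_lit 0x200014) (nat_lit 0) (p (nat_lit 0x200004) (nat_lit 0) (p (nat_lit 0xc9) (nat_lit 0) (p (nat_lit 0x89) (nat_lit 1) (p (nat_lit 0x109) (nat_lit 1) (p (nat_lit 0x101) (nat_lit 0) (p (nat_lit 0x119) (nat_lit 0) (p (nat_lit 0xd1) (nat_lit 0) (p (nat_lit 0x81) (nat_lit 0) (p (nat_lit 0x41) (nat_lit 1) (p (nat_lit 0x10a0b09890a9a) (nat_lit 0) (p (nat_lit 0x98a89088a1a) (nat_lit 0) (p (nat_lit 0x1090a0888079a) (nat_lit 0) (p (nat_lit 0x8898807871a) (nat_lit 0) (p (nat_lit 0x8000000000800080787088a) (nat_lit 0) (p (nat_lit 0x8000000000800078706860a) (nat_lit 0) (p (nat_lit 0x10806860782) (nat_lit 0) (p (nat_lit 0x786058702) (nat_lit 0) (p (nat_lit 0x10705850482) (nat_lit 0)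 (p (nat_lit 0x685048402) (nat_lit 0) (p (nat_lit 0x16000c) (nat_lit 0) (p (nat_lit 0x60592) (nat_lit 0) (p (nat_lit 0x48512) (nat_lit 0) (p (nat_lit 0x50392) (nat_lit 0) (p (nat_lit 0x38312) (nat_lit 0) (p (nat_lit 0x40212) (nat_lit 0) (p (nat_lit 0x28192) (nat_lit 0) (p (nat_lit 0x30092) (nat_lit 0) (p (nat_lit 0x18012) (nat_lit 0) pn)))))))))))))))))))))))))))))) :=
  Cl.node (nat_lit 0x2a825800002a8258a8a09890a) (nat_lit 1) (by decide +kernel) (ClAll.succ ClAll.zero n142)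

def n165 : Cl (O (nat_lit 5)) (R (nat_lit 6353))
    (p (nat_lit 0xb000c) (nat_lit 1) (p (nat_lit 0x200014) (nat_lit 0) (p (nat_lit 0x200004) (nat_lit 0) (p (nat_lit 0xc9) (nat_lit 1) (p (nat_lit 0x89) (nat_lit 1) (p (nat_lit 0xc1) (nat_lit 0) (p (nat_lit 0x101) (nat_lit 1) (p (nat_lit 0x119) (nat_lit 0) (p (nat_lit 0xd1) (nat_lit 0) (p (nat_lit 0x81) (nat_lit 0) (p (nat_lit 0x41) (nat_lit 1) (p (nat_lit 0x10a0b09890a9a) (nat_lit 0) (p (nat_lit 0x98a89088a1a) (nat_lit 0) (p (nat_lit 0x1090a0888079a) (nat_lit 0) (p (nat_lit 0x8898807871a) (nat_lit 0) (p (nat_lit 0x8000000000800080787088a) (nat_lit 0) (p (nat_lit 0x8000000000800078706860a) (nat_lit 0) (p (nat_lit 0x10806860782) (nat_lit 0) (p (nat_lit 0x786058702) (nat_lit 0) (p (nat_lit 0x10705850482) (nat_lit 0) (p (nat_lit 0x685048402) (nat_lit 0) (p (nat_lit 0x16000c) (nat_lit 0) (p (nat_lit 0x60592) (nat_lit 0) (p (nat_lit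 0x48512) (nat_lit 0) (p (nat_lit 0x50392) (nat_lit 0) (p (nat_lit 0x38312) (nat_lit 0) (p (nat_lit 0x40212) (nat_lit 0) (p (nat_lit 0x28192) (nat_lit 0) (p (nat_lit 0x30092) (nat_lit 0) (p (nat_lit 0x18012) (nat_lit 0) pn)))))))))))))))))))))))))))))) :=
  Cl.node (nat_lit 0x2a825800002a8258a8a09890a) (nat_lit 1) (by decide +kernel) (ClAll.succ ClAll.zero n143)

def n166 : Cl (O (nat_lit 5)) (R (nat_lit 6353))
    (p (nat_lit 0x2a825800002a8258a8a09890a) (nat_lit 0) (p (nat_lit 0xb000c) (nat_lit 1) (p (nat_lit 0x200014) (nat_lit 0) (p (nat_lit 0x200004) (nat_lit 0) (p (nat_lit 0x89) (nat_lit 1) (p (nat_lit 0xc1) (nat_lit 1) (p (nat_lit 0x101) (nat_lit 1) (p (nat_lit 0x119) (nat_lit 0) (p (nat_lit 0xd1) (nat_lit 0) (p (nat_lit 0x81) (nat_lit 0) (p (nat_lit 0x41) (nat_lit 1) (p (nat_lit 0x10a0b09890a9a) (nat_lit 0) (p (nat_lit 0x98a89088a1a) (nat_lit 0) (p (nat_lit 0x1090a0888079a)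 (nat_lit 0) (p (nat_lit 0x8898807871a) (nat_lit 0) (p (nat_lit 0x8000000000800080787088a) (nat_lit 0) (p (nat_lit 0x8000000000800078706860a) (nat_lit 0) (p (nat_lit 0x10806860782) (nat_lit 0) (p (nat_lit 0x786058702) (nat_lit 0) (p (nat_lit 0x10705850482) (nat_lit 0) (p (nat_lit 0x685048402) (nat_lit 0) (p (nat_lit 0x16000c) (nat_lit 0) (p (nat_lit 0x60592) (nat_lit 0) (p (nat_lit 0x48512) (nat_lit 0) (p (nat_lit 0x50392) (nat_lit 0) (p (nat_lit 0x38312) (nat_lit 0) (p (nat_lit 0x40212) (nat_lit 0) (p (nat_lit 0x28192) (nat_lit 0) (p (nat_lit 0x30092) (nat_lit 0) (p (nat_lit 0x18012) (nat_lit 0) pn)))))))))))))))))))))))))))))) :=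
  Cl.node (nat_lit 0x2a825800002a8258b0a8a0b8a) (nat_lit 1) (by decide +kernel) (ClAll.succ ClAll.zero n144)

def n167 : Cl (O (nat_lit 5)) (R (nat_lit 6353))
    (p (nat_lit 0xb000c) (nat_lit 1) (p (nat_lit 0x200014) (nat_lit 0) (p (nat_lit 0x200004) (nat_lit 0) (p (nat_lit 0x109) (nat_lit 0) (p (nat_lit 0x89) (nat_lit 1) (p (nat_lit 0xc9) (nat_lit 1) (p (nat_lit 0xc1) (nat_lit 0) (p (nat_lit 0x119) (nat_lit 1) (p (nat_lit 0xd1) (nat_lit 0) (p (nat_lit 0x81) (nat_lit 0) (p (nat_lit 0x41) (nat_lit 1) (p (nat_lit 0x10a0b09890a9a) (nat_lit 0) (p (nat_lit 0x98a89088a1a) (nat_lit 0) (p (nat_lit 0x1090a0888079a) (nat_lit 0) (p (nat_lit 0x8898807871a) (nat_lit 0) (p (nat_lit 0x8000000000800080787088a) (nat_lit 0) (p (nat_lit 0x8000000000800078706860a) (nat_lit 0) (p (nat_lit 0x10806860782) (nat_lit 0) (p (nat_lit 0x786058702) (nat_lit 0) (p (nat_lit 0x10705850482) (nat_lit 0)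 (p (nat_lit 0x685048402) (nat_lit 0) (p (nat_lit 0x16000c) (nat_lit 0) (p (nat_lit 0x60592) (nat_lit 0) (p (nat_lit 0x48512) (nat_lit 0) (p (nat_lit 0x50392) (nat_lit 0) (p (nat_lit 0x38312) (nat_lit 0) (p (nat_lit 0x40212) (nat_lit 0) (p (nat_lit 0x28192) (nat_lit 0) (p (nat_lit 0x30092) (nat_lit 0) (p (nat_lit 0x18012) (nat_lit 0) pn)))))))))))))))))))))))))))))) :=
  Cl.node (nat_lit 0x2a825800002a8258a8a09890a) (nat_lit 1) (by decide +kernel) (ClAll.succ ClAll.zero n145)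

def n168 : Cl (O (nat_lit 5)) (R (nat_lit 6353))
    (p (nat_lit 0xb000c) (nat_lit 1) (p (nat_lit 0x200014) (nat_lit 0) (p (nat_lit 0x200004) (nat_lit 0) (p (nat_lit 0x109) (nat_lit 1) (p (nat_lit 0x89) (nat_lit 1) (p (nat_lit 0xc9) (nat_lit 1) (p (nat_lit 0xc1) (nat_lit 0) (p (nat_lit 0x119) (nat_lit 1) (p (nat_lit 0xd1) (nat_lit 0) (p (nat_lit 0x81) (nat_lit 0) (p (nat_lit 0x41) (nat_lit 1) (p (nat_lit 0x10a0b09890a9a) (nat_lit 0) (p (nat_lit 0x98a89088a1a) (nat_lit 0) (p (nat_lit 0x1090a0888079a) (nat_lit 0) (p (nat_lit 0x8898807871a) (nat_lit 0) (p (nat_lit 0x8000000000800080787088a) (nat_lit 0) (p (nat_lit 0x8000000000800078706860a) (nat_lit 0) (p (nat_lit 0x10806860782) (nat_lit 0) (p (nat_lit 0x786058702) (nat_lit 0) (p (nat_lit 0x10705850482) (nat_lit 0) (p (nat_lit 0x685048402) (nat_lit 0) (p (nat_lit 0x16000c) (nat_lit 0) (p (nat_lit 0x60592) (nat_lit 0) (p (nat_lit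 0x48512) (nat_lit 0) (p (nat_lit 0x50392) (nat_lit 0) (p (nat_lit 0x38312) (nat_lit 0) (p (nat_lit 0x40212) (nat_lit 0) (p (nat_lit 0x28192) (nat_lit 0) (p (nat_lit 0x30092) (nat_lit 0) (p (nat_lit 0x18012) (nat_lit 0) pn)))))))))))))))))))))))))))))) :=
  Cl.node (nat_lit 0x2a825800002a8258a8a09890a) (nat_lit 1) (by decide +kernel) (ClAll.succ ClAll.zero n146)

def n169 : Cl (O (nat_lit 5)) (R (nat_lit 6353))
    (p (nat_lit 0xb000c) (nat_lit 1) (p (nat_lit 0x200014) (nat_lit 0) (p (nat_lit 0x200004) (nat_lit 0) (p (nat_lit 0x109) (nat_lit 0) (p (nat_lit 0x89) (nat_lit 1) (p (nat_lit 0x101) (nat_lit 0) (p (nat_lit 0xc1) (nat_lit 1) (p (nat_lit 0x119) (nat_lit 1) (p (nat_lit 0xd1) (nat_lit 0) (p (nat_lit 0x81) (nat_lit 0) (p (nat_lit 0x41) (nat_lit 1) (p (nat_lit 0x10a0b09890a9a) (nat_lit 0) (p (nat_lit 0x98a89088a1a) (nat_lit 0) (p (nat_lit 0x1090a0888079a) (nat_lit 0)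 (p (nat_lit 0x8898807871a) (nat_lit 0) (p (nat_lit 0x8000000000800080787088a) (nat_lit 0) (p (nat_lit 0x8000000000800078706860a) (nat_lit 0) (p (nat_lit 0x10806860782) (nat_lit 0) (p (nat_lit 0x786058702) (nat_lit 0) (p (nat_lit 0x10705850482) (nat_lit 0) (p (nat_lit 0x685048402) (nat_lit 0) (p (nat_lit 0x16000c) (nat_lit 0) (p (nat_lit 0x60592) (nat_lit 0) (p (nat_lit 0x48512) (nat_lit 0) (p (nat_lit 0x50392) (nat_lit 0) (p (nat_lit 0x38312) (nat_lit 0) (p (nat_lit 0x40212) (nat_lit 0) (p (nat_lit 0x28192) (nat_lit 0) (p (nat_lit 0x30092) (nat_lit 0) (p (nat_lit 0x18012) (nat_lit 0) pn)))))))))))))))))))))))))))))) :=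
  Cl.node (nat_lit 0x2a825800002a8258a8a09890a) (nat_lit 1) (by decide +kernel) (ClAll.succ ClAll.zero n147)

def n170 : Cl (O (nat_lit 5)) (R (nat_lit 6353))
    (p (nat_lit 0xb000c) (nat_lit 1) (p (nat_lit 0x200014) (nat_lit 0) (p (nat_lit 0x200004) (nat_lit 0) (p (nat_lit 0x109) (nat_lit 1) (p (nat_lit 0x89) (nat_lit 1) (p (nat_lit 0x101) (nat_lit 0) (p (nat_lit 0xc1) (nat_lit 1) (p (nat_lit 0x119) (nat_lit 1) (p (nat_lit 0xd1) (nat_lit 0) (p (nat_lit 0x81) (nat_lit 0) (p (nat_lit 0x41) (nat_lit 1) (p (nat_lit 0x10a0b09890a9a) (nat_lit 0) (p (nat_lit 0x98a89088a1a) (nat_lit 0) (p (nat_lit 0x1090a0888079a) (nat_lit 0) (p (nat_lit 0x8898807871a) (nat_lit 0) (p (nat_lit 0x8000000000800080787088a) (nat_lit 0) (p (nat_lit 0x8000000000800078706860a) (nat_lit 0) (p (nat_lit 0x10806860782) (nat_lit 0) (p (nat_lit 0x786058702) (nat_lit 0) (p (nat_lit 0x10705850482) (nat_lit 0)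 (p (nat_lit 0x685048402) (nat_lit 0) (p (nat_lit 0x16000c) (nat_lit 0) (p (nat_lit 0x60592) (nat_lit 0) (p (nat_lit 0x48512) (nat_lit 0) (p (nat_lit 0x50392) (nat_lit 0) (p (nat_lit 0x38312) (nat_lit 0) (p (nat_lit 0x40212) (nat_lit 0) (p (nat_lit 0x28192) (nat_lit 0) (p (nat_lit 0x30092) (nat_lit 0) (p (nat_lit 0x18012) (nat_lit 0) pn)))))))))))))))))))))))))))))) :=
  Cl.node (nat_lit 0x2a825800002a8258a8a09890a) (nat_lit 1) (by decide +kernel) (ClAll.succ ClAll.zero n148)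

def n171 : Cl (O (nat_lit 5)) (R (nat_lit 6353))
    (p (nat_lit 0x2a825800002a8258a8a09890a) (nat_lit 0) (p (nat_lit 0xb000c) (nat_lit 1) (p (nat_lit 0x200014) (nat_lit 0) (p (nat_lit 0x200004) (nat_lit 0) (p (nat_lit 0x89) (nat_lit 1) (p (nat_lit 0x101) (nat_lit 1) (p (nat_lit 0xc1) (nat_lit 1) (p (nat_lit 0x119) (nat_lit 1) (p (nat_lit 0xd1) (nat_lit 0) (p (nat_lit 0x81) (nat_lit 0) (p (nat_lit 0x41) (nat_lit 1) (p (nat_lit 0x10a0b09890a9a) (nat_lit 0) (p (nat_lit 0x98a89088a1a) (nat_lit 0) (p (nat_lit 0x1090a0888079a) (nat_lit 0) (p (nat_lit 0x8898807871a) (nat_lit 0) (p (nat_lit 0x8000000000800080787088a) (nat_lit 0) (p (nat_lit 0x8000000000800078706860a) (nat_lit 0) (p (nat_lit 0x10806860782) (nat_lit 0) (p (nat_lit 0x786058702) (nat_lit 0) (p (nat_lit 0x10705850482) (nat_lit 0) (p (nat_lit 0x685048402) (nat_lit 0) (p (nat_lit 0x16000c) (nat_lit 0) (p (nat_lit 0x60592)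 (nat_lit 0) (p (nat_lit 0x48512) (nat_lit 0) (p (nat_lit 0x50392) (nat_lit 0) (p (nat_lit 0x38312) (nat_lit 0) (p (nat_lit 0x40212) (nat_lit 0) (p (nat_lit 0x28192) (nat_lit 0) (p (nat_lit 0x30092) (nat_lit 0) (p (nat_lit 0x18012) (nat_lit 0) pn)))))))))))))))))))))))))))))) :=
  Cl.node (nat_lit 0x2a825800002a8258b0a8a0b8a) (nat_lit 1) (by decide +kernel) (ClAll.succ ClAll.zero n149)

def n172 : Cl (O (nat_lit 5)) (R (nat_lit 6353))
    (p (nat_lit 0x119) (nat_lit 0) (p (nat_lit 0x200014) (nat_lit 0) (p (nat_lit 0x200004) (nat_lit 0) (p (nat_lit 0xc9) (nat_lit 0) (p (nat_lit 0x89) (nat_lit 1) (p (nat_lit 0x109) (nat_lit 1) (p (nat_lit 0x101) (nat_lit 0) (p (nat_lit 0x111) (nat_lit 0) (p (nat_lit 0xd1) (nat_lit 1) (p (nat_lit 0x81) (nat_lit 0) (p (nat_lit 0x41) (nat_lit 1) (p (nat_lit 0x10a0b09890a9a) (nat_lit 0) (p (nat_lit 0x98a89088a1a) (nat_lit 0) (p (nat_lit 0x1090a0888079a)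 (nat_lit 0) (p (nat_lit 0x8898807871a) (nat_lit 0) (p (nat_lit 0x8000000000800080787088a) (nat_lit 0) (p (nat_lit 0x8000000000800078706860a) (nat_lit 0) (p (nat_lit 0x10806860782) (nat_lit 0) (p (nat_lit 0x786058702) (nat_lit 0) (p (nat_lit 0x10705850482) (nat_lit 0) (p (nat_lit 0x685048402) (nat_lit 0) (p (nat_lit 0x16000c) (nat_lit 0) (p (nat_lit 0x60592) (nat_lit 0) (p (nat_lit 0x48512) (nat_lit 0) (p (nat_lit 0x50392) (nat_lit 0) (p (nat_lit 0x38312) (nat_lit 0) (p (nat_lit 0x40212) (nat_lit 0) (p (nat_lit 0x28192) (nat_lit 0) (p (nat_lit 0x30092) (nat_lit 0) (p (nat_lit 0x18012) (nat_lit 0) pn)))))))))))))))))))))))))))))) :=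
  Cl.node (nat_lit 0xb000c) (nat_lit 2) (by decide +kernel) (ClAll.succ (ClAll.succ ClAll.zero s183) s184)

def n173 : Cl (O (nat_lit 5)) (R (nat_lit 6353))
    (p (nat_lit 0x119) (nat_lit 1) (p (nat_lit 0x200014) (nat_lit 0) (p (nat_lit 0x200004) (nat_lit 0) (p (nat_lit 0xc9) (nat_lit 0) (p (nat_lit 0x89) (nat_lit 1) (p (nat_lit 0x109) (nat_lit 1) (p (nat_lit 0x101) (nat_lit 0) (p (nat_lit 0x111) (nat_lit 0) (p (nat_lit 0xd1) (nat_lit 1) (p (nat_lit 0x81) (nat_lit 0) (p (nat_lit 0x41) (nat_lit 1) (p (nat_lit 0x10a0b09890a9a) (nat_lit 0) (p (nat_lit 0x98a89088a1a) (nat_lit 0) (p (nat_lit 0x1090a0888079a) (nat_lit 0) (p (nat_lit 0x8898807871a) (nat_lit 0) (p (nat_lit 0x8000000000800080787088a) (nat_lit 0) (p (nat_lit 0x8000000000800078706860a) (nat_lit 0) (p (nat_lit 0x10806860782) (nat_lit 0) (p (nat_lit 0x786058702) (nat_lit 0) (p (nat_lit 0x10705850482) (nat_lit 0) (p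 (nat_lit 0x685048402) (nat_lit 0) (p (nat_lit 0x16000c) (nat_lit 0) (p (nat_lit 0x60592) (nat_lit 0) (p (nat_lit 0x48512) (nat_lit 0) (p (nat_lit 0x50392) (nat_lit 0) (p (nat_lit 0x38312) (nat_lit 0) (p (nat_lit 0x40212) (nat_lit 0) (p (nat_lit 0x28192) (nat_lit 0) (p (nat_lit 0x30092) (nat_lit 0) (p (nat_lit 0x18012) (nat_lit 0) pn)))))))))))))))))))))))))))))) :=
  Cl.node (nat_lit 0xb000c) (nat_lit 2) (by decide +kernel) (ClAll.succ (ClAll.succ ClAll.zero s185) n150)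

def n174 : Cl (O (nat_lit 5)) (R (nat_lit 6353))
    (p (nat_lit 0x2a825800002a8258a8a09890a) (nat_lit 0) (p (nat_lit 0xb000c) (nat_lit 1) (p (nat_lit 0x200014) (nat_lit 0) (p (nat_lit 0x200004) (nat_lit 0) (p (nat_lit 0xc9) (nat_lit 0) (p (nat_lit 0x89) (nat_lit 1) (p (nat_lit 0x101) (nat_lit 1) (p (nat_lit 0x111) (nat_lit 0) (p (nat_lit 0xd1) (nat_lit 1) (p (nat_lit 0x81) (nat_lit 0) (p (nat_lit 0x41) (nat_lit 1) (p (nat_lit 0x10a0b09890a9a) (nat_lit 0) (p (nat_lit 0x98a89088a1a) (nat_lit 0) (p (nat_lit 0x1090a0888079a) (nat_lit 0) (p (nat_lit 0x8898807871a) (nat_lit 0) (p (nat_lit 0x8000000000800080787088a) (nat_lit 0) (p (nat_lit 0x8000000000800078706860a) (nat_lit 0) (p (nat_lit 0x10806860782) (nat_lit 0) (p (nat_lit 0x786058702) (nat_lit 0) (p (nat_lit 0x10705850482) (nat_lit 0) (p (nat_lit 0x685048402) (nat_lit 0) (p (nat_lit 0x16000c) (nat_lit 0) (p (nat_lit 0x60592)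 (nat_lit 0) (p (nat_lit 0x48512) (nat_lit 0) (p (nat_lit 0x50392) (nat_lit 0) (p (nat_lit 0x38312) (nat_lit 0) (p (nat_lit 0x40212) (nat_lit 0) (p (nat_lit 0x28192) (nat_lit 0) (p (nat_lit 0x30092) (nat_lit 0) (p (nat_lit 0x18012) (nat_lit 0) pn)))))))))))))))))))))))))))))) :=
  Cl.node (nat_lit 0x2a825800002a8258b0a8a0b8a) (nat_lit 1) (by decide +kernel) (ClAll.succ ClAll.zero n151)

def n175 : Cl (O (nat_lit 5)) (R (nat_lit 6353))
    (p (nat_lit 0x2a825800002a8258a8a09890a) (nat_lit 0) (p (nat_lit 0xb000c) (nat_lit 1) (p (nat_lit 0x200014) (nat_lit 0) (p (nat_lit 0x200004) (nat_lit 0) (p (nat_lit 0x109) (nat_lit 0) (p (nat_lit 0xc9) (nat_lit 1) (p (nat_lit 0x89) (nat_lit 1) (p (nat_lit 0x111) (nat_lit 1) (p (nat_lit 0xd1) (nat_lit 1) (p (nat_lit 0x81) (nat_lit 0) (p (nat_lit 0x41) (nat_lit 1) (p (nat_lit 0x10a0b09890a9a) (nat_lit 0) (p (nat_lit 0x98a89088a1a) (nat_lit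 0) (p (nat_lit 0x1090a0888079a) (nat_lit 0) (p (nat_lit 0x8898807871a) (nat_lit 0) (p (nat_lit 0x8000000000800080787088a) (nat_lit 0) (p (nat_lit 0x8000000000800078706860a) (nat_lit 0) (p (nat_lit 0x10806860782) (nat_lit 0) (p (nat_lit 0x786058702) (nat_lit 0) (p (nat_lit 0x10705850482) (nat_lit 0) (p (nat_lit 0x685048402) (nat_lit 0) (p (nat_lit 0x16000c) (nat_lit 0) (p (nat_lit 0x60592) (nat_lit 0) (p (nat_lit 0x48512) (nat_lit 0) (p (nat_lit 0x50392) (nat_lit 0) (p (nat_lit 0x38312) (nat_lit 0) (p (nat_lit 0x40212) (nat_lit 0) (p (nat_lit 0x28192) (nat_lit 0) (p (nat_lit 0x30092) (nat_lit 0) (p (nat_lit 0x18012) (nat_lit 0) pn)))))))))))))))))))))))))))))) :=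
  Cl.node (nat_lit 0x2a825800002a8258b0a8a0b8a) (nat_lit 1) (by decide +kernel) (ClAll.succ ClAll.zero n152)

def n176 : Cl (O (nat_lit 5)) (R (nat_lit 6353))
    (p (nat_lit 0x2a825800002a8258a8a09890a) (nat_lit 0) (p (nat_lit 0xb000c) (nat_lit 1) (p (nat_lit 0x200014) (nat_lit 0) (p (nat_lit 0x200004) (nat_lit 0) (p (nat_lit 0x109) (nat_lit 1) (p (nat_lit 0xc9) (nat_lit 1) (p (nat_lit 0x89) (nat_lit 1) (p (nat_lit 0x111) (nat_lit 1) (p (nat_lit 0xd1) (nat_lit 1) (p (nat_lit 0x81) (nat_lit 0) (p (nat_lit 0x41) (nat_lit 1) (p (nat_lit 0x10a0b09890a9a) (nat_lit 0) (p (nat_lit 0x98a89088a1a) (nat_lit 0) (p (nat_lit 0x1090a0888079a) (nat_lit 0) (p (nat_lit 0x8898807871a) (nat_lit 0) (p (nat_lit 0x8000000000800080787088a) (nat_lit 0) (p (nat_lit 0x8000000000800078706860a) (nat_lit 0) (p (nat_lit 0x10806860782) (nat_lit 0) (p (nat_lit 0x786058702) (nat_lit 0) (p (nat_lit 0x10705850482)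 (nat_lit 0) (p (nat_lit 0x685048402) (nat_lit 0) (p (nat_lit 0x16000c) (nat_lit 0) (p (nat_lit 0x60592) (nat_lit 0) (p (nat_lit 0x48512) (nat_lit 0) (p (nat_lit 0x50392) (nat_lit 0) (p (nat_lit 0x38312) (nat_lit 0) (p (nat_lit 0x40212) (nat_lit 0) (p (nat_lit 0x28192) (nat_lit 0) (p (nat_lit 0x30092) (nat_lit 0) (p (nat_lit 0x18012) (nat_lit 0) pn)))))))))))))))))))))))))))))) :=
  Cl.node (nat_lit 0x2a825800002a8258b0a8a0b8a) (nat_lit 1) (by decide +kernel) (ClAll.succ ClAll.zero n153)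

def n177 : Cl (O (nat_lit 5)) (R (nat_lit 6353))
    (p (nat_lit 0x2a825800002a8258a8a09890a) (nat_lit 0) (p (nat_lit 0xb000c) (nat_lit 1) (p (nat_lit 0x200014) (nat_lit 0) (p (nat_lit 0x200004) (nat_lit 0) (p (nat_lit 0x111) (nat_lit 1) (p (nat_lit 0xd1) (nat_lit 1) (p (nat_lit 0xc9) (nat_lit 0) (p (nat_lit 0x119) (nat_lit 1) (p (nat_lit 0xc1) (nat_lit 0) (p (nat_lit 0x81) (nat_lit 1) (p (nat_lit 0x41) (nat_lit 1) (p (nat_lit 0x10a0b09890a9a) (nat_lit 0) (p (nat_lit 0x98a89088a1a) (nat_lit 0) (p (nat_lit 0x1090a0888079a) (nat_lit 0) (p (nat_lit 0x8898807871a) (nat_lit 0) (p (nat_lit 0x8000000000800080787088a) (nat_lit 0) (p (nat_lit 0x8000000000800078706860a) (nat_lit 0) (p (nat_lit 0x10806860782) (nat_lit 0) (p (nat_lit 0x786058702) (nat_lit 0) (p (nat_lit 0x10705850482) (nat_lit 0) (p (nat_lit 0x685048402) (nat_lit 0) (p (nat_lit 0x16000c) (nat_lit 0) (p (nat_lit 0x60592)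 (nat_lit 0) (p (nat_lit 0x48512) (nat_lit 0) (p (nat_lit 0x50392) (nat_lit 0) (p (nat_lit 0x38312) (nat_lit 0) (p (nat_lit 0x40212) (nat_lit 0) (p (nat_lit 0x28192) (nat_lit 0) (p (nat_lit 0x30092) (nat_lit 0) (p (nat_lit 0x18012) (nat_lit 0) pn)))))))))))))))))))))))))))))) :=
  Cl.node (nat_lit 0x2a825800002a8258b0a8a0b8a) (nat_lit 1) (by decide +kernel) (ClAll.succ ClAll.zero n154)

def n178 : Cl (O (nat_lit 5)) (R (nat_lit 6353))
    (p (nat_lit 0x2a825800002a8258b0a8a0b8a) (nat_lit 0) (p (nat_lit 0x2a825800002a8258a8a09890a) (nat_lit 0) (p (nat_lit 0xb000c) (nat_lit 1) (p (nat_lit 0x200014) (nat_lit 0) (p (nat_lit 0x200004) (nat_lit 0) (p (nat_lit 0x109) (nat_lit 1) (p (nat_lit 0xc9) (nat_lit 1) (p (nat_lit 0x119) (nat_lit 1) (p (nat_lit 0xc1) (nat_lit 0) (p (nat_lit 0x81) (nat_lit 1) (p (nat_lit 0x41) (nat_lit 1) (p (nat_lit 0x10a0b09890a9a) (nat_lit 0) (p (nat_lit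 0x98a89088a1a) (nat_lit 0) (p (nat_lit 0x1090a0888079a) (nat_lit 0) (p (nat_lit 0x8898807871a) (nat_lit 0) (p (nat_lit 0x8000000000800080787088a) (nat_lit 0) (p (nat_lit 0x8000000000800078706860a) (nat_lit 0) (p (nat_lit 0x10806860782) (nat_lit 0) (p (nat_lit 0x786058702) (nat_lit 0) (p (nat_lit 0x10705850482) (nat_lit 0) (p (nat_lit 0x685048402) (nat_lit 0) (p (nat_lit 0x16000c) (nat_lit 0) (p (nat_lit 0x60592) (nat_lit 0) (p (nat_lit 0x48512) (nat_lit 0) (p (nat_lit 0x50392) (nat_lit 0) (p (nat_lit 0x38312) (nat_lit 0) (p (nat_lit 0x40212) (nat_lit 0) (p (nat_lit 0x28192) (nat_lit 0) (p (nat_lit 0x30092) (nat_lit 0) (p (nat_lit 0x18012) (nat_lit 0) pn)))))))))))))))))))))))))))))) :=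
  Cl.node (nat_lit 0xb8c8b0a8a1a) (nat_lit 1) (by decide +kernel) (ClAll.succ ClAll.zero n155)

def n179 : Cl (O (nat_lit 5)) (R (nat_lit 6353))
    (p (nat_lit 0x111) (nat_lit 0) (p (nat_lit 0x200014) (nat_lit 0) (p (nat_lit 0x200004) (nat_lit 0) (p (nat_lit 0xc9) (nat_lit 0) (p (nat_lit 0x81) (nat_lit 0) (p (nat_lit 0x101) (nat_lit 1) (p (nat_lit 0x119) (nat_lit 0) (p (nat_lit 0xd1) (nat_lit 0) (p (nat_lit 0x89) (nat_lit 0) (p (nat_lit 0x41) (nat_lit 0) (p (nat_lit 0x10a0b09890a9a) (nat_lit 0) (p (nat_lit 0x98a89088a1a) (nat_lit 0) (p (nat_lit 0x1090a0888079a) (nat_lit 0) (p (nat_lit 0x8898807871a) (nat_lit 0) (p (nat_lit 0x8000000000800080787088a) (nat_lit 0) (p (nat_lit 0x8000000000800078706860a) (nat_lit 0) (p (nat_lit 0x10806860782) (nat_lit 0) (p (nat_lit 0x786058702) (nat_lit 0) (p (nat_lit 0x10705850482) (nat_lit 0) (p (nat_lit 0x685048402) (nat_lit 0) (p (nat_lit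 0x16000c) (nat_lit 0) (p (nat_lit 0x60592) (nat_lit 0) (p (nat_lit 0x48512) (nat_lit 0) (p (nat_lit 0x50392) (nat_lit 0) (p (nat_lit 0x38312) (nat_lit 0) (p (nat_lit 0x40212) (nat_lit 0) (p (nat_lit 0x28192) (nat_lit 0) (p (nat_lit 0x30092) (nat_lit 0) (p (nat_lit 0x18012) (nat_lit 0) pn))))))))))))))))))))))))))))) :=
  Cl.node (nat_lit 0xb000c) (nat_lit 2) (by decide +kernel) (ClAll.succ (ClAll.succ ClAll.zero s2) n156)

def n180 : Cl (O (nat_lit 5)) (R (nat_lit 6353))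
    (p (nat_lit 0x111) (nat_lit 0) (p (nat_lit 0x200014) (nat_lit 0) (p (nat_lit 0x200004) (nat_lit 0) (p (nat_lit 0xc9) (nat_lit 1) (p (nat_lit 0x81) (nat_lit 0) (p (nat_lit 0x101) (nat_lit 1) (p (nat_lit 0x119) (nat_lit 0) (p (nat_lit 0xd1) (nat_lit 0) (p (nat_lit 0x89) (nat_lit 0) (p (nat_lit 0x41) (nat_lit 0) (p (nat_lit 0x10a0b09890a9a) (nat_lit 0) (p (nat_lit 0x98a89088a1a) (nat_lit 0) (p (nat_lit 0x1090a0888079a) (nat_lit 0) (p (nat_lit 0x8898807871a) (nat_lit 0) (p (nat_lit 0x8000000000800080787088a) (nat_lit 0) (p (nat_lit 0x8000000000800078706860a) (nat_lit 0) (p (nat_lit 0x10806860782) (nat_lit 0) (p (nat_lit 0x786058702) (nat_lit 0) (p (nat_lit 0x10705850482) (nat_lit 0) (p (nat_lit 0x685048402) (nat_lit 0) (p (nat_lit 0x16000c) (nat_lit 0) (p (nat_lit 0x60592) (nat_lit 0) (p (nat_lit 0x48512) (nat_lit 0) (p (nat_lit 0x50392) (nat_lit 0) (p (nat_lit 0x38312)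 (nat_lit 0) (p (nat_lit 0x40212) (nat_lit 0) (p (nat_lit 0x28192) (nat_lit 0) (p (nat_lit 0x30092) (nat_lit 0) (p (nat_lit 0x18012) (nat_lit 0) pn))))))))))))))))))))))))))))) :=
  Cl.node (nat_lit 0xb000c) (nat_lit 2) (by decide +kernel) (ClAll.succ (ClAll.succ ClAll.zero s8) n157)

def n181 : Cl (O (nat_lit 5)) (R (nat_lit 6353))
    (p (nat_lit 0x200014) (nat_lit 0) (p (nat_lit 0x200004) (nat_lit 0) (p (nat_lit 0xc9) (nat_lit 0) (p (nat_lit 0xc1) (nat_lit 0) (p (nat_lit 0x81) (nat_lit 1) (p (nat_lit 0x101) (nat_lit 1) (p (nat_lit 0x119) (nat_lit 0) (p (nat_lit 0xd1) (nat_lit 0) (p (nat_lit 0x89) (nat_lit 0) (p (nat_lit 0x41) (nat_lit 0) (p (nat_lit 0x10a0b09890a9a) (nat_lit 0) (p (nat_lit 0x98a89088a1a) (nat_lit 0) (p (nat_lit 0x1090a0888079a) (nat_lit 0) (p (nat_lit 0x8898807871a) (nat_lit 0) (p (nat_lit 0x8000000000800080787088a) (nat_lit 0) (p (nat_lit 0x8000000000800078706860a)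 (nat_lit 0) (p (nat_lit 0x10806860782) (nat_lit 0) (p (nat_lit 0x786058702) (nat_lit 0) (p (nat_lit 0x10705850482) (nat_lit 0) (p (nat_lit 0x685048402) (nat_lit 0) (p (nat_lit 0x16000c) (nat_lit 0) (p (nat_lit 0x60592) (nat_lit 0) (p (nat_lit 0x48512) (nat_lit 0) (p (nat_lit 0x50392) (nat_lit 0) (p (nat_lit 0x38312) (nat_lit 0) (p (nat_lit 0x40212) (nat_lit 0) (p (nat_lit 0x28192) (nat_lit 0) (p (nat_lit 0x30092) (nat_lit 0) (p (nat_lit 0x18012) (nat_lit 0) pn))))))))))))))))))))))))))))) :=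
  Cl.node (nat_lit 0xb000c) (nat_lit 2) (by decide +kernel) (ClAll.succ (ClAll.succ ClAll.zero s14) n158)

def n182 : Cl (O (nat_lit 5)) (R (nat_lit 6353))
    (p (nat_lit 0x200014) (nat_lit 0) (p (nat_lit 0x200004) (nat_lit 0) (p (nat_lit 0xc9) (nat_lit 1) (p (nat_lit 0xc1) (nat_lit 0) (p (nat_lit 0x81) (nat_lit 1) (p (nat_lit 0x101) (nat_lit 1) (p (nat_lit 0x119) (nat_lit 0) (p (nat_lit 0xd1) (nat_lit 0) (p (nat_lit 0x89) (nat_lit 0) (p (nat_lit 0x41) (nat_lit 0) (p (nat_lit 0x10a0b09890a9a) (nat_lit 0) (p (nat_lit 0x98a89088a1a) (nat_lit 0) (p (nat_lit 0x1090a0888079a) (nat_lit 0) (p (nat_lit 0x8898807871a) (nat_lit 0) (p (nat_lit 0x8000000000800080787088a) (nat_lit 0) (p (nat_lit 0x8000000000800078706860a) (nat_lit 0) (p (nat_lit 0x10806860782) (nat_lit 0) (p (nat_lit 0x786058702) (nat_lit 0) (p (nat_lit 0x10705850482) (nat_lit 0) (p (nat_lit 0x685048402) (nat_lit 0)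 (p (nat_lit 0x16000c) (nat_lit 0) (p (nat_lit 0x60592) (nat_lit 0) (p (nat_lit 0x48512) (nat_lit 0) (p (nat_lit 0x50392) (nat_lit 0) (p (nat_lit 0x38312) (nat_lit 0) (p (nat_lit 0x40212) (nat_lit 0) (p (nat_lit 0x28192) (nat_lit 0) (p (nat_lit 0x30092) (nat_lit 0) (p (nat_lit 0x18012) (nat_lit 0) pn))))))))))))))))))))))))))))) :=
  Cl.node (nat_lit 0xb000c) (nat_lit 2) (by decide +kernel) (ClAll.succ (ClAll.succ ClAll.zero s20) s21)

def n183 : Cl (O (nat_lit 5)) (R (nat_lit 6353))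
    (p (nat_lit 0xb000c) (nat_lit 0) (p (nat_lit 0x200014) (nat_lit 0) (p (nat_lit 0x200004) (nat_lit 0) (p (nat_lit 0x109) (nat_lit 1) (p (nat_lit 0xc9) (nat_lit 1) (p (nat_lit 0xc1) (nat_lit 0) (p (nat_lit 0x119) (nat_lit 1) (p (nat_lit 0xd1) (nat_lit 0) (p (nat_lit 0x89) (nat_lit 0) (p (nat_lit 0x41) (nat_lit 0) (p (nat_lit 0x10a0b09890a9a) (nat_lit 0) (p (nat_lit 0x98a89088a1a) (nat_lit 0) (p (nat_lit 0x1090a0888079a) (nat_lit 0) (p (nat_lit 0x8898807871a) (nat_lit 0) (p (nat_lit 0x8000000000800080787088a) (nat_lit 0) (p (nat_lit 0x8000000000800078706860a) (nat_lit 0) (p (nat_lit 0x10806860782) (nat_lit 0) (p (nat_lit 0x786058702) (nat_lit 0) (p (nat_lit 0x10705850482) (nat_lit 0) (p (nat_lit 0x685048402) (nat_lit 0) (p (nat_lit 0x16000c) (nat_lit 0) (p (nat_lit 0x60592) (nat_lit 0) (p (nat_lit 0x48512) (nat_lit 0) (p (nat_lit 0x50392) (nat_lit 0) (p (nat_lit 0x38312)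 (nat_lit 0) (p (nat_lit 0x40212) (nat_lit 0) (p (nat_lit 0x28192) (nat_lit 0) (p (nat_lit 0x30092) (nat_lit 0) (p (nat_lit 0x18012) (nat_lit 0) pn))))))))))))))))))))))))))))) :=
  Cl.node (nat_lit 0x41) (nat_lit 2) (by decide +kernel) (ClAll.succ (ClAll.succ ClAll.zero s27) s28)

def n184 : Cl (O (nat_lit 5)) (R (nat_lit 6353))
    (p (nat_lit 0xb000c) (nat_lit 1) (p (nat_lit 0x200014) (nat_lit 0) (p (nat_lit 0x200004) (nat_lit 0) (p (nat_lit 0x109) (nat_lit 1) (p (nat_lit 0xc9) (nat_lit 1) (p (nat_lit 0xc1) (nat_lit 0) (p (nat_lit 0x119) (nat_lit 1) (p (nat_lit 0xd1) (nat_lit 0) (p (nat_lit 0x89) (nat_lit 0) (p (nat_lit 0x41) (nat_lit 0) (p (nat_lit 0x10a0b09890a9a) (nat_lit 0) (p (nat_lit 0x98a89088a1a) (nat_lit 0) (p (nat_lit 0x1090a0888079a) (nat_lit 0) (p (nat_lit 0x8898807871a) (nat_lit 0) (p (nat_lit 0x8000000000800080787088a) (nat_lit 0) (p (nat_lit 0x8000000000800078706860a)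 (nat_lit 0) (p (nat_lit 0x10806860782) (nat_lit 0) (p (nat_lit 0x786058702) (nat_lit 0) (p (nat_lit 0x10705850482) (nat_lit 0) (p (nat_lit 0x685048402) (nat_lit 0) (p (nat_lit 0x16000c) (nat_lit 0) (p (nat_lit 0x60592) (nat_lit 0) (p (nat_lit 0x48512) (nat_lit 0) (p (nat_lit 0x50392) (nat_lit 0) (p (nat_lit 0x38312) (nat_lit 0) (p (nat_lit 0x40212) (nat_lit 0) (p (nat_lit 0x28192) (nat_lit 0) (p (nat_lit 0x30092) (nat_lit 0) (p (nat_lit 0x18012) (nat_lit 0) pn))))))))))))))))))))))))))))) :=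
  Cl.node (nat_lit 0x2a825800002a8258a8a09890a) (nat_lit 1) (by decide +kernel) (ClAll.succ ClAll.zero n159)

def n185 : Cl (O (nat_lit 5)) (R (nat_lit 6353))
    (p (nat_lit 0x200014) (nat_lit 0) (p (nat_lit 0x200004) (nat_lit 0) (p (nat_lit 0x109) (nat_lit 0) (p (nat_lit 0x101) (nat_lit 0) (p (nat_lit 0x81) (nat_lit 1) (p (nat_lit 0xc1) (nat_lit 1) (p (nat_lit 0x119) (nat_lit 1) (p (nat_lit 0xd1) (nat_lit 0) (p (nat_lit 0x89) (nat_lit 0) (p (nat_lit 0x41) (nat_lit 0) (p (nat_lit 0x10a0b09890a9a) (nat_lit 0) (p (nat_lit 0x98a89088a1a) (nat_lit 0) (p (nat_lit 0x1090a0888079a) (nat_lit 0) (p (nat_lit 0x8898807871a) (nat_lit 0) (p (nat_lit 0x8000000000800080787088a) (nat_lit 0) (p (nat_lit 0x8000000000800078706860a) (nat_lit 0) (p (nat_lit 0x10806860782) (nat_lit 0) (p (nat_lit 0x786058702) (nat_lit 0) (p (nat_lit 0x10705850482) (nat_lit 0) (p (nat_lit 0x685048402) (nat_lit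 0) (p (nat_lit 0x16000c) (nat_lit 0) (p (nat_lit 0x60592) (nat_lit 0) (p (nat_lit 0x48512) (nat_lit 0) (p (nat_lit 0x50392) (nat_lit 0) (p (nat_lit 0x38312) (nat_lit 0) (p (nat_lit 0x40212) (nat_lit 0) (p (nat_lit 0x28192) (nat_lit 0) (p (nat_lit 0x30092) (nat_lit 0) (p (nat_lit 0x18012) (nat_lit 0) pn))))))))))))))))))))))))))))) :=
  Cl.node (nat_lit 0xb000c) (nat_lit 2) (by decide +kernel) (ClAll.succ (ClAll.succ ClAll.zero s39) s40)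

def n186 : Cl (O (nat_lit 5)) (R (nat_lit 6353))
    (p (nat_lit 0x200014) (nat_lit 0) (p (nat_lit 0x200004) (nat_lit 0) (p (nat_lit 0x109) (nat_lit 1) (p (nat_lit 0x101) (nat_lit 0) (p (nat_lit 0x81) (nat_lit 1) (p (nat_lit 0xc1) (nat_lit 1) (p (nat_lit 0x119) (nat_lit 1) (p (nat_lit 0xd1) (nat_lit 0) (p (nat_lit 0x89) (nat_lit 0) (p (nat_lit 0x41) (nat_lit 0) (p (nat_lit 0x10a0b09890a9a) (nat_lit 0) (p (nat_lit 0x98a89088a1a) (nat_lit 0) (p (nat_lit 0x1090a0888079a) (nat_lit 0) (p (nat_lit 0x8898807871a) (nat_lit 0) (p (nat_lit 0x8000000000800080787088a) (nat_lit 0) (p (nat_lit 0x8000000000800078706860a) (nat_lit 0) (p (nat_lit 0x10806860782) (nat_lit 0) (p (nat_lit 0x786058702) (nat_lit 0) (p (nat_lit 0x10705850482) (nat_lit 0) (p (nat_lit 0x685048402) (nat_lit 0) (p (nat_lit 0x16000c) (nat_lit 0) (p (nat_lit 0x60592) (nat_lit 0) (p (nat_lit 0x48512) (nat_lit 0) (p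 (nat_lit 0x50392) (nat_lit 0) (p (nat_lit 0x38312) (nat_lit 0) (p (nat_lit 0x40212) (nat_lit 0) (p (nat_lit 0x28192) (nat_lit 0) (p (nat_lit 0x30092) (nat_lit 0) (p (nat_lit 0x18012) (nat_lit 0) pn))))))))))))))))))))))))))))) :=
  Cl.node (nat_lit 0xb000c) (nat_lit 2) (by decide +kernel) (ClAll.succ (ClAll.succ ClAll.zero s43) n160)

def n187 : Cl (O (nat_lit 5)) (R (nat_lit 6353))
    (p (nat_lit 0x119) (nat_lit 0) (p (nat_lit 0x200014) (nat_lit 0) (p (nat_lit 0x200004) (nat_lit 0) (p (nat_lit 0xc1) (nat_lit 0) (p (nat_lit 0x81) (nat_lit 1) (p (nat_lit 0x101) (nat_lit 1) (p (nat_lit 0x111) (nat_lit 0) (p (nat_lit 0xd1) (nat_lit 1) (p (nat_lit 0x89) (nat_lit 0) (p (nat_lit 0x41) (nat_lit 0) (p (nat_lit 0x10a0b09890a9a) (nat_lit 0) (p (nat_lit 0x98a89088a1a) (nat_lit 0) (p (nat_lit 0x1090a0888079a) (nat_lit 0) (p (nat_lit 0x8898807871a) (nat_lit 0) (p (nat_lit 0x8000000000800080787088a)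 (nat_lit 0) (p (nat_lit 0x8000000000800078706860a) (nat_lit 0) (p (nat_lit 0x10806860782) (nat_lit 0) (p (nat_lit 0x786058702) (nat_lit 0) (p (nat_lit 0x10705850482) (nat_lit 0) (p (nat_lit 0x685048402) (nat_lit 0) (p (nat_lit 0x16000c) (nat_lit 0) (p (nat_lit 0x60592) (nat_lit 0) (p (nat_lit 0x48512) (nat_lit 0) (p (nat_lit 0x50392) (nat_lit 0) (p (nat_lit 0x38312) (nat_lit 0) (p (nat_lit 0x40212) (nat_lit 0) (p (nat_lit 0x28192) (nat_lit 0) (p (nat_lit 0x30092) (nat_lit 0) (p (nat_lit 0x18012) (nat_lit 0) pn))))))))))))))))))))))))))))) :=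
  Cl.node (nat_lit 0xb000c) (nat_lit 2) (by decide +kernel) (ClAll.succ (ClAll.succ ClAll.zero s55) n161)

def n188 : Cl (O (nat_lit 5)) (R (nat_lit 6353))
    (p (nat_lit 0xb000c) (nat_lit 1) (p (nat_lit 0x200014) (nat_lit 0) (p (nat_lit 0x200004) (nat_lit 0) (p (nat_lit 0x111) (nat_lit 1) (p (nat_lit 0xd1) (nat_lit 1) (p (nat_lit 0xc1) (nat_lit 0) (p (nat_lit 0x119) (nat_lit 1) (p (nat_lit 0xc9) (nat_lit 0) (p (nat_lit 0x89) (nat_lit 1) (p (nat_lit 0x41) (nat_lit 0) (p (nat_lit 0x10a0b09890a9a) (nat_lit 0) (p (nat_lit 0x98a89088a1a) (nat_lit 0) (p (nat_lit 0x1090a0888079a) (nat_lit 0) (p (nat_lit 0x8898807871a) (nat_lit 0) (p (nat_lit 0x8000000000800080787088a) (nat_lit 0) (p (nat_lit 0x8000000000800078706860a) (nat_lit 0) (p (nat_lit 0x10806860782) (nat_lit 0) (p (nat_lit 0x786058702) (nat_lit 0) (p (nat_lit 0x10705850482) (nat_lit 0) (p (nat_lit 0x685048402) (nat_lit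 0) (p (nat_lit 0x16000c) (nat_lit 0) (p (nat_lit 0x60592) (nat_lit 0) (p (nat_lit 0x48512) (nat_lit 0) (p (nat_lit 0x50392) (nat_lit 0) (p (nat_lit 0x38312) (nat_lit 0) (p (nat_lit 0x40212) (nat_lit 0) (p (nat_lit 0x28192) (nat_lit 0) (p (nat_lit 0x30092) (nat_lit 0) (p (nat_lit 0x18012) (nat_lit 0) pn))))))))))))))))))))))))))))) :=
  Cl.node (nat_lit 0x2a825800002a8258a8a09890a) (nat_lit 1) (by decide +kernel) (ClAll.succ ClAll.zero n162)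

def n189 : Cl (O (nat_lit 5)) (R (nat_lit 6353))
    (p (nat_lit 0x111) (nat_lit 0) (p (nat_lit 0x200014) (nat_lit 0) (p (nat_lit 0x200004) (nat_lit 0) (p (nat_lit 0x89) (nat_lit 0) (p (nat_lit 0x109) (nat_lit 1) (p (nat_lit 0x101) (nat_lit 0) (p (nat_lit 0x119) (nat_lit 0) (p (nat_lit 0xd1) (nat_lit 0) (p (nat_lit 0x81) (nat_lit 0) (p (nat_lit 0x41) (nat_lit 1) (p (nat_lit 0x10a0b09890a9a) (nat_lit 0) (p (nat_lit 0x98a89088a1a) (nat_lit 0) (p (nat_lit 0x1090a0888079a) (nat_lit 0) (p (nat_lit 0x8898807871a) (nat_lit 0) (p (nat_lit 0x8000000000800080787088a) (nat_lit 0) (p (nat_lit 0x8000000000800078706860a) (nat_lit 0) (p (nat_lit 0x10806860782) (nat_lit 0) (p (nat_lit 0x786058702) (nat_lit 0) (p (nat_lit 0x10705850482) (nat_lit 0) (p (nat_lit 0x685048402) (nat_lit 0) (p (nat_lit 0x16000c) (nat_lit 0) (p (nat_lit 0x60592) (nat_lit 0) (p (nat_lit 0x48512) (nat_lit 0) (p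 (nat_lit 0x50392) (nat_lit 0) (p (nat_lit 0x38312) (nat_lit 0) (p (nat_lit 0x40212) (nat_lit 0) (p (nat_lit 0x28192) (nat_lit 0) (p (nat_lit 0x30092) (nat_lit 0) (p (nat_lit 0x18012) (nat_lit 0) pn))))))))))))))))))))))))))))) :=
  Cl.node (nat_lit 0xb000c) (nat_lit 2) (by decide +kernel) (ClAll.succ (ClAll.succ ClAll.zero s92) n163)

def n190 : Cl (O (nat_lit 5)) (R (nat_lit 6353))
    (p (nat_lit 0x200014) (nat_lit 0) (p (nat_lit 0x200004) (nat_lit 0) (p (nat_lit 0xc9) (nat_lit 0) (p (nat_lit 0x89) (nat_lit 1) (p (nat_lit 0x109) (nat_lit 1) (p (nat_lit 0x101) (nat_lit 0) (p (nat_lit 0x119) (nat_lit 0) (p (nat_lit 0xd1) (nat_lit 0) (p (nat_lit 0x81) (nat_lit 0) (p (nat_lit 0x41) (nat_lit 1) (p (nat_lit 0x10a0b09890a9a) (nat_lit 0) (p (nat_lit 0x98a89088a1a) (nat_lit 0) (p (nat_lit 0x1090a0888079a) (nat_lit 0) (p (nat_lit 0x8898807871a) (nat_lit 0) (p (nat_lit 0x8000000000800080787088a)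 (nat_lit 0) (p (nat_lit 0x8000000000800078706860a) (nat_lit 0) (p (nat_lit 0x10806860782) (nat_lit 0) (p (nat_lit 0x786058702) (nat_lit 0) (p (nat_lit 0x10705850482) (nat_lit 0) (p (nat_lit 0x685048402) (nat_lit 0) (p (nat_lit 0x16000c) (nat_lit 0) (p (nat_lit 0x60592) (nat_lit 0) (p (nat_lit 0x48512) (nat_lit 0) (p (nat_lit 0x50392) (nat_lit 0) (p (nat_lit 0x38312) (nat_lit 0) (p (nat_lit 0x40212) (nat_lit 0) (p (nat_lit 0x28192) (nat_lit 0) (p (nat_lit 0x30092) (nat_lit 0) (p (nat_lit 0x18012) (nat_lit 0) pn))))))))))))))))))))))))))))) :=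
  Cl.node (nat_lit 0xb000c) (nat_lit 2) (by decide +kernel) (ClAll.succ (ClAll.succ ClAll.zero s98) n164)

def n191 : Cl (O (nat_lit 5)) (R (nat_lit 6353))
    (p (nat_lit 0x200014) (nat_lit 0) (p (nat_lit 0x200004) (nat_lit 0) (p (nat_lit 0xc9) (nat_lit 1) (p (nat_lit 0x89) (nat_lit 1) (p (nat_lit 0xc1) (nat_lit 0) (p (nat_lit 0x101) (nat_lit 1) (p (nat_lit 0x119) (nat_lit 0) (p (nat_lit 0xd1) (nat_lit 0) (p (nat_lit 0x81) (nat_lit 0) (p (nat_lit 0x41) (nat_lit 1) (p (nat_lit 0x10a0b09890a9a) (nat_lit 0) (p (nat_lit 0x98a89088a1a) (nat_lit 0) (p (nat_lit 0x1090a0888079a) (nat_lit 0) (p (nat_lit 0x8898807871a) (nat_lit 0) (p (nat_lit 0x8000000000800080787088a) (nat_lit 0) (p (nat_lit 0x8000000000800078706860a) (nat_lit 0) (p (nat_lit 0x10806860782) (nat_lit 0) (p (nat_lit 0x786058702) (nat_lit 0) (p (nat_lit 0x10705850482) (nat_lit 0) (p (nat_lit 0x685048402) (nat_lit 0)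 (p (nat_lit 0x16000c) (nat_lit 0) (p (nat_lit 0x60592) (nat_lit 0) (p (nat_lit 0x48512) (nat_lit 0) (p (nat_lit 0x50392) (nat_lit 0) (p (nat_lit 0x38312) (nat_lit 0) (p (nat_lit 0x40212) (nat_lit 0) (p (nat_lit 0x28192) (nat_lit 0) (p (nat_lit 0x30092) (nat_lit 0) (p (nat_lit 0x18012) (nat_lit 0) pn))))))))))))))))))))))))))))) :=
  Cl.node (nat_lit 0xb000c) (nat_lit 2) (by decide +kernel) (ClAll.succ (ClAll.succ ClAll.zero s110) n165)

def n192 : Cl (O (nat_lit 5)) (R (nat_lit 6353))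
    (p (nat_lit 0xb000c) (nat_lit 0) (p (nat_lit 0x200014) (nat_lit 0) (p (nat_lit 0x200004) (nat_lit 0) (p (nat_lit 0x89) (nat_lit 1) (p (nat_lit 0xc1) (nat_lit 1) (p (nat_lit 0x101) (nat_lit 1) (p (nat_lit 0x119) (nat_lit 0) (p (nat_lit 0xd1) (nat_lit 0) (p (nat_lit 0x81) (nat_lit 0) (p (nat_lit 0x41) (nat_lit 1) (p (nat_lit 0x10a0b09890a9a) (nat_lit 0) (p (nat_lit 0x98a89088a1a) (nat_lit 0) (p (nat_lit 0x1090a0888079a) (nat_lit 0) (p (nat_lit 0x8898807871a) (nat_lit 0) (p (nat_lit 0x8000000000800080787088a) (nat_lit 0) (p (nat_lit 0x8000000000800078706860a) (nat_lit 0) (p (nat_lit 0x10806860782) (nat_lit 0) (p (nat_lit 0x786058702) (nat_lit 0) (p (nat_lit 0x10705850482) (nat_lit 0) (p (nat_lit 0x685048402) (nat_lit 0) (p (nat_lit 0x16000c) (nat_lit 0) (p (nat_lit 0x60592) (nat_lit 0) (p (nat_lit 0x48512) (nat_lit 0) (p (nat_lit 0x50392) (nat_lit 0) (p (nat_lit 0x38312)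 (nat_lit 0) (p (nat_lit 0x40212) (nat_lit 0) (p (nat_lit 0x28192) (nat_lit 0) (p (nat_lit 0x30092) (nat_lit 0) (p (nat_lit 0x18012) (nat_lit 0) pn))))))))))))))))))))))))))))) :=
  Cl.node (nat_lit 0x109) (nat_lit 2) (by decide +kernel) (ClAll.succ (ClAll.succ ClAll.zero s122) s123)

def n193 : Cl (O (nat_lit 5)) (R (nat_lit 6353))
    (p (nat_lit 0xb000c) (nat_lit 1) (p (nat_lit 0x200014) (nat_lit 0) (p (nat_lit 0x200004) (nat_lit 0) (p (nat_lit 0x89) (nat_lit 1) (p (nat_lit 0xc1) (nat_lit 1) (p (nat_lit 0x101) (nat_lit 1) (p (nat_lit 0x119) (nat_lit 0) (p (nat_lit 0xd1) (nat_lit 0) (p (nat_lit 0x81) (nat_lit 0) (p (nat_lit 0x41) (nat_lit 1) (p (nat_lit 0x10a0b09890a9a) (nat_lit 0) (p (nat_lit 0x98a89088a1a) (nat_lit 0) (p (nat_lit 0x1090a0888079a) (nat_lit 0) (p (nat_lit 0x8898807871a) (nat_lit 0) (p (nat_lit 0x8000000000800080787088a) (nat_lit 0) (p (nat_lit 0x8000000000800078706860a)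 (nat_lit 0) (p (nat_lit 0x10806860782) (nat_lit 0) (p (nat_lit 0x786058702) (nat_lit 0) (p (nat_lit 0x10705850482) (nat_lit 0) (p (nat_lit 0x685048402) (nat_lit 0) (p (nat_lit 0x16000c) (nat_lit 0) (p (nat_lit 0x60592) (nat_lit 0) (p (nat_lit 0x48512) (nat_lit 0) (p (nat_lit 0x50392) (nat_lit 0) (p (nat_lit 0x38312) (nat_lit 0) (p (nat_lit 0x40212) (nat_lit 0) (p (nat_lit 0x28192) (nat_lit 0) (p (nat_lit 0x30092) (nat_lit 0) (p (nat_lit 0x18012) (nat_lit 0) pn))))))))))))))))))))))))))))) :=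
  Cl.node (nat_lit 0x2a825800002a8258a8a09890a) (nat_lit 1) (by decide +kernel) (ClAll.succ ClAll.zero n166)

def n194 : Cl (O (nat_lit 5)) (R (nat_lit 6353))
    (p (nat_lit 0x200014) (nat_lit 0) (p (nat_lit 0x200004) (nat_lit 0) (p (nat_lit 0x109) (nat_lit 0) (p (nat_lit 0x89) (nat_lit 1) (p (nat_lit 0xc9) (nat_lit 1) (p (nat_lit 0xc1) (nat_lit 0) (p (nat_lit 0x119) (nat_lit 1) (p (nat_lit 0xd1) (nat_lit 0) (p (nat_lit 0x81) (nat_lit 0) (p (nat_lit 0x41) (nat_lit 1) (p (nat_lit 0x10a0b09890a9a) (nat_lit 0) (p (nat_lit 0x98a89088a1a) (nat_lit 0) (p (nat_lit 0x1090a0888079a) (nat_lit 0) (p (nat_lit 0x8898807871a) (nat_lit 0) (p (nat_lit 0x8000000000800080787088a) (nat_lit 0) (p (nat_lit 0x8000000000800078706860a) (nat_lit 0) (p (nat_lit 0x10806860782) (nat_lit 0) (p (nat_lit 0x786058702) (nat_lit 0) (p (nat_lit 0x10705850482) (nat_lit 0) (p (nat_lit 0x685048402) (nat_lit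 0) (p (nat_lit 0x16000c) (nat_lit 0) (p (nat_lit 0x60592) (nat_lit 0) (p (nat_lit 0x48512) (nat_lit 0) (p (nat_lit 0x50392) (nat_lit 0) (p (nat_lit 0x38312) (nat_lit 0) (p (nat_lit 0x40212) (nat_lit 0) (p (nat_lit 0x28192) (nat_lit 0) (p (nat_lit 0x30092) (nat_lit 0) (p (nat_lit 0x18012) (nat_lit 0) pn))))))))))))))))))))))))))))) :=
  Cl.node (nat_lit 0xb000c) (nat_lit 2) (by decide +kernel) (ClAll.succ (ClAll.succ ClAll.zero s140) n167)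

def n195 : Cl (O (nat_lit 5)) (R (nat_lit 6353))
    (p (nat_lit 0x200014) (nat_lit 0) (p (nat_lit 0x200004) (nat_lit 0) (p (nat_lit 0x109) (nat_lit 1) (p (nat_lit 0x89) (nat_lit 1) (p (nat_lit 0xc9) (nat_lit 1) (p (nat_lit 0xc1) (nat_lit 0) (p (nat_lit 0x119) (nat_lit 1) (p (nat_lit 0xd1) (nat_lit 0) (p (nat_lit 0x81) (nat_lit 0) (p (nat_lit 0x41) (nat_lit 1) (p (nat_lit 0x10a0b09890a9a) (nat_lit 0) (p (nat_lit 0x98a89088a1a) (nat_lit 0) (p (nat_lit 0x1090a0888079a) (nat_lit 0) (p (nat_lit 0x8898807871a) (nat_lit 0) (p (nat_lit 0x8000000000800080787088a) (nat_lit 0) (p (nat_lit 0x8000000000800078706860a) (nat_lit 0) (p (nat_lit 0x10806860782) (nat_lit 0) (p (nat_lit 0x786058702) (nat_lit 0) (p (nat_lit 0x10705850482) (nat_lit 0) (p (nat_lit 0x685048402) (nat_lit 0) (p (nat_lit 0x16000c) (nat_lit 0) (p (nat_lit 0x60592) (nat_lit 0) (p (nat_lit 0x48512) (nat_lit 0) (p (nat_lit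 0x50392) (nat_lit 0) (p (nat_lit 0x38312) (nat_lit 0) (p (nat_lit 0x40212) (nat_lit 0) (p (nat_lit 0x28192) (nat_lit 0) (p (nat_lit 0x30092) (nat_lit 0) (p (nat_lit 0x18012) (nat_lit 0) pn))))))))))))))))))))))))))))) :=
  Cl.node (nat_lit 0xb000c) (nat_lit 2) (by decide +kernel) (ClAll.succ (ClAll.succ ClAll.zero s145) n168)

def n196 : Cl (O (nat_lit 5)) (R (nat_lit 6353))
    (p (nat_lit 0x200014) (nat_lit 0) (p (nat_lit 0x200004) (nat_lit 0) (p (nat_lit 0x109) (nat_lit 0) (p (nat_lit 0x89) (nat_lit 1) (p (nat_lit 0x101) (nat_lit 0) (p (nat_lit 0xc1) (nat_lit 1) (p (nat_lit 0x119) (nat_lit 1) (p (nat_lit 0xd1) (nat_lit 0) (p (nat_lit 0x81) (nat_lit 0) (p (nat_lit 0x41) (nat_lit 1) (p (nat_lit 0x10a0b09890a9a) (nat_lit 0) (p (nat_lit 0x98a89088a1a) (nat_lit 0) (p (nat_lit 0x1090a0888079a) (nat_lit 0) (p (nat_lit 0x8898807871a) (nat_lit 0) (p (nat_lit 0x8000000000800080787088a)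 (nat_lit 0) (p (nat_lit 0x8000000000800078706860a) (nat_lit 0) (p (nat_lit 0x10806860782) (nat_lit 0) (p (nat_lit 0x786058702) (nat_lit 0) (p (nat_lit 0x10705850482) (nat_lit 0) (p (nat_lit 0x685048402) (nat_lit 0) (p (nat_lit 0x16000c) (nat_lit 0) (p (nat_lit 0x60592) (nat_lit 0) (p (nat_lit 0x48512) (nat_lit 0) (p (nat_lit 0x50392) (nat_lit 0) (p (nat_lit 0x38312) (nat_lit 0) (p (nat_lit 0x40212) (nat_lit 0) (p (nat_lit 0x28192) (nat_lit 0) (p (nat_lit 0x30092) (nat_lit 0) (p (nat_lit 0x18012) (nat_lit 0) pn))))))))))))))))))))))))))))) :=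
  Cl.node (nat_lit 0xb000c) (nat_lit 2) (by decide +kernel) (ClAll.succ (ClAll.succ ClAll.zero s151) n169)

def n197 : Cl (O (nat_lit 5)) (R (nat_lit 6353))
    (p (nat_lit 0x200014) (nat_lit 0) (p (nat_lit 0x200004) (nat_lit 0) (p (nat_lit 0x109) (nat_lit 1) (p (nat_lit 0x89) (nat_lit 1) (p (nat_lit 0x101) (nat_lit 0) (p (nat_lit 0xc1) (nat_lit 1) (p (nat_lit 0x119) (nat_lit 1) (p (nat_lit 0xd1) (nat_lit 0) (p (nat_lit 0x81) (nat_lit 0) (p (nat_lit 0x41) (nat_lit 1) (p (nat_lit 0x10a0b09890a9a) (nat_lit 0) (p (nat_lit 0x98a89088a1a) (nat_lit 0) (p (nat_lit 0x1090a0888079a) (nat_lit 0) (p (nat_lit 0x8898807871a) (nat_lit 0) (p (nat_lit 0x8000000000800080787088a) (nat_lit 0) (p (nat_lit 0x8000000000800078706860a) (nat_lit 0) (p (nat_lit 0x10806860782) (nat_lit 0) (p (nat_lit 0x786058702) (nat_lit 0) (p (nat_lit 0x10705850482) (nat_lit 0) (p (nat_lit 0x685048402) (nat_lit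 0) (p (nat_lit 0x16000c) (nat_lit 0) (p (nat_lit 0x60592) (nat_lit 0) (p (nat_lit 0x48512) (nat_lit 0) (p (nat_lit 0x50392) (nat_lit 0) (p (nat_lit 0x38312) (nat_lit 0) (p (nat_lit 0x40212) (nat_lit 0) (p (nat_lit 0x28192) (nat_lit 0) (p (nat_lit 0x30092) (nat_lit 0) (p (nat_lit 0x18012) (nat_lit 0) pn))))))))))))))))))))))))))))) :=
  Cl.node (nat_lit 0xb000c) (nat_lit 2) (by decide +kernel) (ClAll.succ (ClAll.succ ClAll.zero s156) n170)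

def n198 : Cl (O (nat_lit 5)) (R (nat_lit 6353))
    (p (nat_lit 0xb000c) (nat_lit 0) (p (nat_lit 0x200014) (nat_lit 0) (p (nat_lit 0x200004) (nat_lit 0) (p (nat_lit 0x89) (nat_lit 1) (p (nat_lit 0x101) (nat_lit 1) (p (nat_lit 0xc1) (nat_lit 1) (p (nat_lit 0x119) (nat_lit 1) (p (nat_lit 0xd1) (nat_lit 0) (p (nat_lit 0x81) (nat_lit 0) (p (nat_lit 0x41) (nat_lit 1) (p (nat_lit 0x10a0b09890a9a) (nat_lit 0) (p (nat_lit 0x98a89088a1a) (nat_lit 0) (p (nat_lit 0x1090a0888079a) (nat_lit 0) (p (nat_lit 0x8898807871a) (nat_lit 0) (p (nat_lit 0x8000000000800080787088a) (nat_lit 0) (p (nat_lit 0x8000000000800078706860a) (nat_lit 0) (p (nat_lit 0x10806860782) (nat_lit 0) (p (nat_lit 0x786058702) (nat_lit 0) (p (nat_lit 0x10705850482) (nat_lit 0) (p (nat_lit 0x685048402) (nat_lit 0) (p (nat_lit 0x16000c) (nat_lit 0) (p (nat_lit 0x60592) (nat_lit 0) (p (nat_lit 0x48512) (nat_lit 0) (p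 (nat_lit 0x50392) (nat_lit 0) (p (nat_lit 0x38312) (nat_lit 0) (p (nat_lit 0x40212) (nat_lit 0) (p (nat_lit 0x28192) (nat_lit 0) (p (nat_lit 0x30092) (nat_lit 0) (p (nat_lit 0x18012) (nat_lit 0) pn))))))))))))))))))))))))))))) :=
  Cl.node (nat_lit 0xc9) (nat_lit 2) (by decide +kernel) (ClAll.succ (ClAll.succ ClAll.zero s166) s167)

def n199 : Cl (O (nat_lit 5)) (R (nat_lit 6353))
    (p (nat_lit 0xb000c) (nat_lit 1) (p (nat_lit 0x200014) (nat_lit 0) (p (nat_lit 0x200004) (nat_lit 0) (p (nat_lit 0x89) (nat_lit 1) (p (nat_lit 0x101) (nat_lit 1) (p (nat_lit 0xc1) (nat_lit 1) (p (nat_lit 0x119) (nat_lit 1) (p (nat_lit 0xd1) (nat_lit 0) (p (nat_lit 0x81) (nat_lit 0) (p (nat_lit 0x41) (nat_lit 1) (p (nat_lit 0x10a0b09890a9a) (nat_lit 0) (p (nat_lit 0x98a89088a1a) (nat_lit 0) (p (nat_lit 0x1090a0888079a) (nat_lit 0) (p (nat_lit 0x8898807871a) (nat_lit 0) (p (nat_lit 0x8000000000800080787088a)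 (nat_lit 0) (p (nat_lit 0x8000000000800078706860a) (nat_lit 0) (p (nat_lit 0x10806860782) (nat_lit 0) (p (nat_lit 0x786058702) (nat_lit 0) (p (nat_lit 0x10705850482) (nat_lit 0) (p (nat_lit 0x685048402) (nat_lit 0) (p (nat_lit 0x16000c) (nat_lit 0) (p (nat_lit 0x60592) (nat_lit 0) (p (nat_lit 0x48512) (nat_lit 0) (p (nat_lit 0x50392) (nat_lit 0) (p (nat_lit 0x38312) (nat_lit 0) (p (nat_lit 0x40212) (nat_lit 0) (p (nat_lit 0x28192) (nat_lit 0) (p (nat_lit 0x30092) (nat_lit 0) (p (nat_lit 0x18012) (nat_lit 0) pn))))))))))))))))))))))))))))) :=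
  Cl.node (nat_lit 0x2a825800002a8258a8a09890a) (nat_lit 1) (by decide +kernel) (ClAll.succ ClAll.zero n171)

def n200 : Cl (O (nat_lit 5)) (R (nat_lit 6353))
    (p (nat_lit 0x200014) (nat_lit 0) (p (nat_lit 0x200004) (nat_lit 0) (p (nat_lit 0xc9) (nat_lit 0) (p (nat_lit 0x89) (nat_lit 1) (p (nat_lit 0x109) (nat_lit 1) (p (nat_lit 0x101) (nat_lit 0) (p (nat_lit 0x111) (nat_lit 0) (p (nat_lit 0xd1) (nat_lit 1) (p (nat_lit 0x81) (nat_lit 0) (p (nat_lit 0x41) (nat_lit 1) (p (nat_lit 0x10a0b09890a9a) (nat_lit 0) (p (nat_lit 0x98a89088a1a) (nat_lit 0) (p (nat_lit 0x1090a0888079a) (nat_lit 0) (p (nat_lit 0x8898807871a) (nat_lit 0) (p (nat_lit 0x8000000000800080787088a) (nat_lit 0) (p (nat_lit 0x8000000000800078706860a) (nat_lit 0) (p (nat_lit 0x10806860782) (nat_lit 0) (p (nat_lit 0x786058702) (nat_lit 0) (p (nat_lit 0x10705850482) (nat_lit 0) (p (nat_lit 0x685048402) (nat_lit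 0) (p (nat_lit 0x16000c) (nat_lit 0) (p (nat_lit 0x60592) (nat_lit 0) (p (nat_lit 0x48512) (nat_lit 0) (p (nat_lit 0x50392) (nat_lit 0) (p (nat_lit 0x38312) (nat_lit 0) (p (nat_lit 0x40212) (nat_lit 0) (p (nat_lit 0x28192) (nat_lit 0) (p (nat_lit 0x30092) (nat_lit 0) (p (nat_lit 0x18012) (nat_lit 0) pn))))))))))))))))))))))))))))) :=
  Cl.node (nat_lit 0x119) (nat_lit 2) (by decide +kernel) (ClAll.succ (ClAll.succ ClAll.zero n172) n173)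

def n201 : Cl (O (nat_lit 5)) (R (nat_lit 6353))
    (p (nat_lit 0xb000c) (nat_lit 1) (p (nat_lit 0x200014) (nat_lit 0) (p (nat_lit 0x200004) (nat_lit 0) (p (nat_lit 0xc9) (nat_lit 0) (p (nat_lit 0x89) (nat_lit 1) (p (nat_lit 0x101) (nat_lit 1) (p (nat_lit 0x111) (nat_lit 0) (p (nat_lit 0xd1) (nat_lit 1) (p (nat_lit 0x81) (nat_lit 0) (p (nat_lit 0x41) (nat_lit 1) (p (nat_lit 0x10a0b09890a9a) (nat_lit 0) (p (nat_lit 0x98a89088a1a) (nat_lit 0) (p (nat_lit 0x1090a0888079a) (nat_lit 0) (p (nat_lit 0x8898807871a) (nat_lit 0) (p (nat_lit 0x8000000000800080787088a) (nat_lit 0) (p (nat_lit 0x8000000000800078706860a) (nat_lit 0) (p (nat_lit 0x10806860782) (nat_lit 0) (p (nat_lit 0x786058702) (nat_lit 0) (p (nat_lit 0x10705850482) (nat_lit 0) (p (nat_lit 0x685048402) (nat_lit 0) (p (nat_lit 0x16000c) (nat_lit 0) (p (nat_lit 0x60592) (nat_lit 0) (p (nat_lit 0x48512) (nat_lit 0) (p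 (nat_lit 0x50392) (nat_lit 0) (p (nat_lit 0x38312) (nat_lit 0) (p (nat_lit 0x40212) (nat_lit 0) (p (nat_lit 0x28192) (nat_lit 0) (p (nat_lit 0x30092) (nat_lit 0) (p (nat_lit 0x18012) (nat_lit 0) pn))))))))))))))))))))))))))))) :=
  Cl.node (nat_lit 0x2a825800002a8258a8a09890a) (nat_lit 1) (by decide +kernel) (ClAll.succ ClAll.zero n174)

def n202 : Cl (O (nat_lit 5)) (R (nat_lit 6353))
    (p (nat_lit 0xb000c) (nat_lit 1) (p (nat_lit 0x200014) (nat_lit 0) (p (nat_lit 0x200004) (nat_lit 0) (p (nat_lit 0x109) (nat_lit 0) (p (nat_lit 0xc9) (nat_lit 1) (p (nat_lit 0x89) (nat_lit 1) (p (nat_lit 0x111) (nat_lit 1) (p (nat_lit 0xd1) (nat_lit 1) (p (nat_lit 0x81) (nat_lit 0) (p (nat_lit 0x41) (nat_lit 1) (p (nat_lit 0x10a0b09890a9a) (nat_lit 0) (p (nat_lit 0x98a89088a1a) (nat_lit 0) (p (nat_lit 0x1090a0888079a) (nat_lit 0) (p (nat_lit 0x8898807871a) (nat_lit 0) (p (nat_lit 0x8000000000800080787088a)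 (nat_lit 0) (p (nat_lit 0x8000000000800078706860a) (nat_lit 0) (p (nat_lit 0x10806860782) (nat_lit 0) (p (nat_lit 0x786058702) (nat_lit 0) (p (nat_lit 0x10705850482) (nat_lit 0) (p (nat_lit 0x685048402) (nat_lit 0) (p (nat_lit 0x16000c) (nat_lit 0) (p (nat_lit 0x60592) (nat_lit 0) (p (nat_lit 0x48512) (nat_lit 0) (p (nat_lit 0x50392) (nat_lit 0) (p (nat_lit 0x38312) (nat_lit 0) (p (nat_lit 0x40212) (nat_lit 0) (p (nat_lit 0x28192) (nat_lit 0) (p (nat_lit 0x30092) (nat_lit 0) (p (nat_lit 0x18012) (nat_lit 0) pn))))))))))))))))))))))))))))) :=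
  Cl.node (nat_lit 0x2a825800002a8258a8a09890a) (nat_lit 1) (by decide +kernel) (ClAll.succ ClAll.zero n175)

def n203 : Cl (O (nat_lit 5)) (R (nat_lit 6353))
    (p (nat_lit 0xb000c) (nat_lit 1) (p (nat_lit 0x200014) (nat_lit 0) (p (nat_lit 0x200004) (nat_lit 0) (p (nat_lit 0x109) (nat_lit 1) (p (nat_lit 0xc9) (nat_lit 1) (p (nat_lit 0x89) (nat_lit 1) (p (nat_lit 0x111) (nat_lit 1) (p (nat_lit 0xd1) (nat_lit 1) (p (nat_lit 0x81) (nat_lit 0) (p (nat_lit 0x41) (nat_lit 1) (p (nat_lit 0x10a0b09890a9a) (nat_lit 0) (p (nat_lit 0x98a89088a1a) (nat_lit 0) (p (nat_lit 0x1090a0888079a) (nat_lit 0) (p (nat_lit 0x8898807871a) (nat_lit 0) (p (nat_lit 0x8000000000800080787088a) (nat_lit 0) (p (nat_lit 0x8000000000800078706860a) (nat_lit 0) (p (nat_lit 0x10806860782) (nat_lit 0) (p (nat_lit 0x786058702) (nat_lit 0) (p (nat_lit 0x10705850482) (nat_lit 0) (p (nat_lit 0x685048402) (nat_lit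 0) (p (nat_lit 0x16000c) (nat_lit 0) (p (nat_lit 0x60592) (nat_lit 0) (p (nat_lit 0x48512) (nat_lit 0) (p (nat_lit 0x50392) (nat_lit 0) (p (nat_lit 0x38312) (nat_lit 0) (p (nat_lit 0x40212) (nat_lit 0) (p (nat_lit 0x28192) (nat_lit 0) (p (nat_lit 0x30092) (nat_lit 0) (p (nat_lit 0x18012) (nat_lit 0) pn))))))))))))))))))))))))))))) :=
  Cl.node (nat_lit 0x2a825800002a8258a8a09890a) (nat_lit 1) (by decide +kernel) (ClAll.succ ClAll.zero n176)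

def n204 : Cl (O (nat_lit 5)) (R (nat_lit 6353))
    (p (nat_lit 0xb000c) (nat_lit 1) (p (nat_lit 0x200014) (nat_lit 0) (p (nat_lit 0x200004) (nat_lit 0) (p (nat_lit 0x111) (nat_lit 1) (p (nat_lit 0xd1) (nat_lit 1) (p (nat_lit 0xc9) (nat_lit 0) (p (nat_lit 0x119) (nat_lit 1) (p (nat_lit 0xc1) (nat_lit 0) (p (nat_lit 0x81) (nat_lit 1) (p (nat_lit 0x41) (nat_lit 1) (p (nat_lit 0x10a0b09890a9a) (nat_lit 0) (p (nat_lit 0x98a89088a1a) (nat_lit 0) (p (nat_lit 0x1090a0888079a) (nat_lit 0) (p (nat_lit 0x8898807871a) (nat_lit 0) (p (nat_lit 0x8000000000800080787088a) (nat_lit 0) (p (nat_lit 0x8000000000800078706860a) (nat_lit 0) (p (nat_lit 0x10806860782) (nat_lit 0) (p (nat_lit 0x786058702) (nat_lit 0) (p (nat_lit 0x10705850482) (nat_lit 0) (p (nat_lit 0x685048402) (nat_lit 0) (p (nat_lit 0x16000c) (nat_lit 0) (p (nat_lit 0x60592) (nat_lit 0) (p (nat_lit 0x48512) (nat_lit 0) (p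 (nat_lit 0x50392) (nat_lit 0) (p (nat_lit 0x38312) (nat_lit 0) (p (nat_lit 0x40212) (nat_lit 0) (p (nat_lit 0x28192) (nat_lit 0) (p (nat_lit 0x30092) (nat_lit 0) (p (nat_lit 0x18012) (nat_lit 0) pn))))))))))))))))))))))))))))) :=
  Cl.node (nat_lit 0x2a825800002a8258a8a09890a) (nat_lit 1) (by decide +kernel) (ClAll.succ ClAll.zero n177)

def n205 : Cl (O (nat_lit 5)) (R (nat_lit 6353))
    (p (nat_lit 0x2a825800002a8258a8a09890a) (nat_lit 0) (p (nat_lit 0xb000c) (nat_lit 1) (p (nat_lit 0x200014) (nat_lit 0) (p (nat_lit 0x200004) (nat_lit 0) (p (nat_lit 0x109) (nat_lit 1) (p (nat_lit 0xc9) (nat_lit 1) (p (nat_lit 0x119) (nat_lit 1) (p (nat_lit 0xc1) (nat_lit 0) (p (nat_lit 0x81) (nat_lit 1) (p (nat_lit 0x41) (nat_lit 1) (p (nat_lit 0x10a0b09890a9a) (nat_lit 0) (p (nat_lit 0x98a89088a1a) (nat_lit 0) (p (nat_lit 0x1090a0888079a) (nat_lit 0) (p (nat_lit 0x8898807871a) (nat_lit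 0) (p (nat_lit 0x8000000000800080787088a) (nat_lit 0) (p (nat_lit 0x8000000000800078706860a) (nat_lit 0) (p (nat_lit 0x10806860782) (nat_lit 0) (p (nat_lit 0x786058702) (nat_lit 0) (p (nat_lit 0x10705850482) (nat_lit 0) (p (nat_lit 0x685048402) (nat_lit 0) (p (nat_lit 0x16000c) (nat_lit 0) (p (nat_lit 0x60592) (nat_lit 0) (p (nat_lit 0x48512) (nat_lit 0) (p (nat_lit 0x50392) (nat_lit 0) (p (nat_lit 0x38312) (nat_lit 0) (p (nat_lit 0x40212) (nat_lit 0) (p (nat_lit 0x28192) (nat_lit 0) (p (nat_lit 0x30092) (nat_lit 0) (p (nat_lit 0x18012) (nat_lit 0) pn))))))))))))))))))))))))))))) :=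
  Cl.node (nat_lit 0x2a825800002a8258b0a8a0b8a) (nat_lit 1) (by decide +kernel) (ClAll.succ ClAll.zero n178)

def n206 : Cl (O (nat_lit 5)) (R (nat_lit 6353))
    (p (nat_lit 0x200014) (nat_lit 0) (p (nat_lit 0x200004) (nat_lit 0) (p (nat_lit 0xc9) (nat_lit 0) (p (nat_lit 0x81) (nat_lit 0) (p (nat_lit 0x101) (nat_lit 1) (p (nat_lit 0x119) (nat_lit 0) (p (nat_lit 0xd1) (nat_lit 0) (p (nat_lit 0x89) (nat_lit 0) (p (nat_lit 0x41) (nat_lit 0) (p (nat_lit 0x10a0b09890a9a) (nat_lit 0) (p (nat_lit 0x98a89088a1a) (nat_lit 0) (p (nat_lit 0x1090a0888079a) (nat_lit 0) (p (nat_lit 0x8898807871a) (nat_lit 0) (p (nat_lit 0x8000000000800080787088a) (nat_lit 0) (p (nat_lit 0x8000000000800078706860a) (nat_lit 0) (p (nat_lit 0x10806860782) (nat_lit 0) (p (nat_lit 0x786058702) (nat_lit 0) (p (nat_lit 0x10705850482) (nat_lit 0) (p (nat_lit 0x685048402) (nat_lit 0) (p (nat_lit 0x16000c) (nat_lit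 0) (p (nat_lit 0x60592) (nat_lit 0) (p (nat_lit 0x48512) (nat_lit 0) (p (nat_lit 0x50392) (nat_lit 0) (p (nat_lit 0x38312) (nat_lit 0) (p (nat_lit 0x40212) (nat_lit 0) (p (nat_lit 0x28192) (nat_lit 0) (p (nat_lit 0x30092) (nat_lit 0) (p (nat_lit 0x18012) (nat_lit 0) pn)))))))))))))))))))))))))))) :=
  Cl.node (nat_lit 0x111) (nat_lit 2) (by decide +kernel) (ClAll.succ (ClAll.succ ClAll.zero n179) s5)

def n207 : Cl (O (nat_lit 5)) (R (nat_lit 6353))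
    (p (nat_lit 0x200014) (nat_lit 0) (p (nat_lit 0x200004) (nat_lit 0) (p (nat_lit 0xc9) (nat_lit 1) (p (nat_lit 0x81) (nat_lit 0) (p (nat_lit 0x101) (nat_lit 1) (p (nat_lit 0x119) (nat_lit 0) (p (nat_lit 0xd1) (nat_lit 0) (p (nat_lit 0x89) (nat_lit 0) (p (nat_lit 0x41) (nat_lit 0) (p (nat_lit 0x10a0b09890a9a) (nat_lit 0) (p (nat_lit 0x98a89088a1a) (nat_lit 0) (p (nat_lit 0x1090a0888079a) (nat_lit 0) (p (nat_lit 0x8898807871a) (nat_lit 0) (p (nat_lit 0x8000000000800080787088a) (nat_lit 0) (p (nat_lit 0x8000000000800078706860a) (nat_lit 0) (p (nat_lit 0x10806860782) (nat_lit 0) (p (nat_lit 0x786058702) (nat_lit 0) (p (nat_lit 0x10705850482) (nat_lit 0) (p (nat_lit 0x685048402) (nat_lit 0) (p (nat_lit 0x16000c) (nat_lit 0) (p (nat_lit 0x60592) (nat_lit 0) (p (nat_lit 0x48512) (nat_lit 0) (p (nat_lit 0x50392) (nat_lit 0) (p (nat_lit 0x38312) (nat_lit 0) (p (nat_lit 0x40212)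 (nat_lit 0) (p (nat_lit 0x28192) (nat_lit 0) (p (nat_lit 0x30092) (nat_lit 0) (p (nat_lit 0x18012) (nat_lit 0) pn)))))))))))))))))))))))))))) :=
  Cl.node (nat_lit 0x111) (nat_lit 2) (by decide +kernel) (ClAll.succ (ClAll.succ ClAll.zero n180) s11)

def n208 : Cl (O (nat_lit 5)) (R (nat_lit 6353))
    (p (nat_lit 0x200004) (nat_lit 0) (p (nat_lit 0xc9) (nat_lit 0) (p (nat_lit 0xc1) (nat_lit 0) (p (nat_lit 0x81) (nat_lit 1) (p (nat_lit 0x101) (nat_lit 1) (p (nat_lit 0x119) (nat_lit 0) (p (nat_lit 0xd1) (nat_lit 0) (p (nat_lit 0x89) (nat_lit 0) (p (nat_lit 0x41) (nat_lit 0) (p (nat_lit 0x10a0b09890a9a) (nat_lit 0) (p (nat_lit 0x98a89088a1a) (nat_lit 0) (p (nat_lit 0x1090a0888079a) (nat_lit 0) (p (nat_lit 0x8898807871a) (nat_lit 0) (p (nat_lit 0x8000000000800080787088a) (nat_lit 0) (p (nat_lit 0x8000000000800078706860a) (nat_lit 0) (p (nat_lit 0x10806860782) (nat_lit 0) (p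 (nat_lit 0x786058702) (nat_lit 0) (p (nat_lit 0x10705850482) (nat_lit 0) (p (nat_lit 0x685048402) (nat_lit 0) (p (nat_lit 0x16000c) (nat_lit 0) (p (nat_lit 0x60592) (nat_lit 0) (p (nat_lit 0x48512) (nat_lit 0) (p (nat_lit 0x50392) (nat_lit 0) (p (nat_lit 0x38312) (nat_lit 0) (p (nat_lit 0x40212) (nat_lit 0) (p (nat_lit 0x28192) (nat_lit 0) (p (nat_lit 0x30092) (nat_lit 0) (p (nat_lit 0x18012) (nat_lit 0) pn)))))))))))))))))))))))))))) :=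
  Cl.node (nat_lit 0x200014) (nat_lit 2) (by decide +kernel) (ClAll.succ (ClAll.succ ClAll.zero n181) s18)

def n209 : Cl (O (nat_lit 5)) (R (nat_lit 6353))
    (p (nat_lit 0x200004) (nat_lit 0) (p (nat_lit 0xc9) (nat_lit 1) (p (nat_lit 0xc1) (nat_lit 0) (p (nat_lit 0x81) (nat_lit 1) (p (nat_lit 0x101) (nat_lit 1) (p (nat_lit 0x119) (nat_lit 0) (p (nat_lit 0xd1) (nat_lit 0) (p (nat_lit 0x89) (nat_lit 0) (p (nat_lit 0x41) (nat_lit 0) (p (nat_lit 0x10a0b09890a9a) (nat_lit 0) (p (nat_lit 0x98a89088a1a) (nat_lit 0) (p (nat_lit 0x1090a0888079a) (nat_lit 0) (p (nat_lit 0x8898807871a) (nat_lit 0) (p (nat_lit 0x8000000000800080787088a) (nat_lit 0) (p (nat_lit 0x8000000000800078706860a) (nat_lit 0) (p (nat_lit 0x10806860782) (nat_lit 0) (p (nat_lit 0x786058702) (nat_lit 0) (p (nat_lit 0x10705850482) (nat_lit 0) (p (nat_lit 0x685048402) (nat_lit 0) (p (nat_lit 0x16000c) (nat_lit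 0) (p (nat_lit 0x60592) (nat_lit 0) (p (nat_lit 0x48512) (nat_lit 0) (p (nat_lit 0x50392) (nat_lit 0) (p (nat_lit 0x38312) (nat_lit 0) (p (nat_lit 0x40212) (nat_lit 0) (p (nat_lit 0x28192) (nat_lit 0) (p (nat_lit 0x30092) (nat_lit 0) (p (nat_lit 0x18012) (nat_lit 0) pn)))))))))))))))))))))))))))) :=
  Cl.node (nat_lit 0x200014) (nat_lit 2) (by decide +kernel) (ClAll.succ (ClAll.succ ClAll.zero n182) s22)

def n210 : Cl (O (nat_lit 5)) (R (nat_lit 6353))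
    (p (nat_lit 0x200014) (nat_lit 0) (p (nat_lit 0x200004) (nat_lit 0) (p (nat_lit 0x109) (nat_lit 1) (p (nat_lit 0xc9) (nat_lit 1) (p (nat_lit 0xc1) (nat_lit 0) (p (nat_lit 0x119) (nat_lit 1) (p (nat_lit 0xd1) (nat_lit 0) (p (nat_lit 0x89) (nat_lit 0) (p (nat_lit 0x41) (nat_lit 0) (p (nat_lit 0x10a0b09890a9a) (nat_lit 0) (p (nat_lit 0x98a89088a1a) (nat_lit 0) (p (nat_lit 0x1090a0888079a) (nat_lit 0) (p (nat_lit 0x8898807871a) (nat_lit 0) (p (nat_lit 0x8000000000800080787088a) (nat_lit 0) (p (nat_lit 0x8000000000800078706860a) (nat_lit 0) (p (nat_lit 0x10806860782) (nat_lit 0) (p (nat_lit 0x786058702) (nat_lit 0) (p (nat_lit 0x10705850482) (nat_lit 0) (p (nat_lit 0x685048402) (nat_lit 0) (p (nat_lit 0x16000c) (nat_lit 0) (p (nat_lit 0x60592) (nat_lit 0) (p (nat_lit 0x48512) (nat_lit 0) (p (nat_lit 0x50392) (nat_lit 0) (p (nat_lit 0x38312) (nat_lit 0) (p (nat_lit 0x40212)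 (nat_lit 0) (p (nat_lit 0x28192) (nat_lit 0) (p (nat_lit 0x30092) (nat_lit 0) (p (nat_lit 0x18012) (nat_lit 0) pn)))))))))))))))))))))))))))) :=
  Cl.node (nat_lit 0xb000c) (nat_lit 2) (by decide +kernel) (ClAll.succ (ClAll.succ ClAll.zero n183) n184)

def n211 : Cl (O (nat_lit 5)) (R (nat_lit 6353))
    (p (nat_lit 0x200014) (nat_lit 0) (p (nat_lit 0x200004) (nat_lit 0) (p (nat_lit 0x109) (nat_lit 1) (p (nat_lit 0x81) (nat_lit 0) (p (nat_lit 0xc1) (nat_lit 1) (p (nat_lit 0x119) (nat_lit 1) (p (nat_lit 0xd1) (nat_lit 0) (p (nat_lit 0x89) (nat_lit 0) (p (nat_lit 0x41) (nat_lit 0) (p (nat_lit 0x10a0b09890a9a) (nat_lit 0) (p (nat_lit 0x98a89088a1a) (nat_lit 0) (p (nat_lit 0x1090a0888079a) (nat_lit 0) (p (nat_lit 0x8898807871a) (nat_lit 0) (p (nat_lit 0x8000000000800080787088a) (nat_lit 0) (p (nat_lit 0x8000000000800078706860a) (nat_lit 0) (p (nat_lit 0x10806860782) (nat_lit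 0) (p (nat_lit 0x786058702) (nat_lit 0) (p (nat_lit 0x10705850482) (nat_lit 0) (p (nat_lit 0x685048402) (nat_lit 0) (p (nat_lit 0x16000c) (nat_lit 0) (p (nat_lit 0x60592) (nat_lit 0) (p (nat_lit 0x48512) (nat_lit 0) (p (nat_lit 0x50392) (nat_lit 0) (p (nat_lit 0x38312) (nat_lit 0) (p (nat_lit 0x40212) (nat_lit 0) (p (nat_lit 0x28192) (nat_lit 0) (p (nat_lit 0x30092) (nat_lit 0) (p (nat_lit 0x18012) (nat_lit 0) pn)))))))))))))))))))))))))))) :=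
  Cl.node (nat_lit 0xb000c) (nat_lit 2) (by decide +kernel) (ClAll.succ (ClAll.succ ClAll.zero s35) s36)

def n212 : Cl (O (nat_lit 5)) (R (nat_lit 6353))
    (p (nat_lit 0x200004) (nat_lit 0) (p (nat_lit 0x109) (nat_lit 0) (p (nat_lit 0x101) (nat_lit 0) (p (nat_lit 0x81) (nat_lit 1) (p (nat_lit 0xc1) (nat_lit 1) (p (nat_lit 0x119) (nat_lit 1) (p (nat_lit 0xd1) (nat_lit 0) (p (nat_lit 0x89) (nat_lit 0) (p (nat_lit 0x41) (nat_lit 0) (p (nat_lit 0x10a0b09890a9a) (nat_lit 0) (p (nat_lit 0x98a89088a1a) (nat_lit 0) (p (nat_lit 0x1090a0888079a) (nat_lit 0) (p (nat_lit 0x8898807871a) (nat_lit 0) (p (nat_lit 0x8000000000800080787088a) (nat_lit 0) (p (nat_lit 0x8000000000800078706860a) (nat_lit 0) (p (nat_lit 0x10806860782) (nat_lit 0) (p (nat_lit 0x786058702) (nat_lit 0) (p (nat_lit 0x10705850482) (nat_lit 0) (p (nat_lit 0x685048402) (nat_lit 0) (p (nat_lit 0x16000c) (nat_lit 0)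 (p (nat_lit 0x60592) (nat_lit 0) (p (nat_lit 0x48512) (nat_lit 0) (p (nat_lit 0x50392) (nat_lit 0) (p (nat_lit 0x38312) (nat_lit 0) (p (nat_lit 0x40212) (nat_lit 0) (p (nat_lit 0x28192) (nat_lit 0) (p (nat_lit 0x30092) (nat_lit 0) (p (nat_lit 0x18012) (nat_lit 0) pn)))))))))))))))))))))))))))) :=
  Cl.node (nat_lit 0x200014) (nat_lit 2) (by decide +kernel) (ClAll.succ (ClAll.succ ClAll.zero n185) s41)

def n213 : Cl (O (nat_lit 5)) (R (nat_lit 6353))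
    (p (nat_lit 0x200004) (nat_lit 0) (p (nat_lit 0x109) (nat_lit 1) (p (nat_lit 0x101) (nat_lit 0) (p (nat_lit 0x81) (nat_lit 1) (p (nat_lit 0xc1) (nat_lit 1) (p (nat_lit 0x119) (nat_lit 1) (p (nat_lit 0xd1) (nat_lit 0) (p (nat_lit 0x89) (nat_lit 0) (p (nat_lit 0x41) (nat_lit 0) (p (nat_lit 0x10a0b09890a9a) (nat_lit 0) (p (nat_lit 0x98a89088a1a) (nat_lit 0) (p (nat_lit 0x1090a0888079a) (nat_lit 0) (p (nat_lit 0x8898807871a) (nat_lit 0) (p (nat_lit 0x8000000000800080787088a) (nat_lit 0) (p (nat_lit 0x8000000000800078706860a) (nat_lit 0) (p (nat_lit 0x10806860782) (nat_lit 0) (p (nat_lit 0x786058702) (nat_lit 0) (p (nat_lit 0x10705850482) (nat_lit 0) (p (nat_lit 0x685048402) (nat_lit 0) (p (nat_lit 0x16000c) (nat_lit 0) (p (nat_lit 0x60592) (nat_lit 0) (p (nat_lit 0x48512) (nat_lit 0) (p (nat_lit 0x50392) (nat_lit 0) (p (nat_lit 0x38312) (nat_lit 0) (p (nat_lit 0x40212)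 (nat_lit 0) (p (nat_lit 0x28192) (nat_lit 0) (p (nat_lit 0x30092) (nat_lit 0) (p (nat_lit 0x18012) (nat_lit 0) pn)))))))))))))))))))))))))))) :=
  Cl.node (nat_lit 0x200014) (nat_lit 2) (by decide +kernel) (ClAll.succ (ClAll.succ ClAll.zero n186) s46)

def n214 : Cl (O (nat_lit 5)) (R (nat_lit 6353))
    (p (nat_lit 0x200014) (nat_lit 0) (p (nat_lit 0x200004) (nat_lit 0) (p (nat_lit 0x101) (nat_lit 1) (p (nat_lit 0x81) (nat_lit 1) (p (nat_lit 0xc1) (nat_lit 1) (p (nat_lit 0x119) (nat_lit 1) (p (nat_lit 0xd1) (nat_lit 0) (p (nat_lit 0x89) (nat_lit 0) (p (nat_lit 0x41) (nat_lit 0) (p (nat_lit 0x10a0b09890a9a) (nat_lit 0) (p (nat_lit 0x98a89088a1a) (nat_lit 0) (p (nat_lit 0x1090a0888079a) (nat_lit 0) (p (nat_lit 0x8898807871a) (nat_lit 0) (p (nat_lit 0x8000000000800080787088a) (nat_lit 0) (p (nat_lit 0x8000000000800078706860a) (nat_lit 0) (p (nat_lit 0x10806860782) (nat_lit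 0) (p (nat_lit 0x786058702) (nat_lit 0) (p (nat_lit 0x10705850482) (nat_lit 0) (p (nat_lit 0x685048402) (nat_lit 0) (p (nat_lit 0x16000c) (nat_lit 0) (p (nat_lit 0x60592) (nat_lit 0) (p (nat_lit 0x48512) (nat_lit 0) (p (nat_lit 0x50392) (nat_lit 0) (p (nat_lit 0x38312) (nat_lit 0) (p (nat_lit 0x40212) (nat_lit 0) (p (nat_lit 0x28192) (nat_lit 0) (p (nat_lit 0x30092) (nat_lit 0) (p (nat_lit 0x18012) (nat_lit 0) pn)))))))))))))))))))))))))))) :=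
  Cl.node (nat_lit 0xb000c) (nat_lit 2) (by decide +kernel) (ClAll.succ (ClAll.succ ClAll.zero s48) s49)

def n215 : Cl (O (nat_lit 5)) (R (nat_lit 6353))
    (p (nat_lit 0x200014) (nat_lit 0) (p (nat_lit 0x200004) (nat_lit 0) (p (nat_lit 0xc1) (nat_lit 0) (p (nat_lit 0x81) (nat_lit 1) (p (nat_lit 0x101) (nat_lit 1) (p (nat_lit 0x111) (nat_lit 0) (p (nat_lit 0xd1) (nat_lit 1) (p (nat_lit 0x89) (nat_lit 0) (p (nat_lit 0x41) (nat_lit 0) (p (nat_lit 0x10a0b09890a9a) (nat_lit 0) (p (nat_lit 0x98a89088a1a) (nat_lit 0) (p (nat_lit 0x1090a0888079a) (nat_lit 0) (p (nat_lit 0x8898807871a) (nat_lit 0) (p (nat_lit 0x8000000000800080787088a) (nat_lit 0) (p (nat_lit 0x8000000000800078706860a) (nat_lit 0) (p (nat_lit 0x10806860782) (nat_lit 0) (p (nat_lit 0x786058702) (nat_lit 0) (p (nat_lit 0x10705850482) (nat_lit 0) (p (nat_lit 0x685048402) (nat_lit 0) (p (nat_lit 0x16000c) (nat_lit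 0) (p (nat_lit 0x60592) (nat_lit 0) (p (nat_lit 0x48512) (nat_lit 0) (p (nat_lit 0x50392) (nat_lit 0) (p (nat_lit 0x38312) (nat_lit 0) (p (nat_lit 0x40212) (nat_lit 0) (p (nat_lit 0x28192) (nat_lit 0) (p (nat_lit 0x30092) (nat_lit 0) (p (nat_lit 0x18012) (nat_lit 0) pn)))))))))))))))))))))))))))) :=
  Cl.node (nat_lit 0x119) (nat_lit 2) (by decide +kernel) (ClAll.succ (ClAll.succ ClAll.zero n187) s58)

def n216 : Cl (O (nat_lit 5)) (R (nat_lit 6353))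
    (p (nat_lit 0x200014) (nat_lit 0) (p (nat_lit 0x200004) (nat_lit 0) (p (nat_lit 0x111) (nat_lit 1) (p (nat_lit 0xd1) (nat_lit 1) (p (nat_lit 0xc1) (nat_lit 0) (p (nat_lit 0x119) (nat_lit 1) (p (nat_lit 0xc9) (nat_lit 0) (p (nat_lit 0x89) (nat_lit 1) (p (nat_lit 0x41) (nat_lit 0) (p (nat_lit 0x10a0b09890a9a) (nat_lit 0) (p (nat_lit 0x98a89088a1a) (nat_lit 0) (p (nat_lit 0x1090a0888079a) (nat_lit 0) (p (nat_lit 0x8898807871a) (nat_lit 0) (p (nat_lit 0x8000000000800080787088a) (nat_lit 0) (p (nat_lit 0x8000000000800078706860a) (nat_lit 0) (p (nat_lit 0x10806860782) (nat_lit 0) (p (nat_lit 0x786058702) (nat_lit 0) (p (nat_lit 0x10705850482) (nat_lit 0) (p (nat_lit 0x685048402) (nat_lit 0) (p (nat_lit 0x16000c) (nat_lit 0) (p (nat_lit 0x60592) (nat_lit 0) (p (nat_lit 0x48512) (nat_lit 0) (p (nat_lit 0x50392) (nat_lit 0) (p (nat_lit 0x38312) (nat_lit 0) (p (nat_lit 0x40212)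 (nat_lit 0) (p (nat_lit 0x28192) (nat_lit 0) (p (nat_lit 0x30092) (nat_lit 0) (p (nat_lit 0x18012) (nat_lit 0) pn)))))))))))))))))))))))))))) :=
  Cl.node (nat_lit 0xb000c) (nat_lit 2) (by decide +kernel) (ClAll.succ (ClAll.succ ClAll.zero s76) n188)

def n217 : Cl (O (nat_lit 5)) (R (nat_lit 6353))
    (p (nat_lit 0x200014) (nat_lit 0) (p (nat_lit 0x200004) (nat_lit 0) (p (nat_lit 0x111) (nat_lit 1) (p (nat_lit 0x101) (nat_lit 0) (p (nat_lit 0xc1) (nat_lit 1) (p (nat_lit 0x119) (nat_lit 1) (p (nat_lit 0xc9) (nat_lit 0) (p (nat_lit 0x89) (nat_lit 1) (p (nat_lit 0x41) (nat_lit 0) (p (nat_lit 0x10a0b09890a9a) (nat_lit 0) (p (nat_lit 0x98a89088a1a) (nat_lit 0) (p (nat_lit 0x1090a0888079a) (nat_lit 0) (p (nat_lit 0x8898807871a) (nat_lit 0) (p (nat_lit 0x8000000000800080787088a) (nat_lit 0) (p (nat_lit 0x8000000000800078706860a) (nat_lit 0) (p (nat_lit 0x10806860782) (nat_lit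 0) (p (nat_lit 0x786058702) (nat_lit 0) (p (nat_lit 0x10705850482) (nat_lit 0) (p (nat_lit 0x685048402) (nat_lit 0) (p (nat_lit 0x16000c) (nat_lit 0) (p (nat_lit 0x60592) (nat_lit 0) (p (nat_lit 0x48512) (nat_lit 0) (p (nat_lit 0x50392) (nat_lit 0) (p (nat_lit 0x38312) (nat_lit 0) (p (nat_lit 0x40212) (nat_lit 0) (p (nat_lit 0x28192) (nat_lit 0) (p (nat_lit 0x30092) (nat_lit 0) (p (nat_lit 0x18012) (nat_lit 0) pn)))))))))))))))))))))))))))) :=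
  Cl.node (nat_lit 0xb000c) (nat_lit 2) (by decide +kernel) (ClAll.succ (ClAll.succ ClAll.zero s83) s84)

def n218 : Cl (O (nat_lit 5)) (R (nat_lit 6353))
    (p (nat_lit 0x200014) (nat_lit 0) (p (nat_lit 0x200004) (nat_lit 0) (p (nat_lit 0x89) (nat_lit 0) (p (nat_lit 0x109) (nat_lit 1) (p (nat_lit 0x101) (nat_lit 0) (p (nat_lit 0x119) (nat_lit 0) (p (nat_lit 0xd1) (nat_lit 0) (p (nat_lit 0x81) (nat_lit 0) (p (nat_lit 0x41) (nat_lit 1) (p (nat_lit 0x10a0b09890a9a) (nat_lit 0) (p (nat_lit 0x98a89088a1a) (nat_lit 0) (p (nat_lit 0x1090a0888079a) (nat_lit 0) (p (nat_lit 0x8898807871a) (nat_lit 0) (p (nat_lit 0x8000000000800080787088a) (nat_lit 0) (p (nat_lit 0x8000000000800078706860a) (nat_lit 0) (p (nat_lit 0x10806860782) (nat_lit 0) (p (nat_lit 0x786058702) (nat_lit 0) (p (nat_lit 0x10705850482) (nat_lit 0) (p (nat_lit 0x685048402) (nat_lit 0) (p (nat_lit 0x16000c) (nat_lit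 0) (p (nat_lit 0x60592) (nat_lit 0) (p (nat_lit 0x48512) (nat_lit 0) (p (nat_lit 0x50392) (nat_lit 0) (p (nat_lit 0x38312) (nat_lit 0) (p (nat_lit 0x40212) (nat_lit 0) (p (nat_lit 0x28192) (nat_lit 0) (p (nat_lit 0x30092) (nat_lit 0) (p (nat_lit 0x18012) (nat_lit 0) pn)))))))))))))))))))))))))))) :=
  Cl.node (nat_lit 0x111) (nat_lit 2) (by decide +kernel) (ClAll.succ (ClAll.succ ClAll.zero n189) s95)

def n219 : Cl (O (nat_lit 5)) (R (nat_lit 6353))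
    (p (nat_lit 0x200004) (nat_lit 0) (p (nat_lit 0xc9) (nat_lit 0) (p (nat_lit 0x89) (nat_lit 1) (p (nat_lit 0x109) (nat_lit 1) (p (nat_lit 0x101) (nat_lit 0) (p (nat_lit 0x119) (nat_lit 0) (p (nat_lit 0xd1) (nat_lit 0) (p (nat_lit 0x81) (nat_lit 0) (p (nat_lit 0x41) (nat_lit 1) (p (nat_lit 0x10a0b09890a9a) (nat_lit 0) (p (nat_lit 0x98a89088a1a) (nat_lit 0) (p (nat_lit 0x1090a0888079a) (nat_lit 0) (p (nat_lit 0x8898807871a) (nat_lit 0) (p (nat_lit 0x8000000000800080787088a) (nat_lit 0) (p (nat_lit 0x8000000000800078706860a) (nat_lit 0) (p (nat_lit 0x10806860782) (nat_lit 0) (p (nat_lit 0x786058702) (nat_lit 0) (p (nat_lit 0x10705850482) (nat_lit 0) (p (nat_lit 0x685048402) (nat_lit 0) (p (nat_lit 0x16000c) (nat_lit 0) (p (nat_lit 0x60592) (nat_lit 0) (p (nat_lit 0x48512) (nat_lit 0) (p (nat_lit 0x50392) (nat_lit 0) (p (nat_lit 0x38312) (nat_lit 0) (p (nat_lit 0x40212)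 (nat_lit 0) (p (nat_lit 0x28192) (nat_lit 0) (p (nat_lit 0x30092) (nat_lit 0) (p (nat_lit 0x18012) (nat_lit 0) pn)))))))))))))))))))))))))))) :=
  Cl.node (nat_lit 0x200014) (nat_lit 2) (by decide +kernel) (ClAll.succ (ClAll.succ ClAll.zero n190) s103)

def n220 : Cl (O (nat_lit 5)) (R (nat_lit 6353))
    (p (nat_lit 0x200004) (nat_lit 0) (p (nat_lit 0xc9) (nat_lit 0) (p (nat_lit 0x89) (nat_lit 1) (p (nat_lit 0xc1) (nat_lit 0) (p (nat_lit 0x101) (nat_lit 1) (p (nat_lit 0x119) (nat_lit 0) (p (nat_lit 0xd1) (nat_lit 0) (p (nat_lit 0x81) (nat_lit 0) (p (nat_lit 0x41) (nat_lit 1) (p (nat_lit 0x10a0b09890a9a) (nat_lit 0) (p (nat_lit 0x98a89088a1a) (nat_lit 0) (p (nat_lit 0x1090a0888079a) (nat_lit 0) (p (nat_lit 0x8898807871a) (nat_lit 0) (p (nat_lit 0x8000000000800080787088a) (nat_lit 0) (p (nat_lit 0x8000000000800078706860a) (nat_lit 0) (p (nat_lit 0x10806860782) (nat_lit 0)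 (p (nat_lit 0x786058702) (nat_lit 0) (p (nat_lit 0x10705850482) (nat_lit 0) (p (nat_lit 0x685048402) (nat_lit 0) (p (nat_lit 0x16000c) (nat_lit 0) (p (nat_lit 0x60592) (nat_lit 0) (p (nat_lit 0x48512) (nat_lit 0) (p (nat_lit 0x50392) (nat_lit 0) (p (nat_lit 0x38312) (nat_lit 0) (p (nat_lit 0x40212) (nat_lit 0) (p (nat_lit 0x28192) (nat_lit 0) (p (nat_lit 0x30092) (nat_lit 0) (p (nat_lit 0x18012) (nat_lit 0) pn)))))))))))))))))))))))))))) :=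
  Cl.node (nat_lit 0x200014) (nat_lit 2) (by decide +kernel) (ClAll.succ (ClAll.succ ClAll.zero s107) s108)

def n221 : Cl (O (nat_lit 5)) (R (nat_lit 6353))
    (p (nat_lit 0x200004) (nat_lit 0) (p (nat_lit 0xc9) (nat_lit 1) (p (nat_lit 0x89) (nat_lit 1) (p (nat_lit 0xc1) (nat_lit 0) (p (nat_lit 0x101) (nat_lit 1) (p (nat_lit 0x119) (nat_lit 0) (p (nat_lit 0xd1) (nat_lit 0) (p (nat_lit 0x81) (nat_lit 0) (p (nat_lit 0x41) (nat_lit 1) (p (nat_lit 0x10a0b09890a9a) (nat_lit 0) (p (nat_lit 0x98a89088a1a) (nat_lit 0) (p (nat_lit 0x1090a0888079a) (nat_lit 0) (p (nat_lit 0x8898807871a) (nat_lit 0) (p (nat_lit 0x8000000000800080787088a) (nat_lit 0) (p (nat_lit 0x8000000000800078706860a) (nat_lit 0) (p (nat_lit 0x10806860782) (nat_lit 0) (p (nat_lit 0x786058702) (nat_lit 0) (p (nat_lit 0x10705850482) (nat_lit 0) (p (nat_lit 0x685048402) (nat_lit 0) (p (nat_lit 0x16000c) (nat_lit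 0) (p (nat_lit 0x60592) (nat_lit 0) (p (nat_lit 0x48512) (nat_lit 0) (p (nat_lit 0x50392) (nat_lit 0) (p (nat_lit 0x38312) (nat_lit 0) (p (nat_lit 0x40212) (nat_lit 0) (p (nat_lit 0x28192) (nat_lit 0) (p (nat_lit 0x30092) (nat_lit 0) (p (nat_lit 0x18012) (nat_lit 0) pn)))))))))))))))))))))))))))) :=
  Cl.node (nat_lit 0x200014) (nat_lit 2) (by decide +kernel) (ClAll.succ (ClAll.succ ClAll.zero n191) s119)

def n222 : Cl (O (nat_lit 5)) (R (nat_lit 6353))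
    (p (nat_lit 0x200014) (nat_lit 0) (p (nat_lit 0x200004) (nat_lit 0) (p (nat_lit 0x89) (nat_lit 1) (p (nat_lit 0xc1) (nat_lit 1) (p (nat_lit 0x101) (nat_lit 1) (p (nat_lit 0x119) (nat_lit 0) (p (nat_lit 0xd1) (nat_lit 0) (p (nat_lit 0x81) (nat_lit 0) (p (nat_lit 0x41) (nat_lit 1) (p (nat_lit 0x10a0b09890a9a) (nat_lit 0) (p (nat_lit 0x98a89088a1a) (nat_lit 0) (p (nat_lit 0x1090a0888079a) (nat_lit 0) (p (nat_lit 0x8898807871a) (nat_lit 0) (p (nat_lit 0x8000000000800080787088a) (nat_lit 0) (p (nat_lit 0x8000000000800078706860a) (nat_lit 0) (p (nat_lit 0x10806860782) (nat_lit 0) (p (nat_lit 0x786058702) (nat_lit 0) (p (nat_lit 0x10705850482) (nat_lit 0) (p (nat_lit 0x685048402) (nat_lit 0) (p (nat_lit 0x16000c) (nat_lit 0) (p (nat_lit 0x60592) (nat_lit 0) (p (nat_lit 0x48512) (nat_lit 0) (p (nat_lit 0x50392) (nat_lit 0) (p (nat_lit 0x38312) (nat_lit 0) (p (nat_lit 0x40212)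 (nat_lit 0) (p (nat_lit 0x28192) (nat_lit 0) (p (nat_lit 0x30092) (nat_lit 0) (p (nat_lit 0x18012) (nat_lit 0) pn)))))))))))))))))))))))))))) :=
  Cl.node (nat_lit 0xb000c) (nat_lit 2) (by decide +kernel) (ClAll.succ (ClAll.succ ClAll.zero n192) n193)

def n223 : Cl (O (nat_lit 5)) (R (nat_lit 6353))
    (p (nat_lit 0x200004) (nat_lit 0) (p (nat_lit 0x109) (nat_lit 0) (p (nat_lit 0x89) (nat_lit 1) (p (nat_lit 0xc9) (nat_lit 1) (p (nat_lit 0xc1) (nat_lit 0) (p (nat_lit 0x119) (nat_lit 1) (p (nat_lit 0xd1) (nat_lit 0) (p (nat_lit 0x81) (nat_lit 0) (p (nat_lit 0x41) (nat_lit 1) (p (nat_lit 0x10a0b09890a9a) (nat_lit 0) (p (nat_lit 0x98a89088a1a) (nat_lit 0) (p (nat_lit 0x1090a0888079a) (nat_lit 0) (p (nat_lit 0x8898807871a) (nat_lit 0) (p (nat_lit 0x8000000000800080787088a) (nat_lit 0) (p (nat_lit 0x8000000000800078706860a) (nat_lit 0) (p (nat_lit 0x10806860782) (nat_lit 0)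 (p (nat_lit 0x786058702) (nat_lit 0) (p (nat_lit 0x10705850482) (nat_lit 0) (p (nat_lit 0x685048402) (nat_lit 0) (p (nat_lit 0x16000c) (nat_lit 0) (p (nat_lit 0x60592) (nat_lit 0) (p (nat_lit 0x48512) (nat_lit 0) (p (nat_lit 0x50392) (nat_lit 0) (p (nat_lit 0x38312) (nat_lit 0) (p (nat_lit 0x40212) (nat_lit 0) (p (nat_lit 0x28192) (nat_lit 0) (p (nat_lit 0x30092) (nat_lit 0) (p (nat_lit 0x18012) (nat_lit 0) pn)))))))))))))))))))))))))))) :=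
  Cl.node (nat_lit 0x200014) (nat_lit 2) (by decide +kernel) (ClAll.succ (ClAll.succ ClAll.zero n194) s143)

def n224 : Cl (O (nat_lit 5)) (R (nat_lit 6353))
    (p (nat_lit 0x200004) (nat_lit 0) (p (nat_lit 0x109) (nat_lit 1) (p (nat_lit 0x89) (nat_lit 1) (p (nat_lit 0xc9) (nat_lit 1) (p (nat_lit 0xc1) (nat_lit 0) (p (nat_lit 0x119) (nat_lit 1) (p (nat_lit 0xd1) (nat_lit 0) (p (nat_lit 0x81) (nat_lit 0) (p (nat_lit 0x41) (nat_lit 1) (p (nat_lit 0x10a0b09890a9a) (nat_lit 0) (p (nat_lit 0x98a89088a1a) (nat_lit 0) (p (nat_lit 0x1090a0888079a) (nat_lit 0) (p (nat_lit 0x8898807871a) (nat_lit 0) (p (nat_lit 0x8000000000800080787088a) (nat_lit 0) (p (nat_lit 0x8000000000800078706860a) (nat_lit 0) (p (nat_lit 0x10806860782) (nat_lit 0) (p (nat_lit 0x786058702) (nat_lit 0) (p (nat_lit 0x10705850482) (nat_lit 0) (p (nat_lit 0x685048402) (nat_lit 0) (p (nat_lit 0x16000c) (nat_lit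 0) (p (nat_lit 0x60592) (nat_lit 0) (p (nat_lit 0x48512) (nat_lit 0) (p (nat_lit 0x50392) (nat_lit 0) (p (nat_lit 0x38312) (nat_lit 0) (p (nat_lit 0x40212) (nat_lit 0) (p (nat_lit 0x28192) (nat_lit 0) (p (nat_lit 0x30092) (nat_lit 0) (p (nat_lit 0x18012) (nat_lit 0) pn)))))))))))))))))))))))))))) :=
  Cl.node (nat_lit 0x200014) (nat_lit 2) (by decide +kernel) (ClAll.succ (ClAll.succ ClAll.zero n195) s148)

def n225 : Cl (O (nat_lit 5)) (R (nat_lit 6353))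
    (p (nat_lit 0x200004) (nat_lit 0) (p (nat_lit 0x109) (nat_lit 0) (p (nat_lit 0x89) (nat_lit 1) (p (nat_lit 0x101) (nat_lit 0) (p (nat_lit 0xc1) (nat_lit 1) (p (nat_lit 0x119) (nat_lit 1) (p (nat_lit 0xd1) (nat_lit 0) (p (nat_lit 0x81) (nat_lit 0) (p (nat_lit 0x41) (nat_lit 1) (p (nat_lit 0x10a0b09890a9a) (nat_lit 0) (p (nat_lit 0x98a89088a1a) (nat_lit 0) (p (nat_lit 0x1090a0888079a) (nat_lit 0) (p (nat_lit 0x8898807871a) (nat_lit 0) (p (nat_lit 0x8000000000800080787088a) (nat_lit 0) (p (nat_lit 0x8000000000800078706860a) (nat_lit 0) (p (nat_lit 0x10806860782) (nat_lit 0) (p (nat_lit 0x786058702) (nat_lit 0) (p (nat_lit 0x10705850482) (nat_lit 0) (p (nat_lit 0x685048402) (nat_lit 0) (p (nat_lit 0x16000c) (nat_lit 0) (p (nat_lit 0x60592) (nat_lit 0) (p (nat_lit 0x48512) (nat_lit 0) (p (nat_lit 0x50392) (nat_lit 0) (p (nat_lit 0x38312) (nat_lit 0) (p (nat_lit 0x40212)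 (nat_lit 0) (p (nat_lit 0x28192) (nat_lit 0) (p (nat_lit 0x30092) (nat_lit 0) (p (nat_lit 0x18012) (nat_lit 0) pn)))))))))))))))))))))))))))) :=
  Cl.node (nat_lit 0x200014) (nat_lit 2) (by decide +kernel) (ClAll.succ (ClAll.succ ClAll.zero n196) s154)

def n226 : Cl (O (nat_lit 5)) (R (nat_lit 6353))
    (p (nat_lit 0x200004) (nat_lit 0) (p (nat_lit 0x109) (nat_lit 1) (p (nat_lit 0x89) (nat_lit 1) (p (nat_lit 0x101) (nat_lit 0) (p (nat_lit 0xc1) (nat_lit 1) (p (nat_lit 0x119) (nat_lit 1) (p (nat_lit 0xd1) (nat_lit 0) (p (nat_lit 0x81) (nat_lit 0) (p (nat_lit 0x41) (nat_lit 1) (p (nat_lit 0x10a0b09890a9a) (nat_lit 0) (p (nat_lit 0x98a89088a1a) (nat_lit 0) (p (nat_lit 0x1090a0888079a) (nat_lit 0) (p (nat_lit 0x8898807871a) (nat_lit 0) (p (nat_lit 0x8000000000800080787088a) (nat_lit 0) (p (nat_lit 0x8000000000800078706860a) (nat_lit 0) (p (nat_lit 0x10806860782) (nat_lit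 0) (p (nat_lit 0x786058702) (nat_lit 0) (p (nat_lit 0x10705850482) (nat_lit 0) (p (nat_lit 0x685048402) (nat_lit 0) (p (nat_lit 0x16000c) (nat_lit 0) (p (nat_lit 0x60592) (nat_lit 0) (p (nat_lit 0x48512) (nat_lit 0) (p (nat_lit 0x50392) (nat_lit 0) (p (nat_lit 0x38312) (nat_lit 0) (p (nat_lit 0x40212) (nat_lit 0) (p (nat_lit 0x28192) (nat_lit 0) (p (nat_lit 0x30092) (nat_lit 0) (p (nat_lit 0x18012) (nat_lit 0) pn)))))))))))))))))))))))))))) :=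
  Cl.node (nat_lit 0x200014) (nat_lit 2) (by decide +kernel) (ClAll.succ (ClAll.succ ClAll.zero n197) s160)

def n227 : Cl (O (nat_lit 5)) (R (nat_lit 6353))
    (p (nat_lit 0x200014) (nat_lit 0) (p (nat_lit 0x200004) (nat_lit 0) (p (nat_lit 0x89) (nat_lit 0) (p (nat_lit 0x101) (nat_lit 1) (p (nat_lit 0xc1) (nat_lit 1) (p (nat_lit 0x119) (nat_lit 1) (p (nat_lit 0xd1) (nat_lit 0) (p (nat_lit 0x81) (nat_lit 0) (p (nat_lit 0x41) (nat_lit 1) (p (nat_lit 0x10a0b09890a9a) (nat_lit 0) (p (nat_lit 0x98a89088a1a) (nat_lit 0) (p (nat_lit 0x1090a0888079a) (nat_lit 0) (p (nat_lit 0x8898807871a) (nat_lit 0) (p (nat_lit 0x8000000000800080787088a) (nat_lit 0) (p (nat_lit 0x8000000000800078706860a) (nat_lit 0) (p (nat_lit 0x10806860782) (nat_lit 0) (p (nat_lit 0x786058702) (nat_lit 0) (p (nat_lit 0x10705850482) (nat_lit 0) (p (nat_lit 0x685048402) (nat_lit 0) (p (nat_lit 0x16000c) (nat_lit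 0) (p (nat_lit 0x60592) (nat_lit 0) (p (nat_lit 0x48512) (nat_lit 0) (p (nat_lit 0x50392) (nat_lit 0) (p (nat_lit 0x38312) (nat_lit 0) (p (nat_lit 0x40212) (nat_lit 0) (p (nat_lit 0x28192) (nat_lit 0) (p (nat_lit 0x30092) (nat_lit 0) (p (nat_lit 0x18012) (nat_lit 0) pn)))))))))))))))))))))))))))) :=
  Cl.node (nat_lit 0xb000c) (nat_lit 2) (by decide +kernel) (ClAll.succ (ClAll.succ ClAll.zero s162) s163)

def n228 : Cl (O (nat_lit 5)) (R (nat_lit 6353))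
    (p (nat_lit 0x200014) (nat_lit 0) (p (nat_lit 0x200004) (nat_lit 0) (p (nat_lit 0x89) (nat_lit 1) (p (nat_lit 0x101) (nat_lit 1) (p (nat_lit 0xc1) (nat_lit 1) (p (nat_lit 0x119) (nat_lit 1) (p (nat_lit 0xd1) (nat_lit 0) (p (nat_lit 0x81) (nat_lit 0) (p (nat_lit 0x41) (nat_lit 1) (p (nat_lit 0x10a0b09890a9a) (nat_lit 0) (p (nat_lit 0x98a89088a1a) (nat_lit 0) (p (nat_lit 0x1090a0888079a) (nat_lit 0) (p (nat_lit 0x8898807871a) (nat_lit 0) (p (nat_lit 0x8000000000800080787088a) (nat_lit 0) (p (nat_lit 0x8000000000800078706860a) (nat_lit 0) (p (nat_lit 0x10806860782) (nat_lit 0) (p (nat_lit 0x786058702) (nat_lit 0) (p (nat_lit 0x10705850482) (nat_lit 0) (p (nat_lit 0x685048402) (nat_lit 0) (p (nat_lit 0x16000c) (nat_lit 0) (p (nat_lit 0x60592) (nat_lit 0) (p (nat_lit 0x48512) (nat_lit 0) (p (nat_lit 0x50392) (nat_lit 0) (p (nat_lit 0x38312) (nat_lit 0) (p (nat_lit 0x40212)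 (nat_lit 0) (p (nat_lit 0x28192) (nat_lit 0) (p (nat_lit 0x30092) (nat_lit 0) (p (nat_lit 0x18012) (nat_lit 0) pn)))))))))))))))))))))))))))) :=
  Cl.node (nat_lit 0xb000c) (nat_lit 2) (by decide +kernel) (ClAll.succ (ClAll.succ ClAll.zero n198) n199)

def n229 : Cl (O (nat_lit 5)) (R (nat_lit 6353))
    (p (nat_lit 0x200004) (nat_lit 0) (p (nat_lit 0xc9) (nat_lit 0) (p (nat_lit 0x89) (nat_lit 1) (p (nat_lit 0x109) (nat_lit 1) (p (nat_lit 0x101) (nat_lit 0) (p (nat_lit 0x111) (nat_lit 0) (p (nat_lit 0xd1) (nat_lit 1) (p (nat_lit 0x81) (nat_lit 0) (p (nat_lit 0x41) (nat_lit 1) (p (nat_lit 0x10a0b09890a9a) (nat_lit 0) (p (nat_lit 0x98a89088a1a) (nat_lit 0) (p (nat_lit 0x1090a0888079a) (nat_lit 0) (p (nat_lit 0x8898807871a) (nat_lit 0) (p (nat_lit 0x8000000000800080787088a) (nat_lit 0) (p (nat_lit 0x8000000000800078706860a) (nat_lit 0) (p (nat_lit 0x10806860782) (nat_lit 0)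 (p (nat_lit 0x786058702) (nat_lit 0) (p (nat_lit 0x10705850482) (nat_lit 0) (p (nat_lit 0x685048402) (nat_lit 0) (p (nat_lit 0x16000c) (nat_lit 0) (p (nat_lit 0x60592) (nat_lit 0) (p (nat_lit 0x48512) (nat_lit 0) (p (nat_lit 0x50392) (nat_lit 0) (p (nat_lit 0x38312) (nat_lit 0) (p (nat_lit 0x40212) (nat_lit 0) (p (nat_lit 0x28192) (nat_lit 0) (p (nat_lit 0x30092) (nat_lit 0) (p (nat_lit 0x18012) (nat_lit 0) pn)))))))))))))))))))))))))))) :=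
  Cl.node (nat_lit 0x200014) (nat_lit 2) (by decide +kernel) (ClAll.succ (ClAll.succ ClAll.zero n200) s188)

def n230 : Cl (O (nat_lit 5)) (R (nat_lit 6353))
    (p (nat_lit 0x200014) (nat_lit 0) (p (nat_lit 0x200004) (nat_lit 0) (p (nat_lit 0xc9) (nat_lit 0) (p (nat_lit 0x89) (nat_lit 1) (p (nat_lit 0x101) (nat_lit 1) (p (nat_lit 0x111) (nat_lit 0) (p (nat_lit 0xd1) (nat_lit 1) (p (nat_lit 0x81) (nat_lit 0) (p (nat_lit 0x41) (nat_lit 1) (p (nat_lit 0x10a0b09890a9a) (nat_lit 0) (p (nat_lit 0x98a89088a1a) (nat_lit 0) (p (nat_lit 0x1090a0888079a) (nat_lit 0) (p (nat_lit 0x8898807871a) (nat_lit 0) (p (nat_lit 0x8000000000800080787088a) (nat_lit 0) (p (nat_lit 0x8000000000800078706860a) (nat_lit 0) (p (nat_lit 0x10806860782) (nat_lit 0) (p (nat_lit 0x786058702) (nat_lit 0) (p (nat_lit 0x10705850482) (nat_lit 0) (p (nat_lit 0x685048402) (nat_lit 0) (p (nat_lit 0x16000c) (nat_lit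 0) (p (nat_lit 0x60592) (nat_lit 0) (p (nat_lit 0x48512) (nat_lit 0) (p (nat_lit 0x50392) (nat_lit 0) (p (nat_lit 0x38312) (nat_lit 0) (p (nat_lit 0x40212) (nat_lit 0) (p (nat_lit 0x28192) (nat_lit 0) (p (nat_lit 0x30092) (nat_lit 0) (p (nat_lit 0x18012) (nat_lit 0) pn)))))))))))))))))))))))))))) :=
  Cl.node (nat_lit 0xb000c) (nat_lit 2) (by decide +kernel) (ClAll.succ (ClAll.succ ClAll.zero s192) n201)

def n231 : Cl (O (nat_lit 5)) (R (nat_lit 6353))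
    (p (nat_lit 0x200014) (nat_lit 0) (p (nat_lit 0x200004) (nat_lit 0) (p (nat_lit 0xc9) (nat_lit 1) (p (nat_lit 0x89) (nat_lit 1) (p (nat_lit 0x101) (nat_lit 1) (p (nat_lit 0x111) (nat_lit 0) (p (nat_lit 0xd1) (nat_lit 1) (p (nat_lit 0x81) (nat_lit 0) (p (nat_lit 0x41) (nat_lit 1) (p (nat_lit 0x10a0b09890a9a) (nat_lit 0) (p (nat_lit 0x98a89088a1a) (nat_lit 0) (p (nat_lit 0x1090a0888079a) (nat_lit 0) (p (nat_lit 0x8898807871a) (nat_lit 0) (p (nat_lit 0x8000000000800080787088a) (nat_lit 0) (p (nat_lit 0x8000000000800078706860a) (nat_lit 0) (p (nat_lit 0x10806860782) (nat_lit 0) (p (nat_lit 0x786058702) (nat_lit 0) (p (nat_lit 0x10705850482) (nat_lit 0) (p (nat_lit 0x685048402) (nat_lit 0) (p (nat_lit 0x16000c) (nat_lit 0) (p (nat_lit 0x60592) (nat_lit 0) (p (nat_lit 0x48512) (nat_lit 0) (p (nat_lit 0x50392) (nat_lit 0) (p (nat_lit 0x38312) (nat_lit 0) (p (nat_lit 0x40212)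 (nat_lit 0) (p (nat_lit 0x28192) (nat_lit 0) (p (nat_lit 0x30092) (nat_lit 0) (p (nat_lit 0x18012) (nat_lit 0) pn)))))))))))))))))))))))))))) :=
  Cl.node (nat_lit 0xb000c) (nat_lit 2) (by decide +kernel) (ClAll.succ (ClAll.succ ClAll.zero s198) s199)

def n232 : Cl (O (nat_lit 5)) (R (nat_lit 6353))
    (p (nat_lit 0x200014) (nat_lit 0) (p (nat_lit 0x200004) (nat_lit 0) (p (nat_lit 0x109) (nat_lit 0) (p (nat_lit 0xc9) (nat_lit 1) (p (nat_lit 0x89) (nat_lit 1) (p (nat_lit 0x111) (nat_lit 1) (p (nat_lit 0xd1) (nat_lit 1) (p (nat_lit 0x81) (nat_lit 0) (p (nat_lit 0x41) (nat_lit 1) (p (nat_lit 0x10a0b09890a9a) (nat_lit 0) (p (nat_lit 0x98a89088a1a) (nat_lit 0) (p (nat_lit 0x1090a0888079a) (nat_lit 0) (p (nat_lit 0x8898807871a) (nat_lit 0) (p (nat_lit 0x8000000000800080787088a) (nat_lit 0) (p (nat_lit 0x8000000000800078706860a) (nat_lit 0) (p (nat_lit 0x10806860782) (nat_lit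 0) (p (nat_lit 0x786058702) (nat_lit 0) (p (nat_lit 0x10705850482) (nat_lit 0) (p (nat_lit 0x685048402) (nat_lit 0) (p (nat_lit 0x16000c) (nat_lit 0) (p (nat_lit 0x60592) (nat_lit 0) (p (nat_lit 0x48512) (nat_lit 0) (p (nat_lit 0x50392) (nat_lit 0) (p (nat_lit 0x38312) (nat_lit 0) (p (nat_lit 0x40212) (nat_lit 0) (p (nat_lit 0x28192) (nat_lit 0) (p (nat_lit 0x30092) (nat_lit 0) (p (nat_lit 0x18012) (nat_lit 0) pn)))))))))))))))))))))))))))) :=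
  Cl.node (nat_lit 0xb000c) (nat_lit 2) (by decide +kernel) (ClAll.succ (ClAll.succ ClAll.zero s204) n202)

def n233 : Cl (O (nat_lit 5)) (R (nat_lit 6353))
    (p (nat_lit 0x200014) (nat_lit 0) (p (nat_lit 0x200004) (nat_lit 0) (p (nat_lit 0x109) (nat_lit 1) (p (nat_lit 0xc9) (nat_lit 1) (p (nat_lit 0x89) (nat_lit 1) (p (nat_lit 0x111) (nat_lit 1) (p (nat_lit 0xd1) (nat_lit 1) (p (nat_lit 0x81) (nat_lit 0) (p (nat_lit 0x41) (nat_lit 1) (p (nat_lit 0x10a0b09890a9a) (nat_lit 0) (p (nat_lit 0x98a89088a1a) (nat_lit 0) (p (nat_lit 0x1090a0888079a) (nat_lit 0) (p (nat_lit 0x8898807871a) (nat_lit 0) (p (nat_lit 0x8000000000800080787088a) (nat_lit 0) (p (nat_lit 0x8000000000800078706860a) (nat_lit 0) (p (nat_lit 0x10806860782) (nat_lit 0) (p (nat_lit 0x786058702) (nat_lit 0) (p (nat_lit 0x10705850482) (nat_lit 0) (p (nat_lit 0x685048402) (nat_lit 0) (p (nat_lit 0x16000c) (nat_lit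 0) (p (nat_lit 0x60592) (nat_lit 0) (p (nat_lit 0x48512) (nat_lit 0) (p (nat_lit 0x50392) (nat_lit 0) (p (nat_lit 0x38312) (nat_lit 0) (p (nat_lit 0x40212) (nat_lit 0) (p (nat_lit 0x28192) (nat_lit 0) (p (nat_lit 0x30092) (nat_lit 0) (p (nat_lit 0x18012) (nat_lit 0) pn)))))))))))))))))))))))))))) :=
  Cl.node (nat_lit 0xb000c) (nat_lit 2) (by decide +kernel) (ClAll.succ (ClAll.succ ClAll.zero s209) n203)

def n234 : Cl (O (nat_lit 5)) (R (nat_lit 6353))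
    (p (nat_lit 0x200014) (nat_lit 0) (p (nat_lit 0x200004) (nat_lit 0) (p (nat_lit 0x111) (nat_lit 1) (p (nat_lit 0xd1) (nat_lit 1) (p (nat_lit 0xc9) (nat_lit 0) (p (nat_lit 0x119) (nat_lit 1) (p (nat_lit 0xc1) (nat_lit 0) (p (nat_lit 0x81) (nat_lit 1) (p (nat_lit 0x41) (nat_lit 1) (p (nat_lit 0x10a0b09890a9a) (nat_lit 0) (p (nat_lit 0x98a89088a1a) (nat_lit 0) (p (nat_lit 0x1090a0888079a) (nat_lit 0) (p (nat_lit 0x8898807871a) (nat_lit 0) (p (nat_lit 0x8000000000800080787088a) (nat_lit 0) (p (nat_lit 0x8000000000800078706860a) (nat_lit 0) (p (nat_lit 0x10806860782) (nat_lit 0) (p (nat_lit 0x786058702) (nat_lit 0) (p (nat_lit 0x10705850482) (nat_lit 0) (p (nat_lit 0x685048402) (nat_lit 0) (p (nat_lit 0x16000c) (nat_lit 0) (p (nat_lit 0x60592) (nat_lit 0) (p (nat_lit 0x48512) (nat_lit 0) (p (nat_lit 0x50392) (nat_lit 0) (p (nat_lit 0x38312) (nat_lit 0) (p (nat_lit 0x40212)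 (nat_lit 0) (p (nat_lit 0x28192) (nat_lit 0) (p (nat_lit 0x30092) (nat_lit 0) (p (nat_lit 0x18012) (nat_lit 0) pn)))))))))))))))))))))))))))) :=
  Cl.node (nat_lit 0xb000c) (nat_lit 2) (by decide +kernel) (ClAll.succ (ClAll.succ ClAll.zero s221) n204)

def n235 : Cl (O (nat_lit 5)) (R (nat_lit 6353))
    (p (nat_lit 0x200014) (nat_lit 0) (p (nat_lit 0x200004) (nat_lit 0) (p (nat_lit 0x111) (nat_lit 1) (p (nat_lit 0x109) (nat_lit 0) (p (nat_lit 0xc9) (nat_lit 1) (p (nat_lit 0x119) (nat_lit 1) (p (nat_lit 0xc1) (nat_lit 0) (p (nat_lit 0x81) (nat_lit 1) (p (nat_lit 0x41) (nat_lit 1) (p (nat_lit 0x10a0b09890a9a) (nat_lit 0) (p (nat_lit 0x98a89088a1a) (nat_lit 0) (p (nat_lit 0x1090a0888079a) (nat_lit 0) (p (nat_lit 0x8898807871a) (nat_lit 0) (p (nat_lit 0x8000000000800080787088a) (nat_lit 0) (p (nat_lit 0x8000000000800078706860a) (nat_lit 0) (p (nat_lit 0x10806860782) (nat_lit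 0) (p (nat_lit 0x786058702) (nat_lit 0) (p (nat_lit 0x10705850482) (nat_lit 0) (p (nat_lit 0x685048402) (nat_lit 0) (p (nat_lit 0x16000c) (nat_lit 0) (p (nat_lit 0x60592) (nat_lit 0) (p (nat_lit 0x48512) (nat_lit 0) (p (nat_lit 0x50392) (nat_lit 0) (p (nat_lit 0x38312) (nat_lit 0) (p (nat_lit 0x40212) (nat_lit 0) (p (nat_lit 0x28192) (nat_lit 0) (p (nat_lit 0x30092) (nat_lit 0) (p (nat_lit 0x18012) (nat_lit 0) pn)))))))))))))))))))))))))))) :=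
  Cl.node (nat_lit 0xb000c) (nat_lit 2) (by decide +kernel) (ClAll.succ (ClAll.succ ClAll.zero s227) s228)

def n236 : Cl (O (nat_lit 5)) (R (nat_lit 6353))
    (p (nat_lit 0xb000c) (nat_lit 1) (p (nat_lit 0x200014) (nat_lit 0) (p (nat_lit 0x200004) (nat_lit 0) (p (nat_lit 0x109) (nat_lit 1) (p (nat_lit 0xc9) (nat_lit 1) (p (nat_lit 0x119) (nat_lit 1) (p (nat_lit 0xc1) (nat_lit 0) (p (nat_lit 0x81) (nat_lit 1) (p (nat_lit 0x41) (nat_lit 1) (p (nat_lit 0x10a0b09890a9a) (nat_lit 0) (p (nat_lit 0x98a89088a1a) (nat_lit 0) (p (nat_lit 0x1090a0888079a) (nat_lit 0) (p (nat_lit 0x8898807871a) (nat_lit 0) (p (nat_lit 0x8000000000800080787088a) (nat_lit 0) (p (nat_lit 0x8000000000800078706860a) (nat_lit 0) (p (nat_lit 0x10806860782) (nat_lit 0) (p (nat_lit 0x786058702) (nat_lit 0) (p (nat_lit 0x10705850482) (nat_lit 0) (p (nat_lit 0x685048402) (nat_lit 0) (p (nat_lit 0x16000c) (nat_lit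 0) (p (nat_lit 0x60592) (nat_lit 0) (p (nat_lit 0x48512) (nat_lit 0) (p (nat_lit 0x50392) (nat_lit 0) (p (nat_lit 0x38312) (nat_lit 0) (p (nat_lit 0x40212) (nat_lit 0) (p (nat_lit 0x28192) (nat_lit 0) (p (nat_lit 0x30092) (nat_lit 0) (p (nat_lit 0x18012) (nat_lit 0) pn)))))))))))))))))))))))))))) :=
  Cl.node (nat_lit 0x2a825800002a8258a8a09890a) (nat_lit 1) (by decide +kernel) (ClAll.succ ClAll.zero n205)

def n237 : Cl (O (nat_lit 5)) (R (nat_lit 6353))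
    (p (nat_lit 0x200004) (nat_lit 0) (p (nat_lit 0xc9) (nat_lit 0) (p (nat_lit 0x81) (nat_lit 0) (p (nat_lit 0x101) (nat_lit 1) (p (nat_lit 0x119) (nat_lit 0) (p (nat_lit 0xd1) (nat_lit 0) (p (nat_lit 0x89) (nat_lit 0) (p (nat_lit 0x41) (nat_lit 0) (p (nat_lit 0x10a0b09890a9a) (nat_lit 0) (p (nat_lit 0x98a89088a1a) (nat_lit 0) (p (nat_lit 0x1090a0888079a) (nat_lit 0) (p (nat_lit 0x8898807871a) (nat_lit 0) (p (nat_lit 0x8000000000800080787088a) (nat_lit 0) (p (nat_lit 0x8000000000800078706860a) (nat_lit 0) (p (nat_lit 0x10806860782) (nat_lit 0) (p (nat_lit 0x786058702) (nat_lit 0) (p (nat_lit 0x10705850482) (nat_lit 0) (p (nat_lit 0x685048402) (nat_lit 0) (p (nat_lit 0x16000c) (nat_lit 0) (p (nat_lit 0x60592) (nat_lit 0) (p (nat_lit 0x48512) (nat_lit 0) (p (nat_lit 0x50392) (nat_lit 0) (p (nat_lit 0x38312) (nat_lit 0) (p (nat_lit 0x40212) (nat_lit 0) (p (nat_lit 0x28192)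 (nat_lit 0) (p (nat_lit 0x30092) (nat_lit 0) (p (nat_lit 0x18012) (nat_lit 0) pn))))))))))))))))))))))))))) :=
  Cl.node (nat_lit 0x200014) (nat_lit 2) (by decide +kernel) (ClAll.succ (ClAll.succ ClAll.zero n206) s6)

def n238 : Cl (O (nat_lit 5)) (R (nat_lit 6353))
    (p (nat_lit 0x200004) (nat_lit 0) (p (nat_lit 0xc9) (nat_lit 1) (p (nat_lit 0x81) (nat_lit 0) (p (nat_lit 0x101) (nat_lit 1) (p (nat_lit 0x119) (nat_lit 0) (p (nat_lit 0xd1) (nat_lit 0) (p (nat_lit 0x89) (nat_lit 0) (p (nat_lit 0x41) (nat_lit 0) (p (nat_lit 0x10a0b09890a9a) (nat_lit 0) (p (nat_lit 0x98a89088a1a) (nat_lit 0) (p (nat_lit 0x1090a0888079a) (nat_lit 0) (p (nat_lit 0x8898807871a) (nat_lit 0) (p (nat_lit 0x8000000000800080787088a) (nat_lit 0) (p (nat_lit 0x8000000000800078706860a) (nat_lit 0) (p (nat_lit 0x10806860782) (nat_lit 0) (p (nat_lit 0x786058702) (nat_lit 0) (p (nat_lit 0x10705850482)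 (nat_lit 0) (p (nat_lit 0x685048402) (nat_lit 0) (p (nat_lit 0x16000c) (nat_lit 0) (p (nat_lit 0x60592) (nat_lit 0) (p (nat_lit 0x48512) (nat_lit 0) (p (nat_lit 0x50392) (nat_lit 0) (p (nat_lit 0x38312) (nat_lit 0) (p (nat_lit 0x40212) (nat_lit 0) (p (nat_lit 0x28192) (nat_lit 0) (p (nat_lit 0x30092) (nat_lit 0) (p (nat_lit 0x18012) (nat_lit 0) pn))))))))))))))))))))))))))) :=
  Cl.node (nat_lit 0x200014) (nat_lit 2) (by decide +kernel) (ClAll.succ (ClAll.succ ClAll.zero n207) s12)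

def n239 : Cl (O (nat_lit 5)) (R (nat_lit 6353))
    (p (nat_lit 0xc9) (nat_lit 0) (p (nat_lit 0xc1) (nat_lit 0) (p (nat_lit 0x81) (nat_lit 1) (p (nat_lit 0x101) (nat_lit 1) (p (nat_lit 0x119) (nat_lit 0) (p (nat_lit 0xd1) (nat_lit 0) (p (nat_lit 0x89) (nat_lit 0) (p (nat_lit 0x41) (nat_lit 0) (p (nat_lit 0x10a0b09890a9a) (nat_lit 0) (p (nat_lit 0x98a89088a1a) (nat_lit 0) (p (nat_lit 0x1090a0888079a) (nat_lit 0) (p (nat_lit 0x8898807871a) (nat_lit 0) (p (nat_lit 0x8000000000800080787088a) (nat_lit 0) (p (nat_lit 0x8000000000800078706860a) (nat_lit 0) (p (nat_lit 0x10806860782) (nat_lit 0) (p (nat_lit 0x786058702) (nat_lit 0) (p (nat_lit 0x10705850482) (nat_lit 0) (p (nat_lit 0x685048402) (nat_lit 0) (p (nat_lit 0x16000c) (nat_lit 0) (p (nat_lit 0x60592) (nat_lit 0) (p (nat_lit 0x48512) (nat_lit 0) (p (nat_lit 0x50392) (nat_lit 0) (p (nat_lit 0x38312) (nat_lit 0) (p (nat_lit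 0x40212) (nat_lit 0) (p (nat_lit 0x28192) (nat_lit 0) (p (nat_lit 0x30092) (nat_lit 0) (p (nat_lit 0x18012) (nat_lit 0) pn))))))))))))))))))))))))))) :=
  Cl.node (nat_lit 0x200004) (nat_lit 2) (by decide +kernel) (ClAll.succ (ClAll.succ ClAll.zero n208) s19)

def n240 : Cl (O (nat_lit 5)) (R (nat_lit 6353))
    (p (nat_lit 0xc9) (nat_lit 1) (p (nat_lit 0xc1) (nat_lit 0) (p (nat_lit 0x81) (nat_lit 1) (p (nat_lit 0x101) (nat_lit 1) (p (nat_lit 0x119) (nat_lit 0) (p (nat_lit 0xd1) (nat_lit 0) (p (nat_lit 0x89) (nat_lit 0) (p (nat_lit 0x41) (nat_lit 0) (p (nat_lit 0x10a0b09890a9a) (nat_lit 0) (p (nat_lit 0x98a89088a1a) (nat_lit 0) (p (nat_lit 0x1090a0888079a) (nat_lit 0) (p (nat_lit 0x8898807871a) (nat_lit 0) (p (nat_lit 0x8000000000800080787088a) (nat_lit 0) (p (nat_lit 0x8000000000800078706860a) (nat_lit 0) (p (nat_lit 0x10806860782) (nat_lit 0) (p (nat_lit 0x786058702)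 (nat_lit 0) (p (nat_lit 0x10705850482) (nat_lit 0) (p (nat_lit 0x685048402) (nat_lit 0) (p (nat_lit 0x16000c) (nat_lit 0) (p (nat_lit 0x60592) (nat_lit 0) (p (nat_lit 0x48512) (nat_lit 0) (p (nat_lit 0x50392) (nat_lit 0) (p (nat_lit 0x38312) (nat_lit 0) (p (nat_lit 0x40212) (nat_lit 0) (p (nat_lit 0x28192) (nat_lit 0) (p (nat_lit 0x30092) (nat_lit 0) (p (nat_lit 0x18012) (nat_lit 0) pn))))))))))))))))))))))))))) :=
  Cl.node (nat_lit 0x200004) (nat_lit 2) (by decide +kernel) (ClAll.succ (ClAll.succ ClAll.zero n209) s23)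

def n241 : Cl (O (nat_lit 5)) (R (nat_lit 6353))
    (p (nat_lit 0x200004) (nat_lit 0) (p (nat_lit 0x109) (nat_lit 1) (p (nat_lit 0xc9) (nat_lit 1) (p (nat_lit 0xc1) (nat_lit 0) (p (nat_lit 0x119) (nat_lit 1) (p (nat_lit 0xd1) (nat_lit 0) (p (nat_lit 0x89) (nat_lit 0) (p (nat_lit 0x41) (nat_lit 0) (p (nat_lit 0x10a0b09890a9a) (nat_lit 0) (p (nat_lit 0x98a89088a1a) (nat_lit 0) (p (nat_lit 0x1090a0888079a) (nat_lit 0) (p (nat_lit 0x8898807871a) (nat_lit 0) (p (nat_lit 0x8000000000800080787088a) (nat_lit 0) (p (nat_lit 0x8000000000800078706860a) (nat_lit 0) (p (nat_lit 0x10806860782) (nat_lit 0) (p (nat_lit 0x786058702) (nat_lit 0) (p (nat_lit 0x10705850482) (nat_lit 0) (p (nat_lit 0x685048402) (nat_lit 0) (p (nat_lit 0x16000c) (nat_lit 0) (p (nat_lit 0x60592) (nat_lit 0) (p (nat_lit 0x48512) (nat_lit 0) (p (nat_lit 0x50392) (nat_lit 0) (p (nat_lit 0x38312) (nat_lit 0) (p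 (nat_lit 0x40212) (nat_lit 0) (p (nat_lit 0x28192) (nat_lit 0) (p (nat_lit 0x30092) (nat_lit 0) (p (nat_lit 0x18012) (nat_lit 0) pn))))))))))))))))))))))))))) :=
  Cl.node (nat_lit 0x200014) (nat_lit 2) (by decide +kernel) (ClAll.succ (ClAll.succ ClAll.zero n210) s32)

def n242 : Cl (O (nat_lit 5)) (R (nat_lit 6353))
    (p (nat_lit 0x200004) (nat_lit 0) (p (nat_lit 0x109) (nat_lit 1) (p (nat_lit 0x81) (nat_lit 0) (p (nat_lit 0xc1) (nat_lit 1) (p (nat_lit 0x119) (nat_lit 1) (p (nat_lit 0xd1) (nat_lit 0) (p (nat_lit 0x89) (nat_lit 0) (p (nat_lit 0x41) (nat_lit 0) (p (nat_lit 0x10a0b09890a9a) (nat_lit 0) (p (nat_lit 0x98a89088a1a) (nat_lit 0) (p (nat_lit 0x1090a0888079a) (nat_lit 0) (p (nat_lit 0x8898807871a) (nat_lit 0) (p (nat_lit 0x8000000000800080787088a) (nat_lit 0) (p (nat_lit 0x8000000000800078706860a) (nat_lit 0) (p (nat_lit 0x10806860782) (nat_lit 0) (p (nat_lit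 0x786058702) (nat_lit 0) (p (nat_lit 0x10705850482) (nat_lit 0) (p (nat_lit 0x685048402) (nat_lit 0) (p (nat_lit 0x16000c) (nat_lit 0) (p (nat_lit 0x60592) (nat_lit 0) (p (nat_lit 0x48512) (nat_lit 0) (p (nat_lit 0x50392) (nat_lit 0) (p (nat_lit 0x38312) (nat_lit 0) (p (nat_lit 0x40212) (nat_lit 0) (p (nat_lit 0x28192) (nat_lit 0) (p (nat_lit 0x30092) (nat_lit 0) (p (nat_lit 0x18012) (nat_lit 0) pn))))))))))))))))))))))))))) :=
  Cl.node (nat_lit 0x200014) (nat_lit 2) (by decide +kernel) (ClAll.succ (ClAll.succ ClAll.zero n211) s37)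

def n243 : Cl (O (nat_lit 5)) (R (nat_lit 6353))
    (p (nat_lit 0x109) (nat_lit 0) (p (nat_lit 0x101) (nat_lit 0) (p (nat_lit 0x81) (nat_lit 1) (p (nat_lit 0xc1) (nat_lit 1) (p (nat_lit 0x119) (nat_lit 1) (p (nat_lit 0xd1) (nat_lit 0) (p (nat_lit 0x89) (nat_lit 0) (p (nat_lit 0x41) (nat_lit 0) (p (nat_lit 0x10a0b09890a9a) (nat_lit 0) (p (nat_lit 0x98a89088a1a) (nat_lit 0) (p (nat_lit 0x1090a0888079a) (nat_lit 0) (p (nat_lit 0x8898807871a) (nat_lit 0) (p (nat_lit 0x8000000000800080787088a) (nat_lit 0) (p (nat_lit 0x8000000000800078706860a) (nat_lit 0) (p (nat_lit 0x10806860782) (nat_lit 0) (p (nat_lit 0x786058702) (nat_lit 0) (p (nat_lit 0x10705850482) (nat_lit 0) (p (nat_lit 0x685048402) (nat_lit 0) (p (nat_lit 0x16000c) (nat_lit 0) (p (nat_lit 0x60592) (nat_lit 0) (p (nat_lit 0x48512) (nat_lit 0) (p (nat_lit 0x50392) (nat_lit 0) (p (nat_lit 0x38312) (nat_lit 0) (p (nat_lit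 0x40212) (nat_lit 0) (p (nat_lit 0x28192) (nat_lit 0) (p (nat_lit 0x30092) (nat_lit 0) (p (nat_lit 0x18012) (nat_lit 0) pn))))))))))))))))))))))))))) :=
  Cl.node (nat_lit 0x200004) (nat_lit 2) (by decide +kernel) (ClAll.succ (ClAll.succ ClAll.zero n212) s42)

def n244 : Cl (O (nat_lit 5)) (R (nat_lit 6353))
    (p (nat_lit 0x109) (nat_lit 1) (p (nat_lit 0x101) (nat_lit 0) (p (nat_lit 0x81) (nat_lit 1) (p (nat_lit 0xc1) (nat_lit 1) (p (nat_lit 0x119) (nat_lit 1) (p (nat_lit 0xd1) (nat_lit 0) (p (nat_lit 0x89) (nat_lit 0) (p (nat_lit 0x41) (nat_lit 0) (p (nat_lit 0x10a0b09890a9a) (nat_lit 0) (p (nat_lit 0x98a89088a1a) (nat_lit 0) (p (nat_lit 0x1090a0888079a) (nat_lit 0) (p (nat_lit 0x8898807871a) (nat_lit 0) (p (nat_lit 0x8000000000800080787088a) (nat_lit 0) (p (nat_lit 0x8000000000800078706860a) (nat_lit 0) (p (nat_lit 0x10806860782) (nat_lit 0) (p (nat_lit 0x786058702)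 (nat_lit 0) (p (nat_lit 0x10705850482) (nat_lit 0) (p (nat_lit 0x685048402) (nat_lit 0) (p (nat_lit 0x16000c) (nat_lit 0) (p (nat_lit 0x60592) (nat_lit 0) (p (nat_lit 0x48512) (nat_lit 0) (p (nat_lit 0x50392) (nat_lit 0) (p (nat_lit 0x38312) (nat_lit 0) (p (nat_lit 0x40212) (nat_lit 0) (p (nat_lit 0x28192) (nat_lit 0) (p (nat_lit 0x30092) (nat_lit 0) (p (nat_lit 0x18012) (nat_lit 0) pn))))))))))))))))))))))))))) :=
  Cl.node (nat_lit 0x200004) (nat_lit 2) (by decide +kernel) (ClAll.succ (ClAll.succ ClAll.zero n213) s47)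

def n245 : Cl (O (nat_lit 5)) (R (nat_lit 6353))
    (p (nat_lit 0x200004) (nat_lit 0) (p (nat_lit 0x101) (nat_lit 1) (p (nat_lit 0x81) (nat_lit 1) (p (nat_lit 0xc1) (nat_lit 1) (p (nat_lit 0x119) (nat_lit 1) (p (nat_lit 0xd1) (nat_lit 0) (p (nat_lit 0x89) (nat_lit 0) (p (nat_lit 0x41) (nat_lit 0) (p (nat_lit 0x10a0b09890a9a) (nat_lit 0) (p (nat_lit 0x98a89088a1a) (nat_lit 0) (p (nat_lit 0x1090a0888079a) (nat_lit 0) (p (nat_lit 0x8898807871a) (nat_lit 0) (p (nat_lit 0x8000000000800080787088a) (nat_lit 0) (p (nat_lit 0x8000000000800078706860a) (nat_lit 0) (p (nat_lit 0x10806860782) (nat_lit 0) (p (nat_lit 0x786058702) (nat_lit 0) (p (nat_lit 0x10705850482) (nat_lit 0) (p (nat_lit 0x685048402) (nat_lit 0) (p (nat_lit 0x16000c) (nat_lit 0) (p (nat_lit 0x60592) (nat_lit 0) (p (nat_lit 0x48512) (nat_lit 0) (p (nat_lit 0x50392) (nat_lit 0) (p (nat_lit 0x38312) (nat_lit 0) (p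 (nat_lit 0x40212) (nat_lit 0) (p (nat_lit 0x28192) (nat_lit 0) (p (nat_lit 0x30092) (nat_lit 0) (p (nat_lit 0x18012) (nat_lit 0) pn))))))))))))))))))))))))))) :=
  Cl.node (nat_lit 0x200014) (nat_lit 2) (by decide +kernel) (ClAll.succ (ClAll.succ ClAll.zero n214) s50)

def n246 : Cl (O (nat_lit 5)) (R (nat_lit 6353))
    (p (nat_lit 0x200004) (nat_lit 0) (p (nat_lit 0xc1) (nat_lit 0) (p (nat_lit 0x81) (nat_lit 1) (p (nat_lit 0x101) (nat_lit 1) (p (nat_lit 0x111) (nat_lit 0) (p (nat_lit 0xd1) (nat_lit 1) (p (nat_lit 0x89) (nat_lit 0) (p (nat_lit 0x41) (nat_lit 0) (p (nat_lit 0x10a0b09890a9a) (nat_lit 0) (p (nat_lit 0x98a89088a1a) (nat_lit 0) (p (nat_lit 0x1090a0888079a) (nat_lit 0) (p (nat_lit 0x8898807871a) (nat_lit 0) (p (nat_lit 0x8000000000800080787088a) (nat_lit 0) (p (nat_lit 0x8000000000800078706860a) (nat_lit 0) (p (nat_lit 0x10806860782) (nat_lit 0) (p (nat_lit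 0x786058702) (nat_lit 0) (p (nat_lit 0x10705850482) (nat_lit 0) (p (nat_lit 0x685048402) (nat_lit 0) (p (nat_lit 0x16000c) (nat_lit 0) (p (nat_lit 0x60592) (nat_lit 0) (p (nat_lit 0x48512) (nat_lit 0) (p (nat_lit 0x50392) (nat_lit 0) (p (nat_lit 0x38312) (nat_lit 0) (p (nat_lit 0x40212) (nat_lit 0) (p (nat_lit 0x28192) (nat_lit 0) (p (nat_lit 0x30092) (nat_lit 0) (p (nat_lit 0x18012) (nat_lit 0) pn))))))))))))))))))))))))))) :=
  Cl.node (nat_lit 0x200014) (nat_lit 2) (by decide +kernel) (ClAll.succ (ClAll.succ ClAll.zero n215) s59)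

def n247 : Cl (O (nat_lit 5)) (R (nat_lit 6353))
    (p (nat_lit 0x200004) (nat_lit 0) (p (nat_lit 0x111) (nat_lit 1) (p (nat_lit 0xd1) (nat_lit 1) (p (nat_lit 0xc1) (nat_lit 0) (p (nat_lit 0x119) (nat_lit 1) (p (nat_lit 0xc9) (nat_lit 0) (p (nat_lit 0x89) (nat_lit 1) (p (nat_lit 0x41) (nat_lit 0) (p (nat_lit 0x10a0b09890a9a) (nat_lit 0) (p (nat_lit 0x98a89088a1a) (nat_lit 0) (p (nat_lit 0x1090a0888079a) (nat_lit 0) (p (nat_lit 0x8898807871a) (nat_lit 0) (p (nat_lit 0x8000000000800080787088a) (nat_lit 0) (p (nat_lit 0x8000000000800078706860a) (nat_lit 0) (p (nat_lit 0x10806860782) (nat_lit 0) (p (nat_lit 0x786058702) (nat_lit 0) (p (nat_lit 0x10705850482) (nat_lit 0) (p (nat_lit 0x685048402) (nat_lit 0) (p (nat_lit 0x16000c) (nat_lit 0) (p (nat_lit 0x60592) (nat_lit 0) (p (nat_lit 0x48512) (nat_lit 0) (p (nat_lit 0x50392) (nat_lit 0) (p (nat_lit 0x38312) (nat_lit 0) (p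 (nat_lit 0x40212) (nat_lit 0) (p (nat_lit 0x28192) (nat_lit 0) (p (nat_lit 0x30092) (nat_lit 0) (p (nat_lit 0x18012) (nat_lit 0) pn))))))))))))))))))))))))))) :=
  Cl.node (nat_lit 0x200014) (nat_lit 2) (by decide +kernel) (ClAll.succ (ClAll.succ ClAll.zero n216) s80)

def n248 : Cl (O (nat_lit 5)) (R (nat_lit 6353))
    (p (nat_lit 0x200004) (nat_lit 0) (p (nat_lit 0x111) (nat_lit 1) (p (nat_lit 0x101) (nat_lit 0) (p (nat_lit 0xc1) (nat_lit 1) (p (nat_lit 0x119) (nat_lit 1) (p (nat_lit 0xc9) (nat_lit 0) (p (nat_lit 0x89) (nat_lit 1) (p (nat_lit 0x41) (nat_lit 0) (p (nat_lit 0x10a0b09890a9a) (nat_lit 0) (p (nat_lit 0x98a89088a1a) (nat_lit 0) (p (nat_lit 0x1090a0888079a) (nat_lit 0) (p (nat_lit 0x8898807871a) (nat_lit 0) (p (nat_lit 0x8000000000800080787088a) (nat_lit 0) (p (nat_lit 0x8000000000800078706860a) (nat_lit 0) (p (nat_lit 0x10806860782) (nat_lit 0) (p (nat_lit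 0x786058702) (nat_lit 0) (p (nat_lit 0x10705850482) (nat_lit 0) (p (nat_lit 0x685048402) (nat_lit 0) (p (nat_lit 0x16000c) (nat_lit 0) (p (nat_lit 0x60592) (nat_lit 0) (p (nat_lit 0x48512) (nat_lit 0) (p (nat_lit 0x50392) (nat_lit 0) (p (nat_lit 0x38312) (nat_lit 0) (p (nat_lit 0x40212) (nat_lit 0) (p (nat_lit 0x28192) (nat_lit 0) (p (nat_lit 0x30092) (nat_lit 0) (p (nat_lit 0x18012) (nat_lit 0) pn))))))))))))))))))))))))))) :=
  Cl.node (nat_lit 0x200014) (nat_lit 2) (by decide +kernel) (ClAll.succ (ClAll.succ ClAll.zero n217) s85)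

def n249 : Cl (O (nat_lit 5)) (R (nat_lit 6353))
    (p (nat_lit 0x200004) (nat_lit 0) (p (nat_lit 0x89) (nat_lit 0) (p (nat_lit 0x109) (nat_lit 1) (p (nat_lit 0x101) (nat_lit 0) (p (nat_lit 0x119) (nat_lit 0) (p (nat_lit 0xd1) (nat_lit 0) (p (nat_lit 0x81) (nat_lit 0) (p (nat_lit 0x41) (nat_lit 1) (p (nat_lit 0x10a0b09890a9a) (nat_lit 0) (p (nat_lit 0x98a89088a1a) (nat_lit 0) (p (nat_lit 0x1090a0888079a) (nat_lit 0) (p (nat_lit 0x8898807871a) (nat_lit 0) (p (nat_lit 0x8000000000800080787088a) (nat_lit 0) (p (nat_lit 0x8000000000800078706860a) (nat_lit 0) (p (nat_lit 0x10806860782) (nat_lit 0) (p (nat_lit 0x786058702) (nat_lit 0) (p (nat_lit 0x10705850482) (nat_lit 0) (p (nat_lit 0x685048402) (nat_lit 0) (p (nat_lit 0x16000c) (nat_lit 0) (p (nat_lit 0x60592) (nat_lit 0) (p (nat_lit 0x48512) (nat_lit 0) (p (nat_lit 0x50392) (nat_lit 0) (p (nat_lit 0x38312) (nat_lit 0) (p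 (nat_lit 0x40212) (nat_lit 0) (p (nat_lit 0x28192) (nat_lit 0) (p (nat_lit 0x30092) (nat_lit 0) (p (nat_lit 0x18012) (nat_lit 0) pn))))))))))))))))))))))))))) :=
  Cl.node (nat_lit 0x200014) (nat_lit 2) (by decide +kernel) (ClAll.succ (ClAll.succ ClAll.zero n218) s96)

def n250 : Cl (O (nat_lit 5)) (R (nat_lit 6353))
    (p (nat_lit 0xc9) (nat_lit 0) (p (nat_lit 0x89) (nat_lit 1) (p (nat_lit 0x109) (nat_lit 1) (p (nat_lit 0x101) (nat_lit 0) (p (nat_lit 0x119) (nat_lit 0) (p (nat_lit 0xd1) (nat_lit 0) (p (nat_lit 0x81) (nat_lit 0) (p (nat_lit 0x41) (nat_lit 1) (p (nat_lit 0x10a0b09890a9a) (nat_lit 0) (p (nat_lit 0x98a89088a1a) (nat_lit 0) (p (nat_lit 0x1090a0888079a) (nat_lit 0) (p (nat_lit 0x8898807871a) (nat_lit 0) (p (nat_lit 0x8000000000800080787088a) (nat_lit 0) (p (nat_lit 0x8000000000800078706860a) (nat_lit 0) (p (nat_lit 0x10806860782) (nat_lit 0) (p (nat_lit 0x786058702)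 (nat_lit 0) (p (nat_lit 0x10705850482) (nat_lit 0) (p (nat_lit 0x685048402) (nat_lit 0) (p (nat_lit 0x16000c) (nat_lit 0) (p (nat_lit 0x60592) (nat_lit 0) (p (nat_lit 0x48512) (nat_lit 0) (p (nat_lit 0x50392) (nat_lit 0) (p (nat_lit 0x38312) (nat_lit 0) (p (nat_lit 0x40212) (nat_lit 0) (p (nat_lit 0x28192) (nat_lit 0) (p (nat_lit 0x30092) (nat_lit 0) (p (nat_lit 0x18012) (nat_lit 0) pn))))))))))))))))))))))))))) :=
  Cl.node (nat_lit 0x200004) (nat_lit 2) (by decide +kernel) (ClAll.succ (ClAll.succ ClAll.zero n219) s104)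

def n251 : Cl (O (nat_lit 5)) (R (nat_lit 6353))
    (p (nat_lit 0xc9) (nat_lit 0) (p (nat_lit 0x89) (nat_lit 1) (p (nat_lit 0xc1) (nat_lit 0) (p (nat_lit 0x101) (nat_lit 1) (p (nat_lit 0x119) (nat_lit 0) (p (nat_lit 0xd1) (nat_lit 0) (p (nat_lit 0x81) (nat_lit 0) (p (nat_lit 0x41) (nat_lit 1) (p (nat_lit 0x10a0b09890a9a) (nat_lit 0) (p (nat_lit 0x98a89088a1a) (nat_lit 0) (p (nat_lit 0x1090a0888079a) (nat_lit 0) (p (nat_lit 0x8898807871a) (nat_lit 0) (p (nat_lit 0x8000000000800080787088a) (nat_lit 0) (p (nat_lit 0x8000000000800078706860a) (nat_lit 0) (p (nat_lit 0x10806860782) (nat_lit 0) (p (nat_lit 0x786058702) (nat_lit 0) (p (nat_lit 0x10705850482) (nat_lit 0) (p (nat_lit 0x685048402) (nat_lit 0) (p (nat_lit 0x16000c) (nat_lit 0) (p (nat_lit 0x60592) (nat_lit 0) (p (nat_lit 0x48512) (nat_lit 0) (p (nat_lit 0x50392) (nat_lit 0) (p (nat_lit 0x38312) (nat_lit 0) (p (nat_lit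 0x40212) (nat_lit 0) (p (nat_lit 0x28192) (nat_lit 0) (p (nat_lit 0x30092) (nat_lit 0) (p (nat_lit 0x18012) (nat_lit 0) pn))))))))))))))))))))))))))) :=
  Cl.node (nat_lit 0x200004) (nat_lit 2) (by decide +kernel) (ClAll.succ (ClAll.succ ClAll.zero n220) s109)

def n252 : Cl (O (nat_lit 5)) (R (nat_lit 6353))
    (p (nat_lit 0xc9) (nat_lit 1) (p (nat_lit 0x89) (nat_lit 1) (p (nat_lit 0xc1) (nat_lit 0) (p (nat_lit 0x101) (nat_lit 1) (p (nat_lit 0x119) (nat_lit 0) (p (nat_lit 0xd1) (nat_lit 0) (p (nat_lit 0x81) (nat_lit 0) (p (nat_lit 0x41) (nat_lit 1) (p (nat_lit 0x10a0b09890a9a) (nat_lit 0) (p (nat_lit 0x98a89088a1a) (nat_lit 0) (p (nat_lit 0x1090a0888079a) (nat_lit 0) (p (nat_lit 0x8898807871a) (nat_lit 0) (p (nat_lit 0x8000000000800080787088a) (nat_lit 0) (p (nat_lit 0x8000000000800078706860a) (nat_lit 0) (p (nat_lit 0x10806860782) (nat_lit 0) (p (nat_lit 0x786058702)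 (nat_lit 0) (p (nat_lit 0x10705850482) (nat_lit 0) (p (nat_lit 0x685048402) (nat_lit 0) (p (nat_lit 0x16000c) (nat_lit 0) (p (nat_lit 0x60592) (nat_lit 0) (p (nat_lit 0x48512) (nat_lit 0) (p (nat_lit 0x50392) (nat_lit 0) (p (nat_lit 0x38312) (nat_lit 0) (p (nat_lit 0x40212) (nat_lit 0) (p (nat_lit 0x28192) (nat_lit 0) (p (nat_lit 0x30092) (nat_lit 0) (p (nat_lit 0x18012) (nat_lit 0) pn))))))))))))))))))))))))))) :=
  Cl.node (nat_lit 0x200004) (nat_lit 2) (by decide +kernel) (ClAll.succ (ClAll.succ ClAll.zero n221) s120)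

def n253 : Cl (O (nat_lit 5)) (R (nat_lit 6353))
    (p (nat_lit 0x200004) (nat_lit 0) (p (nat_lit 0x89) (nat_lit 1) (p (nat_lit 0xc1) (nat_lit 1) (p (nat_lit 0x101) (nat_lit 1) (p (nat_lit 0x119) (nat_lit 0) (p (nat_lit 0xd1) (nat_lit 0) (p (nat_lit 0x81) (nat_lit 0) (p (nat_lit 0x41) (nat_lit 1) (p (nat_lit 0x10a0b09890a9a) (nat_lit 0) (p (nat_lit 0x98a89088a1a) (nat_lit 0) (p (nat_lit 0x1090a0888079a) (nat_lit 0) (p (nat_lit 0x8898807871a) (nat_lit 0) (p (nat_lit 0x8000000000800080787088a) (nat_lit 0) (p (nat_lit 0x8000000000800078706860a) (nat_lit 0) (p (nat_lit 0x10806860782) (nat_lit 0) (p (nat_lit 0x786058702) (nat_lit 0) (p (nat_lit 0x10705850482) (nat_lit 0) (p (nat_lit 0x685048402) (nat_lit 0) (p (nat_lit 0x16000c) (nat_lit 0) (p (nat_lit 0x60592) (nat_lit 0) (p (nat_lit 0x48512) (nat_lit 0) (p (nat_lit 0x50392) (nat_lit 0) (p (nat_lit 0x38312) (nat_lit 0) (p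 (nat_lit 0x40212) (nat_lit 0) (p (nat_lit 0x28192) (nat_lit 0) (p (nat_lit 0x30092) (nat_lit 0) (p (nat_lit 0x18012) (nat_lit 0) pn))))))))))))))))))))))))))) :=
  Cl.node (nat_lit 0x200014) (nat_lit 2) (by decide +kernel) (ClAll.succ (ClAll.succ ClAll.zero n222) s136)

def n254 : Cl (O (nat_lit 5)) (R (nat_lit 6353))
    (p (nat_lit 0x109) (nat_lit 0) (p (nat_lit 0x89) (nat_lit 1) (p (nat_lit 0xc9) (nat_lit 1) (p (nat_lit 0xc1) (nat_lit 0) (p (nat_lit 0x119) (nat_lit 1) (p (nat_lit 0xd1) (nat_lit 0) (p (nat_lit 0x81) (nat_lit 0) (p (nat_lit 0x41) (nat_lit 1) (p (nat_lit 0x10a0b09890a9a) (nat_lit 0) (p (nat_lit 0x98a89088a1a) (nat_lit 0) (p (nat_lit 0x1090a0888079a) (nat_lit 0) (p (nat_lit 0x8898807871a) (nat_lit 0) (p (nat_lit 0x8000000000800080787088a) (nat_lit 0) (p (nat_lit 0x8000000000800078706860a) (nat_lit 0) (p (nat_lit 0x10806860782) (nat_lit 0) (p (nat_lit 0x786058702)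 (nat_lit 0) (p (nat_lit 0x10705850482) (nat_lit 0) (p (nat_lit 0x685048402) (nat_lit 0) (p (nat_lit 0x16000c) (nat_lit 0) (p (nat_lit 0x60592) (nat_lit 0) (p (nat_lit 0x48512) (nat_lit 0) (p (nat_lit 0x50392) (nat_lit 0) (p (nat_lit 0x38312) (nat_lit 0) (p (nat_lit 0x40212) (nat_lit 0) (p (nat_lit 0x28192) (nat_lit 0) (p (nat_lit 0x30092) (nat_lit 0) (p (nat_lit 0x18012) (nat_lit 0) pn))))))))))))))))))))))))))) :=
  Cl.node (nat_lit 0x200004) (nat_lit 2) (by decide +kernel) (ClAll.succ (ClAll.succ ClAll.zero n223) s144)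

def n255 : Cl (O (nat_lit 5)) (R (nat_lit 6353))
    (p (nat_lit 0x109) (nat_lit 1) (p (nat_lit 0x89) (nat_lit 1) (p (nat_lit 0xc9) (nat_lit 1) (p (nat_lit 0xc1) (nat_lit 0) (p (nat_lit 0x119) (nat_lit 1) (p (nat_lit 0xd1) (nat_lit 0) (p (nat_lit 0x81) (nat_lit 0) (p (nat_lit 0x41) (nat_lit 1) (p (nat_lit 0x10a0b09890a9a) (nat_lit 0) (p (nat_lit 0x98a89088a1a) (nat_lit 0) (p (nat_lit 0x1090a0888079a) (nat_lit 0) (p (nat_lit 0x8898807871a) (nat_lit 0) (p (nat_lit 0x8000000000800080787088a) (nat_lit 0) (p (nat_lit 0x8000000000800078706860a) (nat_lit 0) (p (nat_lit 0x10806860782) (nat_lit 0) (p (nat_lit 0x786058702) (nat_lit 0) (p (nat_lit 0x10705850482) (nat_lit 0) (p (nat_lit 0x685048402) (nat_lit 0) (p (nat_lit 0x16000c) (nat_lit 0) (p (nat_lit 0x60592) (nat_lit 0) (p (nat_lit 0x48512) (nat_lit 0) (p (nat_lit 0x50392) (nat_lit 0) (p (nat_lit 0x38312) (nat_lit 0) (p (nat_lit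 0x40212) (nat_lit 0) (p (nat_lit 0x28192) (nat_lit 0) (p (nat_lit 0x30092) (nat_lit 0) (p (nat_lit 0x18012) (nat_lit 0) pn))))))))))))))))))))))))))) :=
  Cl.node (nat_lit 0x200004) (nat_lit 2) (by decide +kernel) (ClAll.succ (ClAll.succ ClAll.zero n224) s149)

def n256 : Cl (O (nat_lit 5)) (R (nat_lit 6353))
    (p (nat_lit 0x109) (nat_lit 0) (p (nat_lit 0x89) (nat_lit 1) (p (nat_lit 0x101) (nat_lit 0) (p (nat_lit 0xc1) (nat_lit 1) (p (nat_lit 0x119) (nat_lit 1) (p (nat_lit 0xd1) (nat_lit 0) (p (nat_lit 0x81) (nat_lit 0) (p (nat_lit 0x41) (nat_lit 1) (p (nat_lit 0x10a0b09890a9a) (nat_lit 0) (p (nat_lit 0x98a89088a1a) (nat_lit 0) (p (nat_lit 0x1090a0888079a) (nat_lit 0) (p (nat_lit 0x8898807871a) (nat_lit 0) (p (nat_lit 0x8000000000800080787088a) (nat_lit 0) (p (nat_lit 0x8000000000800078706860a) (nat_lit 0) (p (nat_lit 0x10806860782) (nat_lit 0) (p (nat_lit 0x786058702)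 (nat_lit 0) (p (nat_lit 0x10705850482) (nat_lit 0) (p (nat_lit 0x685048402) (nat_lit 0) (p (nat_lit 0x16000c) (nat_lit 0) (p (nat_lit 0x60592) (nat_lit 0) (p (nat_lit 0x48512) (nat_lit 0) (p (nat_lit 0x50392) (nat_lit 0) (p (nat_lit 0x38312) (nat_lit 0) (p (nat_lit 0x40212) (nat_lit 0) (p (nat_lit 0x28192) (nat_lit 0) (p (nat_lit 0x30092) (nat_lit 0) (p (nat_lit 0x18012) (nat_lit 0) pn))))))))))))))))))))))))))) :=
  Cl.node (nat_lit 0x200004) (nat_lit 2) (by decide +kernel) (ClAll.succ (ClAll.succ ClAll.zero n225) s155)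

def n257 : Cl (O (nat_lit 5)) (R (nat_lit 6353))
    (p (nat_lit 0x109) (nat_lit 1) (p (nat_lit 0x89) (nat_lit 1) (p (nat_lit 0x101) (nat_lit 0) (p (nat_lit 0xc1) (nat_lit 1) (p (nat_lit 0x119) (nat_lit 1) (p (nat_lit 0xd1) (nat_lit 0) (p (nat_lit 0x81) (nat_lit 0) (p (nat_lit 0x41) (nat_lit 1) (p (nat_lit 0x10a0b09890a9a) (nat_lit 0) (p (nat_lit 0x98a89088a1a) (nat_lit 0) (p (nat_lit 0x1090a0888079a) (nat_lit 0) (p (nat_lit 0x8898807871a) (nat_lit 0) (p (nat_lit 0x8000000000800080787088a) (nat_lit 0) (p (nat_lit 0x8000000000800078706860a) (nat_lit 0) (p (nat_lit 0x10806860782) (nat_lit 0) (p (nat_lit 0x786058702) (nat_lit 0) (p (nat_lit 0x10705850482) (nat_lit 0) (p (nat_lit 0x685048402) (nat_lit 0) (p (nat_lit 0x16000c) (nat_lit 0) (p (nat_lit 0x60592) (nat_lit 0) (p (nat_lit 0x48512) (nat_lit 0) (p (nat_lit 0x50392) (nat_lit 0) (p (nat_lit 0x38312) (nat_lit 0) (p (nat_lit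 0x40212) (nat_lit 0) (p (nat_lit 0x28192) (nat_lit 0) (p (nat_lit 0x30092) (nat_lit 0) (p (nat_lit 0x18012) (nat_lit 0) pn))))))))))))))))))))))))))) :=
  Cl.node (nat_lit 0x200004) (nat_lit 2) (by decide +kernel) (ClAll.succ (ClAll.succ ClAll.zero n226) s161)

def n258 : Cl (O (nat_lit 5)) (R (nat_lit 6353))
    (p (nat_lit 0x200004) (nat_lit 0) (p (nat_lit 0x89) (nat_lit 0) (p (nat_lit 0x101) (nat_lit 1) (p (nat_lit 0xc1) (nat_lit 1) (p (nat_lit 0x119) (nat_lit 1) (p (nat_lit 0xd1) (nat_lit 0) (p (nat_lit 0x81) (nat_lit 0) (p (nat_lit 0x41) (nat_lit 1) (p (nat_lit 0x10a0b09890a9a) (nat_lit 0) (p (nat_lit 0x98a89088a1a) (nat_lit 0) (p (nat_lit 0x1090a0888079a) (nat_lit 0) (p (nat_lit 0x8898807871a) (nat_lit 0) (p (nat_lit 0x8000000000800080787088a) (nat_lit 0) (p (nat_lit 0x8000000000800078706860a) (nat_lit 0) (p (nat_lit 0x10806860782) (nat_lit 0) (p (nat_lit 0x786058702)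 (nat_lit 0) (p (nat_lit 0x10705850482) (nat_lit 0) (p (nat_lit 0x685048402) (nat_lit 0) (p (nat_lit 0x16000c) (nat_lit 0) (p (nat_lit 0x60592) (nat_lit 0) (p (nat_lit 0x48512) (nat_lit 0) (p (nat_lit 0x50392) (nat_lit 0) (p (nat_lit 0x38312) (nat_lit 0) (p (nat_lit 0x40212) (nat_lit 0) (p (nat_lit 0x28192) (nat_lit 0) (p (nat_lit 0x30092) (nat_lit 0) (p (nat_lit 0x18012) (nat_lit 0) pn))))))))))))))))))))))))))) :=
  Cl.node (nat_lit 0x200014) (nat_lit 2) (by decide +kernel) (ClAll.succ (ClAll.succ ClAll.zero n227) s164)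

def n259 : Cl (O (nat_lit 5)) (R (nat_lit 6353))
    (p (nat_lit 0x200004) (nat_lit 0) (p (nat_lit 0x89) (nat_lit 1) (p (nat_lit 0x101) (nat_lit 1) (p (nat_lit 0xc1) (nat_lit 1) (p (nat_lit 0x119) (nat_lit 1) (p (nat_lit 0xd1) (nat_lit 0) (p (nat_lit 0x81) (nat_lit 0) (p (nat_lit 0x41) (nat_lit 1) (p (nat_lit 0x10a0b09890a9a) (nat_lit 0) (p (nat_lit 0x98a89088a1a) (nat_lit 0) (p (nat_lit 0x1090a0888079a) (nat_lit 0) (p (nat_lit 0x8898807871a) (nat_lit 0) (p (nat_lit 0x8000000000800080787088a) (nat_lit 0) (p (nat_lit 0x8000000000800078706860a) (nat_lit 0) (p (nat_lit 0x10806860782) (nat_lit 0) (p (nat_lit 0x786058702) (nat_lit 0) (p (nat_lit 0x10705850482) (nat_lit 0) (p (nat_lit 0x685048402) (nat_lit 0) (p (nat_lit 0x16000c) (nat_lit 0) (p (nat_lit 0x60592) (nat_lit 0) (p (nat_lit 0x48512) (nat_lit 0) (p (nat_lit 0x50392) (nat_lit 0) (p (nat_lit 0x38312) (nat_lit 0) (p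 (nat_lit 0x40212) (nat_lit 0) (p (nat_lit 0x28192) (nat_lit 0) (p (nat_lit 0x30092) (nat_lit 0) (p (nat_lit 0x18012) (nat_lit 0) pn))))))))))))))))))))))))))) :=
  Cl.node (nat_lit 0x200014) (nat_lit 2) (by decide +kernel) (ClAll.succ (ClAll.succ ClAll.zero n228) s179)

def n260 : Cl (O (nat_lit 5)) (R (nat_lit 6353))
    (p (nat_lit 0xc9) (nat_lit 0) (p (nat_lit 0x89) (nat_lit 1) (p (nat_lit 0x109) (nat_lit 1) (p (nat_lit 0x101) (nat_lit 0) (p (nat_lit 0x111) (nat_lit 0) (p (nat_lit 0xd1) (nat_lit 1) (p (nat_lit 0x81) (nat_lit 0) (p (nat_lit 0x41) (nat_lit 1) (p (nat_lit 0x10a0b09890a9a) (nat_lit 0) (p (nat_lit 0x98a89088a1a) (nat_lit 0) (p (nat_lit 0x1090a0888079a) (nat_lit 0) (p (nat_lit 0x8898807871a) (nat_lit 0) (p (nat_lit 0x8000000000800080787088a) (nat_lit 0) (p (nat_lit 0x8000000000800078706860a) (nat_lit 0) (p (nat_lit 0x10806860782) (nat_lit 0) (p (nat_lit 0x786058702)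 (nat_lit 0) (p (nat_lit 0x10705850482) (nat_lit 0) (p (nat_lit 0x685048402) (nat_lit 0) (p (nat_lit 0x16000c) (nat_lit 0) (p (nat_lit 0x60592) (nat_lit 0) (p (nat_lit 0x48512) (nat_lit 0) (p (nat_lit 0x50392) (nat_lit 0) (p (nat_lit 0x38312) (nat_lit 0) (p (nat_lit 0x40212) (nat_lit 0) (p (nat_lit 0x28192) (nat_lit 0) (p (nat_lit 0x30092) (nat_lit 0) (p (nat_lit 0x18012) (nat_lit 0) pn))))))))))))))))))))))))))) :=
  Cl.node (nat_lit 0x200004) (nat_lit 2) (by decide +kernel) (ClAll.succ (ClAll.succ ClAll.zero n229) s189)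

def n261 : Cl (O (nat_lit 5)) (R (nat_lit 6353))
    (p (nat_lit 0x200004) (nat_lit 0) (p (nat_lit 0xc9) (nat_lit 0) (p (nat_lit 0x89) (nat_lit 1) (p (nat_lit 0x101) (nat_lit 1) (p (nat_lit 0x111) (nat_lit 0) (p (nat_lit 0xd1) (nat_lit 1) (p (nat_lit 0x81) (nat_lit 0) (p (nat_lit 0x41) (nat_lit 1) (p (nat_lit 0x10a0b09890a9a) (nat_lit 0) (p (nat_lit 0x98a89088a1a) (nat_lit 0) (p (nat_lit 0x1090a0888079a) (nat_lit 0) (p (nat_lit 0x8898807871a) (nat_lit 0) (p (nat_lit 0x8000000000800080787088a) (nat_lit 0) (p (nat_lit 0x8000000000800078706860a) (nat_lit 0) (p (nat_lit 0x10806860782) (nat_lit 0) (p (nat_lit 0x786058702) (nat_lit 0) (p (nat_lit 0x10705850482) (nat_lit 0) (p (nat_lit 0x685048402) (nat_lit 0) (p (nat_lit 0x16000c) (nat_lit 0) (p (nat_lit 0x60592) (nat_lit 0) (p (nat_lit 0x48512) (nat_lit 0) (p (nat_lit 0x50392) (nat_lit 0) (p (nat_lit 0x38312) (nat_lit 0) (p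 (nat_lit 0x40212) (nat_lit 0) (p (nat_lit 0x28192) (nat_lit 0) (p (nat_lit 0x30092) (nat_lit 0) (p (nat_lit 0x18012) (nat_lit 0) pn))))))))))))))))))))))))))) :=
  Cl.node (nat_lit 0x200014) (nat_lit 2) (by decide +kernel) (ClAll.succ (ClAll.succ ClAll.zero n230) s196)

def n262 : Cl (O (nat_lit 5)) (R (nat_lit 6353))
    (p (nat_lit 0x200004) (nat_lit 0) (p (nat_lit 0xc9) (nat_lit 1) (p (nat_lit 0x89) (nat_lit 1) (p (nat_lit 0x101) (nat_lit 1) (p (nat_lit 0x111) (nat_lit 0) (p (nat_lit 0xd1) (nat_lit 1) (p (nat_lit 0x81) (nat_lit 0) (p (nat_lit 0x41) (nat_lit 1) (p (nat_lit 0x10a0b09890a9a) (nat_lit 0) (p (nat_lit 0x98a89088a1a) (nat_lit 0) (p (nat_lit 0x1090a0888079a) (nat_lit 0) (p (nat_lit 0x8898807871a) (nat_lit 0) (p (nat_lit 0x8000000000800080787088a) (nat_lit 0) (p (nat_lit 0x8000000000800078706860a) (nat_lit 0) (p (nat_lit 0x10806860782) (nat_lit 0) (p (nat_lit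 0x786058702) (nat_lit 0) (p (nat_lit 0x10705850482) (nat_lit 0) (p (nat_lit 0x685048402) (nat_lit 0) (p (nat_lit 0x16000c) (nat_lit 0) (p (nat_lit 0x60592) (nat_lit 0) (p (nat_lit 0x48512) (nat_lit 0) (p (nat_lit 0x50392) (nat_lit 0) (p (nat_lit 0x38312) (nat_lit 0) (p (nat_lit 0x40212) (nat_lit 0) (p (nat_lit 0x28192) (nat_lit 0) (p (nat_lit 0x30092) (nat_lit 0) (p (nat_lit 0x18012) (nat_lit 0) pn))))))))))))))))))))))))))) :=
  Cl.node (nat_lit 0x200014) (nat_lit 2) (by decide +kernel) (ClAll.succ (ClAll.succ ClAll.zero n231) s200)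

def n263 : Cl (O (nat_lit 5)) (R (nat_lit 6353))
    (p (nat_lit 0x200004) (nat_lit 0) (p (nat_lit 0x109) (nat_lit 0) (p (nat_lit 0xc9) (nat_lit 1) (p (nat_lit 0x89) (nat_lit 1) (p (nat_lit 0x111) (nat_lit 1) (p (nat_lit 0xd1) (nat_lit 1) (p (nat_lit 0x81) (nat_lit 0) (p (nat_lit 0x41) (nat_lit 1) (p (nat_lit 0x10a0b09890a9a) (nat_lit 0) (p (nat_lit 0x98a89088a1a) (nat_lit 0) (p (nat_lit 0x1090a0888079a) (nat_lit 0) (p (nat_lit 0x8898807871a) (nat_lit 0) (p (nat_lit 0x8000000000800080787088a) (nat_lit 0) (p (nat_lit 0x8000000000800078706860a) (nat_lit 0) (p (nat_lit 0x10806860782) (nat_lit 0) (p (nat_lit 0x786058702) (nat_lit 0) (p (nat_lit 0x10705850482) (nat_lit 0) (p (nat_lit 0x685048402) (nat_lit 0) (p (nat_lit 0x16000c) (nat_lit 0) (p (nat_lit 0x60592) (nat_lit 0) (p (nat_lit 0x48512) (nat_lit 0) (p (nat_lit 0x50392) (nat_lit 0) (p (nat_lit 0x38312) (nat_lit 0) (p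 (nat_lit 0x40212) (nat_lit 0) (p (nat_lit 0x28192) (nat_lit 0) (p (nat_lit 0x30092) (nat_lit 0) (p (nat_lit 0x18012) (nat_lit 0) pn))))))))))))))))))))))))))) :=
  Cl.node (nat_lit 0x200014) (nat_lit 2) (by decide +kernel) (ClAll.succ (ClAll.succ ClAll.zero n232) s207)

def n264 : Cl (O (nat_lit 5)) (R (nat_lit 6353))
    (p (nat_lit 0x200004) (nat_lit 0) (p (nat_lit 0x109) (nat_lit 1) (p (nat_lit 0xc9) (nat_lit 1) (p (nat_lit 0x89) (nat_lit 1) (p (nat_lit 0x111) (nat_lit 1) (p (nat_lit 0xd1) (nat_lit 1) (p (nat_lit 0x81) (nat_lit 0) (p (nat_lit 0x41) (nat_lit 1) (p (nat_lit 0x10a0b09890a9a) (nat_lit 0) (p (nat_lit 0x98a89088a1a) (nat_lit 0) (p (nat_lit 0x1090a0888079a) (nat_lit 0) (p (nat_lit 0x8898807871a) (nat_lit 0) (p (nat_lit 0x8000000000800080787088a) (nat_lit 0) (p (nat_lit 0x8000000000800078706860a) (nat_lit 0) (p (nat_lit 0x10806860782) (nat_lit 0) (p (nat_lit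 0x786058702) (nat_lit 0) (p (nat_lit 0x10705850482) (nat_lit 0) (p (nat_lit 0x685048402) (nat_lit 0) (p (nat_lit 0x16000c) (nat_lit 0) (p (nat_lit 0x60592) (nat_lit 0) (p (nat_lit 0x48512) (nat_lit 0) (p (nat_lit 0x50392) (nat_lit 0) (p (nat_lit 0x38312) (nat_lit 0) (p (nat_lit 0x40212) (nat_lit 0) (p (nat_lit 0x28192) (nat_lit 0) (p (nat_lit 0x30092) (nat_lit 0) (p (nat_lit 0x18012) (nat_lit 0) pn))))))))))))))))))))))))))) :=
  Cl.node (nat_lit 0x200014) (nat_lit 2) (by decide +kernel) (ClAll.succ (ClAll.succ ClAll.zero n233) s212)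

def n265 : Cl (O (nat_lit 5)) (R (nat_lit 6353))
    (p (nat_lit 0x200004) (nat_lit 0) (p (nat_lit 0x111) (nat_lit 1) (p (nat_lit 0xd1) (nat_lit 1) (p (nat_lit 0xc9) (nat_lit 0) (p (nat_lit 0x119) (nat_lit 1) (p (nat_lit 0xc1) (nat_lit 0) (p (nat_lit 0x81) (nat_lit 1) (p (nat_lit 0x41) (nat_lit 1) (p (nat_lit 0x10a0b09890a9a) (nat_lit 0) (p (nat_lit 0x98a89088a1a) (nat_lit 0) (p (nat_lit 0x1090a0888079a) (nat_lit 0) (p (nat_lit 0x8898807871a) (nat_lit 0) (p (nat_lit 0x8000000000800080787088a) (nat_lit 0) (p (nat_lit 0x8000000000800078706860a) (nat_lit 0) (p (nat_lit 0x10806860782) (nat_lit 0) (p (nat_lit 0x786058702) (nat_lit 0) (p (nat_lit 0x10705850482) (nat_lit 0) (p (nat_lit 0x685048402) (nat_lit 0) (p (nat_lit 0x16000c) (nat_lit 0) (p (nat_lit 0x60592) (nat_lit 0) (p (nat_lit 0x48512) (nat_lit 0) (p (nat_lit 0x50392) (nat_lit 0) (p (nat_lit 0x38312) (nat_lit 0) (p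 (nat_lit 0x40212) (nat_lit 0) (p (nat_lit 0x28192) (nat_lit 0) (p (nat_lit 0x30092) (nat_lit 0) (p (nat_lit 0x18012) (nat_lit 0) pn))))))))))))))))))))))))))) :=
  Cl.node (nat_lit 0x200014) (nat_lit 2) (by decide +kernel) (ClAll.succ (ClAll.succ ClAll.zero n234) s224)

def n266 : Cl (O (nat_lit 5)) (R (nat_lit 6353))
    (p (nat_lit 0x200004) (nat_lit 0) (p (nat_lit 0x111) (nat_lit 1) (p (nat_lit 0x109) (nat_lit 0) (p (nat_lit 0xc9) (nat_lit 1) (p (nat_lit 0x119) (nat_lit 1) (p (nat_lit 0xc1) (nat_lit 0) (p (nat_lit 0x81) (nat_lit 1) (p (nat_lit 0x41) (nat_lit 1) (p (nat_lit 0x10a0b09890a9a) (nat_lit 0) (p (nat_lit 0x98a89088a1a) (nat_lit 0) (p (nat_lit 0x1090a0888079a) (nat_lit 0) (p (nat_lit 0x8898807871a) (nat_lit 0) (p (nat_lit 0x8000000000800080787088a) (nat_lit 0) (p (nat_lit 0x8000000000800078706860a) (nat_lit 0) (p (nat_lit 0x10806860782) (nat_lit 0) (p (nat_lit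 0x786058702) (nat_lit 0) (p (nat_lit 0x10705850482) (nat_lit 0) (p (nat_lit 0x685048402) (nat_lit 0) (p (nat_lit 0x16000c) (nat_lit 0) (p (nat_lit 0x60592) (nat_lit 0) (p (nat_lit 0x48512) (nat_lit 0) (p (nat_lit 0x50392) (nat_lit 0) (p (nat_lit 0x38312) (nat_lit 0) (p (nat_lit 0x40212) (nat_lit 0) (p (nat_lit 0x28192) (nat_lit 0) (p (nat_lit 0x30092) (nat_lit 0) (p (nat_lit 0x18012) (nat_lit 0) pn))))))))))))))))))))))))))) :=
  Cl.node (nat_lit 0x200014) (nat_lit 2) (by decide +kernel) (ClAll.succ (ClAll.succ ClAll.zero n235) s229)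

def n267 : Cl (O (nat_lit 5)) (R (nat_lit 6353))
    (p (nat_lit 0x200014) (nat_lit 0) (p (nat_lit 0x200004) (nat_lit 0) (p (nat_lit 0x109) (nat_lit 1) (p (nat_lit 0xc9) (nat_lit 1) (p (nat_lit 0x119) (nat_lit 1) (p (nat_lit 0xc1) (nat_lit 0) (p (nat_lit 0x81) (nat_lit 1) (p (nat_lit 0x41) (nat_lit 1) (p (nat_lit 0x10a0b09890a9a) (nat_lit 0) (p (nat_lit 0x98a89088a1a) (nat_lit 0) (p (nat_lit 0x1090a0888079a) (nat_lit 0) (p (nat_lit 0x8898807871a) (nat_lit 0) (p (nat_lit 0x8000000000800080787088a) (nat_lit 0) (p (nat_lit 0x8000000000800078706860a) (nat_lit 0) (p (nat_lit 0x10806860782) (nat_lit 0) (p (nat_lit 0x786058702) (nat_lit 0) (p (nat_lit 0x10705850482) (nat_lit 0) (p (nat_lit 0x685048402) (nat_lit 0) (p (nat_lit 0x16000c) (nat_lit 0) (p (nat_lit 0x60592) (nat_lit 0) (p (nat_lit 0x48512) (nat_lit 0) (p (nat_lit 0x50392) (nat_lit 0) (p (nat_lit 0x38312) (nat_lit 0)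 (p (nat_lit 0x40212) (nat_lit 0) (p (nat_lit 0x28192) (nat_lit 0) (p (nat_lit 0x30092) (nat_lit 0) (p (nat_lit 0x18012) (nat_lit 0) pn))))))))))))))))))))))))))) :=
  Cl.node (nat_lit 0xb000c) (nat_lit 2) (by decide +kernel) (ClAll.succ (ClAll.succ ClAll.zero s231) n236)

def n268 : Cl (O (nat_lit 5)) (R (nat_lit 6353))
    (p (nat_lit 0xc9) (nat_lit 0) (p (nat_lit 0x81) (nat_lit 0) (p (nat_lit 0x101) (nat_lit 1) (p (nat_lit 0x119) (nat_lit 0) (p (nat_lit 0xd1) (nat_lit 0) (p (nat_lit 0x89) (nat_lit 0) (p (nat_lit 0x41) (nat_lit 0) (p (nat_lit 0x10a0b09890a9a) (nat_lit 0) (p (nat_lit 0x98a89088a1a) (nat_lit 0) (p (nat_lit 0x1090a0888079a) (nat_lit 0) (p (nat_lit 0x8898807871a) (nat_lit 0) (p (nat_lit 0x8000000000800080787088a) (nat_lit 0) (p (nat_lit 0x8000000000800078706860a) (nat_lit 0) (p (nat_lit 0x10806860782) (nat_lit 0) (p (nat_lit 0x786058702) (nat_lit 0) (p (nat_lit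 0x10705850482) (nat_lit 0) (p (nat_lit 0x685048402) (nat_lit 0) (p (nat_lit 0x16000c) (nat_lit 0) (p (nat_lit 0x60592) (nat_lit 0) (p (nat_lit 0x48512) (nat_lit 0) (p (nat_lit 0x50392) (nat_lit 0) (p (nat_lit 0x38312) (nat_lit 0) (p (nat_lit 0x40212) (nat_lit 0) (p (nat_lit 0x28192) (nat_lit 0) (p (nat_lit 0x30092) (nat_lit 0) (p (nat_lit 0x18012) (nat_lit 0) pn)))))))))))))))))))))))))) :=
  Cl.node (nat_lit 0x200004) (nat_lit 2) (by decide +kernel) (ClAll.succ (ClAll.succ ClAll.zero n237) s7)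

def n269 : Cl (O (nat_lit 5)) (R (nat_lit 6353))
    (p (nat_lit 0xc9) (nat_lit 1) (p (nat_lit 0x81) (nat_lit 0) (p (nat_lit 0x101) (nat_lit 1) (p (nat_lit 0x119) (nat_lit 0) (p (nat_lit 0xd1) (nat_lit 0) (p (nat_lit 0x89) (nat_lit 0) (p (nat_lit 0x41) (nat_lit 0) (p (nat_lit 0x10a0b09890a9a) (nat_lit 0) (p (nat_lit 0x98a89088a1a) (nat_lit 0) (p (nat_lit 0x1090a0888079a) (nat_lit 0) (p (nat_lit 0x8898807871a) (nat_lit 0) (p (nat_lit 0x8000000000800080787088a) (nat_lit 0) (p (nat_lit 0x8000000000800078706860a) (nat_lit 0) (p (nat_lit 0x10806860782) (nat_lit 0) (p (nat_lit 0x786058702) (nat_lit 0) (p (nat_lit 0x10705850482) (nat_lit 0) (p (nat_lit 0x685048402) (nat_lit 0) (p (nat_lit 0x16000c) (nat_lit 0) (p (nat_lit 0x60592) (nat_lit 0) (p (nat_lit 0x48512) (nat_lit 0) (p (nat_lit 0x50392) (nat_lit 0) (p (nat_lit 0x38312) (nat_lit 0) (p (nat_lit 0x40212) (nat_lit 0) (p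 (nat_lit 0x28192) (nat_lit 0) (p (nat_lit 0x30092) (nat_lit 0) (p (nat_lit 0x18012) (nat_lit 0) pn)))))))))))))))))))))))))) :=
  Cl.node (nat_lit 0x200004) (nat_lit 2) (by decide +kernel) (ClAll.succ (ClAll.succ ClAll.zero n238) s13)

def n270 : Cl (O (nat_lit 5)) (R (nat_lit 6353))
    (p (nat_lit 0xc1) (nat_lit 0) (p (nat_lit 0x81) (nat_lit 1) (p (nat_lit 0x101) (nat_lit 1) (p (nat_lit 0x119) (nat_lit 0) (p (nat_lit 0xd1) (nat_lit 0) (p (nat_lit 0x89) (nat_lit 0) (p (nat_lit 0x41) (nat_lit 0) (p (nat_lit 0x10a0b09890a9a) (nat_lit 0) (p (nat_lit 0x98a89088a1a) (nat_lit 0) (p (nat_lit 0x1090a0888079a) (nat_lit 0) (p (nat_lit 0x8898807871a) (nat_lit 0) (p (nat_lit 0x8000000000800080787088a) (nat_lit 0) (p (nat_lit 0x8000000000800078706860a) (nat_lit 0) (p (nat_lit 0x10806860782) (nat_lit 0) (p (nat_lit 0x786058702) (nat_lit 0) (p (nat_lit 0x10705850482) (nat_lit 0) (p (nat_lit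 0x685048402) (nat_lit 0) (p (nat_lit 0x16000c) (nat_lit 0) (p (nat_lit 0x60592) (nat_lit 0) (p (nat_lit 0x48512) (nat_lit 0) (p (nat_lit 0x50392) (nat_lit 0) (p (nat_lit 0x38312) (nat_lit 0) (p (nat_lit 0x40212) (nat_lit 0) (p (nat_lit 0x28192) (nat_lit 0) (p (nat_lit 0x30092) (nat_lit 0) (p (nat_lit 0x18012) (nat_lit 0) pn)))))))))))))))))))))))))) :=
  Cl.node (nat_lit 0xc9) (nat_lit 2) (by decide +kernel) (ClAll.succ (ClAll.succ ClAll.zero n239) n240)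

def n271 : Cl (O (nat_lit 5)) (R (nat_lit 6353))
    (p (nat_lit 0x109) (nat_lit 1) (p (nat_lit 0xc9) (nat_lit 1) (p (nat_lit 0xc1) (nat_lit 0) (p (nat_lit 0x119) (nat_lit 1) (p (nat_lit 0xd1) (nat_lit 0) (p (nat_lit 0x89) (nat_lit 0) (p (nat_lit 0x41) (nat_lit 0) (p (nat_lit 0x10a0b09890a9a) (nat_lit 0) (p (nat_lit 0x98a89088a1a) (nat_lit 0) (p (nat_lit 0x1090a0888079a) (nat_lit 0) (p (nat_lit 0x8898807871a) (nat_lit 0) (p (nat_lit 0x8000000000800080787088a) (nat_lit 0) (p (nat_lit 0x8000000000800078706860a) (nat_lit 0) (p (nat_lit 0x10806860782) (nat_lit 0) (p (nat_lit 0x786058702) (nat_lit 0) (p (nat_lit 0x10705850482) (nat_lit 0) (p (nat_lit 0x685048402) (nat_lit 0) (p (nat_lit 0x16000c) (nat_lit 0) (p (nat_lit 0x60592) (nat_lit 0) (p (nat_lit 0x48512) (nat_lit 0) (p (nat_lit 0x50392) (nat_lit 0) (p (nat_lit 0x38312) (nat_lit 0) (p (nat_lit 0x40212) (nat_lit 0) (p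 (nat_lit 0x28192) (nat_lit 0) (p (nat_lit 0x30092) (nat_lit 0) (p (nat_lit 0x18012) (nat_lit 0) pn)))))))))))))))))))))))))) :=
  Cl.node (nat_lit 0x200004) (nat_lit 2) (by decide +kernel) (ClAll.succ (ClAll.succ ClAll.zero n241) s33)

def n272 : Cl (O (nat_lit 5)) (R (nat_lit 6353))
    (p (nat_lit 0x109) (nat_lit 1) (p (nat_lit 0x81) (nat_lit 0) (p (nat_lit 0xc1) (nat_lit 1) (p (nat_lit 0x119) (nat_lit 1) (p (nat_lit 0xd1) (nat_lit 0) (p (nat_lit 0x89) (nat_lit 0) (p (nat_lit 0x41) (nat_lit 0) (p (nat_lit 0x10a0b09890a9a) (nat_lit 0) (p (nat_lit 0x98a89088a1a) (nat_lit 0) (p (nat_lit 0x1090a0888079a) (nat_lit 0) (p (nat_lit 0x8898807871a) (nat_lit 0) (p (nat_lit 0x8000000000800080787088a) (nat_lit 0) (p (nat_lit 0x8000000000800078706860a) (nat_lit 0) (p (nat_lit 0x10806860782) (nat_lit 0) (p (nat_lit 0x786058702) (nat_lit 0) (p (nat_lit 0x10705850482) (nat_lit 0) (p (nat_lit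 0x685048402) (nat_lit 0) (p (nat_lit 0x16000c) (nat_lit 0) (p (nat_lit 0x60592) (nat_lit 0) (p (nat_lit 0x48512) (nat_lit 0) (p (nat_lit 0x50392) (nat_lit 0) (p (nat_lit 0x38312) (nat_lit 0) (p (nat_lit 0x40212) (nat_lit 0) (p (nat_lit 0x28192) (nat_lit 0) (p (nat_lit 0x30092) (nat_lit 0) (p (nat_lit 0x18012) (nat_lit 0) pn)))))))))))))))))))))))))) :=
  Cl.node (nat_lit 0x200004) (nat_lit 2) (by decide +kernel) (ClAll.succ (ClAll.succ ClAll.zero n242) s38)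

def n273 : Cl (O (nat_lit 5)) (R (nat_lit 6353))
    (p (nat_lit 0x101) (nat_lit 0) (p (nat_lit 0x81) (nat_lit 1) (p (nat_lit 0xc1) (nat_lit 1) (p (nat_lit 0x119) (nat_lit 1) (p (nat_lit 0xd1) (nat_lit 0) (p (nat_lit 0x89) (nat_lit 0) (p (nat_lit 0x41) (nat_lit 0) (p (nat_lit 0x10a0b09890a9a) (nat_lit 0) (p (nat_lit 0x98a89088a1a) (nat_lit 0) (p (nat_lit 0x1090a0888079a) (nat_lit 0) (p (nat_lit 0x8898807871a) (nat_lit 0) (p (nat_lit 0x8000000000800080787088a) (nat_lit 0) (p (nat_lit 0x8000000000800078706860a) (nat_lit 0) (p (nat_lit 0x10806860782) (nat_lit 0) (p (nat_lit 0x786058702) (nat_lit 0) (p (nat_lit 0x10705850482) (nat_lit 0) (p (nat_lit 0x685048402) (nat_lit 0) (p (nat_lit 0x16000c) (nat_lit 0) (p (nat_lit 0x60592) (nat_lit 0) (p (nat_lit 0x48512) (nat_lit 0) (p (nat_lit 0x50392) (nat_lit 0) (p (nat_lit 0x38312) (nat_lit 0) (p (nat_lit 0x40212) (nat_lit 0) (p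 (nat_lit 0x28192) (nat_lit 0) (p (nat_lit 0x30092) (nat_lit 0) (p (nat_lit 0x18012) (nat_lit 0) pn)))))))))))))))))))))))))) :=
  Cl.node (nat_lit 0x109) (nat_lit 2) (by decide +kernel) (ClAll.succ (ClAll.succ ClAll.zero n243) n244)

def n274 : Cl (O (nat_lit 5)) (R (nat_lit 6353))
    (p (nat_lit 0x101) (nat_lit 1) (p (nat_lit 0x81) (nat_lit 1) (p (nat_lit 0xc1) (nat_lit 1) (p (nat_lit 0x119) (nat_lit 1) (p (nat_lit 0xd1) (nat_lit 0) (p (nat_lit 0x89) (nat_lit 0) (p (nat_lit 0x41) (nat_lit 0) (p (nat_lit 0x10a0b09890a9a) (nat_lit 0) (p (nat_lit 0x98a89088a1a) (nat_lit 0) (p (nat_lit 0x1090a0888079a) (nat_lit 0) (p (nat_lit 0x8898807871a) (nat_lit 0) (p (nat_lit 0x8000000000800080787088a) (nat_lit 0) (p (nat_lit 0x8000000000800078706860a) (nat_lit 0) (p (nat_lit 0x10806860782) (nat_lit 0) (p (nat_lit 0x786058702) (nat_lit 0) (p (nat_lit 0x10705850482) (nat_lit 0) (p (nat_lit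 0x685048402) (nat_lit 0) (p (nat_lit 0x16000c) (nat_lit 0) (p (nat_lit 0x60592) (nat_lit 0) (p (nat_lit 0x48512) (nat_lit 0) (p (nat_lit 0x50392) (nat_lit 0) (p (nat_lit 0x38312) (nat_lit 0) (p (nat_lit 0x40212) (nat_lit 0) (p (nat_lit 0x28192) (nat_lit 0) (p (nat_lit 0x30092) (nat_lit 0) (p (nat_lit 0x18012) (nat_lit 0) pn)))))))))))))))))))))))))) :=
  Cl.node (nat_lit 0x200004) (nat_lit 2) (by decide +kernel) (ClAll.succ (ClAll.succ ClAll.zero n245) s51)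

def n275 : Cl (O (nat_lit 5)) (R (nat_lit 6353))
    (p (nat_lit 0xc1) (nat_lit 0) (p (nat_lit 0x81) (nat_lit 1) (p (nat_lit 0x101) (nat_lit 1) (p (nat_lit 0x111) (nat_lit 0) (p (nat_lit 0xd1) (nat_lit 1) (p (nat_lit 0x89) (nat_lit 0) (p (nat_lit 0x41) (nat_lit 0) (p (nat_lit 0x10a0b09890a9a) (nat_lit 0) (p (nat_lit 0x98a89088a1a) (nat_lit 0) (p (nat_lit 0x1090a0888079a) (nat_lit 0) (p (nat_lit 0x8898807871a) (nat_lit 0) (p (nat_lit 0x8000000000800080787088a) (nat_lit 0) (p (nat_lit 0x8000000000800078706860a) (nat_lit 0) (p (nat_lit 0x10806860782) (nat_lit 0) (p (nat_lit 0x786058702) (nat_lit 0) (p (nat_lit 0x10705850482) (nat_lit 0) (p (nat_lit 0x685048402) (nat_lit 0) (p (nat_lit 0x16000c) (nat_lit 0) (p (nat_lit 0x60592) (nat_lit 0) (p (nat_lit 0x48512) (nat_lit 0) (p (nat_lit 0x50392) (nat_lit 0) (p (nat_lit 0x38312) (nat_lit 0) (p (nat_lit 0x40212) (nat_lit 0) (p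 (nat_lit 0x28192) (nat_lit 0) (p (nat_lit 0x30092) (nat_lit 0) (p (nat_lit 0x18012) (nat_lit 0) pn)))))))))))))))))))))))))) :=
  Cl.node (nat_lit 0x200004) (nat_lit 2) (by decide +kernel) (ClAll.succ (ClAll.succ ClAll.zero n246) s60)

def n276 : Cl (O (nat_lit 5)) (R (nat_lit 6353))
    (p (nat_lit 0x101) (nat_lit 1) (p (nat_lit 0xc1) (nat_lit 1) (p (nat_lit 0x81) (nat_lit 1) (p (nat_lit 0x111) (nat_lit 1) (p (nat_lit 0xd1) (nat_lit 1) (p (nat_lit 0x89) (nat_lit 0) (p (nat_lit 0x41) (nat_lit 0) (p (nat_lit 0x10a0b09890a9a) (nat_lit 0) (p (nat_lit 0x98a89088a1a) (nat_lit 0) (p (nat_lit 0x1090a0888079a) (nat_lit 0) (p (nat_lit 0x8898807871a) (nat_lit 0) (p (nat_lit 0x8000000000800080787088a) (nat_lit 0) (p (nat_lit 0x8000000000800078706860a) (nat_lit 0) (p (nat_lit 0x10806860782) (nat_lit 0) (p (nat_lit 0x786058702) (nat_lit 0) (p (nat_lit 0x10705850482) (nat_lit 0) (p (nat_lit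 0x685048402) (nat_lit 0) (p (nat_lit 0x16000c) (nat_lit 0) (p (nat_lit 0x60592) (nat_lit 0) (p (nat_lit 0x48512) (nat_lit 0) (p (nat_lit 0x50392) (nat_lit 0) (p (nat_lit 0x38312) (nat_lit 0) (p (nat_lit 0x40212) (nat_lit 0) (p (nat_lit 0x28192) (nat_lit 0) (p (nat_lit 0x30092) (nat_lit 0) (p (nat_lit 0x18012) (nat_lit 0) pn)))))))))))))))))))))))))) :=
  Cl.node (nat_lit 0x200004) (nat_lit 2) (by decide +kernel) (ClAll.succ (ClAll.succ ClAll.zero s65) s66)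

def n277 : Cl (O (nat_lit 5)) (R (nat_lit 6353))
    (p (nat_lit 0xd1) (nat_lit 0) (p (nat_lit 0xc1) (nat_lit 0) (p (nat_lit 0x101) (nat_lit 1) (p (nat_lit 0x119) (nat_lit 0) (p (nat_lit 0xc9) (nat_lit 0) (p (nat_lit 0x89) (nat_lit 1) (p (nat_lit 0x41) (nat_lit 0) (p (nat_lit 0x10a0b09890a9a) (nat_lit 0) (p (nat_lit 0x98a89088a1a) (nat_lit 0) (p (nat_lit 0x1090a0888079a) (nat_lit 0) (p (nat_lit 0x8898807871a) (nat_lit 0) (p (nat_lit 0x8000000000800080787088a) (nat_lit 0) (p (nat_lit 0x8000000000800078706860a) (nat_lit 0) (p (nat_lit 0x10806860782) (nat_lit 0) (p (nat_lit 0x786058702) (nat_lit 0) (p (nat_lit 0x10705850482) (nat_lit 0) (p (nat_lit 0x685048402) (nat_lit 0) (p (nat_lit 0x16000c) (nat_lit 0) (p (nat_lit 0x60592) (nat_lit 0) (p (nat_lit 0x48512) (nat_lit 0) (p (nat_lit 0x50392) (nat_lit 0) (p (nat_lit 0x38312) (nat_lit 0) (p (nat_lit 0x40212) (nat_lit 0) (p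 (nat_lit 0x28192) (nat_lit 0) (p (nat_lit 0x30092) (nat_lit 0) (p (nat_lit 0x18012) (nat_lit 0) pn)))))))))))))))))))))))))) :=
  Cl.node (nat_lit 0x200004) (nat_lit 2) (by decide +kernel) (ClAll.succ (ClAll.succ ClAll.zero s70) s71)

def n278 : Cl (O (nat_lit 5)) (R (nat_lit 6353))
    (p (nat_lit 0x111) (nat_lit 1) (p (nat_lit 0xd1) (nat_lit 1) (p (nat_lit 0xc1) (nat_lit 0) (p (nat_lit 0x119) (nat_lit 1) (p (nat_lit 0xc9) (nat_lit 0) (p (nat_lit 0x89) (nat_lit 1) (p (nat_lit 0x41) (nat_lit 0) (p (nat_lit 0x10a0b09890a9a) (nat_lit 0) (p (nat_lit 0x98a89088a1a) (nat_lit 0) (p (nat_lit 0x1090a0888079a) (nat_lit 0) (p (nat_lit 0x8898807871a) (nat_lit 0) (p (nat_lit 0x8000000000800080787088a) (nat_lit 0) (p (nat_lit 0x8000000000800078706860a) (nat_lit 0) (p (nat_lit 0x10806860782) (nat_lit 0) (p (nat_lit 0x786058702) (nat_lit 0) (p (nat_lit 0x10705850482) (nat_lit 0) (p (nat_lit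 0x685048402) (nat_lit 0) (p (nat_lit 0x16000c) (nat_lit 0) (p (nat_lit 0x60592) (nat_lit 0) (p (nat_lit 0x48512) (nat_lit 0) (p (nat_lit 0x50392) (nat_lit 0) (p (nat_lit 0x38312) (nat_lit 0) (p (nat_lit 0x40212) (nat_lit 0) (p (nat_lit 0x28192) (nat_lit 0) (p (nat_lit 0x30092) (nat_lit 0) (p (nat_lit 0x18012) (nat_lit 0) pn)))))))))))))))))))))))))) :=
  Cl.node (nat_lit 0x200004) (nat_lit 2) (by decide +kernel) (ClAll.succ (ClAll.succ ClAll.zero n247) s81)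

def n279 : Cl (O (nat_lit 5)) (R (nat_lit 6353))
    (p (nat_lit 0x111) (nat_lit 1) (p (nat_lit 0x101) (nat_lit 0) (p (nat_lit 0xc1) (nat_lit 1) (p (nat_lit 0x119) (nat_lit 1) (p (nat_lit 0xc9) (nat_lit 0) (p (nat_lit 0x89) (nat_lit 1) (p (nat_lit 0x41) (nat_lit 0) (p (nat_lit 0x10a0b09890a9a) (nat_lit 0) (p (nat_lit 0x98a89088a1a) (nat_lit 0) (p (nat_lit 0x1090a0888079a) (nat_lit 0) (p (nat_lit 0x8898807871a) (nat_lit 0) (p (nat_lit 0x8000000000800080787088a) (nat_lit 0) (p (nat_lit 0x8000000000800078706860a) (nat_lit 0) (p (nat_lit 0x10806860782) (nat_lit 0) (p (nat_lit 0x786058702) (nat_lit 0) (p (nat_lit 0x10705850482) (nat_lit 0) (p (nat_lit 0x685048402) (nat_lit 0) (p (nat_lit 0x16000c) (nat_lit 0) (p (nat_lit 0x60592) (nat_lit 0) (p (nat_lit 0x48512) (nat_lit 0) (p (nat_lit 0x50392) (nat_lit 0) (p (nat_lit 0x38312) (nat_lit 0) (p (nat_lit 0x40212) (nat_lit 0) (p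 (nat_lit 0x28192) (nat_lit 0) (p (nat_lit 0x30092) (nat_lit 0) (p (nat_lit 0x18012) (nat_lit 0) pn)))))))))))))))))))))))))) :=
  Cl.node (nat_lit 0x200004) (nat_lit 2) (by decide +kernel) (ClAll.succ (ClAll.succ ClAll.zero n248) s86)

def n280 : Cl (O (nat_lit 5)) (R (nat_lit 6353))
    (p (nat_lit 0x200004) (nat_lit 0) (p (nat_lit 0x101) (nat_lit 1) (p (nat_lit 0xc1) (nat_lit 1) (p (nat_lit 0x119) (nat_lit 1) (p (nat_lit 0xc9) (nat_lit 0) (p (nat_lit 0x89) (nat_lit 1) (p (nat_lit 0x41) (nat_lit 0) (p (nat_lit 0x10a0b09890a9a) (nat_lit 0) (p (nat_lit 0x98a89088a1a) (nat_lit 0) (p (nat_lit 0x1090a0888079a) (nat_lit 0) (p (nat_lit 0x8898807871a) (nat_lit 0) (p (nat_lit 0x8000000000800080787088a) (nat_lit 0) (p (nat_lit 0x8000000000800078706860a) (nat_lit 0) (p (nat_lit 0x10806860782) (nat_lit 0) (p (nat_lit 0x786058702) (nat_lit 0) (p (nat_lit 0x10705850482) (nat_lit 0)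 (p (nat_lit 0x685048402) (nat_lit 0) (p (nat_lit 0x16000c) (nat_lit 0) (p (nat_lit 0x60592) (nat_lit 0) (p (nat_lit 0x48512) (nat_lit 0) (p (nat_lit 0x50392) (nat_lit 0) (p (nat_lit 0x38312) (nat_lit 0) (p (nat_lit 0x40212) (nat_lit 0) (p (nat_lit 0x28192) (nat_lit 0) (p (nat_lit 0x30092) (nat_lit 0) (p (nat_lit 0x18012) (nat_lit 0) pn)))))))))))))))))))))))))) :=
  Cl.node (nat_lit 0x200014) (nat_lit 2) (by decide +kernel) (ClAll.succ (ClAll.succ ClAll.zero s87) s88)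

def n281 : Cl (O (nat_lit 5)) (R (nat_lit 6353))
    (p (nat_lit 0x89) (nat_lit 0) (p (nat_lit 0x109) (nat_lit 1) (p (nat_lit 0x101) (nat_lit 0) (p (nat_lit 0x119) (nat_lit 0) (p (nat_lit 0xd1) (nat_lit 0) (p (nat_lit 0x81) (nat_lit 0) (p (nat_lit 0x41) (nat_lit 1) (p (nat_lit 0x10a0b09890a9a) (nat_lit 0) (p (nat_lit 0x98a89088a1a) (nat_lit 0) (p (nat_lit 0x1090a0888079a) (nat_lit 0) (p (nat_lit 0x8898807871a) (nat_lit 0) (p (nat_lit 0x8000000000800080787088a) (nat_lit 0) (p (nat_lit 0x8000000000800078706860a) (nat_lit 0) (p (nat_lit 0x10806860782) (nat_lit 0) (p (nat_lit 0x786058702) (nat_lit 0) (p (nat_lit 0x10705850482) (nat_lit 0) (p (nat_lit 0x685048402) (nat_lit 0) (p (nat_lit 0x16000c) (nat_lit 0) (p (nat_lit 0x60592) (nat_lit 0) (p (nat_lit 0x48512) (nat_lit 0) (p (nat_lit 0x50392) (nat_lit 0) (p (nat_lit 0x38312) (nat_lit 0) (p (nat_lit 0x40212) (nat_lit 0) (p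 (nat_lit 0x28192) (nat_lit 0) (p (nat_lit 0x30092) (nat_lit 0) (p (nat_lit 0x18012) (nat_lit 0) pn)))))))))))))))))))))))))) :=
  Cl.node (nat_lit 0x200004) (nat_lit 2) (by decide +kernel) (ClAll.succ (ClAll.succ ClAll.zero n249) s97)

def n282 : Cl (O (nat_lit 5)) (R (nat_lit 6353))
    (p (nat_lit 0x89) (nat_lit 1) (p (nat_lit 0x109) (nat_lit 1) (p (nat_lit 0x101) (nat_lit 0) (p (nat_lit 0x119) (nat_lit 0) (p (nat_lit 0xd1) (nat_lit 0) (p (nat_lit 0x81) (nat_lit 0) (p (nat_lit 0x41) (nat_lit 1) (p (nat_lit 0x10a0b09890a9a) (nat_lit 0) (p (nat_lit 0x98a89088a1a) (nat_lit 0) (p (nat_lit 0x1090a0888079a) (nat_lit 0) (p (nat_lit 0x8898807871a) (nat_lit 0) (p (nat_lit 0x8000000000800080787088a) (nat_lit 0) (p (nat_lit 0x8000000000800078706860a) (nat_lit 0) (p (nat_lit 0x10806860782) (nat_lit 0) (p (nat_lit 0x786058702) (nat_lit 0) (p (nat_lit 0x10705850482) (nat_lit 0) (p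 (nat_lit 0x685048402) (nat_lit 0) (p (nat_lit 0x16000c) (nat_lit 0) (p (nat_lit 0x60592) (nat_lit 0) (p (nat_lit 0x48512) (nat_lit 0) (p (nat_lit 0x50392) (nat_lit 0) (p (nat_lit 0x38312) (nat_lit 0) (p (nat_lit 0x40212) (nat_lit 0) (p (nat_lit 0x28192) (nat_lit 0) (p (nat_lit 0x30092) (nat_lit 0) (p (nat_lit 0x18012) (nat_lit 0) pn)))))))))))))))))))))))))) :=
  Cl.node (nat_lit 0xc9) (nat_lit 2) (by decide +kernel) (ClAll.succ (ClAll.succ ClAll.zero n250) s105)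

def n283 : Cl (O (nat_lit 5)) (R (nat_lit 6353))
    (p (nat_lit 0x89) (nat_lit 1) (p (nat_lit 0xc1) (nat_lit 0) (p (nat_lit 0x101) (nat_lit 1) (p (nat_lit 0x119) (nat_lit 0) (p (nat_lit 0xd1) (nat_lit 0) (p (nat_lit 0x81) (nat_lit 0) (p (nat_lit 0x41) (nat_lit 1) (p (nat_lit 0x10a0b09890a9a) (nat_lit 0) (p (nat_lit 0x98a89088a1a) (nat_lit 0) (p (nat_lit 0x1090a0888079a) (nat_lit 0) (p (nat_lit 0x8898807871a) (nat_lit 0) (p (nat_lit 0x8000000000800080787088a) (nat_lit 0) (p (nat_lit 0x8000000000800078706860a) (nat_lit 0) (p (nat_lit 0x10806860782) (nat_lit 0) (p (nat_lit 0x786058702) (nat_lit 0) (p (nat_lit 0x10705850482) (nat_lit 0) (p (nat_lit 0x685048402) (nat_lit 0) (p (nat_lit 0x16000c) (nat_lit 0) (p (nat_lit 0x60592) (nat_lit 0) (p (nat_lit 0x48512) (nat_lit 0) (p (nat_lit 0x50392) (nat_lit 0) (p (nat_lit 0x38312) (nat_lit 0) (p (nat_lit 0x40212) (nat_lit 0) (p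 (nat_lit 0x28192) (nat_lit 0) (p (nat_lit 0x30092) (nat_lit 0) (p (nat_lit 0x18012) (nat_lit 0) pn)))))))))))))))))))))))))) :=
  Cl.node (nat_lit 0xc9) (nat_lit 2) (by decide +kernel) (ClAll.succ (ClAll.succ ClAll.zero n251) n252)

def n284 : Cl (O (nat_lit 5)) (R (nat_lit 6353))
    (p (nat_lit 0x89) (nat_lit 1) (p (nat_lit 0xc1) (nat_lit 1) (p (nat_lit 0x101) (nat_lit 1) (p (nat_lit 0x119) (nat_lit 0) (p (nat_lit 0xd1) (nat_lit 0) (p (nat_lit 0x81) (nat_lit 0) (p (nat_lit 0x41) (nat_lit 1) (p (nat_lit 0x10a0b09890a9a) (nat_lit 0) (p (nat_lit 0x98a89088a1a) (nat_lit 0) (p (nat_lit 0x1090a0888079a) (nat_lit 0) (p (nat_lit 0x8898807871a) (nat_lit 0) (p (nat_lit 0x8000000000800080787088a) (nat_lit 0) (p (nat_lit 0x8000000000800078706860a) (nat_lit 0) (p (nat_lit 0x10806860782) (nat_lit 0) (p (nat_lit 0x786058702) (nat_lit 0) (p (nat_lit 0x10705850482) (nat_lit 0) (p (nat_lit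 0x685048402) (nat_lit 0) (p (nat_lit 0x16000c) (nat_lit 0) (p (nat_lit 0x60592) (nat_lit 0) (p (nat_lit 0x48512) (nat_lit 0) (p (nat_lit 0x50392) (nat_lit 0) (p (nat_lit 0x38312) (nat_lit 0) (p (nat_lit 0x40212) (nat_lit 0) (p (nat_lit 0x28192) (nat_lit 0) (p (nat_lit 0x30092) (nat_lit 0) (p (nat_lit 0x18012) (nat_lit 0) pn)))))))))))))))))))))))))) :=
  Cl.node (nat_lit 0x200004) (nat_lit 2) (by decide +kernel) (ClAll.succ (ClAll.succ ClAll.zero n253) s137)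

def n285 : Cl (O (nat_lit 5)) (R (nat_lit 6353))
    (p (nat_lit 0x89) (nat_lit 1) (p (nat_lit 0xc9) (nat_lit 1) (p (nat_lit 0xc1) (nat_lit 0) (p (nat_lit 0x119) (nat_lit 1) (p (nat_lit 0xd1) (nat_lit 0) (p (nat_lit 0x81) (nat_lit 0) (p (nat_lit 0x41) (nat_lit 1) (p (nat_lit 0x10a0b09890a9a) (nat_lit 0) (p (nat_lit 0x98a89088a1a) (nat_lit 0) (p (nat_lit 0x1090a0888079a) (nat_lit 0) (p (nat_lit 0x8898807871a) (nat_lit 0) (p (nat_lit 0x8000000000800080787088a) (nat_lit 0) (p (nat_lit 0x8000000000800078706860a) (nat_lit 0) (p (nat_lit 0x10806860782) (nat_lit 0) (p (nat_lit 0x786058702) (nat_lit 0) (p (nat_lit 0x10705850482) (nat_lit 0) (p (nat_lit 0x685048402) (nat_lit 0) (p (nat_lit 0x16000c) (nat_lit 0) (p (nat_lit 0x60592) (nat_lit 0) (p (nat_lit 0x48512) (nat_lit 0) (p (nat_lit 0x50392) (nat_lit 0) (p (nat_lit 0x38312) (nat_lit 0) (p (nat_lit 0x40212) (nat_lit 0) (p (nat_lit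 0x28192) (nat_lit 0) (p (nat_lit 0x30092) (nat_lit 0) (p (nat_lit 0x18012) (nat_lit 0) pn)))))))))))))))))))))))))) :=
  Cl.node (nat_lit 0x109) (nat_lit 2) (by decide +kernel) (ClAll.succ (ClAll.succ ClAll.zero n254) n255)

def n286 : Cl (O (nat_lit 5)) (R (nat_lit 6353))
    (p (nat_lit 0x89) (nat_lit 1) (p (nat_lit 0x101) (nat_lit 0) (p (nat_lit 0xc1) (nat_lit 1) (p (nat_lit 0x119) (nat_lit 1) (p (nat_lit 0xd1) (nat_lit 0) (p (nat_lit 0x81) (nat_lit 0) (p (nat_lit 0x41) (nat_lit 1) (p (nat_lit 0x10a0b09890a9a) (nat_lit 0) (p (nat_lit 0x98a89088a1a) (nat_lit 0) (p (nat_lit 0x1090a0888079a) (nat_lit 0) (p (nat_lit 0x8898807871a) (nat_lit 0) (p (nat_lit 0x8000000000800080787088a) (nat_lit 0) (p (nat_lit 0x8000000000800078706860a) (nat_lit 0) (p (nat_lit 0x10806860782) (nat_lit 0) (p (nat_lit 0x786058702) (nat_lit 0) (p (nat_lit 0x10705850482) (nat_lit 0) (p (nat_lit 0x685048402)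 (nat_lit 0) (p (nat_lit 0x16000c) (nat_lit 0) (p (nat_lit 0x60592) (nat_lit 0) (p (nat_lit 0x48512) (nat_lit 0) (p (nat_lit 0x50392) (nat_lit 0) (p (nat_lit 0x38312) (nat_lit 0) (p (nat_lit 0x40212) (nat_lit 0) (p (nat_lit 0x28192) (nat_lit 0) (p (nat_lit 0x30092) (nat_lit 0) (p (nat_lit 0x18012) (nat_lit 0) pn)))))))))))))))))))))))))) :=
  Cl.node (nat_lit 0x109) (nat_lit 2) (by decide +kernel) (ClAll.succ (ClAll.succ ClAll.zero n256) n257)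

def n287 : Cl (O (nat_lit 5)) (R (nat_lit 6353))
    (p (nat_lit 0x89) (nat_lit 0) (p (nat_lit 0x101) (nat_lit 1) (p (nat_lit 0xc1) (nat_lit 1) (p (nat_lit 0x119) (nat_lit 1) (p (nat_lit 0xd1) (nat_lit 0) (p (nat_lit 0x81) (nat_lit 0) (p (nat_lit 0x41) (nat_lit 1) (p (nat_lit 0x10a0b09890a9a) (nat_lit 0) (p (nat_lit 0x98a89088a1a) (nat_lit 0) (p (nat_lit 0x1090a0888079a) (nat_lit 0) (p (nat_lit 0x8898807871a) (nat_lit 0) (p (nat_lit 0x8000000000800080787088a) (nat_lit 0) (p (nat_lit 0x8000000000800078706860a) (nat_lit 0) (p (nat_lit 0x10806860782) (nat_lit 0) (p (nat_lit 0x786058702) (nat_lit 0) (p (nat_lit 0x10705850482) (nat_lit 0) (p (nat_lit 0x685048402) (nat_lit 0) (p (nat_lit 0x16000c) (nat_lit 0) (p (nat_lit 0x60592) (nat_lit 0) (p (nat_lit 0x48512) (nat_lit 0) (p (nat_lit 0x50392) (nat_lit 0) (p (nat_lit 0x38312) (nat_lit 0) (p (nat_lit 0x40212) (nat_lit 0) (p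 (nat_lit 0x28192) (nat_lit 0) (p (nat_lit 0x30092) (nat_lit 0) (p (nat_lit 0x18012) (nat_lit 0) pn)))))))))))))))))))))))))) :=
  Cl.node (nat_lit 0x200004) (nat_lit 2) (by decide +kernel) (ClAll.succ (ClAll.succ ClAll.zero n258) s165)

def n288 : Cl (O (nat_lit 5)) (R (nat_lit 6353))
    (p (nat_lit 0x89) (nat_lit 1) (p (nat_lit 0x101) (nat_lit 1) (p (nat_lit 0xc1) (nat_lit 1) (p (nat_lit 0x119) (nat_lit 1) (p (nat_lit 0xd1) (nat_lit 0) (p (nat_lit 0x81) (nat_lit 0) (p (nat_lit 0x41) (nat_lit 1) (p (nat_lit 0x10a0b09890a9a) (nat_lit 0) (p (nat_lit 0x98a89088a1a) (nat_lit 0) (p (nat_lit 0x1090a0888079a) (nat_lit 0) (p (nat_lit 0x8898807871a) (nat_lit 0) (p (nat_lit 0x8000000000800080787088a) (nat_lit 0) (p (nat_lit 0x8000000000800078706860a) (nat_lit 0) (p (nat_lit 0x10806860782) (nat_lit 0) (p (nat_lit 0x786058702) (nat_lit 0) (p (nat_lit 0x10705850482) (nat_lit 0) (p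 (nat_lit 0x685048402) (nat_lit 0) (p (nat_lit 0x16000c) (nat_lit 0) (p (nat_lit 0x60592) (nat_lit 0) (p (nat_lit 0x48512) (nat_lit 0) (p (nat_lit 0x50392) (nat_lit 0) (p (nat_lit 0x38312) (nat_lit 0) (p (nat_lit 0x40212) (nat_lit 0) (p (nat_lit 0x28192) (nat_lit 0) (p (nat_lit 0x30092) (nat_lit 0) (p (nat_lit 0x18012) (nat_lit 0) pn)))))))))))))))))))))))))) :=
  Cl.node (nat_lit 0x200004) (nat_lit 2) (by decide +kernel) (ClAll.succ (ClAll.succ ClAll.zero n259) s180)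

def n289 : Cl (O (nat_lit 5)) (R (nat_lit 6353))
    (p (nat_lit 0x89) (nat_lit 1) (p (nat_lit 0x109) (nat_lit 1) (p (nat_lit 0x101) (nat_lit 0) (p (nat_lit 0x111) (nat_lit 0) (p (nat_lit 0xd1) (nat_lit 1) (p (nat_lit 0x81) (nat_lit 0) (p (nat_lit 0x41) (nat_lit 1) (p (nat_lit 0x10a0b09890a9a) (nat_lit 0) (p (nat_lit 0x98a89088a1a) (nat_lit 0) (p (nat_lit 0x1090a0888079a) (nat_lit 0) (p (nat_lit 0x8898807871a) (nat_lit 0) (p (nat_lit 0x8000000000800080787088a) (nat_lit 0) (p (nat_lit 0x8000000000800078706860a) (nat_lit 0) (p (nat_lit 0x10806860782) (nat_lit 0) (p (nat_lit 0x786058702) (nat_lit 0) (p (nat_lit 0x10705850482) (nat_lit 0) (p (nat_lit 0x685048402) (nat_lit 0) (p (nat_lit 0x16000c) (nat_lit 0) (p (nat_lit 0x60592) (nat_lit 0) (p (nat_lit 0x48512) (nat_lit 0) (p (nat_lit 0x50392) (nat_lit 0) (p (nat_lit 0x38312) (nat_lit 0) (p (nat_lit 0x40212) (nat_lit 0) (p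 (nat_lit 0x28192) (nat_lit 0) (p (nat_lit 0x30092) (nat_lit 0) (p (nat_lit 0x18012) (nat_lit 0) pn)))))))))))))))))))))))))) :=
  Cl.node (nat_lit 0xc9) (nat_lit 2) (by decide +kernel) (ClAll.succ (ClAll.succ ClAll.zero n260) s190)

def n290 : Cl (O (nat_lit 5)) (R (nat_lit 6353))
    (p (nat_lit 0xc9) (nat_lit 0) (p (nat_lit 0x89) (nat_lit 1) (p (nat_lit 0x101) (nat_lit 1) (p (nat_lit 0x111) (nat_lit 0) (p (nat_lit 0xd1) (nat_lit 1) (p (nat_lit 0x81) (nat_lit 0) (p (nat_lit 0x41) (nat_lit 1) (p (nat_lit 0x10a0b09890a9a) (nat_lit 0) (p (nat_lit 0x98a89088a1a) (nat_lit 0) (p (nat_lit 0x1090a0888079a) (nat_lit 0) (p (nat_lit 0x8898807871a) (nat_lit 0) (p (nat_lit 0x8000000000800080787088a) (nat_lit 0) (p (nat_lit 0x8000000000800078706860a) (nat_lit 0) (p (nat_lit 0x10806860782) (nat_lit 0) (p (nat_lit 0x786058702) (nat_lit 0) (p (nat_lit 0x10705850482) (nat_lit 0) (p (nat_lit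 0x685048402) (nat_lit 0) (p (nat_lit 0x16000c) (nat_lit 0) (p (nat_lit 0x60592) (nat_lit 0) (p (nat_lit 0x48512) (nat_lit 0) (p (nat_lit 0x50392) (nat_lit 0) (p (nat_lit 0x38312) (nat_lit 0) (p (nat_lit 0x40212) (nat_lit 0) (p (nat_lit 0x28192) (nat_lit 0) (p (nat_lit 0x30092) (nat_lit 0) (p (nat_lit 0x18012) (nat_lit 0) pn)))))))))))))))))))))))))) :=
  Cl.node (nat_lit 0x200004) (nat_lit 2) (by decide +kernel) (ClAll.succ (ClAll.succ ClAll.zero n261) s197)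

def n291 : Cl (O (nat_lit 5)) (R (nat_lit 6353))
    (p (nat_lit 0xc9) (nat_lit 1) (p (nat_lit 0x89) (nat_lit 1) (p (nat_lit 0x101) (nat_lit 1) (p (nat_lit 0x111) (nat_lit 0) (p (nat_lit 0xd1) (nat_lit 1) (p (nat_lit 0x81) (nat_lit 0) (p (nat_lit 0x41) (nat_lit 1) (p (nat_lit 0x10a0b09890a9a) (nat_lit 0) (p (nat_lit 0x98a89088a1a) (nat_lit 0) (p (nat_lit 0x1090a0888079a) (nat_lit 0) (p (nat_lit 0x8898807871a) (nat_lit 0) (p (nat_lit 0x8000000000800080787088a) (nat_lit 0) (p (nat_lit 0x8000000000800078706860a) (nat_lit 0) (p (nat_lit 0x10806860782) (nat_lit 0) (p (nat_lit 0x786058702) (nat_lit 0) (p (nat_lit 0x10705850482) (nat_lit 0) (p (nat_lit 0x685048402) (nat_lit 0) (p (nat_lit 0x16000c) (nat_lit 0) (p (nat_lit 0x60592) (nat_lit 0) (p (nat_lit 0x48512) (nat_lit 0) (p (nat_lit 0x50392) (nat_lit 0) (p (nat_lit 0x38312) (nat_lit 0) (p (nat_lit 0x40212) (nat_lit 0) (p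 (nat_lit 0x28192) (nat_lit 0) (p (nat_lit 0x30092) (nat_lit 0) (p (nat_lit 0x18012) (nat_lit 0) pn)))))))))))))))))))))))))) :=
  Cl.node (nat_lit 0x200004) (nat_lit 2) (by decide +kernel) (ClAll.succ (ClAll.succ ClAll.zero n262) s201)

def n292 : Cl (O (nat_lit 5)) (R (nat_lit 6353))
    (p (nat_lit 0x109) (nat_lit 0) (p (nat_lit 0xc9) (nat_lit 1) (p (nat_lit 0x89) (nat_lit 1) (p (nat_lit 0x111) (nat_lit 1) (p (nat_lit 0xd1) (nat_lit 1) (p (nat_lit 0x81) (nat_lit 0) (p (nat_lit 0x41) (nat_lit 1) (p (nat_lit 0x10a0b09890a9a) (nat_lit 0) (p (nat_lit 0x98a89088a1a) (nat_lit 0) (p (nat_lit 0x1090a0888079a) (nat_lit 0) (p (nat_lit 0x8898807871a) (nat_lit 0) (p (nat_lit 0x8000000000800080787088a) (nat_lit 0) (p (nat_lit 0x8000000000800078706860a) (nat_lit 0) (p (nat_lit 0x10806860782) (nat_lit 0) (p (nat_lit 0x786058702) (nat_lit 0) (p (nat_lit 0x10705850482) (nat_lit 0) (p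 (nat_lit 0x685048402) (nat_lit 0) (p (nat_lit 0x16000c) (nat_lit 0) (p (nat_lit 0x60592) (nat_lit 0) (p (nat_lit 0x48512) (nat_lit 0) (p (nat_lit 0x50392) (nat_lit 0) (p (nat_lit 0x38312) (nat_lit 0) (p (nat_lit 0x40212) (nat_lit 0) (p (nat_lit 0x28192) (nat_lit 0) (p (nat_lit 0x30092) (nat_lit 0) (p (nat_lit 0x18012) (nat_lit 0) pn)))))))))))))))))))))))))) :=
  Cl.node (nat_lit 0x200004) (nat_lit 2) (by decide +kernel) (ClAll.succ (ClAll.succ ClAll.zero n263) s208)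

def n293 : Cl (O (nat_lit 5)) (R (nat_lit 6353))
    (p (nat_lit 0x109) (nat_lit 1) (p (nat_lit 0xc9) (nat_lit 1) (p (nat_lit 0x89) (nat_lit 1) (p (nat_lit 0x111) (nat_lit 1) (p (nat_lit 0xd1) (nat_lit 1) (p (nat_lit 0x81) (nat_lit 0) (p (nat_lit 0x41) (nat_lit 1) (p (nat_lit 0x10a0b09890a9a) (nat_lit 0) (p (nat_lit 0x98a89088a1a) (nat_lit 0) (p (nat_lit 0x1090a0888079a) (nat_lit 0) (p (nat_lit 0x8898807871a) (nat_lit 0) (p (nat_lit 0x8000000000800080787088a) (nat_lit 0) (p (nat_lit 0x8000000000800078706860a) (nat_lit 0) (p (nat_lit 0x10806860782) (nat_lit 0) (p (nat_lit 0x786058702) (nat_lit 0) (p (nat_lit 0x10705850482) (nat_lit 0) (p (nat_lit 0x685048402) (nat_lit 0) (p (nat_lit 0x16000c) (nat_lit 0) (p (nat_lit 0x60592) (nat_lit 0) (p (nat_lit 0x48512) (nat_lit 0) (p (nat_lit 0x50392) (nat_lit 0) (p (nat_lit 0x38312) (nat_lit 0) (p (nat_lit 0x40212) (nat_lit 0) (p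 (nat_lit 0x28192) (nat_lit 0) (p (nat_lit 0x30092) (nat_lit 0) (p (nat_lit 0x18012) (nat_lit 0) pn)))))))))))))))))))))))))) :=
  Cl.node (nat_lit 0x200004) (nat_lit 2) (by decide +kernel) (ClAll.succ (ClAll.succ ClAll.zero n264) s213)

def n294 : Cl (O (nat_lit 5)) (R (nat_lit 6353))
    (p (nat_lit 0x111) (nat_lit 1) (p (nat_lit 0xd1) (nat_lit 1) (p (nat_lit 0xc9) (nat_lit 0) (p (nat_lit 0x119) (nat_lit 1) (p (nat_lit 0xc1) (nat_lit 0) (p (nat_lit 0x81) (nat_lit 1) (p (nat_lit 0x41) (nat_lit 1) (p (nat_lit 0x10a0b09890a9a) (nat_lit 0) (p (nat_lit 0x98a89088a1a) (nat_lit 0) (p (nat_lit 0x1090a0888079a) (nat_lit 0) (p (nat_lit 0x8898807871a) (nat_lit 0) (p (nat_lit 0x8000000000800080787088a) (nat_lit 0) (p (nat_lit 0x8000000000800078706860a) (nat_lit 0) (p (nat_lit 0x10806860782) (nat_lit 0) (p (nat_lit 0x786058702) (nat_lit 0) (p (nat_lit 0x10705850482) (nat_lit 0) (p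 (nat_lit 0x685048402) (nat_lit 0) (p (nat_lit 0x16000c) (nat_lit 0) (p (nat_lit 0x60592) (nat_lit 0) (p (nat_lit 0x48512) (nat_lit 0) (p (nat_lit 0x50392) (nat_lit 0) (p (nat_lit 0x38312) (nat_lit 0) (p (nat_lit 0x40212) (nat_lit 0) (p (nat_lit 0x28192) (nat_lit 0) (p (nat_lit 0x30092) (nat_lit 0) (p (nat_lit 0x18012) (nat_lit 0) pn)))))))))))))))))))))))))) :=
  Cl.node (nat_lit 0x200004) (nat_lit 2) (by decide +kernel) (ClAll.succ (ClAll.succ ClAll.zero n265) s225)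

def n295 : Cl (O (nat_lit 5)) (R (nat_lit 6353))
    (p (nat_lit 0x111) (nat_lit 1) (p (nat_lit 0x109) (nat_lit 0) (p (nat_lit 0xc9) (nat_lit 1) (p (nat_lit 0x119) (nat_lit 1) (p (nat_lit 0xc1) (nat_lit 0) (p (nat_lit 0x81) (nat_lit 1) (p (nat_lit 0x41) (nat_lit 1) (p (nat_lit 0x10a0b09890a9a) (nat_lit 0) (p (nat_lit 0x98a89088a1a) (nat_lit 0) (p (nat_lit 0x1090a0888079a) (nat_lit 0) (p (nat_lit 0x8898807871a) (nat_lit 0) (p (nat_lit 0x8000000000800080787088a) (nat_lit 0) (p (nat_lit 0x8000000000800078706860a) (nat_lit 0) (p (nat_lit 0x10806860782) (nat_lit 0) (p (nat_lit 0x786058702) (nat_lit 0) (p (nat_lit 0x10705850482) (nat_lit 0) (p (nat_lit 0x685048402) (nat_lit 0) (p (nat_lit 0x16000c) (nat_lit 0) (p (nat_lit 0x60592) (nat_lit 0) (p (nat_lit 0x48512) (nat_lit 0) (p (nat_lit 0x50392) (nat_lit 0) (p (nat_lit 0x38312) (nat_lit 0) (p (nat_lit 0x40212) (nat_lit 0) (p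 (nat_lit 0x28192) (nat_lit 0) (p (nat_lit 0x30092) (nat_lit 0) (p (nat_lit 0x18012) (nat_lit 0) pn)))))))))))))))))))))))))) :=
  Cl.node (nat_lit 0x200004) (nat_lit 2) (by decide +kernel) (ClAll.succ (ClAll.succ ClAll.zero n266) s230)

def n296 : Cl (O (nat_lit 5)) (R (nat_lit 6353))
    (p (nat_lit 0x200004) (nat_lit 0) (p (nat_lit 0x109) (nat_lit 1) (p (nat_lit 0xc9) (nat_lit 1) (p (nat_lit 0x119) (nat_lit 1) (p (nat_lit 0xc1) (nat_lit 0) (p (nat_lit 0x81) (nat_lit 1) (p (nat_lit 0x41) (nat_lit 1) (p (nat_lit 0x10a0b09890a9a) (nat_lit 0) (p (nat_lit 0x98a89088a1a) (nat_lit 0) (p (nat_lit 0x1090a0888079a) (nat_lit 0) (p (nat_lit 0x8898807871a) (nat_lit 0) (p (nat_lit 0x8000000000800080787088a) (nat_lit 0) (p (nat_lit 0x8000000000800078706860a) (nat_lit 0) (p (nat_lit 0x10806860782) (nat_lit 0) (p (nat_lit 0x786058702) (nat_lit 0) (p (nat_lit 0x10705850482) (nat_lit 0)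 (p (nat_lit 0x685048402) (nat_lit 0) (p (nat_lit 0x16000c) (nat_lit 0) (p (nat_lit 0x60592) (nat_lit 0) (p (nat_lit 0x48512) (nat_lit 0) (p (nat_lit 0x50392) (nat_lit 0) (p (nat_lit 0x38312) (nat_lit 0) (p (nat_lit 0x40212) (nat_lit 0) (p (nat_lit 0x28192) (nat_lit 0) (p (nat_lit 0x30092) (nat_lit 0) (p (nat_lit 0x18012) (nat_lit 0) pn)))))))))))))))))))))))))) :=
  Cl.node (nat_lit 0x200014) (nat_lit 2) (by decide +kernel) (ClAll.succ (ClAll.succ ClAll.zero n267) s235)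

def n297 : Cl (O (nat_lit 5)) (R (nat_lit 6353))
    (p (nat_lit 0x81) (nat_lit 0) (p (nat_lit 0x101) (nat_lit 1) (p (nat_lit 0x119) (nat_lit 0) (p (nat_lit 0xd1) (nat_lit 0) (p (nat_lit 0x89) (nat_lit 0) (p (nat_lit 0x41) (nat_lit 0) (p (nat_lit 0x10a0b09890a9a) (nat_lit 0) (p (nat_lit 0x98a89088a1a) (nat_lit 0) (p (nat_lit 0x1090a0888079a) (nat_lit 0) (p (nat_lit 0x8898807871a) (nat_lit 0) (p (nat_lit 0x8000000000800080787088a) (nat_lit 0) (p (nat_lit 0x8000000000800078706860a) (nat_lit 0) (p (nat_lit 0x10806860782) (nat_lit 0) (p (nat_lit 0x786058702) (nat_lit 0) (p (nat_lit 0x10705850482) (nat_lit 0) (p (nat_lit 0x685048402) (nat_lit 0) (p (nat_lit 0x16000c) (nat_lit 0) (p (nat_lit 0x60592) (nat_lit 0) (p (nat_lit 0x48512) (nat_lit 0) (p (nat_lit 0x50392) (nat_lit 0) (p (nat_lit 0x38312) (nat_lit 0) (p (nat_lit 0x40212) (nat_lit 0) (p (nat_lit 0x28192) (nat_lit 0)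 (p (nat_lit 0x30092) (nat_lit 0) (p (nat_lit 0x18012) (nat_lit 0) pn))))))))))))))))))))))))) :=
  Cl.node (nat_lit 0xc9) (nat_lit 2) (by decide +kernel) (ClAll.succ (ClAll.succ ClAll.zero n268) n269)

def n298 : Cl (O (nat_lit 5)) (R (nat_lit 6353))
    (p (nat_lit 0x81) (nat_lit 1) (p (nat_lit 0x101) (nat_lit 1) (p (nat_lit 0x119) (nat_lit 0) (p (nat_lit 0xd1) (nat_lit 0) (p (nat_lit 0x89) (nat_lit 0) (p (nat_lit 0x41) (nat_lit 0) (p (nat_lit 0x10a0b09890a9a) (nat_lit 0) (p (nat_lit 0x98a89088a1a) (nat_lit 0) (p (nat_lit 0x1090a0888079a) (nat_lit 0) (p (nat_lit 0x8898807871a) (nat_lit 0) (p (nat_lit 0x8000000000800080787088a) (nat_lit 0) (p (nat_lit 0x8000000000800078706860a) (nat_lit 0) (p (nat_lit 0x10806860782) (nat_lit 0) (p (nat_lit 0x786058702) (nat_lit 0) (p (nat_lit 0x10705850482) (nat_lit 0) (p (nat_lit 0x685048402) (nat_lit 0) (p (nat_lit 0x16000c) (nat_lit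 0) (p (nat_lit 0x60592) (nat_lit 0) (p (nat_lit 0x48512) (nat_lit 0) (p (nat_lit 0x50392) (nat_lit 0) (p (nat_lit 0x38312) (nat_lit 0) (p (nat_lit 0x40212) (nat_lit 0) (p (nat_lit 0x28192) (nat_lit 0) (p (nat_lit 0x30092) (nat_lit 0) (p (nat_lit 0x18012) (nat_lit 0) pn))))))))))))))))))))))))) :=
  Cl.node (nat_lit 0xc1) (nat_lit 2) (by decide +kernel) (ClAll.succ (ClAll.succ ClAll.zero n270) s24)

def n299 : Cl (O (nat_lit 5)) (R (nat_lit 6353))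
    (p (nat_lit 0xc9) (nat_lit 1) (p (nat_lit 0xc1) (nat_lit 0) (p (nat_lit 0x119) (nat_lit 1) (p (nat_lit 0xd1) (nat_lit 0) (p (nat_lit 0x89) (nat_lit 0) (p (nat_lit 0x41) (nat_lit 0) (p (nat_lit 0x10a0b09890a9a) (nat_lit 0) (p (nat_lit 0x98a89088a1a) (nat_lit 0) (p (nat_lit 0x1090a0888079a) (nat_lit 0) (p (nat_lit 0x8898807871a) (nat_lit 0) (p (nat_lit 0x8000000000800080787088a) (nat_lit 0) (p (nat_lit 0x8000000000800078706860a) (nat_lit 0) (p (nat_lit 0x10806860782) (nat_lit 0) (p (nat_lit 0x786058702) (nat_lit 0) (p (nat_lit 0x10705850482) (nat_lit 0) (p (nat_lit 0x685048402) (nat_lit 0) (p (nat_lit 0x16000c) (nat_lit 0) (p (nat_lit 0x60592) (nat_lit 0) (p (nat_lit 0x48512) (nat_lit 0) (p (nat_lit 0x50392) (nat_lit 0) (p (nat_lit 0x38312) (nat_lit 0) (p (nat_lit 0x40212) (nat_lit 0) (p (nat_lit 0x28192) (nat_lit 0) (p (nat_lit 0x30092) (nat_lit 0) (p (nat_lit 0x18012)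 (nat_lit 0) pn))))))))))))))))))))))))) :=
  Cl.node (nat_lit 0x109) (nat_lit 2) (by decide +kernel) (ClAll.succ (ClAll.succ ClAll.zero s26) n271)

def n300 : Cl (O (nat_lit 5)) (R (nat_lit 6353))
    (p (nat_lit 0x81) (nat_lit 0) (p (nat_lit 0xc1) (nat_lit 1) (p (nat_lit 0x119) (nat_lit 1) (p (nat_lit 0xd1) (nat_lit 0) (p (nat_lit 0x89) (nat_lit 0) (p (nat_lit 0x41) (nat_lit 0) (p (nat_lit 0x10a0b09890a9a) (nat_lit 0) (p (nat_lit 0x98a89088a1a) (nat_lit 0) (p (nat_lit 0x1090a0888079a) (nat_lit 0) (p (nat_lit 0x8898807871a) (nat_lit 0) (p (nat_lit 0x8000000000800080787088a) (nat_lit 0) (p (nat_lit 0x8000000000800078706860a) (nat_lit 0) (p (nat_lit 0x10806860782) (nat_lit 0) (p (nat_lit 0x786058702) (nat_lit 0) (p (nat_lit 0x10705850482) (nat_lit 0) (p (nat_lit 0x685048402) (nat_lit 0) (p (nat_lit 0x16000c) (nat_lit 0) (p (nat_lit 0x60592) (nat_lit 0) (p (nat_lit 0x48512)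 (nat_lit 0) (p (nat_lit 0x50392) (nat_lit 0) (p (nat_lit 0x38312) (nat_lit 0) (p (nat_lit 0x40212) (nat_lit 0) (p (nat_lit 0x28192) (nat_lit 0) (p (nat_lit 0x30092) (nat_lit 0) (p (nat_lit 0x18012) (nat_lit 0) pn))))))))))))))))))))))))) :=
  Cl.node (nat_lit 0x109) (nat_lit 2) (by decide +kernel) (ClAll.succ (ClAll.succ ClAll.zero s34) n272)

def n301 : Cl (O (nat_lit 5)) (R (nat_lit 6353))
    (p (nat_lit 0x81) (nat_lit 1) (p (nat_lit 0xc1) (nat_lit 1) (p (nat_lit 0x119) (nat_lit 1) (p (nat_lit 0xd1) (nat_lit 0) (p (nat_lit 0x89) (nat_lit 0) (p (nat_lit 0x41) (nat_lit 0) (p (nat_lit 0x10a0b09890a9a) (nat_lit 0) (p (nat_lit 0x98a89088a1a) (nat_lit 0) (p (nat_lit 0x1090a0888079a) (nat_lit 0) (p (nat_lit 0x8898807871a) (nat_lit 0) (p (nat_lit 0x8000000000800080787088a) (nat_lit 0) (p (nat_lit 0x8000000000800078706860a) (nat_lit 0) (p (nat_lit 0x10806860782) (nat_lit 0) (p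 (nat_lit 0x786058702) (nat_lit 0) (p (nat_lit 0x10705850482) (nat_lit 0) (p (nat_lit 0x685048402) (nat_lit 0) (p (nat_lit 0x16000c) (nat_lit 0) (p (nat_lit 0x60592) (nat_lit 0) (p (nat_lit 0x48512) (nat_lit 0) (p (nat_lit 0x50392) (nat_lit 0) (p (nat_lit 0x38312) (nat_lit 0) (p (nat_lit 0x40212) (nat_lit 0) (p (nat_lit 0x28192) (nat_lit 0) (p (nat_lit 0x30092) (nat_lit 0) (p (nat_lit 0x18012) (nat_lit 0) pn))))))))))))))))))))))))) :=
  Cl.node (nat_lit 0x101) (nat_lit 2) (by decide +kernel) (ClAll.succ (ClAll.succ ClAll.zero n273) n274)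

def n302 : Cl (O (nat_lit 5)) (R (nat_lit 6353))
    (p (nat_lit 0x81) (nat_lit 0) (p (nat_lit 0x101) (nat_lit 1) (p (nat_lit 0x111) (nat_lit 0) (p (nat_lit 0xd1) (nat_lit 1) (p (nat_lit 0x89) (nat_lit 0) (p (nat_lit 0x41) (nat_lit 0) (p (nat_lit 0x10a0b09890a9a) (nat_lit 0) (p (nat_lit 0x98a89088a1a) (nat_lit 0) (p (nat_lit 0x1090a0888079a) (nat_lit 0) (p (nat_lit 0x8898807871a) (nat_lit 0) (p (nat_lit 0x8000000000800080787088a) (nat_lit 0) (p (nat_lit 0x8000000000800078706860a) (nat_lit 0) (p (nat_lit 0x10806860782) (nat_lit 0) (p (nat_lit 0x786058702) (nat_lit 0) (p (nat_lit 0x10705850482) (nat_lit 0) (p (nat_lit 0x685048402) (nat_lit 0) (p (nat_lit 0x16000c) (nat_lit 0) (p (nat_lit 0x60592) (nat_lit 0) (p (nat_lit 0x48512) (nat_lit 0) (p (nat_lit 0x50392) (nat_lit 0) (p (nat_lit 0x38312) (nat_lit 0) (p (nat_lit 0x40212) (nat_lit 0) (p (nat_lit 0x28192) (nat_lit 0)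 (p (nat_lit 0x30092) (nat_lit 0) (p (nat_lit 0x18012) (nat_lit 0) pn))))))))))))))))))))))))) :=
  Cl.node (nat_lit 0x200004) (nat_lit 2) (by decide +kernel) (ClAll.succ (ClAll.succ ClAll.zero s53) s54)

def n303 : Cl (O (nat_lit 5)) (R (nat_lit 6353))
    (p (nat_lit 0x81) (nat_lit 1) (p (nat_lit 0x101) (nat_lit 1) (p (nat_lit 0x111) (nat_lit 0) (p (nat_lit 0xd1) (nat_lit 1) (p (nat_lit 0x89) (nat_lit 0) (p (nat_lit 0x41) (nat_lit 0) (p (nat_lit 0x10a0b09890a9a) (nat_lit 0) (p (nat_lit 0x98a89088a1a) (nat_lit 0) (p (nat_lit 0x1090a0888079a) (nat_lit 0) (p (nat_lit 0x8898807871a) (nat_lit 0) (p (nat_lit 0x8000000000800080787088a) (nat_lit 0) (p (nat_lit 0x8000000000800078706860a) (nat_lit 0) (p (nat_lit 0x10806860782) (nat_lit 0) (p (nat_lit 0x786058702) (nat_lit 0) (p (nat_lit 0x10705850482) (nat_lit 0) (p (nat_lit 0x685048402) (nat_lit 0) (p (nat_lit 0x16000c) (nat_lit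 0) (p (nat_lit 0x60592) (nat_lit 0) (p (nat_lit 0x48512) (nat_lit 0) (p (nat_lit 0x50392) (nat_lit 0) (p (nat_lit 0x38312) (nat_lit 0) (p (nat_lit 0x40212) (nat_lit 0) (p (nat_lit 0x28192) (nat_lit 0) (p (nat_lit 0x30092) (nat_lit 0) (p (nat_lit 0x18012) (nat_lit 0) pn))))))))))))))))))))))))) :=
  Cl.node (nat_lit 0xc1) (nat_lit 2) (by decide +kernel) (ClAll.succ (ClAll.succ ClAll.zero n275) s61)

def n304 : Cl (O (nat_lit 5)) (R (nat_lit 6353))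
    (p (nat_lit 0xc1) (nat_lit 1) (p (nat_lit 0x81) (nat_lit 1) (p (nat_lit 0x111) (nat_lit 1) (p (nat_lit 0xd1) (nat_lit 1) (p (nat_lit 0x89) (nat_lit 0) (p (nat_lit 0x41) (nat_lit 0) (p (nat_lit 0x10a0b09890a9a) (nat_lit 0) (p (nat_lit 0x98a89088a1a) (nat_lit 0) (p (nat_lit 0x1090a0888079a) (nat_lit 0) (p (nat_lit 0x8898807871a) (nat_lit 0) (p (nat_lit 0x8000000000800080787088a) (nat_lit 0) (p (nat_lit 0x8000000000800078706860a) (nat_lit 0) (p (nat_lit 0x10806860782) (nat_lit 0) (p (nat_lit 0x786058702) (nat_lit 0) (p (nat_lit 0x10705850482) (nat_lit 0) (p (nat_lit 0x685048402) (nat_lit 0) (p (nat_lit 0x16000c) (nat_lit 0) (p (nat_lit 0x60592) (nat_lit 0) (p (nat_lit 0x48512) (nat_lit 0) (p (nat_lit 0x50392) (nat_lit 0) (p (nat_lit 0x38312) (nat_lit 0) (p (nat_lit 0x40212) (nat_lit 0) (p (nat_lit 0x28192) (nat_lit 0) (p (nat_lit 0x30092) (nat_lit 0) (p (nat_lit 0x18012)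 (nat_lit 0) pn))))))))))))))))))))))))) :=
  Cl.node (nat_lit 0x101) (nat_lit 2) (by decide +kernel) (ClAll.succ (ClAll.succ ClAll.zero s64) n276)

def n305 : Cl (O (nat_lit 5)) (R (nat_lit 6353))
    (p (nat_lit 0x109) (nat_lit 1) (p (nat_lit 0x101) (nat_lit 0) (p (nat_lit 0x119) (nat_lit 0) (p (nat_lit 0xc9) (nat_lit 0) (p (nat_lit 0x89) (nat_lit 1) (p (nat_lit 0x41) (nat_lit 0) (p (nat_lit 0x10a0b09890a9a) (nat_lit 0) (p (nat_lit 0x98a89088a1a) (nat_lit 0) (p (nat_lit 0x1090a0888079a) (nat_lit 0) (p (nat_lit 0x8898807871a) (nat_lit 0) (p (nat_lit 0x8000000000800080787088a) (nat_lit 0) (p (nat_lit 0x8000000000800078706860a) (nat_lit 0) (p (nat_lit 0x10806860782) (nat_lit 0) (p (nat_lit 0x786058702) (nat_lit 0) (p (nat_lit 0x10705850482) (nat_lit 0) (p (nat_lit 0x685048402) (nat_lit 0) (p (nat_lit 0x16000c) (nat_lit 0) (p (nat_lit 0x60592) (nat_lit 0) (p (nat_lit 0x48512)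 (nat_lit 0) (p (nat_lit 0x50392) (nat_lit 0) (p (nat_lit 0x38312) (nat_lit 0) (p (nat_lit 0x40212) (nat_lit 0) (p (nat_lit 0x28192) (nat_lit 0) (p (nat_lit 0x30092) (nat_lit 0) (p (nat_lit 0x18012) (nat_lit 0) pn))))))))))))))))))))))))) :=
  Cl.node (nat_lit 0xd1) (nat_lit 2) (by decide +kernel) (ClAll.succ (ClAll.succ ClAll.zero s68) s69)

def n306 : Cl (O (nat_lit 5)) (R (nat_lit 6353))
    (p (nat_lit 0xc1) (nat_lit 0) (p (nat_lit 0x101) (nat_lit 1) (p (nat_lit 0x119) (nat_lit 0) (p (nat_lit 0xc9) (nat_lit 0) (p (nat_lit 0x89) (nat_lit 1) (p (nat_lit 0x41) (nat_lit 0) (p (nat_lit 0x10a0b09890a9a) (nat_lit 0) (p (nat_lit 0x98a89088a1a) (nat_lit 0) (p (nat_lit 0x1090a0888079a) (nat_lit 0) (p (nat_lit 0x8898807871a) (nat_lit 0) (p (nat_lit 0x8000000000800080787088a) (nat_lit 0) (p (nat_lit 0x8000000000800078706860a) (nat_lit 0) (p (nat_lit 0x10806860782) (nat_lit 0) (p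 (nat_lit 0x786058702) (nat_lit 0) (p (nat_lit 0x10705850482) (nat_lit 0) (p (nat_lit 0x685048402) (nat_lit 0) (p (nat_lit 0x16000c) (nat_lit 0) (p (nat_lit 0x60592) (nat_lit 0) (p (nat_lit 0x48512) (nat_lit 0) (p (nat_lit 0x50392) (nat_lit 0) (p (nat_lit 0x38312) (nat_lit 0) (p (nat_lit 0x40212) (nat_lit 0) (p (nat_lit 0x28192) (nat_lit 0) (p (nat_lit 0x30092) (nat_lit 0) (p (nat_lit 0x18012) (nat_lit 0) pn))))))))))))))))))))))))) :=
  Cl.node (nat_lit 0xd1) (nat_lit 2) (by decide +kernel) (ClAll.succ (ClAll.succ ClAll.zero n277) s72)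

def n307 : Cl (O (nat_lit 5)) (R (nat_lit 6353))
    (p (nat_lit 0xd1) (nat_lit 1) (p (nat_lit 0xc1) (nat_lit 0) (p (nat_lit 0x119) (nat_lit 1) (p (nat_lit 0xc9) (nat_lit 0) (p (nat_lit 0x89) (nat_lit 1) (p (nat_lit 0x41) (nat_lit 0) (p (nat_lit 0x10a0b09890a9a) (nat_lit 0) (p (nat_lit 0x98a89088a1a) (nat_lit 0) (p (nat_lit 0x1090a0888079a) (nat_lit 0) (p (nat_lit 0x8898807871a) (nat_lit 0) (p (nat_lit 0x8000000000800080787088a) (nat_lit 0) (p (nat_lit 0x8000000000800078706860a) (nat_lit 0) (p (nat_lit 0x10806860782) (nat_lit 0) (p (nat_lit 0x786058702) (nat_lit 0) (p (nat_lit 0x10705850482) (nat_lit 0) (p (nat_lit 0x685048402) (nat_lit 0) (p (nat_lit 0x16000c) (nat_lit 0) (p (nat_lit 0x60592) (nat_lit 0) (p (nat_lit 0x48512) (nat_lit 0) (p (nat_lit 0x50392) (nat_lit 0) (p (nat_lit 0x38312) (nat_lit 0) (p (nat_lit 0x40212) (nat_lit 0) (p (nat_lit 0x28192) (nat_lit 0) (p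 (nat_lit 0x30092) (nat_lit 0) (p (nat_lit 0x18012) (nat_lit 0) pn))))))))))))))))))))))))) :=
  Cl.node (nat_lit 0x111) (nat_lit 2) (by decide +kernel) (ClAll.succ (ClAll.succ ClAll.zero s75) n278)

def n308 : Cl (O (nat_lit 5)) (R (nat_lit 6353))
    (p (nat_lit 0x101) (nat_lit 0) (p (nat_lit 0xc1) (nat_lit 1) (p (nat_lit 0x119) (nat_lit 1) (p (nat_lit 0xc9) (nat_lit 0) (p (nat_lit 0x89) (nat_lit 1) (p (nat_lit 0x41) (nat_lit 0) (p (nat_lit 0x10a0b09890a9a) (nat_lit 0) (p (nat_lit 0x98a89088a1a) (nat_lit 0) (p (nat_lit 0x1090a0888079a) (nat_lit 0) (p (nat_lit 0x8898807871a) (nat_lit 0) (p (nat_lit 0x8000000000800080787088a) (nat_lit 0) (p (nat_lit 0x8000000000800078706860a) (nat_lit 0) (p (nat_lit 0x10806860782) (nat_lit 0) (p (nat_lit 0x786058702) (nat_lit 0) (p (nat_lit 0x10705850482) (nat_lit 0) (p (nat_lit 0x685048402) (nat_lit 0) (p (nat_lit 0x16000c) (nat_lit 0)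 (p (nat_lit 0x60592) (nat_lit 0) (p (nat_lit 0x48512) (nat_lit 0) (p (nat_lit 0x50392) (nat_lit 0) (p (nat_lit 0x38312) (nat_lit 0) (p (nat_lit 0x40212) (nat_lit 0) (p (nat_lit 0x28192) (nat_lit 0) (p (nat_lit 0x30092) (nat_lit 0) (p (nat_lit 0x18012) (nat_lit 0) pn))))))))))))))))))))))))) :=
  Cl.node (nat_lit 0x111) (nat_lit 2) (by decide +kernel) (ClAll.succ (ClAll.succ ClAll.zero s82) n279)

def n309 : Cl (O (nat_lit 5)) (R (nat_lit 6353))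
    (p (nat_lit 0x101) (nat_lit 1) (p (nat_lit 0xc1) (nat_lit 1) (p (nat_lit 0x119) (nat_lit 1) (p (nat_lit 0xc9) (nat_lit 0) (p (nat_lit 0x89) (nat_lit 1) (p (nat_lit 0x41) (nat_lit 0) (p (nat_lit 0x10a0b09890a9a) (nat_lit 0) (p (nat_lit 0x98a89088a1a) (nat_lit 0) (p (nat_lit 0x1090a0888079a) (nat_lit 0) (p (nat_lit 0x8898807871a) (nat_lit 0) (p (nat_lit 0x8000000000800080787088a) (nat_lit 0) (p (nat_lit 0x8000000000800078706860a) (nat_lit 0) (p (nat_lit 0x10806860782) (nat_lit 0) (p (nat_lit 0x786058702) (nat_lit 0) (p (nat_lit 0x10705850482) (nat_lit 0) (p (nat_lit 0x685048402) (nat_lit 0) (p (nat_lit 0x16000c) (nat_lit 0) (p (nat_lit 0x60592) (nat_lit 0) (p (nat_lit 0x48512) (nat_lit 0) (p (nat_lit 0x50392) (nat_lit 0) (p (nat_lit 0x38312) (nat_lit 0) (p (nat_lit 0x40212) (nat_lit 0) (p (nat_lit 0x28192) (nat_lit 0) (p (nat_lit 0x30092) (nat_lit 0) (p (nat_lit 0x18012)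 (nat_lit 0) pn))))))))))))))))))))))))) :=
  Cl.node (nat_lit 0x200004) (nat_lit 2) (by decide +kernel) (ClAll.succ (ClAll.succ ClAll.zero n280) s89)

def n310 : Cl (O (nat_lit 5)) (R (nat_lit 6353))
    (p (nat_lit 0x109) (nat_lit 1) (p (nat_lit 0x101) (nat_lit 0) (p (nat_lit 0x119) (nat_lit 0) (p (nat_lit 0xd1) (nat_lit 0) (p (nat_lit 0x81) (nat_lit 0) (p (nat_lit 0x41) (nat_lit 1) (p (nat_lit 0x10a0b09890a9a) (nat_lit 0) (p (nat_lit 0x98a89088a1a) (nat_lit 0) (p (nat_lit 0x1090a0888079a) (nat_lit 0) (p (nat_lit 0x8898807871a) (nat_lit 0) (p (nat_lit 0x8000000000800080787088a) (nat_lit 0) (p (nat_lit 0x8000000000800078706860a) (nat_lit 0) (p (nat_lit 0x10806860782) (nat_lit 0) (p (nat_lit 0x786058702) (nat_lit 0) (p (nat_lit 0x10705850482) (nat_lit 0) (p (nat_lit 0x685048402) (nat_lit 0) (p (nat_lit 0x16000c) (nat_lit 0) (p (nat_lit 0x60592) (nat_lit 0) (p (nat_lit 0x48512)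 (nat_lit 0) (p (nat_lit 0x50392) (nat_lit 0) (p (nat_lit 0x38312) (nat_lit 0) (p (nat_lit 0x40212) (nat_lit 0) (p (nat_lit 0x28192) (nat_lit 0) (p (nat_lit 0x30092) (nat_lit 0) (p (nat_lit 0x18012) (nat_lit 0) pn))))))))))))))))))))))))) :=
  Cl.node (nat_lit 0x89) (nat_lit 2) (by decide +kernel) (ClAll.succ (ClAll.succ ClAll.zero n281) n282)

def n311 : Cl (O (nat_lit 5)) (R (nat_lit 6353))
    (p (nat_lit 0xc1) (nat_lit 0) (p (nat_lit 0x101) (nat_lit 1) (p (nat_lit 0x119) (nat_lit 0) (p (nat_lit 0xd1) (nat_lit 0) (p (nat_lit 0x81) (nat_lit 0) (p (nat_lit 0x41) (nat_lit 1) (p (nat_lit 0x10a0b09890a9a) (nat_lit 0) (p (nat_lit 0x98a89088a1a) (nat_lit 0) (p (nat_lit 0x1090a0888079a) (nat_lit 0) (p (nat_lit 0x8898807871a) (nat_lit 0) (p (nat_lit 0x8000000000800080787088a) (nat_lit 0) (p (nat_lit 0x8000000000800078706860a) (nat_lit 0) (p (nat_lit 0x10806860782) (nat_lit 0)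 (p (nat_lit 0x786058702) (nat_lit 0) (p (nat_lit 0x10705850482) (nat_lit 0) (p (nat_lit 0x685048402) (nat_lit 0) (p (nat_lit 0x16000c) (nat_lit 0) (p (nat_lit 0x60592) (nat_lit 0) (p (nat_lit 0x48512) (nat_lit 0) (p (nat_lit 0x50392) (nat_lit 0) (p (nat_lit 0x38312) (nat_lit 0) (p (nat_lit 0x40212) (nat_lit 0) (p (nat_lit 0x28192) (nat_lit 0) (p (nat_lit 0x30092) (nat_lit 0) (p (nat_lit 0x18012) (nat_lit 0) pn))))))))))))))))))))))))) :=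
  Cl.node (nat_lit 0x89) (nat_lit 2) (by decide +kernel) (ClAll.succ (ClAll.succ ClAll.zero s106) n283)

def n312 : Cl (O (nat_lit 5)) (R (nat_lit 6353))
    (p (nat_lit 0xc1) (nat_lit 1) (p (nat_lit 0x101) (nat_lit 1) (p (nat_lit 0x119) (nat_lit 0) (p (nat_lit 0xd1) (nat_lit 0) (p (nat_lit 0x81) (nat_lit 0) (p (nat_lit 0x41) (nat_lit 1) (p (nat_lit 0x10a0b09890a9a) (nat_lit 0) (p (nat_lit 0x98a89088a1a) (nat_lit 0) (p (nat_lit 0x1090a0888079a) (nat_lit 0) (p (nat_lit 0x8898807871a) (nat_lit 0) (p (nat_lit 0x8000000000800080787088a) (nat_lit 0) (p (nat_lit 0x8000000000800078706860a) (nat_lit 0) (p (nat_lit 0x10806860782) (nat_lit 0) (p (nat_lit 0x786058702) (nat_lit 0) (p (nat_lit 0x10705850482) (nat_lit 0) (p (nat_lit 0x685048402) (nat_lit 0) (p (nat_lit 0x16000c) (nat_lit 0) (p (nat_lit 0x60592) (nat_lit 0) (p (nat_lit 0x48512) (nat_lit 0) (p (nat_lit 0x50392) (nat_lit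 0) (p (nat_lit 0x38312) (nat_lit 0) (p (nat_lit 0x40212) (nat_lit 0) (p (nat_lit 0x28192) (nat_lit 0) (p (nat_lit 0x30092) (nat_lit 0) (p (nat_lit 0x18012) (nat_lit 0) pn))))))))))))))))))))))))) :=
  Cl.node (nat_lit 0x89) (nat_lit 2) (by decide +kernel) (ClAll.succ (ClAll.succ ClAll.zero s121) n284)

def n313 : Cl (O (nat_lit 5)) (R (nat_lit 6353))
    (p (nat_lit 0xc9) (nat_lit 1) (p (nat_lit 0xc1) (nat_lit 0) (p (nat_lit 0x119) (nat_lit 1) (p (nat_lit 0xd1) (nat_lit 0) (p (nat_lit 0x81) (nat_lit 0) (p (nat_lit 0x41) (nat_lit 1) (p (nat_lit 0x10a0b09890a9a) (nat_lit 0) (p (nat_lit 0x98a89088a1a) (nat_lit 0) (p (nat_lit 0x1090a0888079a) (nat_lit 0) (p (nat_lit 0x8898807871a) (nat_lit 0) (p (nat_lit 0x8000000000800080787088a) (nat_lit 0) (p (nat_lit 0x8000000000800078706860a) (nat_lit 0) (p (nat_lit 0x10806860782) (nat_lit 0) (p (nat_lit 0x786058702) (nat_lit 0) (p (nat_lit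 0x10705850482) (nat_lit 0) (p (nat_lit 0x685048402) (nat_lit 0) (p (nat_lit 0x16000c) (nat_lit 0) (p (nat_lit 0x60592) (nat_lit 0) (p (nat_lit 0x48512) (nat_lit 0) (p (nat_lit 0x50392) (nat_lit 0) (p (nat_lit 0x38312) (nat_lit 0) (p (nat_lit 0x40212) (nat_lit 0) (p (nat_lit 0x28192) (nat_lit 0) (p (nat_lit 0x30092) (nat_lit 0) (p (nat_lit 0x18012) (nat_lit 0) pn))))))))))))))))))))))))) :=
  Cl.node (nat_lit 0x89) (nat_lit 2) (by decide +kernel) (ClAll.succ (ClAll.succ ClAll.zero s139) n285)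

def n314 : Cl (O (nat_lit 5)) (R (nat_lit 6353))
    (p (nat_lit 0x101) (nat_lit 0) (p (nat_lit 0xc1) (nat_lit 1) (p (nat_lit 0x119) (nat_lit 1) (p (nat_lit 0xd1) (nat_lit 0) (p (nat_lit 0x81) (nat_lit 0) (p (nat_lit 0x41) (nat_lit 1) (p (nat_lit 0x10a0b09890a9a) (nat_lit 0) (p (nat_lit 0x98a89088a1a) (nat_lit 0) (p (nat_lit 0x1090a0888079a) (nat_lit 0) (p (nat_lit 0x8898807871a) (nat_lit 0) (p (nat_lit 0x8000000000800080787088a) (nat_lit 0) (p (nat_lit 0x8000000000800078706860a) (nat_lit 0) (p (nat_lit 0x10806860782) (nat_lit 0) (p (nat_lit 0x786058702) (nat_lit 0) (p (nat_lit 0x10705850482) (nat_lit 0) (p (nat_lit 0x685048402) (nat_lit 0) (p (nat_lit 0x16000c) (nat_lit 0) (p (nat_lit 0x60592) (nat_lit 0) (p (nat_lit 0x48512) (nat_lit 0) (p (nat_lit 0x50392) (nat_lit 0) (p (nat_lit 0x38312) (nat_lit 0) (p (nat_lit 0x40212) (nat_lit 0) (p (nat_lit 0x28192) (nat_lit 0)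 (p (nat_lit 0x30092) (nat_lit 0) (p (nat_lit 0x18012) (nat_lit 0) pn))))))))))))))))))))))))) :=
  Cl.node (nat_lit 0x89) (nat_lit 2) (by decide +kernel) (ClAll.succ (ClAll.succ ClAll.zero s150) n286)

def n315 : Cl (O (nat_lit 5)) (R (nat_lit 6353))
    (p (nat_lit 0x101) (nat_lit 1) (p (nat_lit 0xc1) (nat_lit 1) (p (nat_lit 0x119) (nat_lit 1) (p (nat_lit 0xd1) (nat_lit 0) (p (nat_lit 0x81) (nat_lit 0) (p (nat_lit 0x41) (nat_lit 1) (p (nat_lit 0x10a0b09890a9a) (nat_lit 0) (p (nat_lit 0x98a89088a1a) (nat_lit 0) (p (nat_lit 0x1090a0888079a) (nat_lit 0) (p (nat_lit 0x8898807871a) (nat_lit 0) (p (nat_lit 0x8000000000800080787088a) (nat_lit 0) (p (nat_lit 0x8000000000800078706860a) (nat_lit 0) (p (nat_lit 0x10806860782) (nat_lit 0) (p (nat_lit 0x786058702) (nat_lit 0) (p (nat_lit 0x10705850482) (nat_lit 0) (p (nat_lit 0x685048402) (nat_lit 0) (p (nat_lit 0x16000c) (nat_lit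 0) (p (nat_lit 0x60592) (nat_lit 0) (p (nat_lit 0x48512) (nat_lit 0) (p (nat_lit 0x50392) (nat_lit 0) (p (nat_lit 0x38312) (nat_lit 0) (p (nat_lit 0x40212) (nat_lit 0) (p (nat_lit 0x28192) (nat_lit 0) (p (nat_lit 0x30092) (nat_lit 0) (p (nat_lit 0x18012) (nat_lit 0) pn))))))))))))))))))))))))) :=
  Cl.node (nat_lit 0x89) (nat_lit 2) (by decide +kernel) (ClAll.succ (ClAll.succ ClAll.zero n287) n288)

def n316 : Cl (O (nat_lit 5)) (R (nat_lit 6353))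
    (p (nat_lit 0x109) (nat_lit 1) (p (nat_lit 0x101) (nat_lit 0) (p (nat_lit 0x111) (nat_lit 0) (p (nat_lit 0xd1) (nat_lit 1) (p (nat_lit 0x81) (nat_lit 0) (p (nat_lit 0x41) (nat_lit 1) (p (nat_lit 0x10a0b09890a9a) (nat_lit 0) (p (nat_lit 0x98a89088a1a) (nat_lit 0) (p (nat_lit 0x1090a0888079a) (nat_lit 0) (p (nat_lit 0x8898807871a) (nat_lit 0) (p (nat_lit 0x8000000000800080787088a) (nat_lit 0) (p (nat_lit 0x8000000000800078706860a) (nat_lit 0) (p (nat_lit 0x10806860782) (nat_lit 0) (p (nat_lit 0x786058702) (nat_lit 0) (p (nat_lit 0x10705850482) (nat_lit 0) (p (nat_lit 0x685048402) (nat_lit 0) (p (nat_lit 0x16000c) (nat_lit 0) (p (nat_lit 0x60592) (nat_lit 0) (p (nat_lit 0x48512) (nat_lit 0) (p (nat_lit 0x50392) (nat_lit 0) (p (nat_lit 0x38312) (nat_lit 0) (p (nat_lit 0x40212) (nat_lit 0) (p (nat_lit 0x28192) (nat_lit 0) (p (nat_lit 0x30092) (nat_lit 0) (p (nat_lit 0x18012)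 (nat_lit 0) pn))))))))))))))))))))))))) :=
  Cl.node (nat_lit 0x89) (nat_lit 2) (by decide +kernel) (ClAll.succ (ClAll.succ ClAll.zero s182) n289)

def n317 : Cl (O (nat_lit 5)) (R (nat_lit 6353))
    (p (nat_lit 0x89) (nat_lit 1) (p (nat_lit 0x101) (nat_lit 1) (p (nat_lit 0x111) (nat_lit 0) (p (nat_lit 0xd1) (nat_lit 1) (p (nat_lit 0x81) (nat_lit 0) (p (nat_lit 0x41) (nat_lit 1) (p (nat_lit 0x10a0b09890a9a) (nat_lit 0) (p (nat_lit 0x98a89088a1a) (nat_lit 0) (p (nat_lit 0x1090a0888079a) (nat_lit 0) (p (nat_lit 0x8898807871a) (nat_lit 0) (p (nat_lit 0x8000000000800080787088a) (nat_lit 0) (p (nat_lit 0x8000000000800078706860a) (nat_lit 0) (p (nat_lit 0x10806860782) (nat_lit 0) (p (nat_lit 0x786058702) (nat_lit 0) (p (nat_lit 0x10705850482) (nat_lit 0) (p (nat_lit 0x685048402) (nat_lit 0) (p (nat_lit 0x16000c) (nat_lit 0) (p (nat_lit 0x60592) (nat_lit 0) (p (nat_lit 0x48512)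 (nat_lit 0) (p (nat_lit 0x50392) (nat_lit 0) (p (nat_lit 0x38312) (nat_lit 0) (p (nat_lit 0x40212) (nat_lit 0) (p (nat_lit 0x28192) (nat_lit 0) (p (nat_lit 0x30092) (nat_lit 0) (p (nat_lit 0x18012) (nat_lit 0) pn))))))))))))))))))))))))) :=
  Cl.node (nat_lit 0xc9) (nat_lit 2) (by decide +kernel) (ClAll.succ (ClAll.succ ClAll.zero n290) n291)

def n318 : Cl (O (nat_lit 5)) (R (nat_lit 6353))
    (p (nat_lit 0xc9) (nat_lit 1) (p (nat_lit 0x89) (nat_lit 1) (p (nat_lit 0x111) (nat_lit 1) (p (nat_lit 0xd1) (nat_lit 1) (p (nat_lit 0x81) (nat_lit 0) (p (nat_lit 0x41) (nat_lit 1) (p (nat_lit 0x10a0b09890a9a) (nat_lit 0) (p (nat_lit 0x98a89088a1a) (nat_lit 0) (p (nat_lit 0x1090a0888079a) (nat_lit 0) (p (nat_lit 0x8898807871a) (nat_lit 0) (p (nat_lit 0x8000000000800080787088a) (nat_lit 0) (p (nat_lit 0x8000000000800078706860a) (nat_lit 0) (p (nat_lit 0x10806860782) (nat_lit 0) (p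 (nat_lit 0x786058702) (nat_lit 0) (p (nat_lit 0x10705850482) (nat_lit 0) (p (nat_lit 0x685048402) (nat_lit 0) (p (nat_lit 0x16000c) (nat_lit 0) (p (nat_lit 0x60592) (nat_lit 0) (p (nat_lit 0x48512) (nat_lit 0) (p (nat_lit 0x50392) (nat_lit 0) (p (nat_lit 0x38312) (nat_lit 0) (p (nat_lit 0x40212) (nat_lit 0) (p (nat_lit 0x28192) (nat_lit 0) (p (nat_lit 0x30092) (nat_lit 0) (p (nat_lit 0x18012) (nat_lit 0) pn))))))))))))))))))))))))) :=
  Cl.node (nat_lit 0x109) (nat_lit 2) (by decide +kernel) (ClAll.succ (ClAll.succ ClAll.zero n292) n293)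

def n319 : Cl (O (nat_lit 5)) (R (nat_lit 6353))
    (p (nat_lit 0xc9) (nat_lit 0) (p (nat_lit 0x101) (nat_lit 1) (p (nat_lit 0x119) (nat_lit 0) (p (nat_lit 0xc1) (nat_lit 0) (p (nat_lit 0x81) (nat_lit 1) (p (nat_lit 0x41) (nat_lit 1) (p (nat_lit 0x10a0b09890a9a) (nat_lit 0) (p (nat_lit 0x98a89088a1a) (nat_lit 0) (p (nat_lit 0x1090a0888079a) (nat_lit 0) (p (nat_lit 0x8898807871a) (nat_lit 0) (p (nat_lit 0x8000000000800080787088a) (nat_lit 0) (p (nat_lit 0x8000000000800078706860a) (nat_lit 0) (p (nat_lit 0x10806860782) (nat_lit 0) (p (nat_lit 0x786058702) (nat_lit 0) (p (nat_lit 0x10705850482) (nat_lit 0) (p (nat_lit 0x685048402) (nat_lit 0) (p (nat_lit 0x16000c) (nat_lit 0) (p (nat_lit 0x60592) (nat_lit 0) (p (nat_lit 0x48512) (nat_lit 0) (p (nat_lit 0x50392) (nat_lit 0) (p (nat_lit 0x38312) (nat_lit 0) (p (nat_lit 0x40212) (nat_lit 0) (p (nat_lit 0x28192) (nat_lit 0)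 (p (nat_lit 0x30092) (nat_lit 0) (p (nat_lit 0x18012) (nat_lit 0) pn))))))))))))))))))))))))) :=
  Cl.node (nat_lit 0xd1) (nat_lit 2) (by decide +kernel) (ClAll.succ (ClAll.succ ClAll.zero s216) s217)

def n320 : Cl (O (nat_lit 5)) (R (nat_lit 6353))
    (p (nat_lit 0xd1) (nat_lit 1) (p (nat_lit 0xc9) (nat_lit 0) (p (nat_lit 0x119) (nat_lit 1) (p (nat_lit 0xc1) (nat_lit 0) (p (nat_lit 0x81) (nat_lit 1) (p (nat_lit 0x41) (nat_lit 1) (p (nat_lit 0x10a0b09890a9a) (nat_lit 0) (p (nat_lit 0x98a89088a1a) (nat_lit 0) (p (nat_lit 0x1090a0888079a) (nat_lit 0) (p (nat_lit 0x8898807871a) (nat_lit 0) (p (nat_lit 0x8000000000800080787088a) (nat_lit 0) (p (nat_lit 0x8000000000800078706860a) (nat_lit 0) (p (nat_lit 0x10806860782) (nat_lit 0) (p (nat_lit 0x786058702) (nat_lit 0) (p (nat_lit 0x10705850482) (nat_lit 0) (p (nat_lit 0x685048402) (nat_lit 0) (p (nat_lit 0x16000c) (nat_lit 0)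 (p (nat_lit 0x60592) (nat_lit 0) (p (nat_lit 0x48512) (nat_lit 0) (p (nat_lit 0x50392) (nat_lit 0) (p (nat_lit 0x38312) (nat_lit 0) (p (nat_lit 0x40212) (nat_lit 0) (p (nat_lit 0x28192) (nat_lit 0) (p (nat_lit 0x30092) (nat_lit 0) (p (nat_lit 0x18012) (nat_lit 0) pn))))))))))))))))))))))))) :=
  Cl.node (nat_lit 0x111) (nat_lit 2) (by decide +kernel) (ClAll.succ (ClAll.succ ClAll.zero s220) n294)

def n321 : Cl (O (nat_lit 5)) (R (nat_lit 6353))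
    (p (nat_lit 0x109) (nat_lit 0) (p (nat_lit 0xc9) (nat_lit 1) (p (nat_lit 0x119) (nat_lit 1) (p (nat_lit 0xc1) (nat_lit 0) (p (nat_lit 0x81) (nat_lit 1) (p (nat_lit 0x41) (nat_lit 1) (p (nat_lit 0x10a0b09890a9a) (nat_lit 0) (p (nat_lit 0x98a89088a1a) (nat_lit 0) (p (nat_lit 0x1090a0888079a) (nat_lit 0) (p (nat_lit 0x8898807871a) (nat_lit 0) (p (nat_lit 0x8000000000800080787088a) (nat_lit 0) (p (nat_lit 0x8000000000800078706860a) (nat_lit 0) (p (nat_lit 0x10806860782) (nat_lit 0) (p (nat_lit 0x786058702) (nat_lit 0) (p (nat_lit 0x10705850482) (nat_lit 0) (p (nat_lit 0x685048402) (nat_lit 0) (p (nat_lit 0x16000c) (nat_lit 0) (p (nat_lit 0x60592) (nat_lit 0) (p (nat_lit 0x48512) (nat_lit 0) (p (nat_lit 0x50392) (nat_lit 0) (p (nat_lit 0x38312) (nat_lit 0) (p (nat_lit 0x40212) (nat_lit 0) (p (nat_lit 0x28192) (nat_lit 0) (p (nat_lit 0x30092) (nat_lit 0) (p (nat_lit 0x18012)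 (nat_lit 0) pn))))))))))))))))))))))))) :=
  Cl.node (nat_lit 0x111) (nat_lit 2) (by decide +kernel) (ClAll.succ (ClAll.succ ClAll.zero s226) n295)

def n322 : Cl (O (nat_lit 5)) (R (nat_lit 6353))
    (p (nat_lit 0x109) (nat_lit 1) (p (nat_lit 0xc9) (nat_lit 1) (p (nat_lit 0x119) (nat_lit 1) (p (nat_lit 0xc1) (nat_lit 0) (p (nat_lit 0x81) (nat_lit 1) (p (nat_lit 0x41) (nat_lit 1) (p (nat_lit 0x10a0b09890a9a) (nat_lit 0) (p (nat_lit 0x98a89088a1a) (nat_lit 0) (p (nat_lit 0x1090a0888079a) (nat_lit 0) (p (nat_lit 0x8898807871a) (nat_lit 0) (p (nat_lit 0x8000000000800080787088a) (nat_lit 0) (p (nat_lit 0x8000000000800078706860a) (nat_lit 0) (p (nat_lit 0x10806860782) (nat_lit 0) (p (nat_lit 0x786058702) (nat_lit 0) (p (nat_lit 0x10705850482) (nat_lit 0) (p (nat_lit 0x685048402) (nat_lit 0) (p (nat_lit 0x16000c) (nat_lit 0) (p (nat_lit 0x60592) (nat_lit 0) (p (nat_lit 0x48512)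 (nat_lit 0) (p (nat_lit 0x50392) (nat_lit 0) (p (nat_lit 0x38312) (nat_lit 0) (p (nat_lit 0x40212) (nat_lit 0) (p (nat_lit 0x28192) (nat_lit 0) (p (nat_lit 0x30092) (nat_lit 0) (p (nat_lit 0x18012) (nat_lit 0) pn))))))))))))))))))))))))) :=
  Cl.node (nat_lit 0x200004) (nat_lit 2) (by decide +kernel) (ClAll.succ (ClAll.succ ClAll.zero n296) s236)

def n323 : Cl (O (nat_lit 5)) (R (nat_lit 6353))
    (p (nat_lit 0x101) (nat_lit 0) (p (nat_lit 0x119) (nat_lit 0) (p (nat_lit 0xd1) (nat_lit 0) (p (nat_lit 0x89) (nat_lit 0) (p (nat_lit 0x41) (nat_lit 0) (p (nat_lit 0x10a0b09890a9a) (nat_lit 0) (p (nat_lit 0x98a89088a1a) (nat_lit 0) (p (nat_lit 0x1090a0888079a) (nat_lit 0) (p (nat_lit 0x8898807871a) (nat_lit 0) (p (nat_lit 0x8000000000800080787088a) (nat_lit 0) (p (nat_lit 0x8000000000800078706860a) (nat_lit 0) (p (nat_lit 0x10806860782) (nat_lit 0) (p (nat_lit 0x786058702) (nat_lit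 0) (p (nat_lit 0x10705850482) (nat_lit 0) (p (nat_lit 0x685048402) (nat_lit 0) (p (nat_lit 0x16000c) (nat_lit 0) (p (nat_lit 0x60592) (nat_lit 0) (p (nat_lit 0x48512) (nat_lit 0) (p (nat_lit 0x50392) (nat_lit 0) (p (nat_lit 0x38312) (nat_lit 0) (p (nat_lit 0x40212) (nat_lit 0) (p (nat_lit 0x28192) (nat_lit 0) (p (nat_lit 0x30092) (nat_lit 0) (p (nat_lit 0x18012) (nat_lit 0) pn)))))))))))))))))))))))) :=
  Cl.node (nat_lit 0x109) (nat_lit 2) (by decide +kernel) (ClAll.succ (ClAll.succ ClAll.zero s0) s1)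

def n324 : Cl (O (nat_lit 5)) (R (nat_lit 6353))
    (p (nat_lit 0x101) (nat_lit 1) (p (nat_lit 0x119) (nat_lit 0) (p (nat_lit 0xd1) (nat_lit 0) (p (nat_lit 0x89) (nat_lit 0) (p (nat_lit 0x41) (nat_lit 0) (p (nat_lit 0x10a0b09890a9a) (nat_lit 0) (p (nat_lit 0x98a89088a1a) (nat_lit 0) (p (nat_lit 0x1090a0888079a) (nat_lit 0) (p (nat_lit 0x8898807871a) (nat_lit 0) (p (nat_lit 0x8000000000800080787088a) (nat_lit 0) (p (nat_lit 0x8000000000800078706860a) (nat_lit 0) (p (nat_lit 0x10806860782) (nat_lit 0) (p (nat_lit 0x786058702) (nat_lit 0) (p (nat_lit 0x10705850482) (nat_lit 0) (p (nat_lit 0x685048402) (nat_lit 0) (p (nat_lit 0x16000c) (nat_lit 0) (p (nat_lit 0x60592) (nat_lit 0) (p (nat_lit 0x48512) (nat_lit 0) (p (nat_lit 0x50392) (nat_lit 0) (p (nat_lit 0x38312) (nat_lit 0) (p (nat_lit 0x40212) (nat_lit 0) (p (nat_lit 0x28192) (nat_lit 0) (p (nat_lit 0x30092) (nat_lit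 0) (p (nat_lit 0x18012) (nat_lit 0) pn)))))))))))))))))))))))) :=
  Cl.node (nat_lit 0x81) (nat_lit 2) (by decide +kernel) (ClAll.succ (ClAll.succ ClAll.zero n297) n298)

def n325 : Cl (O (nat_lit 5)) (R (nat_lit 6353))
    (p (nat_lit 0xc1) (nat_lit 0) (p (nat_lit 0x119) (nat_lit 1) (p (nat_lit 0xd1) (nat_lit 0) (p (nat_lit 0x89) (nat_lit 0) (p (nat_lit 0x41) (nat_lit 0) (p (nat_lit 0x10a0b09890a9a) (nat_lit 0) (p (nat_lit 0x98a89088a1a) (nat_lit 0) (p (nat_lit 0x1090a0888079a) (nat_lit 0) (p (nat_lit 0x8898807871a) (nat_lit 0) (p (nat_lit 0x8000000000800080787088a) (nat_lit 0) (p (nat_lit 0x8000000000800078706860a) (nat_lit 0) (p (nat_lit 0x10806860782) (nat_lit 0) (p (nat_lit 0x786058702) (nat_lit 0) (p (nat_lit 0x10705850482) (nat_lit 0) (p (nat_lit 0x685048402) (nat_lit 0) (p (nat_lit 0x16000c) (nat_lit 0) (p (nat_lit 0x60592) (nat_lit 0) (p (nat_lit 0x48512) (nat_lit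 0) (p (nat_lit 0x50392) (nat_lit 0) (p (nat_lit 0x38312) (nat_lit 0) (p (nat_lit 0x40212) (nat_lit 0) (p (nat_lit 0x28192) (nat_lit 0) (p (nat_lit 0x30092) (nat_lit 0) (p (nat_lit 0x18012) (nat_lit 0) pn)))))))))))))))))))))))) :=
  Cl.node (nat_lit 0xc9) (nat_lit 2) (by decide +kernel) (ClAll.succ (ClAll.succ ClAll.zero s25) n299)

def n326 : Cl (O (nat_lit 5)) (R (nat_lit 6353))
    (p (nat_lit 0xc1) (nat_lit 1) (p (nat_lit 0x119) (nat_lit 1) (p (nat_lit 0xd1) (nat_lit 0) (p (nat_lit 0x89) (nat_lit 0) (p (nat_lit 0x41) (nat_lit 0) (p (nat_lit 0x10a0b09890a9a) (nat_lit 0) (p (nat_lit 0x98a89088a1a) (nat_lit 0) (p (nat_lit 0x1090a0888079a) (nat_lit 0) (p (nat_lit 0x8898807871a) (nat_lit 0) (p (nat_lit 0x8000000000800080787088a) (nat_lit 0) (p (nat_lit 0x8000000000800078706860a) (nat_lit 0) (p (nat_lit 0x10806860782) (nat_lit 0) (p (nat_lit 0x786058702) (nat_lit 0) (p (nat_lit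 0x10705850482) (nat_lit 0) (p (nat_lit 0x685048402) (nat_lit 0) (p (nat_lit 0x16000c) (nat_lit 0) (p (nat_lit 0x60592) (nat_lit 0) (p (nat_lit 0x48512) (nat_lit 0) (p (nat_lit 0x50392) (nat_lit 0) (p (nat_lit 0x38312) (nat_lit 0) (p (nat_lit 0x40212) (nat_lit 0) (p (nat_lit 0x28192) (nat_lit 0) (p (nat_lit 0x30092) (nat_lit 0) (p (nat_lit 0x18012) (nat_lit 0) pn)))))))))))))))))))))))) :=
  Cl.node (nat_lit 0x81) (nat_lit 2) (by decide +kernel) (ClAll.succ (ClAll.succ ClAll.zero n300) n301)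

def n327 : Cl (O (nat_lit 5)) (R (nat_lit 6353))
    (p (nat_lit 0x101) (nat_lit 1) (p (nat_lit 0x111) (nat_lit 0) (p (nat_lit 0xd1) (nat_lit 1) (p (nat_lit 0x89) (nat_lit 0) (p (nat_lit 0x41) (nat_lit 0) (p (nat_lit 0x10a0b09890a9a) (nat_lit 0) (p (nat_lit 0x98a89088a1a) (nat_lit 0) (p (nat_lit 0x1090a0888079a) (nat_lit 0) (p (nat_lit 0x8898807871a) (nat_lit 0) (p (nat_lit 0x8000000000800080787088a) (nat_lit 0) (p (nat_lit 0x8000000000800078706860a) (nat_lit 0) (p (nat_lit 0x10806860782) (nat_lit 0) (p (nat_lit 0x786058702) (nat_lit 0) (p (nat_lit 0x10705850482) (nat_lit 0) (p (nat_lit 0x685048402) (nat_lit 0) (p (nat_lit 0x16000c) (nat_lit 0) (p (nat_lit 0x60592) (nat_lit 0) (p (nat_lit 0x48512) (nat_lit 0) (p (nat_lit 0x50392) (nat_lit 0) (p (nat_lit 0x38312) (nat_lit 0) (p (nat_lit 0x40212) (nat_lit 0) (p (nat_lit 0x28192) (nat_lit 0) (p (nat_lit 0x30092) (nat_lit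 0) (p (nat_lit 0x18012) (nat_lit 0) pn)))))))))))))))))))))))) :=
  Cl.node (nat_lit 0x81) (nat_lit 2) (by decide +kernel) (ClAll.succ (ClAll.succ ClAll.zero n302) n303)

def n328 : Cl (O (nat_lit 5)) (R (nat_lit 6353))
    (p (nat_lit 0x81) (nat_lit 1) (p (nat_lit 0x111) (nat_lit 1) (p (nat_lit 0xd1) (nat_lit 1) (p (nat_lit 0x89) (nat_lit 0) (p (nat_lit 0x41) (nat_lit 0) (p (nat_lit 0x10a0b09890a9a) (nat_lit 0) (p (nat_lit 0x98a89088a1a) (nat_lit 0) (p (nat_lit 0x1090a0888079a) (nat_lit 0) (p (nat_lit 0x8898807871a) (nat_lit 0) (p (nat_lit 0x8000000000800080787088a) (nat_lit 0) (p (nat_lit 0x8000000000800078706860a) (nat_lit 0) (p (nat_lit 0x10806860782) (nat_lit 0) (p (nat_lit 0x786058702) (nat_lit 0) (p (nat_lit 0x10705850482) (nat_lit 0) (p (nat_lit 0x685048402) (nat_lit 0) (p (nat_lit 0x16000c) (nat_lit 0) (p (nat_lit 0x60592) (nat_lit 0) (p (nat_lit 0x48512) (nat_lit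 0) (p (nat_lit 0x50392) (nat_lit 0) (p (nat_lit 0x38312) (nat_lit 0) (p (nat_lit 0x40212) (nat_lit 0) (p (nat_lit 0x28192) (nat_lit 0) (p (nat_lit 0x30092) (nat_lit 0) (p (nat_lit 0x18012) (nat_lit 0) pn)))))))))))))))))))))))) :=
  Cl.node (nat_lit 0xc1) (nat_lit 2) (by decide +kernel) (ClAll.succ (ClAll.succ ClAll.zero s63) n304)

def n329 : Cl (O (nat_lit 5)) (R (nat_lit 6353))
    (p (nat_lit 0x101) (nat_lit 0) (p (nat_lit 0x119) (nat_lit 0) (p (nat_lit 0xc9) (nat_lit 0) (p (nat_lit 0x89) (nat_lit 1) (p (nat_lit 0x41) (nat_lit 0) (p (nat_lit 0x10a0b09890a9a) (nat_lit 0) (p (nat_lit 0x98a89088a1a) (nat_lit 0) (p (nat_lit 0x1090a0888079a) (nat_lit 0) (p (nat_lit 0x8898807871a) (nat_lit 0) (p (nat_lit 0x8000000000800080787088a) (nat_lit 0) (p (nat_lit 0x8000000000800078706860a) (nat_lit 0) (p (nat_lit 0x10806860782) (nat_lit 0) (p (nat_lit 0x786058702) (nat_lit 0) (p (nat_lit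 0x10705850482) (nat_lit 0) (p (nat_lit 0x685048402) (nat_lit 0) (p (nat_lit 0x16000c) (nat_lit 0) (p (nat_lit 0x60592) (nat_lit 0) (p (nat_lit 0x48512) (nat_lit 0) (p (nat_lit 0x50392) (nat_lit 0) (p (nat_lit 0x38312) (nat_lit 0) (p (nat_lit 0x40212) (nat_lit 0) (p (nat_lit 0x28192) (nat_lit 0) (p (nat_lit 0x30092) (nat_lit 0) (p (nat_lit 0x18012) (nat_lit 0) pn)))))))))))))))))))))))) :=
  Cl.node (nat_lit 0x109) (nat_lit 2) (by decide +kernel) (ClAll.succ (ClAll.succ ClAll.zero s67) n305)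

def n330 : Cl (O (nat_lit 5)) (R (nat_lit 6353))
    (p (nat_lit 0x101) (nat_lit 1) (p (nat_lit 0x119) (nat_lit 0) (p (nat_lit 0xc9) (nat_lit 0) (p (nat_lit 0x89) (nat_lit 1) (p (nat_lit 0x41) (nat_lit 0) (p (nat_lit 0x10a0b09890a9a) (nat_lit 0) (p (nat_lit 0x98a89088a1a) (nat_lit 0) (p (nat_lit 0x1090a0888079a) (nat_lit 0) (p (nat_lit 0x8898807871a) (nat_lit 0) (p (nat_lit 0x8000000000800080787088a) (nat_lit 0) (p (nat_lit 0x8000000000800078706860a) (nat_lit 0) (p (nat_lit 0x10806860782) (nat_lit 0) (p (nat_lit 0x786058702) (nat_lit 0) (p (nat_lit 0x10705850482) (nat_lit 0) (p (nat_lit 0x685048402) (nat_lit 0) (p (nat_lit 0x16000c) (nat_lit 0) (p (nat_lit 0x60592) (nat_lit 0) (p (nat_lit 0x48512) (nat_lit 0) (p (nat_lit 0x50392) (nat_lit 0) (p (nat_lit 0x38312) (nat_lit 0) (p (nat_lit 0x40212) (nat_lit 0) (p (nat_lit 0x28192) (nat_lit 0) (p (nat_lit 0x30092) (nat_lit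 0) (p (nat_lit 0x18012) (nat_lit 0) pn)))))))))))))))))))))))) :=
  Cl.node (nat_lit 0xc1) (nat_lit 2) (by decide +kernel) (ClAll.succ (ClAll.succ ClAll.zero n306) s73)

def n331 : Cl (O (nat_lit 5)) (R (nat_lit 6353))
    (p (nat_lit 0xc1) (nat_lit 0) (p (nat_lit 0x119) (nat_lit 1) (p (nat_lit 0xc9) (nat_lit 0) (p (nat_lit 0x89) (nat_lit 1) (p (nat_lit 0x41) (nat_lit 0) (p (nat_lit 0x10a0b09890a9a) (nat_lit 0) (p (nat_lit 0x98a89088a1a) (nat_lit 0) (p (nat_lit 0x1090a0888079a) (nat_lit 0) (p (nat_lit 0x8898807871a) (nat_lit 0) (p (nat_lit 0x8000000000800080787088a) (nat_lit 0) (p (nat_lit 0x8000000000800078706860a) (nat_lit 0) (p (nat_lit 0x10806860782) (nat_lit 0) (p (nat_lit 0x786058702) (nat_lit 0) (p (nat_lit 0x10705850482) (nat_lit 0) (p (nat_lit 0x685048402) (nat_lit 0) (p (nat_lit 0x16000c) (nat_lit 0) (p (nat_lit 0x60592) (nat_lit 0) (p (nat_lit 0x48512) (nat_lit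 0) (p (nat_lit 0x50392) (nat_lit 0) (p (nat_lit 0x38312) (nat_lit 0) (p (nat_lit 0x40212) (nat_lit 0) (p (nat_lit 0x28192) (nat_lit 0) (p (nat_lit 0x30092) (nat_lit 0) (p (nat_lit 0x18012) (nat_lit 0) pn)))))))))))))))))))))))) :=
  Cl.node (nat_lit 0xd1) (nat_lit 2) (by decide +kernel) (ClAll.succ (ClAll.succ ClAll.zero s74) n307)

def n332 : Cl (O (nat_lit 5)) (R (nat_lit 6353))
    (p (nat_lit 0xc1) (nat_lit 1) (p (nat_lit 0x119) (nat_lit 1) (p (nat_lit 0xc9) (nat_lit 0) (p (nat_lit 0x89) (nat_lit 1) (p (nat_lit 0x41) (nat_lit 0) (p (nat_lit 0x10a0b09890a9a) (nat_lit 0) (p (nat_lit 0x98a89088a1a) (nat_lit 0) (p (nat_lit 0x1090a0888079a) (nat_lit 0) (p (nat_lit 0x8898807871a) (nat_lit 0) (p (nat_lit 0x8000000000800080787088a) (nat_lit 0) (p (nat_lit 0x8000000000800078706860a) (nat_lit 0) (p (nat_lit 0x10806860782) (nat_lit 0) (p (nat_lit 0x786058702) (nat_lit 0) (p (nat_lit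 0x10705850482) (nat_lit 0) (p (nat_lit 0x685048402) (nat_lit 0) (p (nat_lit 0x16000c) (nat_lit 0) (p (nat_lit 0x60592) (nat_lit 0) (p (nat_lit 0x48512) (nat_lit 0) (p (nat_lit 0x50392) (nat_lit 0) (p (nat_lit 0x38312) (nat_lit 0) (p (nat_lit 0x40212) (nat_lit 0) (p (nat_lit 0x28192) (nat_lit 0) (p (nat_lit 0x30092) (nat_lit 0) (p (nat_lit 0x18012) (nat_lit 0) pn)))))))))))))))))))))))) :=
  Cl.node (nat_lit 0x101) (nat_lit 2) (by decide +kernel) (ClAll.succ (ClAll.succ ClAll.zero n308) n309)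

def n333 : Cl (O (nat_lit 5)) (R (nat_lit 6353))
    (p (nat_lit 0x101) (nat_lit 0) (p (nat_lit 0x119) (nat_lit 0) (p (nat_lit 0xd1) (nat_lit 0) (p (nat_lit 0x81) (nat_lit 0) (p (nat_lit 0x41) (nat_lit 1) (p (nat_lit 0x10a0b09890a9a) (nat_lit 0) (p (nat_lit 0x98a89088a1a) (nat_lit 0) (p (nat_lit 0x1090a0888079a) (nat_lit 0) (p (nat_lit 0x8898807871a) (nat_lit 0) (p (nat_lit 0x8000000000800080787088a) (nat_lit 0) (p (nat_lit 0x8000000000800078706860a) (nat_lit 0) (p (nat_lit 0x10806860782) (nat_lit 0) (p (nat_lit 0x786058702) (nat_lit 0) (p (nat_lit 0x10705850482) (nat_lit 0) (p (nat_lit 0x685048402) (nat_lit 0) (p (nat_lit 0x16000c) (nat_lit 0) (p (nat_lit 0x60592) (nat_lit 0) (p (nat_lit 0x48512) (nat_lit 0) (p (nat_lit 0x50392) (nat_lit 0) (p (nat_lit 0x38312) (nat_lit 0) (p (nat_lit 0x40212) (nat_lit 0) (p (nat_lit 0x28192) (nat_lit 0) (p (nat_lit 0x30092) (nat_lit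 0) (p (nat_lit 0x18012) (nat_lit 0) pn)))))))))))))))))))))))) :=
  Cl.node (nat_lit 0x109) (nat_lit 2) (by decide +kernel) (ClAll.succ (ClAll.succ ClAll.zero s91) n310)

def n334 : Cl (O (nat_lit 5)) (R (nat_lit 6353))
    (p (nat_lit 0x101) (nat_lit 1) (p (nat_lit 0x119) (nat_lit 0) (p (nat_lit 0xd1) (nat_lit 0) (p (nat_lit 0x81) (nat_lit 0) (p (nat_lit 0x41) (nat_lit 1) (p (nat_lit 0x10a0b09890a9a) (nat_lit 0) (p (nat_lit 0x98a89088a1a) (nat_lit 0) (p (nat_lit 0x1090a0888079a) (nat_lit 0) (p (nat_lit 0x8898807871a) (nat_lit 0) (p (nat_lit 0x8000000000800080787088a) (nat_lit 0) (p (nat_lit 0x8000000000800078706860a) (nat_lit 0) (p (nat_lit 0x10806860782) (nat_lit 0) (p (nat_lit 0x786058702) (nat_lit 0) (p (nat_lit 0x10705850482) (nat_lit 0) (p (nat_lit 0x685048402) (nat_lit 0) (p (nat_lit 0x16000c) (nat_lit 0) (p (nat_lit 0x60592) (nat_lit 0) (p (nat_lit 0x48512) (nat_lit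 0) (p (nat_lit 0x50392) (nat_lit 0) (p (nat_lit 0x38312) (nat_lit 0) (p (nat_lit 0x40212) (nat_lit 0) (p (nat_lit 0x28192) (nat_lit 0) (p (nat_lit 0x30092) (nat_lit 0) (p (nat_lit 0x18012) (nat_lit 0) pn)))))))))))))))))))))))) :=
  Cl.node (nat_lit 0xc1) (nat_lit 2) (by decide +kernel) (ClAll.succ (ClAll.succ ClAll.zero n311) n312)

def n335 : Cl (O (nat_lit 5)) (R (nat_lit 6353))
    (p (nat_lit 0xc1) (nat_lit 0) (p (nat_lit 0x119) (nat_lit 1) (p (nat_lit 0xd1) (nat_lit 0) (p (nat_lit 0x81) (nat_lit 0) (p (nat_lit 0x41) (nat_lit 1) (p (nat_lit 0x10a0b09890a9a) (nat_lit 0) (p (nat_lit 0x98a89088a1a) (nat_lit 0) (p (nat_lit 0x1090a0888079a) (nat_lit 0) (p (nat_lit 0x8898807871a) (nat_lit 0) (p (nat_lit 0x8000000000800080787088a) (nat_lit 0) (p (nat_lit 0x8000000000800078706860a) (nat_lit 0) (p (nat_lit 0x10806860782) (nat_lit 0) (p (nat_lit 0x786058702) (nat_lit 0) (p (nat_lit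 0x10705850482) (nat_lit 0) (p (nat_lit 0x685048402) (nat_lit 0) (p (nat_lit 0x16000c) (nat_lit 0) (p (nat_lit 0x60592) (nat_lit 0) (p (nat_lit 0x48512) (nat_lit 0) (p (nat_lit 0x50392) (nat_lit 0) (p (nat_lit 0x38312) (nat_lit 0) (p (nat_lit 0x40212) (nat_lit 0) (p (nat_lit 0x28192) (nat_lit 0) (p (nat_lit 0x30092) (nat_lit 0) (p (nat_lit 0x18012) (nat_lit 0) pn)))))))))))))))))))))))) :=
  Cl.node (nat_lit 0xc9) (nat_lit 2) (by decide +kernel) (ClAll.succ (ClAll.succ ClAll.zero s138) n313)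

def n336 : Cl (O (nat_lit 5)) (R (nat_lit 6353))
    (p (nat_lit 0xc1) (nat_lit 1) (p (nat_lit 0x119) (nat_lit 1) (p (nat_lit 0xd1) (nat_lit 0) (p (nat_lit 0x81) (nat_lit 0) (p (nat_lit 0x41) (nat_lit 1) (p (nat_lit 0x10a0b09890a9a) (nat_lit 0) (p (nat_lit 0x98a89088a1a) (nat_lit 0) (p (nat_lit 0x1090a0888079a) (nat_lit 0) (p (nat_lit 0x8898807871a) (nat_lit 0) (p (nat_lit 0x8000000000800080787088a) (nat_lit 0) (p (nat_lit 0x8000000000800078706860a) (nat_lit 0) (p (nat_lit 0x10806860782) (nat_lit 0) (p (nat_lit 0x786058702) (nat_lit 0) (p (nat_lit 0x10705850482) (nat_lit 0) (p (nat_lit 0x685048402) (nat_lit 0) (p (nat_lit 0x16000c) (nat_lit 0) (p (nat_lit 0x60592) (nat_lit 0) (p (nat_lit 0x48512) (nat_lit 0) (p (nat_lit 0x50392) (nat_lit 0) (p (nat_lit 0x38312) (nat_lit 0) (p (nat_lit 0x40212) (nat_lit 0) (p (nat_lit 0x28192) (nat_lit 0) (p (nat_lit 0x30092) (nat_lit 0)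 (p (nat_lit 0x18012) (nat_lit 0) pn)))))))))))))))))))))))) :=
  Cl.node (nat_lit 0x101) (nat_lit 2) (by decide +kernel) (ClAll.succ (ClAll.succ ClAll.zero n314) n315)

def n337 : Cl (O (nat_lit 5)) (R (nat_lit 6353))
    (p (nat_lit 0x101) (nat_lit 0) (p (nat_lit 0x111) (nat_lit 0) (p (nat_lit 0xd1) (nat_lit 1) (p (nat_lit 0x81) (nat_lit 0) (p (nat_lit 0x41) (nat_lit 1) (p (nat_lit 0x10a0b09890a9a) (nat_lit 0) (p (nat_lit 0x98a89088a1a) (nat_lit 0) (p (nat_lit 0x1090a0888079a) (nat_lit 0) (p (nat_lit 0x8898807871a) (nat_lit 0) (p (nat_lit 0x8000000000800080787088a) (nat_lit 0) (p (nat_lit 0x8000000000800078706860a) (nat_lit 0) (p (nat_lit 0x10806860782) (nat_lit 0) (p (nat_lit 0x786058702) (nat_lit 0) (p (nat_lit 0x10705850482) (nat_lit 0) (p (nat_lit 0x685048402) (nat_lit 0) (p (nat_lit 0x16000c) (nat_lit 0) (p (nat_lit 0x60592) (nat_lit 0) (p (nat_lit 0x48512) (nat_lit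 0) (p (nat_lit 0x50392) (nat_lit 0) (p (nat_lit 0x38312) (nat_lit 0) (p (nat_lit 0x40212) (nat_lit 0) (p (nat_lit 0x28192) (nat_lit 0) (p (nat_lit 0x30092) (nat_lit 0) (p (nat_lit 0x18012) (nat_lit 0) pn)))))))))))))))))))))))) :=
  Cl.node (nat_lit 0x109) (nat_lit 2) (by decide +kernel) (ClAll.succ (ClAll.succ ClAll.zero s181) n316)

def n338 : Cl (O (nat_lit 5)) (R (nat_lit 6353))
    (p (nat_lit 0x101) (nat_lit 1) (p (nat_lit 0x111) (nat_lit 0) (p (nat_lit 0xd1) (nat_lit 1) (p (nat_lit 0x81) (nat_lit 0) (p (nat_lit 0x41) (nat_lit 1) (p (nat_lit 0x10a0b09890a9a) (nat_lit 0) (p (nat_lit 0x98a89088a1a) (nat_lit 0) (p (nat_lit 0x1090a0888079a) (nat_lit 0) (p (nat_lit 0x8898807871a) (nat_lit 0) (p (nat_lit 0x8000000000800080787088a) (nat_lit 0) (p (nat_lit 0x8000000000800078706860a) (nat_lit 0) (p (nat_lit 0x10806860782) (nat_lit 0) (p (nat_lit 0x786058702) (nat_lit 0) (p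 (nat_lit 0x10705850482) (nat_lit 0) (p (nat_lit 0x685048402) (nat_lit 0) (p (nat_lit 0x16000c) (nat_lit 0) (p (nat_lit 0x60592) (nat_lit 0) (p (nat_lit 0x48512) (nat_lit 0) (p (nat_lit 0x50392) (nat_lit 0) (p (nat_lit 0x38312) (nat_lit 0) (p (nat_lit 0x40212) (nat_lit 0) (p (nat_lit 0x28192) (nat_lit 0) (p (nat_lit 0x30092) (nat_lit 0) (p (nat_lit 0x18012) (nat_lit 0) pn)))))))))))))))))))))))) :=
  Cl.node (nat_lit 0x89) (nat_lit 2) (by decide +kernel) (ClAll.succ (ClAll.succ ClAll.zero s191) n317)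

def n339 : Cl (O (nat_lit 5)) (R (nat_lit 6353))
    (p (nat_lit 0x89) (nat_lit 1) (p (nat_lit 0x111) (nat_lit 1) (p (nat_lit 0xd1) (nat_lit 1) (p (nat_lit 0x81) (nat_lit 0) (p (nat_lit 0x41) (nat_lit 1) (p (nat_lit 0x10a0b09890a9a) (nat_lit 0) (p (nat_lit 0x98a89088a1a) (nat_lit 0) (p (nat_lit 0x1090a0888079a) (nat_lit 0) (p (nat_lit 0x8898807871a) (nat_lit 0) (p (nat_lit 0x8000000000800080787088a) (nat_lit 0) (p (nat_lit 0x8000000000800078706860a) (nat_lit 0) (p (nat_lit 0x10806860782) (nat_lit 0) (p (nat_lit 0x786058702) (nat_lit 0) (p (nat_lit 0x10705850482) (nat_lit 0) (p (nat_lit 0x685048402) (nat_lit 0) (p (nat_lit 0x16000c) (nat_lit 0) (p (nat_lit 0x60592) (nat_lit 0) (p (nat_lit 0x48512) (nat_lit 0) (p (nat_lit 0x50392) (nat_lit 0) (p (nat_lit 0x38312) (nat_lit 0) (p (nat_lit 0x40212) (nat_lit 0) (p (nat_lit 0x28192) (nat_lit 0) (p (nat_lit 0x30092) (nat_lit 0)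 (p (nat_lit 0x18012) (nat_lit 0) pn)))))))))))))))))))))))) :=
  Cl.node (nat_lit 0xc9) (nat_lit 2) (by decide +kernel) (ClAll.succ (ClAll.succ ClAll.zero s203) n318)

def n340 : Cl (O (nat_lit 5)) (R (nat_lit 6353))
    (p (nat_lit 0x101) (nat_lit 0) (p (nat_lit 0x119) (nat_lit 0) (p (nat_lit 0xc1) (nat_lit 0) (p (nat_lit 0x81) (nat_lit 1) (p (nat_lit 0x41) (nat_lit 1) (p (nat_lit 0x10a0b09890a9a) (nat_lit 0) (p (nat_lit 0x98a89088a1a) (nat_lit 0) (p (nat_lit 0x1090a0888079a) (nat_lit 0) (p (nat_lit 0x8898807871a) (nat_lit 0) (p (nat_lit 0x8000000000800080787088a) (nat_lit 0) (p (nat_lit 0x8000000000800078706860a) (nat_lit 0) (p (nat_lit 0x10806860782) (nat_lit 0) (p (nat_lit 0x786058702) (nat_lit 0) (p (nat_lit 0x10705850482) (nat_lit 0) (p (nat_lit 0x685048402) (nat_lit 0) (p (nat_lit 0x16000c) (nat_lit 0) (p (nat_lit 0x60592) (nat_lit 0) (p (nat_lit 0x48512) (nat_lit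 0) (p (nat_lit 0x50392) (nat_lit 0) (p (nat_lit 0x38312) (nat_lit 0) (p (nat_lit 0x40212) (nat_lit 0) (p (nat_lit 0x28192) (nat_lit 0) (p (nat_lit 0x30092) (nat_lit 0) (p (nat_lit 0x18012) (nat_lit 0) pn)))))))))))))))))))))))) :=
  Cl.node (nat_lit 0x109) (nat_lit 2) (by decide +kernel) (ClAll.succ (ClAll.succ ClAll.zero s214) s215)

def n341 : Cl (O (nat_lit 5)) (R (nat_lit 6353))
    (p (nat_lit 0x101) (nat_lit 1) (p (nat_lit 0x119) (nat_lit 0) (p (nat_lit 0xc1) (nat_lit 0) (p (nat_lit 0x81) (nat_lit 1) (p (nat_lit 0x41) (nat_lit 1) (p (nat_lit 0x10a0b09890a9a) (nat_lit 0) (p (nat_lit 0x98a89088a1a) (nat_lit 0) (p (nat_lit 0x1090a0888079a) (nat_lit 0) (p (nat_lit 0x8898807871a) (nat_lit 0) (p (nat_lit 0x8000000000800080787088a) (nat_lit 0) (p (nat_lit 0x8000000000800078706860a) (nat_lit 0) (p (nat_lit 0x10806860782) (nat_lit 0) (p (nat_lit 0x786058702) (nat_lit 0) (p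 (nat_lit 0x10705850482) (nat_lit 0) (p (nat_lit 0x685048402) (nat_lit 0) (p (nat_lit 0x16000c) (nat_lit 0) (p (nat_lit 0x60592) (nat_lit 0) (p (nat_lit 0x48512) (nat_lit 0) (p (nat_lit 0x50392) (nat_lit 0) (p (nat_lit 0x38312) (nat_lit 0) (p (nat_lit 0x40212) (nat_lit 0) (p (nat_lit 0x28192) (nat_lit 0) (p (nat_lit 0x30092) (nat_lit 0) (p (nat_lit 0x18012) (nat_lit 0) pn)))))))))))))))))))))))) :=
  Cl.node (nat_lit 0xc9) (nat_lit 2) (by decide +kernel) (ClAll.succ (ClAll.succ ClAll.zero n319) s218)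

def n342 : Cl (O (nat_lit 5)) (R (nat_lit 6353))
    (p (nat_lit 0xc9) (nat_lit 0) (p (nat_lit 0x119) (nat_lit 1) (p (nat_lit 0xc1) (nat_lit 0) (p (nat_lit 0x81) (nat_lit 1) (p (nat_lit 0x41) (nat_lit 1) (p (nat_lit 0x10a0b09890a9a) (nat_lit 0) (p (nat_lit 0x98a89088a1a) (nat_lit 0) (p (nat_lit 0x1090a0888079a) (nat_lit 0) (p (nat_lit 0x8898807871a) (nat_lit 0) (p (nat_lit 0x8000000000800080787088a) (nat_lit 0) (p (nat_lit 0x8000000000800078706860a) (nat_lit 0) (p (nat_lit 0x10806860782) (nat_lit 0) (p (nat_lit 0x786058702) (nat_lit 0) (p (nat_lit 0x10705850482) (nat_lit 0) (p (nat_lit 0x685048402) (nat_lit 0) (p (nat_lit 0x16000c) (nat_lit 0) (p (nat_lit 0x60592) (nat_lit 0) (p (nat_lit 0x48512) (nat_lit 0) (p (nat_lit 0x50392) (nat_lit 0) (p (nat_lit 0x38312) (nat_lit 0) (p (nat_lit 0x40212) (nat_lit 0) (p (nat_lit 0x28192) (nat_lit 0) (p (nat_lit 0x30092) (nat_lit 0)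 (p (nat_lit 0x18012) (nat_lit 0) pn)))))))))))))))))))))))) :=
  Cl.node (nat_lit 0xd1) (nat_lit 2) (by decide +kernel) (ClAll.succ (ClAll.succ ClAll.zero s219) n320)

def n343 : Cl (O (nat_lit 5)) (R (nat_lit 6353))
    (p (nat_lit 0xc9) (nat_lit 1) (p (nat_lit 0x119) (nat_lit 1) (p (nat_lit 0xc1) (nat_lit 0) (p (nat_lit 0x81) (nat_lit 1) (p (nat_lit 0x41) (nat_lit 1) (p (nat_lit 0x10a0b09890a9a) (nat_lit 0) (p (nat_lit 0x98a89088a1a) (nat_lit 0) (p (nat_lit 0x1090a0888079a) (nat_lit 0) (p (nat_lit 0x8898807871a) (nat_lit 0) (p (nat_lit 0x8000000000800080787088a) (nat_lit 0) (p (nat_lit 0x8000000000800078706860a) (nat_lit 0) (p (nat_lit 0x10806860782) (nat_lit 0) (p (nat_lit 0x786058702) (nat_lit 0) (p (nat_lit 0x10705850482) (nat_lit 0) (p (nat_lit 0x685048402) (nat_lit 0) (p (nat_lit 0x16000c) (nat_lit 0) (p (nat_lit 0x60592) (nat_lit 0) (p (nat_lit 0x48512) (nat_lit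 0) (p (nat_lit 0x50392) (nat_lit 0) (p (nat_lit 0x38312) (nat_lit 0) (p (nat_lit 0x40212) (nat_lit 0) (p (nat_lit 0x28192) (nat_lit 0) (p (nat_lit 0x30092) (nat_lit 0) (p (nat_lit 0x18012) (nat_lit 0) pn)))))))))))))))))))))))) :=
  Cl.node (nat_lit 0x109) (nat_lit 2) (by decide +kernel) (ClAll.succ (ClAll.succ ClAll.zero n321) n322)

def n344 : Cl (O (nat_lit 5)) (R (nat_lit 6353))
    (p (nat_lit 0x119) (nat_lit 0) (p (nat_lit 0xd1) (nat_lit 0) (p (nat_lit 0x89) (nat_lit 0) (p (nat_lit 0x41) (nat_lit 0) (p (nat_lit 0x10a0b09890a9a) (nat_lit 0) (p (nat_lit 0x98a89088a1a) (nat_lit 0) (p (nat_lit 0x1090a0888079a) (nat_lit 0) (p (nat_lit 0x8898807871a) (nat_lit 0) (p (nat_lit 0x8000000000800080787088a) (nat_lit 0) (p (nat_lit 0x8000000000800078706860a) (nat_lit 0) (p (nat_lit 0x10806860782) (nat_lit 0) (p (nat_lit 0x786058702) (nat_lit 0) (p (nat_lit 0x10705850482) (nat_lit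 0) (p (nat_lit 0x685048402) (nat_lit 0) (p (nat_lit 0x16000c) (nat_lit 0) (p (nat_lit 0x60592) (nat_lit 0) (p (nat_lit 0x48512) (nat_lit 0) (p (nat_lit 0x50392) (nat_lit 0) (p (nat_lit 0x38312) (nat_lit 0) (p (nat_lit 0x40212) (nat_lit 0) (p (nat_lit 0x28192) (nat_lit 0) (p (nat_lit 0x30092) (nat_lit 0) (p (nat_lit 0x18012) (nat_lit 0) pn))))))))))))))))))))))) :=
  Cl.node (nat_lit 0x101) (nat_lit 2) (by decide +kernel) (ClAll.succ (ClAll.succ ClAll.zero n323) n324)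

def n345 : Cl (O (nat_lit 5)) (R (nat_lit 6353))
    (p (nat_lit 0x119) (nat_lit 1) (p (nat_lit 0xd1) (nat_lit 0) (p (nat_lit 0x89) (nat_lit 0) (p (nat_lit 0x41) (nat_lit 0) (p (nat_lit 0x10a0b09890a9a) (nat_lit 0) (p (nat_lit 0x98a89088a1a) (nat_lit 0) (p (nat_lit 0x1090a0888079a) (nat_lit 0) (p (nat_lit 0x8898807871a) (nat_lit 0) (p (nat_lit 0x8000000000800080787088a) (nat_lit 0) (p (nat_lit 0x8000000000800078706860a) (nat_lit 0) (p (nat_lit 0x10806860782) (nat_lit 0) (p (nat_lit 0x786058702) (nat_lit 0) (p (nat_lit 0x10705850482) (nat_lit 0) (p (nat_lit 0x685048402) (nat_lit 0) (p (nat_lit 0x16000c) (nat_lit 0) (p (nat_lit 0x60592) (nat_lit 0) (p (nat_lit 0x48512) (nat_lit 0) (p (nat_lit 0x50392) (nat_lit 0) (p (nat_lit 0x38312) (nat_lit 0) (p (nat_lit 0x40212) (nat_lit 0) (p (nat_lit 0x28192) (nat_lit 0) (p (nat_lit 0x30092) (nat_lit 0) (p (nat_lit 0x18012) (nat_lit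 0) pn))))))))))))))))))))))) :=
  Cl.node (nat_lit 0xc1) (nat_lit 2) (by decide +kernel) (ClAll.succ (ClAll.succ ClAll.zero n325) n326)

def n346 : Cl (O (nat_lit 5)) (R (nat_lit 6353))
    (p (nat_lit 0x111) (nat_lit 0) (p (nat_lit 0xd1) (nat_lit 1) (p (nat_lit 0x89) (nat_lit 0) (p (nat_lit 0x41) (nat_lit 0) (p (nat_lit 0x10a0b09890a9a) (nat_lit 0) (p (nat_lit 0x98a89088a1a) (nat_lit 0) (p (nat_lit 0x1090a0888079a) (nat_lit 0) (p (nat_lit 0x8898807871a) (nat_lit 0) (p (nat_lit 0x8000000000800080787088a) (nat_lit 0) (p (nat_lit 0x8000000000800078706860a) (nat_lit 0) (p (nat_lit 0x10806860782) (nat_lit 0) (p (nat_lit 0x786058702) (nat_lit 0) (p (nat_lit 0x10705850482) (nat_lit 0) (p (nat_lit 0x685048402) (nat_lit 0) (p (nat_lit 0x16000c) (nat_lit 0) (p (nat_lit 0x60592) (nat_lit 0) (p (nat_lit 0x48512) (nat_lit 0) (p (nat_lit 0x50392) (nat_lit 0) (p (nat_lit 0x38312) (nat_lit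 0) (p (nat_lit 0x40212) (nat_lit 0) (p (nat_lit 0x28192) (nat_lit 0) (p (nat_lit 0x30092) (nat_lit 0) (p (nat_lit 0x18012) (nat_lit 0) pn))))))))))))))))))))))) :=
  Cl.node (nat_lit 0x101) (nat_lit 2) (by decide +kernel) (ClAll.succ (ClAll.succ ClAll.zero s52) n327)

def n347 : Cl (O (nat_lit 5)) (R (nat_lit 6353))
    (p (nat_lit 0x111) (nat_lit 1) (p (nat_lit 0xd1) (nat_lit 1) (p (nat_lit 0x89) (nat_lit 0) (p (nat_lit 0x41) (nat_lit 0) (p (nat_lit 0x10a0b09890a9a) (nat_lit 0) (p (nat_lit 0x98a89088a1a) (nat_lit 0) (p (nat_lit 0x1090a0888079a) (nat_lit 0) (p (nat_lit 0x8898807871a) (nat_lit 0) (p (nat_lit 0x8000000000800080787088a) (nat_lit 0) (p (nat_lit 0x8000000000800078706860a) (nat_lit 0) (p (nat_lit 0x10806860782) (nat_lit 0) (p (nat_lit 0x786058702) (nat_lit 0) (p (nat_lit 0x10705850482) (nat_lit 0) (p (nat_lit 0x685048402) (nat_lit 0) (p (nat_lit 0x16000c) (nat_lit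 0) (p (nat_lit 0x60592) (nat_lit 0) (p (nat_lit 0x48512) (nat_lit 0) (p (nat_lit 0x50392) (nat_lit 0) (p (nat_lit 0x38312) (nat_lit 0) (p (nat_lit 0x40212) (nat_lit 0) (p (nat_lit 0x28192) (nat_lit 0) (p (nat_lit 0x30092) (nat_lit 0) (p (nat_lit 0x18012) (nat_lit 0) pn))))))))))))))))))))))) :=
  Cl.node (nat_lit 0x81) (nat_lit 2) (by decide +kernel) (ClAll.succ (ClAll.succ ClAll.zero s62) n328)

def n348 : Cl (O (nat_lit 5)) (R (nat_lit 6353))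
    (p (nat_lit 0x119) (nat_lit 0) (p (nat_lit 0xc9) (nat_lit 0) (p (nat_lit 0x89) (nat_lit 1) (p (nat_lit 0x41) (nat_lit 0) (p (nat_lit 0x10a0b09890a9a) (nat_lit 0) (p (nat_lit 0x98a89088a1a) (nat_lit 0) (p (nat_lit 0x1090a0888079a) (nat_lit 0) (p (nat_lit 0x8898807871a) (nat_lit 0) (p (nat_lit 0x8000000000800080787088a) (nat_lit 0) (p (nat_lit 0x8000000000800078706860a) (nat_lit 0) (p (nat_lit 0x10806860782) (nat_lit 0) (p (nat_lit 0x786058702) (nat_lit 0) (p (nat_lit 0x10705850482) (nat_lit 0) (p (nat_lit 0x685048402) (nat_lit 0) (p (nat_lit 0x16000c) (nat_lit 0) (p (nat_lit 0x60592) (nat_lit 0) (p (nat_lit 0x48512) (nat_lit 0) (p (nat_lit 0x50392) (nat_lit 0) (p (nat_lit 0x38312) (nat_lit 0) (p (nat_lit 0x40212) (nat_lit 0) (p (nat_lit 0x28192) (nat_lit 0) (p (nat_lit 0x30092) (nat_lit 0) (p (nat_lit 0x18012) (nat_lit 0) pn))))))))))))))))))))))) :=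
  Cl.node (nat_lit 0x101) (nat_lit 2) (by decide +kernel) (ClAll.succ (ClAll.succ ClAll.zero n329) n330)

def n349 : Cl (O (nat_lit 5)) (R (nat_lit 6353))
    (p (nat_lit 0x119) (nat_lit 1) (p (nat_lit 0xc9) (nat_lit 0) (p (nat_lit 0x89) (nat_lit 1) (p (nat_lit 0x41) (nat_lit 0) (p (nat_lit 0x10a0b09890a9a) (nat_lit 0) (p (nat_lit 0x98a89088a1a) (nat_lit 0) (p (nat_lit 0x1090a0888079a) (nat_lit 0) (p (nat_lit 0x8898807871a) (nat_lit 0) (p (nat_lit 0x8000000000800080787088a) (nat_lit 0) (p (nat_lit 0x8000000000800078706860a) (nat_lit 0) (p (nat_lit 0x10806860782) (nat_lit 0) (p (nat_lit 0x786058702) (nat_lit 0) (p (nat_lit 0x10705850482) (nat_lit 0) (p (nat_lit 0x685048402) (nat_lit 0) (p (nat_lit 0x16000c) (nat_lit 0) (p (nat_lit 0x60592) (nat_lit 0) (p (nat_lit 0x48512) (nat_lit 0) (p (nat_lit 0x50392) (nat_lit 0) (p (nat_lit 0x38312) (nat_lit 0) (p (nat_lit 0x40212) (nat_lit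 0) (p (nat_lit 0x28192) (nat_lit 0) (p (nat_lit 0x30092) (nat_lit 0) (p (nat_lit 0x18012) (nat_lit 0) pn))))))))))))))))))))))) :=
  Cl.node (nat_lit 0xc1) (nat_lit 2) (by decide +kernel) (ClAll.succ (ClAll.succ ClAll.zero n331) n332)

def n350 : Cl (O (nat_lit 5)) (R (nat_lit 6353))
    (p (nat_lit 0x119) (nat_lit 0) (p (nat_lit 0xd1) (nat_lit 0) (p (nat_lit 0x81) (nat_lit 0) (p (nat_lit 0x41) (nat_lit 1) (p (nat_lit 0x10a0b09890a9a) (nat_lit 0) (p (nat_lit 0x98a89088a1a) (nat_lit 0) (p (nat_lit 0x1090a0888079a) (nat_lit 0) (p (nat_lit 0x8898807871a) (nat_lit 0) (p (nat_lit 0x8000000000800080787088a) (nat_lit 0) (p (nat_lit 0x8000000000800078706860a) (nat_lit 0) (p (nat_lit 0x10806860782) (nat_lit 0) (p (nat_lit 0x786058702) (nat_lit 0) (p (nat_lit 0x10705850482) (nat_lit 0) (p (nat_lit 0x685048402) (nat_lit 0) (p (nat_lit 0x16000c) (nat_lit 0) (p (nat_lit 0x60592) (nat_lit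 0) (p (nat_lit 0x48512) (nat_lit 0) (p (nat_lit 0x50392) (nat_lit 0) (p (nat_lit 0x38312) (nat_lit 0) (p (nat_lit 0x40212) (nat_lit 0) (p (nat_lit 0x28192) (nat_lit 0) (p (nat_lit 0x30092) (nat_lit 0) (p (nat_lit 0x18012) (nat_lit 0) pn))))))))))))))))))))))) :=
  Cl.node (nat_lit 0x101) (nat_lit 2) (by decide +kernel) (ClAll.succ (ClAll.succ ClAll.zero n333) n334)

def n351 : Cl (O (nat_lit 5)) (R (nat_lit 6353))
    (p (nat_lit 0x119) (nat_lit 1) (p (nat_lit 0xd1) (nat_lit 0) (p (nat_lit 0x81) (nat_lit 0) (p (nat_lit 0x41) (nat_lit 1) (p (nat_lit 0x10a0b09890a9a) (nat_lit 0) (p (nat_lit 0x98a89088a1a) (nat_lit 0) (p (nat_lit 0x1090a0888079a) (nat_lit 0) (p (nat_lit 0x8898807871a) (nat_lit 0) (p (nat_lit 0x8000000000800080787088a) (nat_lit 0) (p (nat_lit 0x8000000000800078706860a) (nat_lit 0) (p (nat_lit 0x10806860782) (nat_lit 0) (p (nat_lit 0x786058702) (nat_lit 0) (p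 (nat_lit 0x10705850482) (nat_lit 0) (p (nat_lit 0x685048402) (nat_lit 0) (p (nat_lit 0x16000c) (nat_lit 0) (p (nat_lit 0x60592) (nat_lit 0) (p (nat_lit 0x48512) (nat_lit 0) (p (nat_lit 0x50392) (nat_lit 0) (p (nat_lit 0x38312) (nat_lit 0) (p (nat_lit 0x40212) (nat_lit 0) (p (nat_lit 0x28192) (nat_lit 0) (p (nat_lit 0x30092) (nat_lit 0) (p (nat_lit 0x18012) (nat_lit 0) pn))))))))))))))))))))))) :=
  Cl.node (nat_lit 0xc1) (nat_lit 2) (by decide +kernel) (ClAll.succ (ClAll.succ ClAll.zero n335) n336)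

def n352 : Cl (O (nat_lit 5)) (R (nat_lit 6353))
    (p (nat_lit 0x111) (nat_lit 0) (p (nat_lit 0xd1) (nat_lit 1) (p (nat_lit 0x81) (nat_lit 0) (p (nat_lit 0x41) (nat_lit 1) (p (nat_lit 0x10a0b09890a9a) (nat_lit 0) (p (nat_lit 0x98a89088a1a) (nat_lit 0) (p (nat_lit 0x1090a0888079a) (nat_lit 0) (p (nat_lit 0x8898807871a) (nat_lit 0) (p (nat_lit 0x8000000000800080787088a) (nat_lit 0) (p (nat_lit 0x8000000000800078706860a) (nat_lit 0) (p (nat_lit 0x10806860782) (nat_lit 0) (p (nat_lit 0x786058702) (nat_lit 0) (p (nat_lit 0x10705850482) (nat_lit 0) (p (nat_lit 0x685048402) (nat_lit 0) (p (nat_lit 0x16000c) (nat_lit 0) (p (nat_lit 0x60592) (nat_lit 0) (p (nat_lit 0x48512) (nat_lit 0) (p (nat_lit 0x50392) (nat_lit 0) (p (nat_lit 0x38312) (nat_lit 0) (p (nat_lit 0x40212) (nat_lit 0) (p (nat_lit 0x28192) (nat_lit 0) (p (nat_lit 0x30092) (nat_lit 0) (p (nat_lit 0x18012) (nat_lit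 0) pn))))))))))))))))))))))) :=
  Cl.node (nat_lit 0x101) (nat_lit 2) (by decide +kernel) (ClAll.succ (ClAll.succ ClAll.zero n337) n338)

def n353 : Cl (O (nat_lit 5)) (R (nat_lit 6353))
    (p (nat_lit 0x111) (nat_lit 1) (p (nat_lit 0xd1) (nat_lit 1) (p (nat_lit 0x81) (nat_lit 0) (p (nat_lit 0x41) (nat_lit 1) (p (nat_lit 0x10a0b09890a9a) (nat_lit 0) (p (nat_lit 0x98a89088a1a) (nat_lit 0) (p (nat_lit 0x1090a0888079a) (nat_lit 0) (p (nat_lit 0x8898807871a) (nat_lit 0) (p (nat_lit 0x8000000000800080787088a) (nat_lit 0) (p (nat_lit 0x8000000000800078706860a) (nat_lit 0) (p (nat_lit 0x10806860782) (nat_lit 0) (p (nat_lit 0x786058702) (nat_lit 0) (p (nat_lit 0x10705850482) (nat_lit 0) (p (nat_lit 0x685048402) (nat_lit 0) (p (nat_lit 0x16000c) (nat_lit 0) (p (nat_lit 0x60592) (nat_lit 0) (p (nat_lit 0x48512) (nat_lit 0) (p (nat_lit 0x50392) (nat_lit 0) (p (nat_lit 0x38312) (nat_lit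 0) (p (nat_lit 0x40212) (nat_lit 0) (p (nat_lit 0x28192) (nat_lit 0) (p (nat_lit 0x30092) (nat_lit 0) (p (nat_lit 0x18012) (nat_lit 0) pn))))))))))))))))))))))) :=
  Cl.node (nat_lit 0x89) (nat_lit 2) (by decide +kernel) (ClAll.succ (ClAll.succ ClAll.zero s202) n339)

def n354 : Cl (O (nat_lit 5)) (R (nat_lit 6353))
    (p (nat_lit 0x119) (nat_lit 0) (p (nat_lit 0xc1) (nat_lit 0) (p (nat_lit 0x81) (nat_lit 1) (p (nat_lit 0x41) (nat_lit 1) (p (nat_lit 0x10a0b09890a9a) (nat_lit 0) (p (nat_lit 0x98a89088a1a) (nat_lit 0) (p (nat_lit 0x1090a0888079a) (nat_lit 0) (p (nat_lit 0x8898807871a) (nat_lit 0) (p (nat_lit 0x8000000000800080787088a) (nat_lit 0) (p (nat_lit 0x8000000000800078706860a) (nat_lit 0) (p (nat_lit 0x10806860782) (nat_lit 0) (p (nat_lit 0x786058702) (nat_lit 0) (p (nat_lit 0x10705850482) (nat_lit 0) (p (nat_lit 0x685048402) (nat_lit 0) (p (nat_lit 0x16000c) (nat_lit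 0) (p (nat_lit 0x60592) (nat_lit 0) (p (nat_lit 0x48512) (nat_lit 0) (p (nat_lit 0x50392) (nat_lit 0) (p (nat_lit 0x38312) (nat_lit 0) (p (nat_lit 0x40212) (nat_lit 0) (p (nat_lit 0x28192) (nat_lit 0) (p (nat_lit 0x30092) (nat_lit 0) (p (nat_lit 0x18012) (nat_lit 0) pn))))))))))))))))))))))) :=
  Cl.node (nat_lit 0x101) (nat_lit 2) (by decide +kernel) (ClAll.succ (ClAll.succ ClAll.zero n340) n341)

def n355 : Cl (O (nat_lit 5)) (R (nat_lit 6353))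
    (p (nat_lit 0x119) (nat_lit 1) (p (nat_lit 0xc1) (nat_lit 0) (p (nat_lit 0x81) (nat_lit 1) (p (nat_lit 0x41) (nat_lit 1) (p (nat_lit 0x10a0b09890a9a) (nat_lit 0) (p (nat_lit 0x98a89088a1a) (nat_lit 0) (p (nat_lit 0x1090a0888079a) (nat_lit 0) (p (nat_lit 0x8898807871a) (nat_lit 0) (p (nat_lit 0x8000000000800080787088a) (nat_lit 0) (p (nat_lit 0x8000000000800078706860a) (nat_lit 0) (p (nat_lit 0x10806860782) (nat_lit 0) (p (nat_lit 0x786058702) (nat_lit 0) (p (nat_lit 0x10705850482) (nat_lit 0) (p (nat_lit 0x685048402) (nat_lit 0) (p (nat_lit 0x16000c) (nat_lit 0) (p (nat_lit 0x60592) (nat_lit 0) (p (nat_lit 0x48512) (nat_lit 0) (p (nat_lit 0x50392) (nat_lit 0) (p (nat_lit 0x38312) (nat_lit 0) (p (nat_lit 0x40212) (nat_lit 0) (p (nat_lit 0x28192) (nat_lit 0) (p (nat_lit 0x30092) (nat_lit 0) (p (nat_lit 0x18012) (nat_lit 0) pn))))))))))))))))))))))) :=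
  Cl.node (nat_lit 0xc9) (nat_lit 2) (by decide +kernel) (ClAll.succ (ClAll.succ ClAll.zero n342) n343)

def n356 : Cl (O (nat_lit 5)) (R (nat_lit 6353))
    (p (nat_lit 0xd1) (nat_lit 0) (p (nat_lit 0x89) (nat_lit 0) (p (nat_lit 0x41) (nat_lit 0) (p (nat_lit 0x10a0b09890a9a) (nat_lit 0) (p (nat_lit 0x98a89088a1a) (nat_lit 0) (p (nat_lit 0x1090a0888079a) (nat_lit 0) (p (nat_lit 0x8898807871a) (nat_lit 0) (p (nat_lit 0x8000000000800080787088a) (nat_lit 0) (p (nat_lit 0x8000000000800078706860a) (nat_lit 0) (p (nat_lit 0x10806860782) (nat_lit 0) (p (nat_lit 0x786058702) (nat_lit 0) (p (nat_lit 0x10705850482) (nat_lit 0) (p (nat_lit 0x685048402) (nat_lit 0) (p (nat_lit 0x16000c) (nat_lit 0) (p (nat_lit 0x60592) (nat_lit 0) (p (nat_lit 0x48512) (nat_lit 0) (p (nat_lit 0x50392) (nat_lit 0) (p (nat_lit 0x38312) (nat_lit 0) (p (nat_lit 0x40212) (nat_lit 0) (p (nat_lit 0x28192)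 (nat_lit 0) (p (nat_lit 0x30092) (nat_lit 0) (p (nat_lit 0x18012) (nat_lit 0) pn)))))))))))))))))))))) :=
  Cl.node (nat_lit 0x119) (nat_lit 2) (by decide +kernel) (ClAll.succ (ClAll.succ ClAll.zero n344) n345)

def n357 : Cl (O (nat_lit 5)) (R (nat_lit 6353))
    (p (nat_lit 0xd1) (nat_lit 1) (p (nat_lit 0x89) (nat_lit 0) (p (nat_lit 0x41) (nat_lit 0) (p (nat_lit 0x10a0b09890a9a) (nat_lit 0) (p (nat_lit 0x98a89088a1a) (nat_lit 0) (p (nat_lit 0x1090a0888079a) (nat_lit 0) (p (nat_lit 0x8898807871a) (nat_lit 0) (p (nat_lit 0x8000000000800080787088a) (nat_lit 0) (p (nat_lit 0x8000000000800078706860a) (nat_lit 0) (p (nat_lit 0x10806860782) (nat_lit 0) (p (nat_lit 0x786058702) (nat_lit 0) (p (nat_lit 0x10705850482) (nat_lit 0) (p (nat_lit 0x685048402) (nat_lit 0) (p (nat_lit 0x16000c) (nat_lit 0) (p (nat_lit 0x60592) (nat_lit 0) (p (nat_lit 0x48512) (nat_lit 0) (p (nat_lit 0x50392)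 (nat_lit 0) (p (nat_lit 0x38312) (nat_lit 0) (p (nat_lit 0x40212) (nat_lit 0) (p (nat_lit 0x28192) (nat_lit 0) (p (nat_lit 0x30092) (nat_lit 0) (p (nat_lit 0x18012) (nat_lit 0) pn)))))))))))))))))))))) :=
  Cl.node (nat_lit 0x111) (nat_lit 2) (by decide +kernel) (ClAll.succ (ClAll.succ ClAll.zero n346) n347)

def n358 : Cl (O (nat_lit 5)) (R (nat_lit 6353))
    (p (nat_lit 0xc9) (nat_lit 0) (p (nat_lit 0x89) (nat_lit 1) (p (nat_lit 0x41) (nat_lit 0) (p (nat_lit 0x10a0b09890a9a) (nat_lit 0) (p (nat_lit 0x98a89088a1a) (nat_lit 0) (p (nat_lit 0x1090a0888079a) (nat_lit 0) (p (nat_lit 0x8898807871a) (nat_lit 0) (p (nat_lit 0x8000000000800080787088a) (nat_lit 0) (p (nat_lit 0x8000000000800078706860a) (nat_lit 0) (p (nat_lit 0x10806860782) (nat_lit 0) (p (nat_lit 0x786058702) (nat_lit 0) (p (nat_lit 0x10705850482) (nat_lit 0) (p (nat_lit 0x685048402) (nat_lit 0) (p (nat_lit 0x16000c)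 (nat_lit 0) (p (nat_lit 0x60592) (nat_lit 0) (p (nat_lit 0x48512) (nat_lit 0) (p (nat_lit 0x50392) (nat_lit 0) (p (nat_lit 0x38312) (nat_lit 0) (p (nat_lit 0x40212) (nat_lit 0) (p (nat_lit 0x28192) (nat_lit 0) (p (nat_lit 0x30092) (nat_lit 0) (p (nat_lit 0x18012) (nat_lit 0) pn)))))))))))))))))))))) :=
  Cl.node (nat_lit 0x119) (nat_lit 2) (by decide +kernel) (ClAll.succ (ClAll.succ ClAll.zero n348) n349)

def n359 : Cl (O (nat_lit 5)) (R (nat_lit 6353))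
    (p (nat_lit 0xd1) (nat_lit 0) (p (nat_lit 0x81) (nat_lit 0) (p (nat_lit 0x41) (nat_lit 1) (p (nat_lit 0x10a0b09890a9a) (nat_lit 0) (p (nat_lit 0x98a89088a1a) (nat_lit 0) (p (nat_lit 0x1090a0888079a) (nat_lit 0) (p (nat_lit 0x8898807871a) (nat_lit 0) (p (nat_lit 0x8000000000800080787088a) (nat_lit 0) (p (nat_lit 0x8000000000800078706860a) (nat_lit 0) (p (nat_lit 0x10806860782) (nat_lit 0) (p (nat_lit 0x786058702) (nat_lit 0) (p (nat_lit 0x10705850482) (nat_lit 0) (p (nat_lit 0x685048402) (nat_lit 0) (p (nat_lit 0x16000c) (nat_lit 0) (p (nat_lit 0x60592) (nat_lit 0) (p (nat_lit 0x48512) (nat_lit 0) (p (nat_lit 0x50392) (nat_lit 0) (p (nat_lit 0x38312) (nat_lit 0) (p (nat_lit 0x40212) (nat_lit 0) (p (nat_lit 0x28192) (nat_lit 0) (p (nat_lit 0x30092) (nat_lit 0) (p (nat_lit 0x18012) (nat_lit 0) pn)))))))))))))))))))))) :=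
  Cl.node (nat_lit 0x119) (nat_lit 2) (by decide +kernel) (ClAll.succ (ClAll.succ ClAll.zero n350) n351)

def n360 : Cl (O (nat_lit 5)) (R (nat_lit 6353))
    (p (nat_lit 0xd1) (nat_lit 1) (p (nat_lit 0x81) (nat_lit 0) (p (nat_lit 0x41) (nat_lit 1) (p (nat_lit 0x10a0b09890a9a) (nat_lit 0) (p (nat_lit 0x98a89088a1a) (nat_lit 0) (p (nat_lit 0x1090a0888079a) (nat_lit 0) (p (nat_lit 0x8898807871a) (nat_lit 0) (p (nat_lit 0x8000000000800080787088a) (nat_lit 0) (p (nat_lit 0x8000000000800078706860a) (nat_lit 0) (p (nat_lit 0x10806860782) (nat_lit 0) (p (nat_lit 0x786058702) (nat_lit 0) (p (nat_lit 0x10705850482) (nat_lit 0) (p (nat_lit 0x685048402) (nat_lit 0) (p (nat_lit 0x16000c) (nat_lit 0) (p (nat_lit 0x60592) (nat_lit 0) (p (nat_lit 0x48512) (nat_lit 0) (p (nat_lit 0x50392) (nat_lit 0) (p (nat_lit 0x38312) (nat_lit 0) (p (nat_lit 0x40212) (nat_lit 0) (p (nat_lit 0x28192)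 (nat_lit 0) (p (nat_lit 0x30092) (nat_lit 0) (p (nat_lit 0x18012) (nat_lit 0) pn)))))))))))))))))))))) :=
  Cl.node (nat_lit 0x111) (nat_lit 2) (by decide +kernel) (ClAll.succ (ClAll.succ ClAll.zero n352) n353)

def n361 : Cl (O (nat_lit 5)) (R (nat_lit 6353))
    (p (nat_lit 0xc1) (nat_lit 0) (p (nat_lit 0x81) (nat_lit 1) (p (nat_lit 0x41) (nat_lit 1) (p (nat_lit 0x10a0b09890a9a) (nat_lit 0) (p (nat_lit 0x98a89088a1a) (nat_lit 0) (p (nat_lit 0x1090a0888079a) (nat_lit 0) (p (nat_lit 0x8898807871a) (nat_lit 0) (p (nat_lit 0x8000000000800080787088a) (nat_lit 0) (p (nat_lit 0x8000000000800078706860a) (nat_lit 0) (p (nat_lit 0x10806860782) (nat_lit 0) (p (nat_lit 0x786058702) (nat_lit 0) (p (nat_lit 0x10705850482) (nat_lit 0) (p (nat_lit 0x685048402) (nat_lit 0) (p (nat_lit 0x16000c) (nat_lit 0) (p (nat_lit 0x60592) (nat_lit 0) (p (nat_lit 0x48512) (nat_lit 0) (p (nat_lit 0x50392)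 (nat_lit 0) (p (nat_lit 0x38312) (nat_lit 0) (p (nat_lit 0x40212) (nat_lit 0) (p (nat_lit 0x28192) (nat_lit 0) (p (nat_lit 0x30092) (nat_lit 0) (p (nat_lit 0x18012) (nat_lit 0) pn)))))))))))))))))))))) :=
  Cl.node (nat_lit 0x119) (nat_lit 2) (by decide +kernel) (ClAll.succ (ClAll.succ ClAll.zero n354) n355)

def n362 : Cl (O (nat_lit 5)) (R (nat_lit 6353))
    (p (nat_lit 0x89) (nat_lit 0) (p (nat_lit 0x41) (nat_lit 0) (p (nat_lit 0x10a0b09890a9a) (nat_lit 0) (p (nat_lit 0x98a89088a1a) (nat_lit 0) (p (nat_lit 0x1090a0888079a) (nat_lit 0) (p (nat_lit 0x8898807871a) (nat_lit 0) (p (nat_lit 0x8000000000800080787088a) (nat_lit 0) (p (nat_lit 0x8000000000800078706860a) (nat_lit 0) (p (nat_lit 0x10806860782) (nat_lit 0) (p (nat_lit 0x786058702) (nat_lit 0) (p (nat_lit 0x10705850482) (nat_lit 0) (p (nat_lit 0x685048402) (nat_lit 0) (p (nat_lit 0x16000c) (nat_lit 0) (p (nat_lit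 0x60592) (nat_lit 0) (p (nat_lit 0x48512) (nat_lit 0) (p (nat_lit 0x50392) (nat_lit 0) (p (nat_lit 0x38312) (nat_lit 0) (p (nat_lit 0x40212) (nat_lit 0) (p (nat_lit 0x28192) (nat_lit 0) (p (nat_lit 0x30092) (nat_lit 0) (p (nat_lit 0x18012) (nat_lit 0) pn))))))))))))))))))))) :=
  Cl.node (nat_lit 0xd1) (nat_lit 2) (by decide +kernel) (ClAll.succ (ClAll.succ ClAll.zero n356) n357)

def n363 : Cl (O (nat_lit 5)) (R (nat_lit 6353))
    (p (nat_lit 0x89) (nat_lit 1) (p (nat_lit 0x41) (nat_lit 0) (p (nat_lit 0x10a0b09890a9a) (nat_lit 0) (p (nat_lit 0x98a89088a1a) (nat_lit 0) (p (nat_lit 0x1090a0888079a) (nat_lit 0) (p (nat_lit 0x8898807871a) (nat_lit 0) (p (nat_lit 0x8000000000800080787088a) (nat_lit 0) (p (nat_lit 0x8000000000800078706860a) (nat_lit 0) (p (nat_lit 0x10806860782) (nat_lit 0) (p (nat_lit 0x786058702) (nat_lit 0) (p (nat_lit 0x10705850482) (nat_lit 0) (p (nat_lit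 0x685048402) (nat_lit 0) (p (nat_lit 0x16000c) (nat_lit 0) (p (nat_lit 0x60592) (nat_lit 0) (p (nat_lit 0x48512) (nat_lit 0) (p (nat_lit 0x50392) (nat_lit 0) (p (nat_lit 0x38312) (nat_lit 0) (p (nat_lit 0x40212) (nat_lit 0) (p (nat_lit 0x28192) (nat_lit 0) (p (nat_lit 0x30092) (nat_lit 0) (p (nat_lit 0x18012) (nat_lit 0) pn))))))))))))))))))))) :=
  Cl.node (nat_lit 0xc9) (nat_lit 2) (by decide +kernel) (ClAll.succ (ClAll.succ ClAll.zero n358) s90)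

def n364 : Cl (O (nat_lit 5)) (R (nat_lit 6353))
    (p (nat_lit 0x81) (nat_lit 0) (p (nat_lit 0x41) (nat_lit 1) (p (nat_lit 0x10a0b09890a9a) (nat_lit 0) (p (nat_lit 0x98a89088a1a) (nat_lit 0) (p (nat_lit 0x1090a0888079a) (nat_lit 0) (p (nat_lit 0x8898807871a) (nat_lit 0) (p (nat_lit 0x8000000000800080787088a) (nat_lit 0) (p (nat_lit 0x8000000000800078706860a) (nat_lit 0) (p (nat_lit 0x10806860782) (nat_lit 0) (p (nat_lit 0x786058702) (nat_lit 0) (p (nat_lit 0x10705850482) (nat_lit 0) (p (nat_lit 0x685048402) (nat_lit 0) (p (nat_lit 0x16000c) (nat_lit 0) (p (nat_lit 0x60592) (nat_lit 0) (p (nat_lit 0x48512) (nat_lit 0) (p (nat_lit 0x50392) (nat_lit 0) (p (nat_lit 0x38312) (nat_lit 0) (p (nat_lit 0x40212) (nat_lit 0) (p (nat_lit 0x28192) (nat_lit 0) (p (nat_lit 0x30092) (nat_lit 0) (p (nat_lit 0x18012) (nat_lit 0) pn))))))))))))))))))))) :=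
  Cl.node (nat_lit 0xd1) (nat_lit 2) (by decide +kernel) (ClAll.succ (ClAll.succ ClAll.zero n359) n360)

def n365 : Cl (O (nat_lit 5)) (R (nat_lit 6353))
    (p (nat_lit 0x81) (nat_lit 1) (p (nat_lit 0x41) (nat_lit 1) (p (nat_lit 0x10a0b09890a9a) (nat_lit 0) (p (nat_lit 0x98a89088a1a) (nat_lit 0) (p (nat_lit 0x1090a0888079a) (nat_lit 0) (p (nat_lit 0x8898807871a) (nat_lit 0) (p (nat_lit 0x8000000000800080787088a) (nat_lit 0) (p (nat_lit 0x8000000000800078706860a) (nat_lit 0) (p (nat_lit 0x10806860782) (nat_lit 0) (p (nat_lit 0x786058702) (nat_lit 0) (p (nat_lit 0x10705850482) (nat_lit 0) (p (nat_lit 0x685048402) (nat_lit 0) (p (nat_lit 0x16000c) (nat_lit 0) (p (nat_lit 0x60592) (nat_lit 0) (p (nat_lit 0x48512) (nat_lit 0) (p (nat_lit 0x50392) (nat_lit 0) (p (nat_lit 0x38312) (nat_lit 0) (p (nat_lit 0x40212) (nat_lit 0) (p (nat_lit 0x28192) (nat_lit 0) (p (nat_lit 0x30092)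 (nat_lit 0) (p (nat_lit 0x18012) (nat_lit 0) pn))))))))))))))))))))) :=
  Cl.node (nat_lit 0xc1) (nat_lit 2) (by decide +kernel) (ClAll.succ (ClAll.succ ClAll.zero n361) s237)

def n366 : Cl (O (nat_lit 5)) (R (nat_lit 6353))
    (p (nat_lit 0x41) (nat_lit 0) (p (nat_lit 0x10a0b09890a9a) (nat_lit 0) (p (nat_lit 0x98a89088a1a) (nat_lit 0) (p (nat_lit 0x1090a0888079a) (nat_lit 0) (p (nat_lit 0x8898807871a) (nat_lit 0) (p (nat_lit 0x8000000000800080787088a) (nat_lit 0) (p (nat_lit 0x8000000000800078706860a) (nat_lit 0) (p (nat_lit 0x10806860782) (nat_lit 0) (p (nat_lit 0x786058702) (nat_lit 0) (p (nat_lit 0x10705850482) (nat_lit 0) (p (nat_lit 0x685048402) (nat_lit 0) (p (nat_lit 0x16000c) (nat_lit 0) (p (nat_lit 0x60592) (nat_lit 0) (p (nat_lit 0x48512) (nat_lit 0) (p (nat_lit 0x50392) (nat_lit 0) (p (nat_lit 0x38312) (nat_lit 0) (p (nat_lit 0x40212) (nat_lit 0) (p (nat_lit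 0x28192) (nat_lit 0) (p (nat_lit 0x30092) (nat_lit 0) (p (nat_lit 0x18012) (nat_lit 0) pn)))))))))))))))))))) :=
  Cl.node (nat_lit 0x89) (nat_lit 2) (by decide +kernel) (ClAll.succ (ClAll.succ ClAll.zero n362) n363)

def n367 : Cl (O (nat_lit 5)) (R (nat_lit 6353))
    (p (nat_lit 0x41) (nat_lit 1) (p (nat_lit 0x10a0b09890a9a) (nat_lit 0) (p (nat_lit 0x98a89088a1a) (nat_lit 0) (p (nat_lit 0x1090a0888079a) (nat_lit 0) (p (nat_lit 0x8898807871a) (nat_lit 0) (p (nat_lit 0x8000000000800080787088a) (nat_lit 0) (p (nat_lit 0x8000000000800078706860a) (nat_lit 0) (p (nat_lit 0x10806860782) (nat_lit 0) (p (nat_lit 0x786058702) (nat_lit 0) (p (nat_lit 0x10705850482) (nat_lit 0) (p (nat_lit 0x685048402) (nat_lit 0) (p (nat_lit 0x16000c) (nat_lit 0) (p (nat_lit 0x60592) (nat_lit 0) (p (nat_lit 0x48512) (nat_lit 0) (p (nat_lit 0x50392) (nat_lit 0) (p (nat_lit 0x38312) (nat_lit 0) (p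 (nat_lit 0x40212) (nat_lit 0) (p (nat_lit 0x28192) (nat_lit 0) (p (nat_lit 0x30092) (nat_lit 0) (p (nat_lit 0x18012) (nat_lit 0) pn)))))))))))))))))))) :=
  Cl.node (nat_lit 0x81) (nat_lit 2) (by decide +kernel) (ClAll.succ (ClAll.succ ClAll.zero n364) n365)

def n368 : Cl (O (nat_lit 5)) (R (nat_lit 6353))
    (p (nat_lit 0x10a0b09890a9a) (nat_lit 0) (p (nat_lit 0x98a89088a1a) (nat_lit 0) (p (nat_lit 0x1090a0888079a) (nat_lit 0) (p (nat_lit 0x8898807871a) (nat_lit 0) (p (nat_lit 0x8000000000800080787088a) (nat_lit 0) (p (nat_lit 0x8000000000800078706860a) (nat_lit 0) (p (nat_lit 0x10806860782) (nat_lit 0) (p (nat_lit 0x786058702) (nat_lit 0) (p (nat_lit 0x10705850482) (nat_lit 0) (p (nat_lit 0x685048402) (nat_lit 0) (p (nat_lit 0x16000c) (nat_lit 0) (p (nat_lit 0x60592) (nat_lit 0) (p (nat_lit 0x48512) (nat_lit 0) (p (nat_lit 0x50392) (nat_lit 0) (p (nat_lit 0x38312) (nat_lit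 0) (p (nat_lit 0x40212) (nat_lit 0) (p (nat_lit 0x28192) (nat_lit 0) (p (nat_lit 0x30092) (nat_lit 0) (p (nat_lit 0x18012) (nat_lit 0) pn))))))))))))))))))) :=
  Cl.node (nat_lit 0x41) (nat_lit 2) (by decide +kernel) (ClAll.succ (ClAll.succ ClAll.zero n366) n367)

def n369 : Cl (O (nat_lit 5)) (R (nat_lit 6353))
    (p (nat_lit 0x98a89088a1a) (nat_lit 0) (p (nat_lit 0x1090a0888079a) (nat_lit 0) (p (nat_lit 0x8898807871a) (nat_lit 0) (p (nat_lit 0x8000000000800080787088a) (nat_lit 0) (p (nat_lit 0x8000000000800078706860a) (nat_lit 0) (p (nat_lit 0x10806860782) (nat_lit 0) (p (nat_lit 0x786058702) (nat_lit 0) (p (nat_lit 0x10705850482) (nat_lit 0) (p (nat_lit 0x685048402) (nat_lit 0) (p (nat_lit 0x16000c) (nat_lit 0) (p (nat_lit 0x60592) (nat_lit 0) (p (nat_lit 0x48512) (nat_lit 0) (p (nat_lit 0x50392) (nat_lit 0) (p (nat_lit 0x38312) (nat_lit 0) (p (nat_lit 0x40212) (nat_lit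 0) (p (nat_lit 0x28192) (nat_lit 0) (p (nat_lit 0x30092) (nat_lit 0) (p (nat_lit 0x18012) (nat_lit 0) pn)))))))))))))))))) :=
  Cl.node (nat_lit 0x10a0b09890a9a) (nat_lit 1) (by decide +kernel) (ClAll.succ ClAll.zero n368)

def n370 : Cl (O (nat_lit 5)) (R (nat_lit 6353))
    (p (nat_lit 0x1090a0888079a) (nat_lit 0) (p (nat_lit 0x8898807871a) (nat_lit 0) (p (nat_lit 0x8000000000800080787088a) (nat_lit 0) (p (nat_lit 0x8000000000800078706860a) (nat_lit 0) (p (nat_lit 0x10806860782) (nat_lit 0) (p (nat_lit 0x786058702) (nat_lit 0) (p (nat_lit 0x10705850482) (nat_lit 0) (p (nat_lit 0x685048402) (nat_lit 0) (p (nat_lit 0x16000c) (nat_lit 0) (p (nat_lit 0x60592) (nat_lit 0) (p (nat_lit 0x48512) (nat_lit 0) (p (nat_lit 0x50392) (nat_lit 0) (p (nat_lit 0x38312) (nat_lit 0) (p (nat_lit 0x40212) (nat_lit 0) (p (nat_lit 0x28192) (nat_lit 0) (p (nat_lit 0x30092) (nat_lit 0) (p (nat_lit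 0x18012) (nat_lit 0) pn))))))))))))))))) :=
  Cl.node (nat_lit 0x98a89088a1a) (nat_lit 1) (by decide +kernel) (ClAll.succ ClAll.zero n369)

def n371 : Cl (O (nat_lit 5)) (R (nat_lit 6353))
    (p (nat_lit 0x8898807871a) (nat_lit 0) (p (nat_lit 0x8000000000800080787088a) (nat_lit 0) (p (nat_lit 0x8000000000800078706860a) (nat_lit 0) (p (nat_lit 0x10806860782) (nat_lit 0) (p (nat_lit 0x786058702) (nat_lit 0) (p (nat_lit 0x10705850482) (nat_lit 0) (p (nat_lit 0x685048402) (nat_lit 0) (p (nat_lit 0x16000c) (nat_lit 0) (p (nat_lit 0x60592) (nat_lit 0) (p (nat_lit 0x48512) (nat_lit 0) (p (nat_lit 0x50392) (nat_lit 0) (p (nat_lit 0x38312) (nat_lit 0) (p (nat_lit 0x40212) (nat_lit 0) (p (nat_lit 0x28192) (nat_lit 0) (p (nat_lit 0x30092) (nat_lit 0) (p (nat_lit 0x18012) (nat_lit 0) pn)))))))))))))))) :=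
  Cl.node (nat_lit 0x1090a0888079a) (nat_lit 1) (by decide +kernel) (ClAll.succ ClAll.zero n370)

def n372 : Cl (O (nat_lit 5)) (R (nat_lit 6353))
    (p (nat_lit 0x8000000000800080787088a) (nat_lit 0) (p (nat_lit 0x8000000000800078706860a) (nat_lit 0) (p (nat_lit 0x10806860782) (nat_lit 0) (p (nat_lit 0x786058702) (nat_lit 0) (p (nat_lit 0x10705850482) (nat_lit 0) (p (nat_lit 0x685048402) (nat_lit 0) (p (nat_lit 0x16000c) (nat_lit 0) (p (nat_lit 0x60592) (nat_lit 0) (p (nat_lit 0x48512) (nat_lit 0) (p (nat_lit 0x50392) (nat_lit 0) (p (nat_lit 0x38312) (nat_lit 0) (p (nat_lit 0x40212) (nat_lit 0) (p (nat_lit 0x28192) (nat_lit 0) (p (nat_lit 0x30092) (nat_lit 0) (p (nat_lit 0x18012) (nat_lit 0) pn))))))))))))))) :=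
  Cl.node (nat_lit 0x8898807871a) (nat_lit 1) (by decide +kernel) (ClAll.succ ClAll.zero n371)

def n373 : Cl (O (nat_lit 5)) (R (nat_lit 6353))
    (p (nat_lit 0x8000000000800078706860a) (nat_lit 0) (p (nat_lit 0x10806860782) (nat_lit 0) (p (nat_lit 0x786058702) (nat_lit 0) (p (nat_lit 0x10705850482) (nat_lit 0) (p (nat_lit 0x685048402) (nat_lit 0) (p (nat_lit 0x16000c) (nat_lit 0) (p (nat_lit 0x60592) (nat_lit 0) (p (nat_lit 0x48512) (nat_lit 0) (p (nat_lit 0x50392) (nat_lit 0) (p (nat_lit 0x38312) (nat_lit 0) (p (nat_lit 0x40212) (nat_lit 0) (p (nat_lit 0x28192) (nat_lit 0) (p (nat_lit 0x30092) (nat_lit 0) (p (nat_lit 0x18012) (nat_lit 0) pn)))))))))))))) :=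
  Cl.node (nat_lit 0x8000000000800080787088a) (nat_lit 1) (by decide +kernel) (ClAll.succ ClAll.zero n372)

def n374 : Cl (O (nat_lit 5)) (R (nat_lit 6353))
    (p (nat_lit 0x10806860782) (nat_lit 0) (p (nat_lit 0x786058702) (nat_lit 0) (p (nat_lit 0x10705850482) (nat_lit 0) (p (nat_lit 0x685048402) (nat_lit 0) (p (nat_lit 0x16000c) (nat_lit 0) (p (nat_lit 0x60592) (nat_lit 0) (p (nat_lit 0x48512) (nat_lit 0) (p (nat_lit 0x50392) (nat_lit 0) (p (nat_lit 0x38312) (nat_lit 0) (p (nat_lit 0x40212) (nat_lit 0) (p (nat_lit 0x28192) (nat_lit 0) (p (nat_lit 0x30092) (nat_lit 0) (p (nat_lit 0x18012) (nat_lit 0) pn))))))))))))) :=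
  Cl.node (nat_lit 0x8000000000800078706860a) (nat_lit 1) (by decide +kernel) (ClAll.succ ClAll.zero n373)

def n375 : Cl (O (nat_lit 5)) (R (nat_lit 6353))
    (p (nat_lit 0x786058702) (nat_lit 0) (p (nat_lit 0x10705850482) (nat_lit 0) (p (nat_lit 0x685048402) (nat_lit 0) (p (nat_lit 0x16000c) (nat_lit 0) (p (nat_lit 0x60592) (nat_lit 0) (p (nat_lit 0x48512) (nat_lit 0) (p (nat_lit 0x50392) (nat_lit 0) (p (nat_lit 0x38312) (nat_lit 0) (p (nat_lit 0x40212) (nat_lit 0) (p (nat_lit 0x28192) (nat_lit 0) (p (nat_lit 0x30092) (nat_lit 0) (p (nat_lit 0x18012) (nat_lit 0) pn)))))))))))) :=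
  Cl.node (nat_lit 0x10806860782) (nat_lit 1) (by decide +kernel) (ClAll.succ ClAll.zero n374)

def n376 : Cl (O (nat_lit 5)) (R (nat_lit 6353))
    (p (nat_lit 0x10705850482) (nat_lit 0) (p (nat_lit 0x685048402) (nat_lit 0) (p (nat_lit 0x16000c) (nat_lit 0) (p (nat_lit 0x60592) (nat_lit 0) (p (nat_lit 0x48512) (nat_lit 0) (p (nat_lit 0x50392) (nat_lit 0) (p (nat_lit 0x38312) (nat_lit 0) (p (nat_lit 0x40212) (nat_lit 0) (p (nat_lit 0x28192) (nat_lit 0) (p (nat_lit 0x30092) (nat_lit 0) (p (nat_lit 0x18012) (nat_lit 0) pn))))))))))) :=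
  Cl.node (nat_lit 0x786058702) (nat_lit 1) (by decide +kernel) (ClAll.succ ClAll.zero n375)

def n377 : Cl (O (nat_lit 5)) (R (nat_lit 6353))
    (p (nat_lit 0x685048402) (nat_lit 0) (p (nat_lit 0x16000c) (nat_lit 0) (p (nat_lit 0x60592) (nat_lit 0) (p (nat_lit 0x48512) (nat_lit 0) (p (nat_lit 0x50392) (nat_lit 0) (p (nat_lit 0x38312) (nat_lit 0) (p (nat_lit 0x40212) (nat_lit 0) (p (nat_lit 0x28192) (nat_lit 0) (p (nat_lit 0x30092) (nat_lit 0) (p (nat_lit 0x18012) (nat_lit 0) pn)))))))))) :=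
  Cl.node (nat_lit 0x10705850482) (nat_lit 1) (by decide +kernel) (ClAll.succ ClAll.zero n376)

def n378 : Cl (O (nat_lit 5)) (R (nat_lit 6353))
    (p (nat_lit 0x16000c) (nat_lit 0) (p (nat_lit 0x60592) (nat_lit 0) (p (nat_lit 0x48512) (nat_lit 0) (p (nat_lit 0x50392) (nat_lit 0) (p (nat_lit 0x38312) (nat_lit 0) (p (nat_lit 0x40212) (nat_lit 0) (p (nat_lit 0x28192) (nat_lit 0) (p (nat_lit 0x30092) (nat_lit 0) (p (nat_lit 0x18012) (nat_lit 0) pn))))))))) :=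
  Cl.node (nat_lit 0x685048402) (nat_lit 1) (by decide +kernel) (ClAll.succ ClAll.zero n377)

def n379 : Cl (O (nat_lit 5)) (R (nat_lit 6353))
    (p (nat_lit 0x60592) (nat_lit 0) (p (nat_lit 0x48512) (nat_lit 0) (p (nat_lit 0x50392) (nat_lit 0) (p (nat_lit 0x38312) (nat_lit 0) (p (nat_lit 0x40212) (nat_lit 0) (p (nat_lit 0x28192) (nat_lit 0) (p (nat_lit 0x30092) (nat_lit 0) (p (nat_lit 0x18012) (nat_lit 0) pn)))))))) :=
  Cl.node (nat_lit 0x16000c) (nat_lit 2) (by decide +kernel) (ClAll.succ (ClAll.succ ClAll.zero n378) s238)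

def n380 : Cl (O (nat_lit 5)) (R (nat_lit 6353))
    (p (nat_lit 0x48512) (nat_lit 0) (p (nat_lit 0x50392) (nat_lit 0) (p (nat_lit 0x38312) (nat_lit 0) (p (nat_lit 0x40212) (nat_lit 0) (p (nat_lit 0x28192) (nat_lit 0) (p (nat_lit 0x30092) (nat_lit 0) (p (nat_lit 0x18012) (nat_lit 0) pn))))))) :=
  Cl.node (nat_lit 0x60592) (nat_lit 1) (by decide +kernel) (ClAll.succ ClAll.zero n379)

def n381 : Cl (O (nat_lit 5)) (R (nat_lit 6353))
    (p (nat_lit 0x50392) (nat_lit 0) (p (nat_lit 0x38312) (nat_lit 0) (p (nat_lit 0x40212) (nat_lit 0) (p (nat_lit 0x28192) (nat_lit 0) (p (nat_lit 0x30092) (nat_lit 0) (p (nat_lit 0x18012) (nat_lit 0) pn)))))) :=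
  Cl.node (nat_lit 0x48512) (nat_lit 1) (by decide +kernel) (ClAll.succ ClAll.zero n380)

def n382 : Cl (O (nat_lit 5)) (R (nat_lit 6353))
    (p (nat_lit 0x38312) (nat_lit 0) (p (nat_lit 0x40212) (nat_lit 0) (p (nat_lit 0x28192) (nat_lit 0) (p (nat_lit 0x30092) (nat_lit 0) (p (nat_lit 0x18012) (nat_lit 0) pn))))) :=
  Cl.node (nat_lit 0x50392) (nat_lit 1) (by decide +kernel) (ClAll.succ ClAll.zero n381)

def n383 : Cl (O (nat_lit 5)) (R (nat_lit 6353))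
    (p (nat_lit 0x40212) (nat_lit 0) (p (nat_lit 0x28192) (nat_lit 0) (p (nat_lit 0x30092) (nat_lit 0) (p (nat_lit 0x18012) (nat_lit 0) pn)))) :=
  Cl.node (nat_lit 0x38312) (nat_lit 1) (by decide +kernel) (ClAll.succ ClAll.zero n382)

def n384 : Cl (O (nat_lit 5)) (R (nat_lit 6353))
    (p (nat_lit 0x28192) (nat_lit 0) (p (nat_lit 0x30092) (nat_lit 0) (p (nat_lit 0x18012) (nat_lit 0) pn))) :=
  Cl.node (nat_lit 0x40212) (nat_lit 1) (by decide +kernel) (ClAll.succ ClAll.zero n383)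

def n385 : Cl (O (nat_lit 5)) (R (nat_lit 6353))
    (p (nat_lit 0x30092) (nat_lit 0) (p (nat_lit 0x18012) (nat_lit 0) pn)) :=
  Cl.node (nat_lit 0x28192) (nat_lit 1) (by decide +kernel) (ClAll.succ ClAll.zero n384)

def n386 : Cl (O (nat_lit 5)) (R (nat_lit 6353))
    (p (nat_lit 0x18012) (nat_lit 0) pn) :=
  Cl.node (nat_lit 0x30092) (nat_lit 1) (by decide +kernel) (ClAll.succ ClAll.zero n385)

def n387 : Cl (O (nat_lit 5)) (R (nat_lit 6353))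
    pn :=
  Cl.node (nat_lit 0x18012) (nat_lit 1) (by decide +kernel) (ClAll.succ ClAll.zero n386)

theorem top : Cl (O (nat_lit 5)) (R (nat_lit 6353)) pn := n387

end Pool.Agent.Gen.F5.X123D1Cm5
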